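import Pool.Agent.Lib.MP_391708_nt.QPA.H.SpecH
import Pool.Agent.Lib.MP_391708_nt.QPA.BLKK

/-!
# QPA phase 3, module BLKE: the block theorem for products of `k` primes
-/

set_option autoImplicit false

namespace Pool.Agent.Lib.MP391708.QPA.H

open Finset Filter Topology
open Pool.Agent.Lib.MP391708.QPA
open scoped Classical

namespace BLKEM

open BLK

/-! ### critical exponents -/

theorem sum_crit_le (α β x₀ : ℝ) (f : ℝ → ℝ) (M : ℝ) (hM0 : 0 ≤ M)
    (h : ∀ x ∈ critE α β x₀, f x ≤ M) : ∑ x ∈ critE α β x₀, f x ≤ 5 * M := by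
  calc ∑ x ∈ critE α β x₀, f x ≤ ∑ x ∈ critE α β x₀, M := Finset.sum_le_sum h
    _ = (critE α β x₀).card * M := by rw [Finset.sum_const, nsmul_eq_mul]
    _ ≤ 5 * M := by
        apply mul_le_mul_of_nonneg_right _ hM0
        have : (critE α β x₀).card ≤ 3 := by
          unfold critE
          exact (Finset.card_le_three)
        have : ((critE α β x₀).card : ℝ) ≤ 3 := by exact_mod_cast this
        linarith

theorem crit_range {α β x₀ : ℝ} (hk1 : 2 / 3 ≤ α) (hab : α < β) (hk2 : β ≤ 1) (h1 : 1 / 2 ≤ x₀)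
    (h2 : x₀ ≤ 5 / 4) {x : ℝ} (hx : x ∈ critE α β x₀) : 1 / 2 ≤ x ∧ x ≤ 3 / 2 := by
  unfold critE at hx
  simp only [Finset.mem_insert, Finset.mem_singleton] at hx
  rcases hx with rfl | rfl | rfl <;> constructor <;> linarith

theorem nearA_of_good {α β : ℝ} {N A : ℕ} {e2 e : ℝ} {c c₁ : Multiset ℕ}
    (h : GoodE e2 e α β (Real.logb N A) c) (hc : c₁ ≤ c) : NearA N A e2 e c₁ := by
  intro s hs hs0
  exact h s (hs.trans hc) hs0 _ (by unfold critE; simp)

theorem midK_of_midE {e2 e α β : ℝ} {c₁ : Multiset ℕ} (hβ : β ≤ 1) (h : MidE e2 e α β c₁) :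
    MidK α e2 e c₁ := ⟨h.1, h.2.trans (by linarith)⟩

/-! ### the range of `A` -/

theorem adm_ev (θ : ℝ) (hθ : 1 / 2 < θ) : ∀ᶠ N : ℕ in atTop, ∀ A : ℕ, Adm θ N A →
    2 ≤ N ∧ 1 / 2 ≤ Real.logb N A ∧ Real.logb N A ≤ 5 / 4 ∧ (A : ℝ) ≤ (N : ℝ) ^ 2 / 2 := by
  have h1 : ∀ᶠ x : ℝ in atTop, Real.log x ≤ x ^ (1 / 4 : ℝ) := by
    have := (isLittleO_log_rpow_atTop (by norm_num : (0 : ℝ) < 1 / 4)).bound one_pos
    filter_upwards [this, eventually_ge_atTop (1 : ℝ)] with x hx hx1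
    rw [one_mul, Real.norm_of_nonneg (Real.log_nonneg hx1),
      Real.norm_of_nonneg (Real.rpow_nonneg (by linarith) _)] at hx
    exact hx
  have h2 := tendsto_natCast_atTop_atTop (R := ℝ).eventually h1
  filter_upwards [h2, eventually_ge_atTop 16] with N hN hN16 A hA
  have hN2 : (16 : ℝ) ≤ N := by exact_mod_cast hN16
  have hN0 : (0 : ℝ) < N := by linarith
  have hN1 : (1 : ℝ) < N := by linarith
  obtain ⟨hA1, hA2⟩ := hA
  have hA0 : (0 : ℝ) < A := (Real.rpow_pos_of_pos hN0 _).trans_le hA1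
  have hlog : 0 < Real.log N := Real.log_pos hN1
  refine ⟨by omega, ?_, ?_, ?_⟩
  · rw [Real.le_logb_iff_rpow_le hN1 hA0]
    exact (Real.rpow_le_rpow_of_exponent_le hN1.le (by linarith)).trans hA1
  · rw [Real.logb_le_iff_le_rpow hN1 hA0]
    refine hA2.trans ?_
    calc (N : ℝ) * Real.log N ≤ N * (N : ℝ) ^ (1 / 4 : ℝ) :=
          mul_le_mul_of_nonneg_left hN hN0.le
      _ = (N : ℝ) ^ (5 / 4 : ℝ) := by
          nth_rewrite 1 [← Real.rpow_one (N : ℝ)]
          rw [← Real.rpow_add hN0]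
          norm_num
  · refine hA2.trans ?_
    have h3 : (N : ℝ) ^ (1 / 4 : ℝ) ≤ N / 2 := by
      have h4 : (N : ℝ) ^ (1 / 4 : ℝ) ≤ (N : ℝ) ^ (1 / 2 : ℝ) :=
        Real.rpow_le_rpow_of_exponent_le hN1.le (by norm_num)
      rw [← Real.sqrt_eq_rpow] at h4
      have h5 : √(N : ℝ) ≤ N / 2 := by
        rw [Real.sqrt_le_left (by linarith)]
        nlinarith
      linarith
    nlinarith

theorem adm_large (θ : ℝ) (hθ : 1 / 2 < θ) (M : ℕ) : ∀ᶠ N : ℕ in atTop, ∀ A : ℕ, Adm θ N A →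
    M ≤ A := by
  have h1 : Tendsto (fun N : ℕ => (N : ℝ) ^ θ) atTop atTop :=
    (tendsto_rpow_atTop (by linarith)).comp tendsto_natCast_atTop_atTop
  filter_upwards [h1.eventually_ge_atTop (M : ℝ)] with N hN A hA
  exact_mod_cast hN.trans hA.1

noncomputable section

/-- the error function -/
def errE (N : ℕ) (e0 e C α β x₀ : ℝ) (m : ℕ) : ℝ :=
  C * (nsq N e0 m + ∑ x ∈ critE α β x₀, win N e0 x (2 * e) m)

theorem cnt_errE (N : ℕ) (a : ℤ) (e0 e C α β x₀ : ℝ) :
    cnt N a (errE N e0 e C α β x₀)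
      = C * (cnt N a (nsq N e0) + ∑ x ∈ critE α β x₀, cnt N a (win N e0 x (2 * e))) := by
  unfold errE
  rw [cnt_smul, cnt_add, cnt_sum]

theorem model_errE (N : ℕ) (e0 e C α β x₀ : ℝ) :
    model N (errE N e0 e C α β x₀)
      = C * (model N (nsq N e0) + ∑ x ∈ critE α β x₀, model N (win N e0 x (2 * e))) := by
  unfold errE
  rw [model_smul, model_add, model_sum]

theorem cnt_zero (N : ℕ) (a : ℤ) : cnt N a (fun _ => 0) = 0 := by
  unfold cnt; simp

theorem model_zero (N : ℕ) : model N (fun _ => 0) = 0 := by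
  unfold model; simp

end

end BLKEM

open BLK BLKEM in
theorem specBLKE (hT2 : SpecT2E) (hTII : SpecTIIH) (hWIN : SpecWINH)
    (hWINM : SpecWINM) (hNSF : SpecNSFH) (hNSFM : SpecNSFM) (hGmean : SpecGMEAN)
    (hGmax : SpecGMAX) : SpecBLKE := by
  intro k θ e0 α₀ β ε hθ he0p he0u hα23 hθα hαβ hβ1 hε
  obtain ⟨C, hC, hT2⟩ := hT2 k e0 α₀ β he0p he0u (by linarith) hαβ hβ1
  obtain ⟨CW, hCW, hWIN⟩ := hWIN θ hθ
  obtain ⟨CM, hCM, hWINM⟩ := hWINM
  set D : ℝ := C * 5 * (CW + 3 * CM) * 2 / e0 ^ 2 with hD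
  have hD0 : 0 < D := by positivity
  set e : ℝ := min (1 / 40) (ε ^ 2 / (24 * D)) with he
  have hep : 0 < e := lt_min (by norm_num) (by positivity)
  have heu : e ≤ 1 / 40 := min_le_left _ _
  have heD : D * e ≤ ε ^ 2 / 24 := by
    calc D * e ≤ D * (ε ^ 2 / (24 * D)) := mul_le_mul_of_nonneg_left (min_le_right _ _) hD0.le
      _ = ε ^ 2 / 24 := by field_simp
  set κ : ℝ := ε ^ 2 / (96 * C) with hκ
  have hκ0 : 0 < κ := by positivity
  obtain ⟨Q, hQ, T, t, hTQ, htC, N2, hT2⟩ := hT2 e hep heu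
  set ϖ : ℝ := ε ^ 2 / (12 * (T.card + 1) * C) with hϖ
  have hϖ0 : 0 < ϖ := by positivity
  -- the Type II sums
  have hII : ∀ c ∈ T, ∀ᶠ w : ℕ in atTop, ∀ᶠ N : ℕ in atTop, ∀ A : ℕ, Adm θ N A →
      GoodE (e0 / Q) e α₀ β (Real.logb N A) c → (∃ c₁ : Multiset ℕ, c₁ ≤ c ∧ MidE (e0 / Q) e α₀ β c₁) →
      ∑ a ∈ IA A, |cnt N a (fun m => FF N (e0 / Q) c m)
        - Gw w a * model N (fun m => FF N (e0 / Q) c m)| ≤ ϖ * A * N / Real.log N := by
    intro c hc
    by_cases H : ∃ c₁ : Multiset ℕ, c₁ ≤ c ∧ MidE (e0 / Q) e α₀ β c₁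
    · obtain ⟨c₁, hc1, hmid⟩ := H
      have hq1 : ∀ i ∈ c₁, Q ≤ i := fun i hi => hTQ c hc i (Multiset.mem_of_le hc1 hi)
      have hq2 : ∀ i ∈ c - c₁, Q ≤ i := fun i hi =>
        hTQ c hc i (Multiset.mem_of_le (Multiset.sub_le_self c c₁) hi)
      obtain ⟨w₀, hw⟩ := hTII θ α₀ e e0 ϖ Q c₁ (c - c₁) hθ hα23 hθα hep he0p he0u hϖ0 hQ hq1 hq2
        (BLKEM.midK_of_midE hβ1 hmid)
      have hcc : c₁ + (c - c₁) = c := by
        rw [add_comm]
        exact Multiset.sub_add_cancel hc1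
      rw [hcc] at hw
      refine eventually_atTop.2 ⟨w₀, fun w hww => ?_⟩
      obtain ⟨N₀, hN⟩ := hw w hww
      refine eventually_atTop.2 ⟨N₀, fun N hNN A hA hgood _ => ?_⟩
      exact hN N A hNN hA (BLKEM.nearA_of_good hgood hc1)
    · exact Eventually.of_forall (fun w => Eventually.of_forall (fun N A _ _ h => absurd h H))
  have hII' : ∀ᶠ w : ℕ in atTop, ∀ᶠ N : ℕ in atTop, ∀ c ∈ T, ∀ A : ℕ, Adm θ N A →
      GoodE (e0 / Q) e α₀ β (Real.logb N A) c → (∃ c₁ : Multiset ℕ, c₁ ≤ c ∧ MidE (e0 / Q) e α₀ β c₁) →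
      ∑ a ∈ IA A, |cnt N a (fun m => FF N (e0 / Q) c m)
        - Gw w a * model N (fun m => FF N (e0 / Q) c m)| ≤ ϖ * A * N / Real.log N := by
    have h1 := (Filter.eventually_all_finset T).2 hII
    filter_upwards [h1] with w hw
    exact (Filter.eventually_all_finset T).2 hw
  -- windows and squares
  obtain ⟨N3, hWIN⟩ := hWIN e0 (2 * e) he0p he0u (by positivity) (by linarith)
  obtain ⟨N4, hWINM⟩ := hWINM e0 (2 * e) he0p he0u (by positivity) (by linarith)
  obtain ⟨N5, hNSF⟩ := hNSF θ e0 κ hθ he0p hκ0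
  obtain ⟨N6, hNSFM⟩ := hNSFM e0 κ he0p hκ0
  -- conclusion
  obtain ⟨w₀, hw₀⟩ := eventually_atTop.1 (hII'.and (eventually_ge_atTop 2))
  refine ⟨w₀, fun w hw => ?_⟩
  obtain ⟨hA2, hw2⟩ := hw₀ w hw
  obtain ⟨A₀, hGm⟩ := hGmean w
  obtain ⟨cG, hcG, hGx⟩ := hGmax w hw2
  have hG0 : ∀ a : ℤ, 0 ≤ Gw w a := fun a => hcG.le.trans (hGx a).1
  obtain ⟨N₀, hN₀⟩ := eventually_atTop.1 (hA2.and (((BLKEM.adm_ev θ hθ).and
    ((BLKEM.adm_large θ hθ A₀).and ((eventually_ge_atTop N2).and ((eventually_ge_atTop N3).and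
      ((eventually_ge_atTop N4).and ((eventually_ge_atTop N5).and (eventually_ge_atTop N6)))))))))
  refine ⟨N₀, fun N A hN hA => ?_⟩
  obtain ⟨hE2, hadm, hlarge, hN2, hN3, hN4, hN5, hN6⟩ := hN₀ N hN
  obtain ⟨hNN, hα1, hα2, hAN⟩ := hadm A hA
  have hGm := hGm A (hlarge A hA)
  have hlog : 0 < Real.log N := Real.log_pos (by exact_mod_cast (by omega : 1 < N))
  have hN0 : (0 : ℝ) < N := by exact_mod_cast (by omega : 0 < N)
  obtain ⟨hT2a, hT2b⟩ := hT2 N hN2 (Real.logb N A) hα1 hα2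
  set α : ℝ := Real.logb N A with hα
  set T' : Finset (Multiset ℕ) := T.filter (fun c => GoodE (e0 / Q) e α₀ β α c) with hT'
  have hT2c : ∀ m : ℕ, (N : ℝ) ^ 2 / 2 ≤ m → (m : ℝ) ≤ 5 * (N : ℝ) ^ 2 →
      |EInd N k e0 α₀ β m - 0 - ∑ c ∈ T', t c * FF N (e0 / Q) c m| ≤ errE N e0 e C α₀ β α m := by
    intro m hm1 hm2
    rw [sub_zero]
    refine (hT2a m hm1 hm2).trans ?_
    unfold errE nsq win
    apply mul_le_mul_of_nonneg_left _ hC.le
    apply add_le_add _ le_rfl
    by_cases h : NSq ((N : ℝ) ^ e0) m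
    · rw [if_pos h]
      split_ifs <;> norm_num
    · rw [if_neg h, if_neg (fun h' => h h'.2)]
  set U : ℝ := A * N / Real.log N with hU
  have hU0 : 0 ≤ U := by positivity
  set f : ℤ → ℝ := fun a =>
    ∑ c ∈ T', |t c| * |cnt N a (fun m => FF N (e0 / Q) c m)
        - Gw w a * model N (fun m => FF N (e0 / Q) c m)|
      + cnt N a (errE N e0 e C α₀ β α) + Gw w a * model N (errE N e0 e C α₀ β α) with hf
  have hnsq0 : ∀ m, 0 ≤ nsq N e0 m := fun m => by unfold nsq; split_ifs <;> norm_num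
  have hwin0 : ∀ x y m, 0 ≤ win N e0 x y m := fun x y m => by unfold win; split_ifs <;> norm_num
  have herr0 : ∀ m, 0 ≤ errE N e0 e C α₀ β α m := fun m => by
    unfold errE
    exact mul_nonneg hC.le (add_nonneg (hnsq0 m) (Finset.sum_nonneg (fun x _ => hwin0 x _ m)))
  have hf0 : ∀ a ∈ IA A, 0 ≤ f a := by
    intro a _
    simp only [hf]
    have h1 := cnt_nonneg (N := N) (a := a) herr0
    have h2 := mul_nonneg (hG0 a) (model_nonneg (N := N) herr0)
    have h3 : 0 ≤ ∑ c ∈ T', |t c| * |cnt N a (fun m => FF N (e0 / Q) c m)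
        - Gw w a * model N (fun m => FF N (e0 / Q) c m)| :=
      Finset.sum_nonneg (fun c _ => by positivity)
    linarith
  -- the three sums
  have hS1 : ∑ a ∈ IA A, ∑ c ∈ T', |t c| * |cnt N a (fun m => FF N (e0 / Q) c m)
        - Gw w a * model N (fun m => FF N (e0 / Q) c m)| ≤ ε ^ 2 / 12 * U := by
    rw [Finset.sum_comm]
    calc ∑ c ∈ T', ∑ a ∈ IA A, |t c| * |cnt N a (fun m => FF N (e0 / Q) c m)
        - Gw w a * model N (fun m => FF N (e0 / Q) c m)|
        ≤ ∑ c ∈ T', C * (ϖ * U) := by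
          apply Finset.sum_le_sum
          intro c hc
          rw [hT', Finset.mem_filter] at hc
          rw [← Finset.mul_sum]
          by_cases ht0 : t c = 0
          · rw [ht0, abs_zero, zero_mul]
            positivity
          · have h1 := hE2 c hc.1 A hA hc.2 (hT2b c hc.1 hc.2 ht0)
            have h2 : ϖ * A * N / Real.log N = ϖ * U := by rw [hU]; ring
            rw [h2] at h1
            exact mul_le_mul (htC c hc.1) h1 (Finset.sum_nonneg (fun _ _ => abs_nonneg _)) hC.le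
      _ = T'.card * (C * (ϖ * U)) := by rw [Finset.sum_const, nsmul_eq_mul]
      _ ≤ (T.card + 1) * (C * (ϖ * U)) := by
          apply mul_le_mul_of_nonneg_right _ (by positivity)
          have : T'.card ≤ T.card := Finset.card_filter_le _ _
          have : (T'.card : ℝ) ≤ T.card := by exact_mod_cast this
          linarith
      _ = ε ^ 2 / 12 * U := by
          rw [hϖ]
          field_simp
  have hw1 : ∀ x ∈ critE α₀ β α, ∑ a ∈ IA A, cnt N a (win N e0 x (2 * e))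
      ≤ CW * (2 * e / e0 ^ 2) * U := by
    intro x hx
    obtain ⟨hx1, hx2⟩ := BLKEM.crit_range hα23 hαβ hβ1 hα1 hα2 hx
    have h1 := hWIN N A hN3 hA x hx1 hx2
    have h2 : CW * (2 * e / e0 ^ 2) * A * N / Real.log N = CW * (2 * e / e0 ^ 2) * U := by
      rw [hU]; ring
    rw [h2] at h1
    exact h1
  have hw2 : ∀ x ∈ critE α₀ β α, model N (win N e0 x (2 * e))
      ≤ CM * (2 * e / e0 ^ 2) * (N / Real.log N) := by
    intro x hx
    obtain ⟨hx1, hx2⟩ := BLKEM.crit_range hα23 hαβ hβ1 hα1 hα2 hx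
    have h1 := hWINM N hN4 x hx1 hx2
    have h2 : CM * (2 * e / e0 ^ 2) * N / Real.log N
        = CM * (2 * e / e0 ^ 2) * (N / Real.log N) := by ring
    rw [h2] at h1
    exact h1
  have hS2 : ∑ a ∈ IA A, cnt N a (errE N e0 e C α₀ β α)
      ≤ C * (κ * U + 5 * (CW * (2 * e / e0 ^ 2) * U)) := by
    calc ∑ a ∈ IA A, cnt N a (errE N e0 e C α₀ β α)
        = C * (∑ a ∈ IA A, cnt N a (nsq N e0)
            + ∑ x ∈ critE α₀ β α, ∑ a ∈ IA A, cnt N a (win N e0 x (2 * e))) := by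
          rw [Finset.sum_comm, ← Finset.sum_add_distrib, Finset.mul_sum]
          exact Finset.sum_congr rfl (fun a _ => cnt_errE N a e0 e C α₀ β α)
      _ ≤ C * (κ * U + 5 * (CW * (2 * e / e0 ^ 2) * U)) := by
          apply mul_le_mul_of_nonneg_left _ hC.le
          apply add_le_add
          · have h1 := hNSF N A hN5 hA
            have h2 : κ * A * N / Real.log N = κ * U := by rw [hU]; ring
            rw [h2] at h1
            exact h1
          · exact BLKEM.sum_crit_le α₀ β α _ _ (by positivity) hw1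
  have hS3 : ∑ a ∈ IA A, Gw w a * model N (errE N e0 e C α₀ β α)
      ≤ C * (3 * κ * U + 5 * (3 * CM * (2 * e / e0 ^ 2) * U)) := by
    rw [← Finset.sum_mul]
    have h1 : model N (errE N e0 e C α₀ β α)
        ≤ C * (κ * (N / Real.log N) + 5 * (CM * (2 * e / e0 ^ 2) * (N / Real.log N))) := by
      rw [model_errE]
      apply mul_le_mul_of_nonneg_left _ hC.le
      apply add_le_add
      · have h1 := hNSFM N hN6
        have h2 : κ * N / Real.log N = κ * (N / Real.log N) := by ring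
        rw [h2] at h1
        exact h1
      · exact BLKEM.sum_crit_le α₀ β α _ _ (by positivity) hw2
    calc (∑ a ∈ IA A, Gw w a) * model N (errE N e0 e C α₀ β α)
        ≤ (3 * A) * (C * (κ * (N / Real.log N)
            + 5 * (CM * (2 * e / e0 ^ 2) * (N / Real.log N)))) :=
          mul_le_mul hGm h1 (model_nonneg herr0) (by positivity)
      _ = C * (3 * κ * U + 5 * (3 * CM * (2 * e / e0 ^ 2) * U)) := by
          rw [hU]
          ring
  have hSum : ∑ a ∈ IA A, f a ≤ ε ^ 2 / 6 * U := by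
    have h1 : ∑ a ∈ IA A, f a
        = ∑ a ∈ IA A, ∑ c ∈ T', |t c| * |cnt N a (fun m => FF N (e0 / Q) c m)
            - Gw w a * model N (fun m => FF N (e0 / Q) c m)|
          + ∑ a ∈ IA A, cnt N a (errE N e0 e C α₀ β α)
          + ∑ a ∈ IA A, Gw w a * model N (errE N e0 e C α₀ β α) := by
      simp only [hf]
      rw [Finset.sum_add_distrib, Finset.sum_add_distrib]
    rw [h1]
    have h2 : C * (κ * U + 5 * (CW * (2 * e / e0 ^ 2) * U))
          + C * (3 * κ * U + 5 * (3 * CM * (2 * e / e0 ^ 2) * U))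
        = (4 * (C * κ) + D * e) * U := by
      rw [hD]
      ring
    have h3 : 4 * (C * κ) = ε ^ 2 / 24 := by
      rw [hκ]
      field_simp
      norm_num
    have h4 : (4 * (C * κ) + D * e) * U ≤ (ε ^ 2 / 24 + ε ^ 2 / 24) * U := by
      rw [h3]
      exact mul_le_mul_of_nonneg_right (by linarith) hU0
    linarith
  have hMk := markov (IA A) f hf0 (ε / 2 * (N / Real.log N)) (ε ^ 2 / 6 * U)
    (by positivity) hSum
  have hcard2 : (((IA A).filter (fun a => ε / 2 * (N / Real.log N) < f a)).card : ℝ)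
      ≤ ε / 2 * A := by
    have hpos : 0 < ε / 2 * (N / Real.log N) := by positivity
    rw [← div_le_div_iff_of_pos_right (c := 1) one_pos, div_one, div_one]
    have h1 : (((IA A).filter (fun a => ε / 2 * (N / Real.log N) < f a)).card : ℝ)
        ≤ ε ^ 2 / 6 * U / (ε / 2 * (N / Real.log N)) := by
      rw [le_div_iff₀ hpos]
      exact hMk
    have h2 : ε ^ 2 / 6 * U / (ε / 2 * (N / Real.log N)) = ε / 3 * A := by
      rw [hU]
      field_simp
      ring
    rw [h2] at h1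
    refine h1.trans ?_
    apply mul_le_mul_of_nonneg_right _ (Nat.cast_nonneg A)
    linarith
  have hsub : (IA A).filter (fun a => ε * N / Real.log N <
      |cnt N a (EInd N k e0 α₀ β) - Gw w a * model N (EInd N k e0 α₀ β)|)
      ⊆ (IA A).filter (fun a => ε / 2 * (N / Real.log N) < f a) := by
    intro a ha
    rw [Finset.mem_filter] at ha ⊢
    refine ⟨ha.1, ?_⟩
    have h3 := BLKK.pointwise (w := w) (EInd N k e0 α₀ β) (fun _ => 0) _ T' t ha.1 hAN (hG0 a) hT2c
    rw [BLKEM.cnt_zero, BLKEM.model_zero, mul_zero, sub_zero, abs_zero, zero_add] at h3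
    have h4 : ε * N / Real.log N = ε / 2 * (N / Real.log N) + ε / 2 * (N / Real.log N) := by ring
    have h5 := ha.2
    have h6 : 0 ≤ ε / 2 * (N / Real.log N) := by positivity
    simp only [hf]
    linarith
  calc (((IA A).filter (fun a => ε * N / Real.log N <
      |cnt N a (EInd N k e0 α₀ β) - Gw w a * model N (EInd N k e0 α₀ β)|)).card : ℝ)
      ≤ (((IA A).filter (fun a => ε / 2 * (N / Real.log N) < f a)).card : ℝ) := by
        exact_mod_cast Finset.card_le_card hsub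
    _ ≤ ε / 2 * A := hcard2
    _ ≤ ε * A := by
        apply mul_le_mul_of_nonneg_right _ (Nat.cast_nonneg A)
        linarith

end Pool.Agent.Lib.MP391708.QPA.H
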