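import Pool.Agent.Lib.MP_391708_nt.QPA.H.SpecH
import Pool.Agent.Lib.MP_391708_nt.QPA.T2

/-!
# QPA phase 3, module T2E: the combinatorial identity for products of `k` primes
-/

set_option autoImplicit false

namespace Pool.Agent.Lib.MP391708.QPA.H.T2EM

open Finset
open Pool.Agent.Lib.MP391708.QPA Pool.Agent.Lib.MP391708.QPA.H
open scoped Classical
open T2

/-- the coefficients -/
noncomputable def tt (k : ℕ) (e2 e α β : ℝ) (c : Multiset ℕ) : ℝ :=
  if Multiset.card c = k ∧ ∃ c₁ ≤ c, MidE e2 e α β c₁ then 1 / vf c else 0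

theorem abs_tt_le (k : ℕ) (e2 e α β : ℝ) (c : Multiset ℕ) : |tt k e2 e α β c| ≤ 1 := by
  unfold tt
  split_ifs
  · rw [abs_div, abs_one, abs_of_pos (lt_of_lt_of_le one_pos (vf_pos c))]
    exact (div_le_one (lt_of_lt_of_le one_pos (vf_pos c))).mpr (vf_pos c)
  · rw [abs_zero]; norm_num

theorem card_pf (m : ℕ) (hm : Squarefree m) : m.primeFactors.card = m.primeFactorsList.length := by
  rw [Nat.primeFactors]
  exact List.toFinset_card_of_nodup ((Nat.squarefree_iff_nodup_primeFactorsList hm.ne_zero).mp hm)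

/-- divisors and subtypes -/
theorem div_sub (N : ℕ) (e2 : ℝ) (hN : 2 ≤ N) (he2 : 0 < e2) (m j : ℕ) (hm : Squarefree m)
    (hj : j ∣ m) : j.primeFactors.val.map (idx N e2) ≤ typ N e2 m ∧
    (N : ℝ) ^ (e2 * ((j.primeFactors.val.map (idx N e2)).sum : ℝ)) ≤ (j : ℝ) ∧
    (j : ℝ) ≤ (N : ℝ) ^ (e2 * (((j.primeFactors.val.map (idx N e2)).sum : ℝ)
      + (Multiset.card (j.primeFactors.val.map (idx N e2)) : ℝ))) := by
  have hjs := hm.squarefree_of_dvd hj
  have hSP : j.primeFactors ⊆ m.primeFactors := Nat.primeFactors_mono hj hm.ne_zero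
  have hb := prod_bounds N e2 hN he2 j.primeFactors
    (fun p hp => (Nat.mem_primeFactors.mp hp).1.one_lt.le)
  rw [Nat.prod_primeFactors_of_squarefree hjs] at hb
  refine ⟨?_, hb.1, hb.2⟩
  rw [typ_sq N e2 m hm]
  exact Multiset.map_le_map (Finset.val_le_iff.mpr hSP)

/-- the value on a good cube -/
theorem good_identity (N k : ℕ) (δ α β e x₀ : ℝ) (hN : 10 ≤ N) (hα : 1 / 2 ≤ α) (he : 0 < e)
    (e2 : ℝ) (he2 : 0 < e2) (m : ℕ) (hm : Squarefree m) (hr : Rough ((N : ℝ) ^ δ) m)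
    (hg : GoodE e2 e α β x₀ (typ N e2 m)) :
    EInd N k δ α β m = tt k e2 e α β (typ N e2 m) * vf (typ N e2 m) := by
  have hN1 : (1 : ℝ) < N := by exact_mod_cast (by omega : 1 < N)
  have hvf : vf (typ N e2 m) ≠ 0 := (lt_of_lt_of_le one_pos (vf_pos _)).ne'
  have hcard : Multiset.card (typ N e2 m) = m.primeFactors.card := by
    rw [card_typ, card_pf m hm]
  have hiff : (∃ d : ℕ, d ∣ m ∧ (N : ℝ) ^ α < d ∧ (d : ℝ) ≤ (N : ℝ) ^ β) ↔
      ∃ c₁ ≤ typ N e2 m, MidE e2 e α β c₁ := by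
    constructor
    · rintro ⟨d, hd, h1, h2⟩
      obtain ⟨hs, b1, b2⟩ := div_sub N e2 (by omega) he2 m d hm hd
      have hne : d.primeFactors.val.map (idx N e2) ≠ 0 := by
        intro h0
        have h3 := congrArg Multiset.card h0
        rw [Multiset.card_map, Multiset.card_zero] at h3
        have h4 : d.primeFactors = ∅ := Finset.card_eq_zero.mp h3
        have h5 : d = 1 := by
          rw [← Nat.prod_primeFactors_of_squarefree (hm.squarefree_of_dvd hd), h4]; simp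
        rw [h5] at h1
        have h6 : (1 : ℝ) ≤ (N : ℝ) ^ α := Real.one_le_rpow hN1.le (by linarith)
        norm_num at h1
        linarith
      refine ⟨_, hs, ?_, ?_⟩
      · rcases hg _ hs hne α (by simp [critE]) with h | h
        · exact h.le
        · exfalso
          have h7 := lt_of_le_of_lt b2 (Real.rpow_lt_rpow_of_exponent_lt hN1 h)
          have h8 : (N : ℝ) ^ (α - e) ≤ (N : ℝ) ^ α :=
            Real.rpow_le_rpow_of_exponent_le hN1.le (by linarith)
          linarith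
      · rcases hg _ hs hne β (by simp [critE]) with h | h
        · exfalso
          have h7 := lt_of_lt_of_le (Real.rpow_lt_rpow_of_exponent_lt hN1 h) b1
          have h8 : (N : ℝ) ^ β ≤ (N : ℝ) ^ (β + e) :=
            Real.rpow_le_rpow_of_exponent_le hN1.le (by linarith)
          linarith
        · exact h.le
    · rintro ⟨c₁, hc, h1, h2⟩
      have hc' := hc
      rw [typ_sq N e2 m hm] at hc'
      obtain ⟨S, hSP, hSs⟩ := exists_sub m.primeFactors (idx N e2) c₁ hc'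
      have hb := prod_bounds N e2 (by omega) he2 S
        (fun p hp => (Nat.mem_primeFactors.mp (hSP hp)).1.one_lt.le)
      rw [hSs] at hb
      refine ⟨∏ p ∈ S, p, T1.prod_dvd m hm S hSP, ?_, ?_⟩
      · refine lt_of_lt_of_le ?_ hb.1
        exact Real.rpow_lt_rpow_of_exponent_lt hN1 (by linarith)
      · refine hb.2.trans ?_
        exact Real.rpow_le_rpow_of_exponent_le hN1.le (by linarith)
  unfold EInd tt
  rw [hcard, hiff]
  by_cases h : m.primeFactors.card = k ∧ ∃ c₁ ≤ typ N e2 m, MidE e2 e α β c₁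
  · rw [if_pos ⟨hm, h.1, hr, h.2⟩, if_pos h, one_div, inv_mul_cancel₀ hvf]
  · rw [if_neg (fun h' => h ⟨h'.2.1, h'.2.2.2⟩), if_neg h, zero_mul]

/-- a bad type gives a divisor in a window -/
theorem bad_type (N : ℕ) (α β e x₀ : ℝ) (hN : 10 ≤ N) (e2 : ℝ) (he2 : 0 < e2) (R : ℕ)
    (hR : e2 * R ≤ e) (m : ℕ) (hm : Squarefree m) (hmR : m.primeFactorsList.length ≤ R)
    (hg : ¬ GoodE e2 e α β x₀ (typ N e2 m)) : ∃ x ∈ critE α β x₀, Win N x (2 * e) m := by
  have hN1 : (1 : ℝ) < N := by exact_mod_cast (by omega : 1 < N)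
  unfold GoodE at hg
  push Not at hg
  obtain ⟨s, hs, hs0, x, hx, h1, h2⟩ := hg
  refine ⟨x, hx, ?_⟩
  have hs' := hs
  rw [typ_sq N e2 m hm] at hs'
  obtain ⟨S, hSP, hSs⟩ := exists_sub m.primeFactors (idx N e2) s hs'
  have hb := prod_bounds N e2 (by omega) he2 S
    (fun p hp => (Nat.mem_primeFactors.mp (hSP hp)).1.one_lt.le)
  rw [hSs] at hb
  have hcard : (Multiset.card s : ℝ) ≤ R := by
    have := Multiset.card_le_card hs
    rw [card_typ] at this
    exact_mod_cast this.trans hmR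
  have hcR : e2 * (Multiset.card s : ℝ) ≤ e := (mul_le_mul_of_nonneg_left hcard he2.le).trans hR
  refine ⟨∏ p ∈ S, p, T1.prod_dvd m hm S hSP, ?_, ?_⟩
  · refine le_trans (Real.rpow_le_rpow_of_exponent_le hN1.le ?_) hb.1
    rw [mul_add] at h2
    linarith
  · refine hb.2.trans (Real.rpow_le_rpow_of_exponent_le hN1.le ?_)
    rw [mul_add]
    linarith

/-- the general bound on rough numbers -/
theorem gen_bound (N Q k : ℕ) (δ α β e : ℝ) (hN : 10 ≤ N) (hδ : 0 < δ) (hQ : 1 ≤ Q) (m : ℕ)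
    (T : Finset (Multiset ℕ)) (hT : ∀ c ∈ T, Multiset.card c ≤ ⌊3 / δ⌋₊) :
    |EInd N k δ α β m - ∑ c ∈ T, tt k (δ / Q) e α β c * FF N (δ / Q) c m|
      ≤ 1 + (⌊3 / δ⌋₊).factorial := by
  have hQ0 : (0 : ℝ) < Q := by exact_mod_cast hQ
  have he2 : 0 < δ / Q := by positivity
  have h1 : |EInd N k δ α β m| ≤ 1 := by rw [EInd]; split_ifs <;> simp
  have h3 : |∑ c ∈ T, tt k (δ / Q) e α β c * FF N (δ / Q) c m|
      ≤ ((⌊3 / δ⌋₊).factorial : ℝ) := by
    rw [sum_types N Q δ hN he2]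
    split_ifs with h
    · rw [abs_mul, abs_of_nonneg (FFB.FF_nonneg _ _ _ _)]
      calc |tt k (δ / Q) e α β (typ N (δ / Q) m)| * FF N (δ / Q) (typ N (δ / Q) m) m
          ≤ 1 * ((⌊3 / δ⌋₊).factorial : ℝ) := by
            apply mul_le_mul (abs_tt_le _ _ _ _ _ _) _ (FFB.FF_nonneg _ _ _ _) one_pos.le
            refine (FFB.FF_le N _ (by omega) _ _).trans ?_
            exact_mod_cast Nat.factorial_le (hT _ h)
        _ = _ := one_mul _
    · rw [abs_zero]; positivity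
  rw [abs_le] at *
  constructor <;> linarith [h1.1, h1.2, h3.1, h3.2]

end Pool.Agent.Lib.MP391708.QPA.H.T2EM

namespace Pool.Agent.Lib.MP391708.QPA.H

open Finset
open Pool.Agent.Lib.MP391708.QPA
open scoped Classical

theorem specT2E : SpecT2E := by
  intro k δ α β hδ hδ1 hα hαβ hβ
  refine ⟨1 + (⌊3 / δ⌋₊).factorial, by positivity, ?_⟩
  intro e he he'
  have hQ1 : 1 ≤ ⌈3 / e⌉₊ := Nat.one_le_ceil_iff.mpr (by positivity)
  have hQe : 3 / e ≤ (⌈3 / e⌉₊ : ℝ) := Nat.le_ceil _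
  generalize ⌈3 / e⌉₊ = Q at hQ1 hQe
  have hQ0 : (0 : ℝ) < Q := by exact_mod_cast hQ1
  have he2 : 0 < δ / Q := by positivity
  refine ⟨Q, hQ1, T2.fam Q ⌊3 * Q / δ⌋₊ ⌊3 / δ⌋₊, T2EM.tt k (δ / Q) e α β, ?_, ?_, 10, ?_⟩
  · intro c hc i hi
    exact (((T2.mem_fam _ _ _ _).mp hc).1 i hi).1
  · intro c hc
    refine (T2EM.abs_tt_le _ _ _ _ _ _).trans ?_
    have : (0 : ℝ) ≤ ((⌊3 / δ⌋₊).factorial : ℝ) := by positivity
    linarith
  intro N hN x₀ _ _
  have hN10 : (10 : ℝ) ≤ N := by exact_mod_cast hN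
  have hN1 : (1 : ℝ) < N := by linarith
  have hR3 : ((⌊3 / δ⌋₊ : ℕ) : ℝ) ≤ 3 / δ := Nat.floor_le (by positivity)
  have hRe : δ / Q * (⌊3 / δ⌋₊ : ℝ) ≤ e := by
    calc δ / Q * (⌊3 / δ⌋₊ : ℝ) ≤ δ / Q * (3 / δ) := mul_le_mul_of_nonneg_left hR3 he2.le
      _ = 3 / Q := by field_simp
      _ ≤ e := by
          rw [div_le_iff₀ hQ0]
          rw [div_le_iff₀ he] at hQe
          linarith
  refine ⟨?_, ?_⟩
  · intro m hm1 hm2
    have hm0 : m ≠ 0 := by
      intro h
      rw [h] at hm1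
      have : (0 : ℝ) < (N : ℝ) ^ 2 / 2 := by positivity
      simp only [Nat.cast_zero] at hm1
      linarith
    have hRHS : ∀ x ∈ critE α β x₀, (0 : ℝ) ≤
        (if Rough ((N : ℝ) ^ δ) m ∧ Win N x (2 * e) m then (1 : ℝ) else 0) := by
      intro x _; split_ifs <;> norm_num
    have hRHS2 : (0 : ℝ) ≤ ∑ x ∈ critE α β x₀,
        (if Rough ((N : ℝ) ^ δ) m ∧ Win N x (2 * e) m then (1 : ℝ) else 0) :=
      Finset.sum_nonneg hRHS
    have hRHS3 : (0 : ℝ) ≤ (if Rough ((N : ℝ) ^ δ) m ∧ NSq ((N : ℝ) ^ δ) m then (1 : ℝ) else 0) := by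
      split_ifs <;> norm_num
    by_cases hr : Rough ((N : ℝ) ^ δ) m
    · have hlen := T2.length_le N δ hδ hN m hm0 hm2 hr
      have hgen := T2EM.gen_bound N Q k δ α β e hN hδ hQ1 m
        ((T2.fam Q ⌊3 * Q / δ⌋₊ ⌊3 / δ⌋₊).filter (fun c => GoodE (δ / Q) e α β x₀ c))
        (fun c hc => ((T2.mem_fam _ _ _ _).mp (mem_filter.mp hc).1).2)
      by_cases hsq : Squarefree m
      · by_cases hg : GoodE (δ / Q) e α β x₀ (T2.typ N (δ / Q) m)
        · -- good type
          have hid := T2EM.good_identity N k δ α β e x₀ hN hα he (δ / Q) he2 m hsq hr hg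
          have hmem : T2.typ N (δ / Q) m ∈
              (T2.fam Q ⌊3 * Q / δ⌋₊ ⌊3 / δ⌋₊).filter (fun c => GoodE (δ / Q) e α β x₀ c) :=
            mem_filter.mpr ⟨T2.typ_mem N Q δ hN hδ hQ1 m hm0 hm2 hr, hg⟩
          have hzero : EInd N k δ α β m
              - ∑ c ∈ (T2.fam Q ⌊3 * Q / δ⌋₊ ⌊3 / δ⌋₊).filter (fun c => GoodE (δ / Q) e α β x₀ c),
                T2EM.tt k (δ / Q) e α β c * FF N (δ / Q) c m = 0 := by
            rw [T2.sum_types N Q δ hN he2, if_pos hmem,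
              T2.FF_typ N _ (by omega) he2 _ m hsq rfl, hid, sub_self]
          rw [hzero, abs_zero]
          exact mul_nonneg (by positivity) (by linarith)
        · -- bad type
          obtain ⟨x, hx, hW⟩ := T2EM.bad_type N α β e x₀ hN (δ / Q) he2 _ hRe m hsq hlen hg
          refine hgen.trans (le_mul_of_one_le_right (by positivity) ?_)
          have h1 := Finset.single_le_sum hRHS hx
          rw [if_pos ⟨hr, hW⟩] at h1
          linarith
      · -- not squarefree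
        have hns : NSq ((N : ℝ) ^ δ) m := by
          rw [Nat.squarefree_iff_prime_squarefree] at hsq
          push Not at hsq
          obtain ⟨p, hp, hpm⟩ := hsq
          exact ⟨p, hp, hr p hp ((Dvd.intro _ rfl).trans hpm), by rw [pow_two]; exact hpm⟩
        refine hgen.trans (le_mul_of_one_le_right (by positivity) ?_)
        rw [if_pos ⟨hr, hns⟩]
        linarith
    · -- not rough
      have h1 : EInd N k δ α β m = 0 := by
        rw [EInd, if_neg]
        rintro ⟨_, _, h, _⟩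
        exact hr h
      have h3 : ∑ c ∈ (T2.fam Q ⌊3 * Q / δ⌋₊ ⌊3 / δ⌋₊).filter (fun c => GoodE (δ / Q) e α β x₀ c),
          T2EM.tt k (δ / Q) e α β c * FF N (δ / Q) c m = 0 := by
        apply Finset.sum_eq_zero
        intro c hc
        by_contra hne
        have h4 := right_ne_zero_of_mul hne
        have h5 := (FFB.FF_support N (δ / Q) (by omega) c m h4).2.2.2.2 he2 Q
          (fun i hi => (((T2.mem_fam _ _ _ _).mp (mem_filter.mp hc).1).1 i hi).1)
        rw [div_mul_cancel₀ _ hQ0.ne'] at h5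
        exact hr h5
      rw [h1, h3, sub_zero, abs_zero]
      exact mul_nonneg (by positivity) (by linarith)
  · intro c _ _ hc
    by_contra hno
    apply hc
    rw [T2EM.tt, if_neg]
    rintro ⟨_, c₁, h1, h2⟩
    exact hno ⟨c₁, h1, h2⟩

end Pool.Agent.Lib.MP391708.QPA.H
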