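import Pool.Agent.Lib.MP_391708_nt.QPA.H.SpecH
import Pool.Agent.Lib.MP_391708_nt.QPA.Two

/-!
# QPA, module WBL: the bound for `Wsum` for the Liouville function
-/

set_option autoImplicit false

namespace Pool.Agent.Lib.MP391708.QPA.H

open Finset Filter Topology
open Pool.Agent.Lib.MP391708.QPA
open scoped Classical

namespace WBLM

lemma abs_lio_le (m : ℕ) : |lio m| ≤ 1 := by
  unfold lio
  by_cases h : m = 0
  · subst h
    simp
  · rw [ArithmeticFunction.liouville_apply h]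
    push_cast
    rw [abs_pow, abs_neg, abs_one, one_pow]

lemma abs_lodd_le (m : ℕ) : |lodd m| ≤ 1 := by
  unfold lodd
  split_ifs
  · exact abs_lio_le m
  · simp

lemma abs_cut_le (x y : ℝ) (m : ℕ) : |cut x y lodd m| ≤ 1 := by
  unfold cut
  split_ifs
  · exact abs_lodd_le m
  · simp

/-- the number of the members of a residue class in an interval -/
lemma card_class {x H r c : ℕ} (hr : 0 < r) :
    ((((Ioc x (x + H)).filter (fun u => u % r = c)).card : ℕ) : ℝ) ≤ H / r + 1 := by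
  by_cases hc : c < r
  · have h1 : (Ioc x (x + H)).filter (fun u => u % r = c) =
        (Ioc x (x + H)).filter (fun u => u ≡ c [MOD r]) := by
      refine filter_congr fun u _ => ?_
      unfold Nat.ModEq
      rw [Nat.mod_eq_of_lt hc]
    rw [h1]
    have h2 := Nat.Ioc_filter_modEq_card x (x + H) hr c
    have hr' : (0 : ℝ) < r := by exact_mod_cast hr
    have h3 : ((#{u ∈ Ioc x (x + H) | u ≡ c [MOD r]} : ℕ) : ℤ) ≤
        max (⌊(((x + H : ℕ) : ℚ) - c) / r⌋ - ⌊((x : ℚ) - c) / r⌋) 0 := le_of_eq h2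
    have h4 : ((⌊(((x + H : ℕ) : ℚ) - c) / r⌋ - ⌊((x : ℚ) - c) / r⌋ : ℤ) : ℚ) ≤ (H : ℚ) / r + 1 := by
      push_cast
      have a1 := Int.floor_le ((((x : ℚ) + H) - c) / r)
      have a2 := Int.lt_floor_add_one (((x : ℚ) - c) / r)
      have a3 : (((x : ℚ) + H) - c) / r = ((x : ℚ) - c) / r + (H : ℚ) / r := by ring
      linarith
    have h5 : (((#{u ∈ Ioc x (x + H) | u ≡ c [MOD r]} : ℕ) : ℤ) : ℚ) ≤ (H : ℚ) / r + 1 := by
      refine le_trans (Int.cast_le.2 h3) ?_
      rw [Int.cast_max]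
      apply max_le h4
      push_cast
      positivity
    have h6 : ((#{u ∈ Ioc x (x + H) | u ≡ c [MOD r]} : ℕ) : ℚ) ≤ (H : ℚ) / r + 1 := by exact_mod_cast h5
    have h7 : (((#{u ∈ Ioc x (x + H) | u ≡ c [MOD r]} : ℕ) : ℚ) : ℝ) ≤ (((H : ℚ) / r + 1 : ℚ) : ℝ) := by
      exact_mod_cast h6
    push_cast at h7
    exact h7
  · have h1 : (Ioc x (x + H)).filter (fun u => u % r = c) = ∅ := by
      rw [filter_eq_empty_iff]
      intro u _ h
      have := Nat.mod_lt u hr
      omega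
    rw [h1, card_empty, Nat.cast_zero]
    positivity

/-- the sums over a residue class from the prefix sums -/
lemma class_sum {q c : ℕ} {δ : ℝ} {X₀ x y : ℕ} (h : ∀ X : ℕ, X₀ ≤ X →
    |∑ u ∈ (Icc 1 X).filter (fun u => u % q = c), lio u| ≤ δ * X) (hx : X₀ ≤ x) (hxy : x ≤ y) :
    |∑ u ∈ (Ioc x y).filter (fun u => u % q = c), lio u| ≤ δ * x + δ * y := by
  have h1 : Icc 1 y = Icc 1 x ∪ Ioc x y := by
    ext u
    simp only [mem_union, mem_Icc, mem_Ioc]
    omega
  have h2 : ∑ u ∈ (Icc 1 y).filter (fun u => u % q = c), lio u =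
      ∑ u ∈ (Icc 1 x).filter (fun u => u % q = c), lio u +
      ∑ u ∈ (Ioc x y).filter (fun u => u % q = c), lio u := by
    rw [h1, filter_union, sum_union]
    apply disjoint_filter_filter
    rw [disjoint_left]
    intro u hu hu2
    rw [mem_Icc] at hu
    rw [mem_Ioc] at hu2
    omega
  have h3 := h y (hx.trans hxy)
  have h4 := h x hx
  rw [h2] at h3
  have h5 := abs_le.1 h3
  have h6 := abs_le.1 h4
  rw [abs_le]
  constructor <;> linarith [h5.1, h5.2, h6.1, h6.2]

/-- the sums of `lodd` over a residue class -/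
lemma odd_class {r c : ℕ} {δ : ℝ} {X₀ x y : ℕ} (hr : 1 ≤ r) (h : ∀ c' : ℕ, c' < 2 * r → ∀ X : ℕ, X₀ ≤ X →
    |∑ u ∈ (Icc 1 X).filter (fun u => u % (2 * r) = c'), lio u| ≤ δ * X) (hδ : 0 ≤ δ)
    (hx : X₀ ≤ x) (hxy : x ≤ y) :
    |∑ u ∈ (Ioc x y).filter (fun u => u % r = c), lodd u| ≤ 2 * (δ * x + δ * y) := by
  have hnn : 0 ≤ δ * x + δ * y := by positivity
  by_cases hc : c < r
  · have key : ∀ c' : ℕ, c' < 2 * r →
        |∑ u ∈ (Ioc x y).filter (fun u => u % (2 * r) = c'), lodd u| ≤ δ * x + δ * y := by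
      intro c' hc'
      by_cases ho : Odd c'
      · have h1 : ∑ u ∈ (Ioc x y).filter (fun u => u % (2 * r) = c'), lodd u =
            ∑ u ∈ (Ioc x y).filter (fun u => u % (2 * r) = c'), lio u := by
          refine sum_congr rfl fun u hu => ?_
          have h2 := (mem_filter.1 hu).2
          unfold lodd
          rw [if_pos]
          rw [Nat.odd_iff] at ho ⊢
          have h3 : u % (2 * r) % 2 = u % 2 := Nat.mod_mod_of_dvd u ⟨r, rfl⟩
          omega
        rw [h1]
        exact class_sum (h c' hc') hx hxy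
      · have h1 : ∑ u ∈ (Ioc x y).filter (fun u => u % (2 * r) = c'), lodd u = 0 := by
          refine sum_eq_zero fun u hu => ?_
          have h2 := (mem_filter.1 hu).2
          unfold lodd
          rw [if_neg]
          rw [Nat.odd_iff] at ho ⊢
          have h3 : u % (2 * r) % 2 = u % 2 := Nat.mod_mod_of_dvd u ⟨r, rfl⟩
          omega
        rw [h1, abs_zero]
        exact hnn
    have h1 : (Ioc x y).filter (fun u => u % r = c) =
        (Ioc x y).filter (fun u => u % (2 * r) = c) ∪ (Ioc x y).filter (fun u => u % (2 * r) = c + r) := by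
      ext u
      simp only [mem_union, mem_filter]
      have h3 : u % (2 * r) % r = u % r := Nat.mod_mod_of_dvd u ⟨2, by ring⟩
      have h4 : u % (2 * r) < 2 * r := Nat.mod_lt _ (by omega)
      constructor
      · rintro ⟨hu, h2⟩
        rw [h2] at h3
        by_cases h5 : u % (2 * r) < r
        · left
          rw [Nat.mod_eq_of_lt h5] at h3
          exact ⟨hu, h3⟩
        · right
          push Not at h5
          refine ⟨hu, ?_⟩
          rw [Nat.mod_eq_sub_mod h5, Nat.mod_eq_of_lt (by omega)] at h3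
          omega
      · rintro (⟨hu, h2⟩ | ⟨hu, h2⟩)
        · refine ⟨hu, ?_⟩
          rw [← h3, h2, Nat.mod_eq_of_lt hc]
        · refine ⟨hu, ?_⟩
          rw [← h3, h2, Nat.add_mod_right, Nat.mod_eq_of_lt hc]
    rw [h1, sum_union]
    · refine (abs_add_le _ _).trans ?_
      have a1 := key c (by omega)
      have a2 := key (c + r) (by omega)
      linarith
    · rw [disjoint_left]
      intro u hu hu2
      rw [mem_filter] at hu hu2
      omega
  · have h1 : (Ioc x y).filter (fun u => u % r = c) = ∅ := by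
      rw [filter_eq_empty_iff]
      intro u _ h
      have := Nat.mod_lt u (show 0 < r by omega)
      omega
    rw [h1, sum_empty, abs_zero]
    linarith

lemma Vd_div {S : Finset ℕ} {b : ℕ → ℝ} {D₀ : ℕ} (t : ℝ) :
    Vd S (fun u => b u / t) D₀ = Vd S b D₀ / t ^ 2 := by
  unfold Vd
  rw [sum_div]
  refine sum_congr rfl fun d _ => ?_
  rw [sum_div]
  refine sum_congr rfl fun c _ => ?_
  rw [← sum_div, div_pow]

lemma Vd_congr {S : Finset ℕ} {b b' : ℕ → ℝ} {D₀ : ℕ} (h : ∀ u ∈ S, b u = b' u) :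
    Vd S b D₀ = Vd S b' D₀ := by
  unfold Vd
  refine sum_congr rfl fun d _ => sum_congr rfl fun c _ => ?_
  congr 1
  exact sum_congr rfl fun u hu => h u (mem_filter.1 hu).1

end WBLM

open WBLM in
theorem specWBL (hWB : SpecWB) (hBDHB : SpecBDHB) (hLAMX : SpecLAMX) : SpecWBL := by
  intro ϖ e η hϖ he hη hη4
  obtain ⟨ϖ₃, hϖ₃, J, hJ1, hJ⟩ := hWB 2 ϖ e two_pos hϖ he
  obtain ⟨N₁, hN₁⟩ := hJ J le_rfl
  have hJ0 : (0 : ℝ) < J := by exact_mod_cast hJ1
  obtain ⟨R, κ, hκ, L₀, hL₀⟩ := hBDHB (ϖ₃ / (J : ℝ) ^ 2) (by positivity)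
  have hLX : ∀ q c : ℕ, ∃ X₀ : ℕ, 1 ≤ q → ∀ X : ℕ, X₀ ≤ X →
      |∑ u ∈ (Icc 1 X).filter (fun u => u % q = c), lio u| ≤ κ / 8 * X := by
    intro q c
    by_cases hq : 1 ≤ q
    · obtain ⟨X₀, hX₀⟩ := hLAMX q c (κ / 8) hq (by positivity)
      exact ⟨X₀, fun _ => hX₀⟩
    · exact ⟨0, fun h => absurd h hq⟩
  choose XX hXX using hLX
  set X₁ : ℕ := ∑ q ∈ range (2 * R + 1), ∑ c ∈ range (2 * R + 1), XX q c with hX₁
  have hXle : ∀ q c : ℕ, q ≤ 2 * R → c ≤ 2 * R → XX q c ≤ X₁ := by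
    intro q c hq hc
    calc XX q c ≤ ∑ c ∈ range (2 * R + 1), XX q c :=
          single_le_sum (f := fun c => XX q c) (fun _ _ => Nat.zero_le _) (mem_range.2 (by omega))
      _ ≤ X₁ := single_le_sum (f := fun q => ∑ c ∈ range (2 * R + 1), XX q c)
          (fun _ _ => Nat.zero_le _) (mem_range.2 (by omega))
  refine ⟨max (max N₁ 3) (max (X₁ + 1) ⌈L₀⌉₊), ?_⟩
  intro N K L hN hK1 hKL hNL h1 h2 h3 h4
  have hNN₁ : N₁ ≤ N := (le_max_left _ _).trans ((le_max_left _ _).trans hN)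
  have hN3 : 3 ≤ N := (le_max_right _ _).trans ((le_max_left _ _).trans hN)
  have hNX : X₁ + 1 ≤ N := (le_max_left _ _).trans ((le_max_right _ _).trans hN)
  have hNL₀ : L₀ ≤ N := by
    have : ⌈L₀⌉₊ ≤ N := (le_max_right _ _).trans ((le_max_right _ _).trans hN)
    exact (Nat.le_ceil L₀).trans (by exact_mod_cast this)
  have hN1 : (1 : ℝ) < N := by exact_mod_cast (by omega : 1 < N)
  have hN0 : (0 : ℝ) < N := by linarith
  have hlog : 0 < Real.log N := Real.log_pos hN1
  have hL0 : 0 < L := by linarith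
  set b : ℕ → ℝ := cut L ((1 + η) * L) lodd with hb
  have hmain := hN₁ N K L η (fun u => b u / Real.log N) (fun _ => 1 / Real.log N) hNN₁ hη hη4 hK1 hKL
    h1 h2 h3 h4 ?_ ?_ ?_ ?_
  · rw [Two.Wsum_div (b := b) hlog.ne', abs_mul, abs_of_pos (by positivity : 0 < Real.log N ^ 2)]
    calc Real.log N ^ 2 * |Wsum K L (fun u => b u / Real.log N)|
        ≤ Real.log N ^ 2 * (ϖ * L / Real.log N ^ 2) := by gcongr
      _ = ϖ * L := by field_simp
  · intro u
    rw [abs_div, abs_of_pos hlog]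
    gcongr
    exact abs_cut_le _ _ u
  · intro u hu
    have hu2 : b u ≠ 0 := by
      intro h0
      apply hu
      show b u / Real.log N = 0
      rw [h0, zero_div]
    rw [hb] at hu2
    unfold cut at hu2
    by_contra hc
    rw [if_neg hc] at hu2
    exact hu2 rfl
  · intro d c x H hd _ hH
    rw [sum_const, nsmul_eq_mul]
    have hd0 : (0 : ℝ) < d := by exact_mod_cast hd
    have h5 := card_class (x := x) (H := H) (r := 4 * d) (c := c) (by omega)
    have hsq : 1 ≤ √(N : ℝ) := by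
      rw [Real.one_le_sqrt]
      exact hN1.le
    have hHd : (d : ℝ) ≤ H := by nlinarith
    have hφ : (d.totient : ℝ) ≤ d := by exact_mod_cast Nat.totient_le d
    have hφ0 : (0 : ℝ) < d.totient := by exact_mod_cast Nat.totient_pos.2 (by omega)
    have h6 : (H : ℝ) / ((4 * d : ℕ) : ℝ) + 1 ≤ 2 * H / d := by
      push_cast
      rw [le_div_iff₀ hd0]
      have : ((H : ℝ) / (4 * d) + 1) * d = H / 4 + d := by field_simp
      rw [this]
      have : (0 : ℝ) ≤ H := Nat.cast_nonneg H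
      linarith
    have h7 : 2 * (H : ℝ) / d ≤ 2 * H / d.totient := by gcongr
    calc (((Ioc x (x + H)).filter (fun u => u % (4 * d) = c)).card : ℝ) * (1 / Real.log N)
        ≤ (2 * H / d.totient) * (1 / Real.log N) := by
          gcongr
          exact h5.trans (h6.trans h7)
      _ = 2 * H / (d.totient * Real.log N) := by field_simp
  · intro i hi D₀ hD₀ hD₁
    have hi' : (i : ℝ) + 1 ≤ J := by exact_mod_cast hi
    have hi0 : (0 : ℝ) ≤ i := Nat.cast_nonneg i
    have e1 : L ≤ L * (1 + η * i / J) := by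
      have : 0 ≤ η * i / J := by positivity
      nlinarith
    have e2 : L * (1 + η * (i + 1) / J) ≤ (1 + η) * L := by
      have : η * ((i : ℝ) + 1) / J ≤ η := by
        rw [div_le_iff₀ hJ0]
        gcongr
      nlinarith
    have e3 : L * (1 + η * i / J) ≤ L * (1 + η * (i + 1) / J) := by
      gcongr
      linarith
    have hx0 : N ≤ ⌊L * (1 + η * i / J)⌋₊ := Nat.le_floor (hNL.trans e1)
    have hxy : ⌊L * (1 + η * i / J)⌋₊ ≤ ⌊L * (1 + η * (i + 1) / J)⌋₊ := Nat.floor_le_floor e3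
    have hy : ((⌊L * (1 + η * (i + 1) / J)⌋₊ : ℕ) : ℝ) ≤ 2 * L := by
      refine (Nat.floor_le (by positivity)).trans (e2.trans ?_)
      nlinarith
    have hbe : ∀ u ∈ pc L η J i, b u = lodd u := by
      intro u hu
      unfold pc at hu
      rw [mem_Ioc] at hu
      rw [hb]
      unfold cut
      rw [if_pos]
      constructor
      · exact lt_of_le_of_lt e1 ((Nat.floor_lt (by positivity)).1 hu.1)
      · exact ((Nat.le_floor_iff (by positivity)).1 hu.2).trans e2
    rw [Vd_div, Vd_congr hbe]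
    have hD2 : (D₀ : ℝ) ≤ √L := by
      refine hD₁.trans (Real.sqrt_le_sqrt ?_)
      exact div_le_self hL0.le hK1
    have h8 := hL₀ L ⌊L * (1 + η * i / J)⌋₊ ⌊L * (1 + η * (i + 1) / J)⌋₊ lodd (hNL₀.trans hNL) hy
      abs_lodd_le ?_ D₀ hD₀ hD2
    · unfold pc
      calc Vd (Ioc ⌊L * (1 + η * i / J)⌋₊ ⌊L * (1 + η * (i + 1) / J)⌋₊) lodd D₀ / Real.log N ^ 2
          ≤ (ϖ₃ / (J : ℝ) ^ 2 * L ^ 2) / Real.log N ^ 2 := by gcongr
        _ = _ := by ring
    · intro r c hr hrR
      have h9 := odd_class (r := r) (c := c) (δ := κ / 8) (X₀ := X₁)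
        (x := ⌊L * (1 + η * i / J)⌋₊) (y := ⌊L * (1 + η * (i + 1) / J)⌋₊) hr ?_ (by positivity)
        (by omega) hxy
      · refine h9.trans ?_
        have hx' : ((⌊L * (1 + η * i / J)⌋₊ : ℕ) : ℝ) ≤ 2 * L :=
          (by exact_mod_cast hxy : ((⌊L * (1 + η * i / J)⌋₊ : ℕ) : ℝ) ≤ _).trans hy
        nlinarith
      · intro c' hc' X hX
        exact hXX (2 * r) c' (by omega) X ((hXle (2 * r) c' (by omega) (by omega)).trans hX)

end Pool.Agent.Lib.MP391708.QPA.H
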