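import Pool.Agent.Lib.MP_391708_nt.QPA.Spec2
import Pool.Agent.Lib.MP_391708_nt.QPA.FIN

/-!
# QE1: the right order of prime values on one block (MP_391708_nt, QPA phase 3)

The case of one prime factor of `SpecQEK`, for `θ > 7/10`.
-/

set_option autoImplicit false

namespace Pool.Agent.Lib.MP391708.QPA.H

open Finset Filter Topology
open Pool.Agent.Lib.MP391708.QPA
open scoped Classical

/-- QE1 (from BLKK with `κ = 4/5`, P3M, F6, MODP, GMAX). -/
def SpecQE1 : Prop := ∀ θ : ℝ, 7 / 10 < θ → ∃ c : ℝ, 0 < c ∧ ∀ ε : ℝ, 0 < ε →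
  ∃ N₀ : ℕ, ∀ N A : ℕ, N₀ ≤ N → (N : ℝ) ^ θ ≤ A → A ≤ N →
  (((Icc (-(A : ℤ)) A).filter (fun a : ℤ => ¬ ∃ h : ℝ, 0 < h ∧
    Tendsto (fun X : ℕ => ∏ w ∈ (Finset.range (X + 1)).filter (fun w => Nat.Prime w ∧ w ≠ 2),
      (1 - (jacobiSym (-a) w : ℝ) / ((w : ℝ) - 1))) atTop (𝓝 h) ∧
    c * (h * (N / Real.log N)) ≤ (((Ioc N (2 * N)).filter (fun n : ℕ =>
      Nat.Prime ((n : ℤ) ^ 2 + a).natAbs)).card : ℝ))).card : ℝ) ≤ ε * A

theorem qe1_final {S G h L ε₁ M C c₀ : ℝ} (hL : 0 < L) (hc : 0 < c₀) (hh : c₀ ≤ h)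
    (hCS : C ≤ S) (hC : |C - G * M| ≤ ε₁ * L) (hG : |G - h| ≤ 1 / 20 * h)
    (hM : 3 / 8 * L ≤ M) (hε₁ : ε₁ ≤ c₀ / 20) : 1 / 4 * (h * L) ≤ S := by
  have hh0 : 0 < h := hc.trans_le hh
  have hG1 : 19 / 20 * h ≤ G := by
    have := (abs_le.1 hG).1
    linarith
  have e1 : 19 / 20 * h * (3 / 8 * L) ≤ G * M :=
    mul_le_mul hG1 hM (by positivity) (by linarith)
  have e2 : ε₁ * L ≤ h / 20 * L := mul_le_mul_of_nonneg_right (by linarith) hL.le
  have e3 := (abs_le.1 hC).1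
  have hhL : 0 < h * L := by positivity
  nlinarith

open FIN BLK in
theorem specQE1 (hBLK : SpecBLKK) (hP3 : SpecP3M) (hF6 : SpecF6) (hMODP : SpecMODP)
    (hP : SpecRHOP) (h2 : SpecRHO2) (hGmax : SpecGMAX) : SpecQE1 := by
  intro θ hθ
  refine ⟨1 / 4, by norm_num, fun ε hε => ?_⟩
  -- a lower bound for `h`
  obtain ⟨w1', hF1⟩ := hF6 (min (1 / 2) (ε / 8)) (lt_min (by norm_num) (by positivity))
  set w1 : ℕ := max w1' 2 with hw1
  obtain ⟨A1, hF1⟩ := hF1 w1 (le_max_left _ _)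
  obtain ⟨c1, hc1, hG1⟩ := hGmax w1 (le_max_right _ _)
  set c : ℝ := 2 / 3 * c1 with hc_def
  have hc : 0 < c := by positivity
  set ε₁ : ℝ := min (c / 20) (ε / 8) with hε₁
  have hε₁0 : 0 < ε₁ := lt_min (by positivity) (by positivity)
  -- the parameter `w`
  obtain ⟨w2', hF2⟩ := hF6 (min (1 / 20) (ε / 8)) (lt_min (by norm_num) (by positivity))
  obtain ⟨wB, hB⟩ := hBLK θ (4 / 5) ε₁ (by linarith) (by norm_num) le_rfl (by linarith) hε₁0
  set w : ℕ := max w2' wB with hw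
  obtain ⟨A2, hF2⟩ := hF2 w (le_max_left _ _)
  obtain ⟨NB, hB⟩ := hB w (le_max_right _ _)
  obtain ⟨NP, hP3⟩ := hP3 (4 / 5) (1 / 100) (by norm_num) le_rfl (by norm_num)
  obtain ⟨NM, hMP⟩ := hMODP (1 / 100) (by norm_num)
  obtain ⟨N₀, hN₀⟩ := eventually_atTop.1 ((ev_large θ (by linarith) A1).and
    ((ev_large θ (by linarith) A2).and ((eventually_ge_atTop NB).and
    ((eventually_ge_atTop NP).and ((eventually_ge_atTop NM).and (eventually_ge_atTop 3))))))
  refine ⟨N₀, fun N A hN hA1 hA2 => ?_⟩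
  obtain ⟨hlA1, hlA2, hNB, hNP, hNM, hN3⟩ := hN₀ N hN
  have hN1 : (1 : ℝ) < N := by exact_mod_cast (by omega : 1 < N)
  have hN0 : (0 : ℝ) < N := by linarith
  have hlog : 0 < Real.log N := Real.log_pos hN1
  have hlog1 : 1 ≤ Real.log N := by
    rw [Real.le_log_iff_exp_le hN0]
    have h3 : (3 : ℝ) ≤ N := by exact_mod_cast hN3
    exact (Real.exp_one_lt_d9.le.trans (by norm_num)).trans h3
  set L : ℝ := (N : ℝ) / Real.log N with hL_def
  have hL : 0 < L := by positivity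
  have hApos : (0 : ℝ) < A := (Real.rpow_pos_of_pos hN0 _).trans_le hA1
  have hA2' : (A : ℝ) ≤ N := by exact_mod_cast hA2
  set F : ℕ → ℝ := fun m => primeInd m - 2 * p3Ind (YK N (4 / 5)) m with hF
  have hF3 : ∀ (Y : ℝ) (m : ℕ), 0 ≤ p3Ind Y m := by
    intro Y m
    unfold p3Ind
    split_ifs <;> norm_num
  -- the model
  have hM : 3 / 8 * L ≤ model N F := by
    have h4 : model N F = model N primeInd - 2 * model N (p3Ind (YK N (4 / 5))) := by
      have h5 : F = fun m => primeInd m + (-2) * p3Ind (YK N (4 / 5)) m := by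
        funext m
        simp only [hF]
        ring
      rw [h5, model_add, model_smul]
      ring
    have h5 := hP3 N hNP
    have h6 := (abs_le.1 (hMP N hNM)).1
    have h7 : (N : ℝ) / (2 * Real.log N) = L / 2 := by
      rw [hL_def, div_div, mul_comm (2 : ℝ)]
    have h8 : (1 / 100 : ℝ) * N / Real.log N = 1 / 100 * L := by
      rw [hL_def, mul_div_assoc]
    rw [h7] at h5 h6
    rw [h8] at h6
    rw [h4]
    have h9 : ((3 * (4 / 5 : ℝ) - 2) ^ 2 / (6 * (4 / 5) ^ 2 * (1 - 4 / 5)) + 1 / 100)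
        = 131 / 600 := by norm_num
    rw [h9] at h5
    linarith
  -- the exceptional sets
  set B1 := (IA A).filter (fun a => ¬ ∃ h : ℝ, 0 < h ∧
    Tendsto (fun v : ℕ => Gw v a) atTop (𝓝 h) ∧ |Gw w1 a - h| ≤ min (1 / 2) (ε / 8) * h) with hB1
  set B2 := (IA A).filter (fun a => ¬ ∃ h : ℝ, 0 < h ∧
    Tendsto (fun v : ℕ => Gw v a) atTop (𝓝 h) ∧ |Gw w a - h| ≤ min (1 / 20) (ε / 8) * h) with hB2
  set B3 := (IA A).filter (fun a => ε₁ * (N : ℝ) / Real.log N <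
      |cnt N a F - Gw w a * model N F|) with hB3
  have hc1' : (B1.card : ℝ) ≤ ε / 8 * A :=
    (hF1 A (hlA1 A hA1)).trans (mul_le_mul_of_nonneg_right (min_le_right _ _) hApos.le)
  have hc2' : (B2.card : ℝ) ≤ ε / 8 * A :=
    (hF2 A (hlA2 A hA1)).trans (mul_le_mul_of_nonneg_right (min_le_right _ _) hApos.le)
  have hAdm : Adm θ N A := by
    refine ⟨hA1, hA2'.trans ?_⟩
    nlinarith
  have hc3' : (B3.card : ℝ) ≤ ε / 8 * A :=
    (hB N A hNB hAdm).trans (mul_le_mul_of_nonneg_right (min_le_right _ _) hApos.le)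
  -- the inclusion
  have hsub : (Icc (-(A : ℤ)) A).filter (fun a : ℤ => ¬ ∃ h : ℝ, 0 < h ∧
      Tendsto (fun X : ℕ => ∏ w ∈ (Finset.range (X + 1)).filter (fun w => Nat.Prime w ∧ w ≠ 2),
        (1 - (jacobiSym (-a) w : ℝ) / ((w : ℝ) - 1))) atTop (𝓝 h) ∧
      1 / 4 * (h * L) ≤ (((Ioc N (2 * N)).filter (fun n : ℕ =>
        Nat.Prime ((n : ℤ) ^ 2 + a).natAbs)).card : ℝ)) ⊆ B1 ∪ (B2 ∪ B3) := by
    intro a ha
    rw [Finset.mem_filter] at ha
    obtain ⟨haI, hno⟩ := ha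
    have haI' : a ∈ IA A := haI
    by_contra hcon
    rw [Finset.mem_union, Finset.mem_union] at hcon
    push Not at hcon
    obtain ⟨n1, n2, n3⟩ := hcon
    rw [hB1, Finset.mem_filter] at n1
    rw [hB2, Finset.mem_filter] at n2
    rw [hB3, Finset.mem_filter] at n3
    push Not at n1 n2 n3
    obtain ⟨h, hh0, hht, hh1⟩ := n1 haI'
    obtain ⟨h', hh0', hht', hh2⟩ := n2 haI'
    have heq : h' = h := tendsto_nhds_unique hht' hht
    rw [heq] at hh2
    have hh3 := n3 haI'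
    apply hno
    refine ⟨h, hh0, ?_, ?_⟩
    · refine hht.congr ?_
      intro X
      exact Gw_eq hP h2 X a
    · have hch : c ≤ h := by
        have h3 : |Gw w1 a - h| ≤ 1 / 2 * h :=
          hh1.trans (mul_le_mul_of_nonneg_right (min_le_left _ _) hh0.le)
        have h4 := (abs_le.1 h3).2
        have h5 := (hG1 a).1
        rw [hc_def]
        linarith
      have hcntF : cnt N a F ≤ (((Ioc N (2 * N)).filter (fun n : ℕ =>
          Nat.Prime ((n : ℤ) ^ 2 + a).natAbs)).card : ℝ) := by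
        rw [card_filter]
        push_cast
        unfold cnt
        refine sum_le_sum fun n _ => ?_
        have h6 := hF3 (YK N (4 / 5)) (val a n)
        have h7 : primeInd (val a n) = if Nat.Prime ((n : ℤ) ^ 2 + a).natAbs then 1 else 0 := rfl
        simp only [hF]
        rw [← h7]
        linarith
      refine qe1_final (G := Gw w a) (M := model N F) (C := cnt N a F) (ε₁ := ε₁) hL hc hch hcntF
        ?_ (hh2.trans (mul_le_mul_of_nonneg_right (min_le_left _ _) hh0.le)) hM (min_le_left _ _)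
      rw [hL_def, ← mul_div_assoc]
      exact hh3
  calc (((Icc (-(A : ℤ)) A).filter (fun a : ℤ => ¬ ∃ h : ℝ, 0 < h ∧
      Tendsto (fun X : ℕ => ∏ w ∈ (Finset.range (X + 1)).filter (fun w => Nat.Prime w ∧ w ≠ 2),
        (1 - (jacobiSym (-a) w : ℝ) / ((w : ℝ) - 1))) atTop (𝓝 h) ∧
      1 / 4 * (h * L) ≤ (((Ioc N (2 * N)).filter (fun n : ℕ =>
        Nat.Prime ((n : ℤ) ^ 2 + a).natAbs)).card : ℝ))).card : ℝ)
      ≤ ((B1 ∪ (B2 ∪ B3)).card : ℝ) := by exact_mod_cast Finset.card_le_card hsub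
    _ ≤ (B1.card : ℝ) + ((B2.card : ℝ) + (B3.card : ℝ)) := by
        have h3 := Finset.card_union_le B1 (B2 ∪ B3)
        have h4 := Finset.card_union_le B2 B3
        exact_mod_cast (by omega : (B1 ∪ (B2 ∪ B3)).card ≤ B1.card + (B2.card + B3.card))
    _ ≤ ε / 8 * A + (ε / 8 * A + ε / 8 * A) := by linarith
    _ ≤ ε * A := by nlinarith

end Pool.Agent.Lib.MP391708.QPA.H
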