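import Pool.Agent.Lib.MP_391708_nt.QPA.H.All
import Pool.Agent.Lib.MP_391708_nt.QPA.H.QE1

/-!
# QPA phase 3: exactly `k` prime factors for every `k ≥ 1`
-/

set_option autoImplicit false

namespace Pool.Agent.Lib.MP391708.QPA.H

open Finset Filter Topology
open Pool.Agent.Lib.MP391708.QPA

theorem all1 : SpecQE1 := by
  have hSELB := specSELB
  have hBT := specBT hSELB
  have hRSUM := specRSUM hBT
  have hFL := specFL
  have hQG := specQG
  have hRAV := specRAV hQG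
  have hSML := specSML specPVA
  have hLRG := specLRG specPVE
  have hGMAX := specGMAX specRHO2 specRHOP
  have hGMEAN := specGMEAN specRHO2 specRHOP
  have hEDGE := specEDGE hBT
  have hCOUNT := specCOUNT
  have hSEC := specSEC (specKER (specBIL specDLS) specPOI hCOUNT) hCOUNT
  have hBDH := specBDH specLS (specLR hSELB) hBT hRSUM
  have hBDHP : SpecBDHP := specBDHP hBDH hBT
  have hEQ := specEQ (specCHI specPNTAP) hRSUM
  have hMODP := specMODP (specPNT specPNTAP)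
  have hEUL := specEUL
  have hF6 := specF6 hEUL (specCONV hEUL specRHOP specRHO2) specPVA specPVE specRHOP specRHO2
  have hWINM := specWINM hBT hRSUM
  have hTIK := specTIK (specFLAK hFL specRHO1 specRHOM specRHOP specRHO2 specRHOS specRHOC)
    (specFLBK hFL) (specPRODK specRHOP specPVA) (specMOBK hSML hLRG specRHOD hRSUM)
    (specRHOMEANK hRAV hRSUM) hGMEAN hGMAX specWMER hRSUM
  have hTWOK := specTWOK hSEC (specFIRSTK hRAV hBT) hSELB
  have hBLK2K := specBLK2K hTWOK specWB hBDHP hEQ (specMTAK specRHOC specRHOM hRAV)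
    (specMTBK hSML hLRG hRAV specRHOD) specSHM hBT specFFB hGMAX hGMEAN
  have hTIIK := specTIIK hBLK2K hEDGE hBT specFFB hGMAX hGMEAN
  have hBLKK := specBLKK hTIK specT2K hTIIK (specWINK hSELB hQG hRSUM) hWINM (specNSFK hQG)
    specNSFM hGMEAN hGMAX
  exact specQE1 hBLKK (specP3M hMODP) hF6 hMODP specRHOP specRHO2 hGMAX

open scoped Classical in
/-- For every `k ≥ 1` (`θ > 7/10` for `k = 1`, `θ > 1/2` for `k ≥ 2`): for almost all `|a| ≤ A`,
`N ^ θ ≤ A ≤ N`, the integer `|n² + a|` is a product of exactly `k` different primes for at least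
`c h N / log N` of the `n ∈ (N, 2N]`. -/
theorem exactly (k : ℕ) (θ : ℝ) (hk : (k = 1 ∧ 7 / 10 < θ) ∨ (2 ≤ k ∧ 1 / 2 < θ)) :
    ∃ c : ℝ, 0 < c ∧ ∀ ε : ℝ, 0 < ε →
      ∃ N₀ : ℕ, ∀ N A : ℕ, N₀ ≤ N → (N : ℝ) ^ θ ≤ A → A ≤ N →
      (((Finset.Icc (-(A : ℤ)) A).filter (fun a : ℤ => ¬ ∃ h : ℝ, 0 < h ∧
        Tendsto (fun X : ℕ => ∏ w ∈ (Finset.range (X + 1)).filter (fun w => Nat.Prime w ∧ w ≠ 2),
          (1 - (jacobiSym (-a) w : ℝ) / ((w : ℝ) - 1))) atTop (𝓝 h) ∧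
        c * (h * (N / Real.log N)) ≤ (((Finset.Ioc N (2 * N)).filter (fun n : ℕ =>
          Squarefree ((n : ℤ) ^ 2 + a).natAbs ∧
          ((n : ℤ) ^ 2 + a).natAbs.primeFactors.card = k)).card : ℝ))).card : ℝ) ≤ ε * A := by
  rcases hk with ⟨rfl, hθ⟩ | ⟨hk, hθ⟩
  · obtain ⟨c, hc, h⟩ := all1 θ hθ
    refine ⟨c, hc, fun ε hε => ?_⟩
    obtain ⟨N₀, hN₀⟩ := h ε hε
    refine ⟨N₀, fun N A hN hA1 hA2 => le_trans ?_ (hN₀ N A hN hA1 hA2)⟩
    refine Nat.cast_le.2 (card_le_card fun a ha => ?_)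
    rw [mem_filter] at ha ⊢
    refine ⟨ha.1, fun hex => ha.2 ?_⟩
    obtain ⟨h, hh0, hlim, hcnt⟩ := hex
    refine ⟨h, hh0, hlim, hcnt.trans (Nat.cast_le.2 (card_le_card fun n hn => ?_))⟩
    rw [mem_filter] at hn ⊢
    exact ⟨hn.1, hn.2.prime.squarefree, by rw [hn.2.primeFactors, card_singleton]⟩
  · exact allH.2.1 k θ hk hθ

end Pool.Agent.Lib.MP391708.QPA.H
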