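import Pool.Agent.Lib.MP_391708_nt.QPA.Spec2

/-!
# Project QPA, phase 3: products of `k` primes and the Liouville function at `n² + a`, `A ≥ N^θ`, `θ > 1/2`

Part H: the modules of phase 2 with `1/2 < θ` in place of `3/5 < θ` (copies of landed proofs with small changes).
Part E: the number of `n` such that `|n² + a|` is a squarefree product of exactly `k` primes `≥ N^δ` and has a divisor in
`(N^α, N^β]`, for almost all `a` (`α ≥ 2/3`, `α > 3/2 - θ`).  For these numbers Type II information alone suffices.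
Part L: the Liouville function `λ`: `∑_n λ(n²+a) #{q prime : N^α < q ≤ N^β, q ∣ n²+a} = o(N)` for almost all `a`, hence both
signs of `λ(n²+a)` in a positive proportion.

Every module `XXX` is a file `QPA/H/XXX.lean` with `theorem specXXX (hYYY : SpecYYY) .. : SpecXXX` in the namespace
`Pool.Agent.Lib.MP391708.QPA.H`, its own lemmas in `Pool.Agent.Lib.MP391708.QPA.H.XXXM`.  The Specs of `QPA/Spec.lean`,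
`QPA/Spec2.lean` may be used as hypotheses, and every landed file of `QPA/` may be imported.
-/

set_option autoImplicit false

namespace Pool.Agent.Lib.MP391708.QPA.H

open Finset Filter Topology
open Pool.Agent.Lib.MP391708.QPA
open scoped Classical

noncomputable section

/-! ## Definitions -/

/-- indicator of the squarefree numbers with exactly `k` prime factors, all `≥ N^δ`, and with a divisor in `(N^α, N^β]` -/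
def EInd (N k : ℕ) (δ α β : ℝ) (m : ℕ) : ℝ :=
  if Squarefree m ∧ m.primeFactors.card = k ∧ Rough ((N : ℝ) ^ δ) m ∧
    ∃ d : ℕ, d ∣ m ∧ (N : ℝ) ^ α < d ∧ (d : ℝ) ≤ (N : ℝ) ^ β then 1 else 0

/-- the critical exponents, `x₀ = log A / log N` -/
def critE (α β x₀ : ℝ) : Finset ℝ := {α, β, x₀}

/-- the type `c` is good: for no nonempty subtype the interval of the sizes of the product meets `[x-e, x+e]`, `x` critical -/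
def GoodE (e2 e α β x₀ : ℝ) (c : Multiset ℕ) : Prop :=
  ∀ s : Multiset ℕ, s ≤ c → s ≠ 0 → ∀ x ∈ critE α β x₀,
    (x + e < e2 * (s.sum : ℝ)) ∨ (e2 * ((s.sum : ℝ) + (Multiset.card s : ℝ)) < x - e)

/-- the subtype `c₁` gives products in `[N^(α+e), N^(β-e)]` -/
def MidE (e2 e α β : ℝ) (c1 : Multiset ℕ) : Prop :=
  α + e ≤ e2 * (c1.sum : ℝ) ∧ e2 * ((c1.sum : ℝ) + (Multiset.card c1 : ℝ)) ≤ β - e

/-- the primes in `(N^α, N^β]` -/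
def PW (N : ℕ) (α β : ℝ) : Finset ℕ := (Ioc ⌊(N : ℝ) ^ α⌋₊ ⌊(N : ℝ) ^ β⌋₊).filter Nat.Prime

/-- the Liouville function as a real number -/
def lio (m : ℕ) : ℝ := (ArithmeticFunction.liouville m : ℝ)

/-- the Liouville function on odd numbers -/
def lodd (m : ℕ) : ℝ := if Odd m then lio m else 0

/-- for odd `m` the number of the primes in `(N^α, N^β]` that divide `m` -/
def om (N : ℕ) (α β : ℝ) (m : ℕ) : ℝ :=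
  if Odd m then (((PW N α β).filter (fun q => q ∣ m)).card : ℝ) else 0

/-! ## Part H: `θ > 1/2` -/

/-- FIRSTH (from RAV, BT): FIRST for every `θ > 1/2`. Copy `QPA/FIRSTK.lean`: use RAV with exponent `e = min (θ - 1/2) (1/4)`, so that
`k^(1/2+e) ≤ (2N)^(1/2+e) ≤ 2 N^θ ≤ 2A`. -/
def SpecFIRSTH : Prop := ∀ θ e0 : ℝ, 1 / 2 < θ → 0 < e0 → ∃ C : ℝ, 0 < C ∧ ∃ N₀ : ℕ, ∀ N A : ℕ, N₀ ≤ N →
  (N : ℝ) ^ θ ≤ A → ∀ K : ℝ, (N : ℝ) ^ (1 / 2 : ℝ) ≤ K → K ≤ N →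
    ∑ a ∈ IA A, ∑ k ∈ Ioc ⌊K⌋₊ ⌊5 / 4 * K⌋₊, rInd ((N : ℝ) ^ e0) k * (rho a k : ℝ)
      ≤ C * A * K / Real.log N

/-- TWOH (from SEC, FIRSTH, SELB): TWOK for `θ > 1/2`. Copy `QPA/TWOK.lean` (import it for `TwoK.params`, `TwoK.sizes`, which need only
`3/2 < θ + κ` and `2/3 ≤ κ`); the only use of `3/5 < θ` is in the call of FIRSTK (and `0 < θ`). -/
def SpecTWOH : Prop := ∀ θ κ e e0 B : ℝ, 1 / 2 < θ → 2 / 3 ≤ κ → 3 / 2 < θ + κ → 0 < e → 0 < e0 → 0 < B →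
  ∃ C : ℝ, 0 < C ∧ ∀ δ : ℝ, 0 < δ → ∃ N₀ : ℕ, ∀ N A : ℕ, N₀ ≤ N → Adm θ N A → ∀ K L : ℝ,
  (N : ℝ) ^ κ ≤ K → K ≤ (N : ℝ) ^ (1 - e) → (N : ℝ) ^ 2 / 2 ≤ K * L → K * L ≤ 5 * (N : ℝ) ^ 2 →
  ∀ α b : ℕ → ℝ, (∀ k, |α k| ≤ B * rInd ((N : ℝ) ^ e0) k) →
  (∀ k, α k ≠ 0 → K < (k : ℝ) ∧ (k : ℝ) ≤ 5 / 4 * K) →
  (∀ u, |b u| ≤ B) → (∀ u, b u ≠ 0 → Odd u ∧ L < (u : ℝ) ∧ (u : ℝ) ≤ 5 / 4 * L) →
  (∑ a ∈ IA A, |bil (8 * N) a α b|) ^ 2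
    ≤ C * ((A : ℝ) ^ 2 * K / (Real.log N) ^ 2) * (|Wsum K L b| + δ * L / (Real.log N) ^ 2)

/-- MTAH (from RHOC, RHOM, RAV): MTAK for `θ > 1/2`. Copy `QPA/MtaK.lean`; RAV with exponent `min (θ - 1/2) (1/10)` instead of `1/10`. -/
def SpecMTAH : Prop := ∀ (θ e e0 B δ η : ℝ) (w J : ℕ), 1 / 2 < θ → 0 < e → 0 < e0 → 0 < B → 0 < δ →
  0 < η → η ≤ 1 / 4 → 2 ≤ w → 1 ≤ J → ∃ N₀ : ℕ, ∀ N A : ℕ, N₀ ≤ N → Adm θ N A → ∀ K L : ℝ,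
  (N : ℝ) ^ (1 / 2 : ℝ) ≤ K → K ≤ (N : ℝ) ^ (1 - e) → (N : ℝ) ^ 2 / 2 ≤ K * L →
  K * L ≤ 5 * (N : ℝ) ^ 2 → ∀ α β : ℕ → ℝ, (∀ k, |α k| ≤ B * rInd ((N : ℝ) ^ e0) k) →
  (∀ k, α k ≠ 0 → K < (k : ℝ) ∧ (k : ℝ) ≤ 5 / 4 * K) → (∀ l, |β l| ≤ B) →
  ∑ a ∈ IA A, |bil (8 * N) a α (sharp w L η J β)
      - Gw w a * ∑ i ∈ range J, Dav L η J β i * ∑ k ∈ Ioc ⌊K⌋₊ ⌊5 / 4 * K⌋₊, α k * ((rho a k : ℝ) / k)
        * (√(k * (L * (1 + η * (i + 1) / J))) - √(k * (L * (1 + η * i / J))))|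
    ≤ δ * A * N / (Real.log N) ^ 2

/-- BKH (from SML, LRG): one dyadic block of a sum of the symbols `(-a|f)`. Copy `MTB.block` of `QPA/MTBa.lean` with `N^(1/2) ≤ A` in
place of `N^(3/5) ≤ A`, `σ = min e (min (t/2) (1/4))`. -/
def SpecBKH : Prop := ∀ e t : ℝ, 0 < e → 0 < t → ∃ C : ℝ, 0 < C ∧ ∃ σ : ℝ, 0 < σ ∧
  ∀ (N A E : ℕ) (g : ℕ → ℝ) (D : ℝ), 2 ≤ N → 1 ≤ E → 0 ≤ D →
  (N : ℝ) ^ (1 / 2 : ℝ) ≤ A → (A : ℝ) ≤ (N : ℝ) ^ 2 → (∀ f, 0 ≤ g f) →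
  (∀ f : ℕ, 1 ≤ f → g f ≤ D / f) → (∀ f, g f ≠ 0 → Odd f ∧ Squarefree f) →
  (∀ f, g f ≠ 0 → 1 < f → (N : ℝ) ^ e ≤ f ∧
    ((A : ℝ) * (N : ℝ) ^ t ≤ f ∨ (f : ℝ) ≤ A * (N : ℝ) ^ (-t))) →
  ∑ a ∈ IA A, (∑ f ∈ Ioc E (2 * E), g f * (jacobiSym (-a) f : ℝ)) ^ 2
    ≤ C * D ^ 2 * A * (N : ℝ) ^ (-σ)

/-- MTBH (from BKH, RAV, RHOD): MTBK for `θ > 1/2`. Copy `QPA/MTB.lean` (import it for `MTB.nsf_card`, `MTB.divisor_size`, `MTB.pow_large`,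
`MTB.cf`, `MTB.expand`, ...): `nonsqf` with RAV at the exponent `min (θ - 1/2) (1/10)` and `N^θ ≤ A`, `block` replaced by BKH. -/
def SpecMTBH : Prop := ∀ (θ e e0 δ η : ℝ) (Q : ℕ) (c : Multiset ℕ), 1 / 2 < θ → 0 < e → 0 < e0 →
  e0 ≤ 1 / 10 → 0 < δ → 0 < η → η ≤ 1 / 4 → 1 ≤ Q → (∀ i ∈ c, Q ≤ i) → ∃ N₀ : ℕ, ∀ N A : ℕ, N₀ ≤ N →
  Adm θ N A → NearA N A (e0 / Q) e c → ∀ K : ℝ, (N : ℝ) ^ (1 / 2 : ℝ) ≤ K → K ≤ (N : ℝ) ^ (1 - e) →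
    ∑ a ∈ IA A, |∑ k ∈ Ioc ⌊K⌋₊ ⌊(1 + η) * K⌋₊, FF N (e0 / Q) c k * ((rho a k : ℝ) - 1) / √(k : ℝ)|
      ≤ δ * A * √K / (Real.log N) ^ 2

/-- BLK2H (from TWOH, WB, BDHP, EQ, MTAH, MTBH, SHM, BT, FFB, GMAX, GMEAN): as `specBLK2K` at the end of `QPA/BLK2.lean`; `BLK2.core`
needs only `2/3 ≤ κ`, `0 < θ` and the conclusions of TWOH, MTAH, MTBH for the given parameters. -/
def SpecBLK2H : Prop := ∀ (θ κ e e0 η ϖ : ℝ) (Q : ℕ) (c₁ c₂ : Multiset ℕ), 1 / 2 < θ → 2 / 3 ≤ κ →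
  3 / 2 < θ + κ → 0 < e → 0 < e0 →
  e0 ≤ 1 / 10 → 0 < η → η ≤ 1 / 4 → 0 < ϖ → 1 ≤ Q → (∀ i ∈ c₁, Q ≤ i) → (∀ i ∈ c₂, Q ≤ i) → c₂ ≠ 0 →
  ∃ w₀ : ℕ, ∀ w : ℕ, w₀ ≤ w → ∃ N₀ : ℕ, ∀ N A : ℕ, N₀ ≤ N → Adm θ N A → NearA N A (e0 / Q) e c₁ →
  ∀ K L : ℝ, (N : ℝ) ^ κ ≤ K → K ≤ (N : ℝ) ^ (1 - e) → (N : ℝ) ^ 2 / 2 ≤ K * L →
  K * L ≤ 5 * (N : ℝ) ^ 2 →
  ∑ a ∈ IA A, |bil (8 * N) a (cut K ((1 + η) * K) (fun m => FF N (e0 / Q) c₁ m))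
        (cut L ((1 + η) * L) (fun m => FF N (e0 / Q) c₂ m))
      - Gw w a * ∑ k ∈ Ioc ⌊K⌋₊ ⌊(1 + η) * K⌋₊, ∑ l ∈ Ioc ⌊L⌋₊ ⌊(1 + η) * L⌋₊,
          FF N (e0 / Q) c₁ k * FF N (e0 / Q) c₂ l / (2 * √((k : ℝ) * l))|
    ≤ ϖ * A * N / (Real.log N) ^ 2

/-- TIIH (from BLK2H, EDGE, BT, FFB, GMAX, GMEAN): TIIK for `θ > 1/2`. Copy `TII.core`, `TII.core0` and `specTIIK` of `QPA/TII.lean` (import it for
all the other lemmas) with `1/2 < θ`. -/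
def SpecTIIH : Prop := ∀ (θ κ e e0 ϖ : ℝ) (Q : ℕ) (c₁ c₂ : Multiset ℕ), 1 / 2 < θ → 2 / 3 ≤ κ →
  3 / 2 < θ + κ → 0 < e → 0 < e0 → e0 ≤ 1 / 10 → 0 < ϖ → 1 ≤ Q → (∀ i ∈ c₁, Q ≤ i) →
  (∀ i ∈ c₂, Q ≤ i) → MidK κ (e0 / Q) e c₁ →
  ∃ w₀ : ℕ, ∀ w : ℕ, w₀ ≤ w → ∃ N₀ : ℕ, ∀ N A : ℕ, N₀ ≤ N → Adm θ N A → NearA N A (e0 / Q) e c₁ →
  ∑ a ∈ IA A, |cnt N a (fun m => FF N (e0 / Q) (c₁ + c₂) m)
      - Gw w a * model N (fun m => FF N (e0 / Q) (c₁ + c₂) m)| ≤ ϖ * A * N / Real.log N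

/-- WINH (from SELB, QG, RSUM): WINK for `θ > 1/2`. Copy `WIN.main` of `QPA/WIN.lean` (import it for `WIN.core` etc.) with
`τ = min (θ - 1/2) (1/10)`: QG with exponent `τ/10`, sieve level `y = N^(e0 τ/2)`, so `y² ≤ N^(τ/10)`, `q ≤ 3 N^(1+τ/10) ≤ N²`,
`q^(τ/10) ≤ N^(τ/5)`, `√q ≤ 2 N^(1/2+τ/20)`; the errors add up to at most `10 C_Q N^(3/2+7τ/20)`, which times `log N` is at most
a small multiple of `N^(3/2+τ) ≤ A N`; the main term is `C/(e0 τ)` times the same quantity, so `C` depends on `θ`. -/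
def SpecWINH : Prop := ∀ θ : ℝ, 1 / 2 < θ → ∃ C : ℝ, 0 < C ∧ ∀ e0 e : ℝ, 0 < e0 → e0 ≤ 1 / 10 →
  0 < e → e ≤ 1 / 10 → ∃ N₀ : ℕ, ∀ N A : ℕ, N₀ ≤ N → Adm θ N A → ∀ x : ℝ, 1 / 2 ≤ x → x ≤ 3 / 2 →
    ∑ a ∈ IA A, cnt N a (fun m => if Rough ((N : ℝ) ^ e0) m ∧ Win N x e m then 1 else 0)
      ≤ C * (e / e0 ^ 2) * A * N / Real.log N

/-- NSFH (from QG): NSFK for `θ > 1/2`. Copy `QPA/NSFK.lean` with `τ = min (θ - 1/2) (1/2)`, `B = N^(3/4+τ/4)` (so `B² = N^(3/2+τ/2)`),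
QG with exponent `τ/20`: the small `p` give `≤ C N^(τ/10) (N (1+log N) + B²) ≤ C' N^(3/2+3τ/5+small)`, less than `N^(3/2+τ) ≤ A N`; the large
`p` give `≤ C A x²`, `x = N²/B² = N^(1/2-τ/2)`, and `x² log N` is less than a small multiple of `N`. -/
def SpecNSFH : Prop := ∀ θ e0 δ : ℝ, 1 / 2 < θ → 0 < e0 → 0 < δ → ∃ N₀ : ℕ, ∀ N A : ℕ, N₀ ≤ N →
  Adm θ N A → ∑ a ∈ IA A, cnt N a (fun m => if NSq ((N : ℝ) ^ e0) m then 1 else 0)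
    ≤ δ * A * N / Real.log N

/-! ## Part E: products of `k` primes -/

/-- MER: Mertens' theorem for the primes in `(N^α, N^β]`. `∑_{a<p≤b} log p/p = log(b/a) + O(1)` (upper bound `P3M.mert`; lower bound
from `P3M.le_G`, `P3M.G_le` in `QPA/P3M.lean`, the prime powers cost `O(1)`). Cut `[α, β]` into `J` equal pieces `[u_i, u_(i+1)]`: on a piece
`1/p = (log p/p)/log p` with `u_i log N ≤ log p ≤ u_(i+1) log N`, so the sum of `1/p` over the piece is between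
`((u_(i+1)-u_i) log N - C)/(u_(i+1) log N)` and `((u_(i+1)-u_i) log N + C)/(u_i log N)`; compare with
`log(u_(i+1)/u_i)`, take `J` large and then `N` large. -/
def SpecMER : Prop := ∀ α β ε : ℝ, 0 < α → α < β → 0 < ε → ∃ N₀ : ℕ, ∀ N : ℕ, N₀ ≤ N →
  |∑ p ∈ PW N α β, 1 / (p : ℝ) - Real.log (β / α)| ≤ ε

/-- T2E (from FFB): the combinatorial identity. As T2K (`QPA/T2K.lean`, import `QPA/T2.lean` for `T2.typ`, `T2.fam`, `T2.sum_types`, `T2.FF_typ`,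
`T2.vf`, `T2.exists_sub`, `T2.prod_bounds`, `T2.length_le`, ...), but without `psiK` and `p3Ind`. `t c = 1/T2.vf c` if `card c = k` and `c` has a subtype
`c₁` with `MidE (δ/Q) e α β c₁`, else `0`; `Q = ⌈3/e⌉` is so large that the types of the numbers `≤ 5N²` have at most `3/δ` elements and
`(δ/Q)(3/δ) ≤ e`. Not rough: both sides vanish. Rough, not squarefree: `NSq`. Squarefree and rough of a bad type: `Win` (as `T2K.bad_type`).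
Squarefree and rough of a good type `c`: `FF c m = T2.vf c`, and `m` has a divisor `d = ∏_{p∈S} p` in `(N^α, N^β]` if and only if `c` has a subtype
`MidE`: for the subtype `s` of `S` one has `N^(e₂ Σs) ≤ d ≤ N^(e₂(Σs + card s))`, `s ≠ 0` as `d > 1`, and goodness at `α` and
`β` gives `α + e < e₂ Σs`, `e₂(Σs + card s) < β - e`; conversely `MidE` gives `N^(α+e) ≤ d ≤ N^(β-e)`. -/
def SpecT2E : Prop := ∀ (k : ℕ) (δ α β : ℝ), 0 < δ → δ ≤ 1 / 10 → 1 / 2 ≤ α → α < β → β ≤ 1 →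
  ∃ C : ℝ, 0 < C ∧ ∀ e : ℝ, 0 < e → e ≤ 1 / 40 →
  ∃ Q : ℕ, 1 ≤ Q ∧ ∃ (T : Finset (Multiset ℕ)) (t : Multiset ℕ → ℝ), (∀ c ∈ T, ∀ i ∈ c, Q ≤ i) ∧
  (∀ c ∈ T, |t c| ≤ C) ∧ ∃ N₀ : ℕ, ∀ N : ℕ, N₀ ≤ N → ∀ x₀ : ℝ, 1 / 2 ≤ x₀ → x₀ ≤ 5 / 4 →
  (∀ m : ℕ, (N : ℝ) ^ 2 / 2 ≤ m → (m : ℝ) ≤ 5 * (N : ℝ) ^ 2 →
    |EInd N k δ α β m
        - ∑ c ∈ T.filter (fun c => GoodE (δ / Q) e α β x₀ c), t c * FF N (δ / Q) c m|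
      ≤ C * ((if Rough ((N : ℝ) ^ δ) m ∧ NSq ((N : ℝ) ^ δ) m then 1 else 0)
        + ∑ x ∈ critE α β x₀, if Rough ((N : ℝ) ^ δ) m ∧ Win N x (2 * e) m then 1 else 0)) ∧
  (∀ c ∈ T, GoodE (δ / Q) e α β x₀ c → t c ≠ 0 → ∃ c₁ : Multiset ℕ, c₁ ≤ c ∧ MidE (δ / Q) e α β c₁)

/-- BLKE (from T2E, TIIH, WINH, WINM, NSFH, NSFM, GMEAN, GMAX): as BLKK (`QPA/BLKK.lean`) without the Type I part (`P = 0` in
`BLKK.pointwise`), with `e0 = δ`, `κ = α` (`MidE (δ/Q) e α β c₁` implies `MidK α (δ/Q) e c₁` as `β ≤ 1`), `x₀ = logb N A ∈ [1/2, 5/4]`, and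
goodness at `x₀` gives `NearA`. -/
def SpecBLKE : Prop := ∀ (k : ℕ) (θ δ α β ε : ℝ), 1 / 2 < θ → 0 < δ → δ ≤ 1 / 10 → 2 / 3 ≤ α →
  3 / 2 < θ + α → α < β → β ≤ 1 → 0 < ε →
  ∃ w₀ : ℕ, ∀ w : ℕ, w₀ ≤ w → ∃ N₀ : ℕ, ∀ N A : ℕ, N₀ ≤ N → Adm θ N A →
    (((IA A).filter (fun a => ε * N / Real.log N <
      |cnt N a (EInd N k δ α β) - Gw w a * model N (EInd N k δ α β)|)).card : ℝ) ≤ ε * A

/-- FINE (from BLKE, F6, BT, RHOP, RHO2, GMAX): as `specFINK` in `QPA/FINK.lean` (import `QPA/FIN.lean` for `FIN.Gw_eq`, `FIN.ev_large`),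
simpler: one block, no dyadic sum. (i) `h ≥ c` for all but `εA/4` of the `a`: F6 with `δ = 1/2` for one fixed `w₁` and `G_{w₁}(a) ≥ c₁`.
(ii) `model N E ≤ model N (rInd (N^δ)) ≤ C N/log N` by BT. (iii) `|cnt - h model| ≤ |cnt - G_w model| + |G_w - h| model`, BLKE with
`ε₁ = ε c/4` (and `≤ ε/4`), F6 with a `δ'`, `δ' C ≤ ε/4`. -/
def SpecFINE : Prop := ∀ (k : ℕ) (θ δ α β ε : ℝ), 1 / 2 < θ → 0 < δ → δ ≤ 1 / 10 → 2 / 3 ≤ α →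
  3 / 2 < θ + α → α < β → β ≤ 1 → 0 < ε →
  ∃ N₀ : ℕ, ∀ N A : ℕ, N₀ ≤ N → (N : ℝ) ^ θ ≤ A → A ≤ N →
  (((Icc (-(A : ℤ)) A).filter (fun a : ℤ => ¬ ∃ h : ℝ, 0 < h ∧
    Tendsto (fun X : ℕ => ∏ w ∈ (range (X + 1)).filter (fun w => Nat.Prime w ∧ w ≠ 2),
      (1 - (jacobiSym (-a) w : ℝ) / ((w : ℝ) - 1))) atTop (𝓝 h) ∧
    |cnt N a (EInd N k δ α β) - h * model N (EInd N k δ α β)| ≤ ε * (h * (N / Real.log N)))).card : ℝ)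
    ≤ ε * A

/-- E2M (from PNT, MER): the model sum for products of two primes. Up to `m` outside a bounded set of exceptions (see E2V) the
sum is `∑_{p ∈ PW N α β} ∑_{q prime, N² < pq ≤ 4N²} 1/(2√(pq))`. For given `p` put `x = N²/p ≥ N^(2-β)`: by PNT (boundedly many intervals
`(x(1+η)^i, x(1+η)^(i+1)]`, as in `QPA/MODP.lean`) the inner sum is `(1/(2√p)) (2√(4x) - 2√x)/log x (1+o(1)) = (N/p)/log(N²/p) (1+o(1))`. So the model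
sum is `(N/log N) ∑_p (1/p)/(2 - log p/log N) (1+o(1))`; cut `[α,β]` into `J` equal pieces, MER on every piece: the sum over
`p ∈ (N^u, N^v]` is between `log(v/u)/(2-u)` and `log(v/u)/(2-v)` up to `o(1)`; with `F(u) = (1/2) log(u/(2-u))`, `F' = 1/(u(2-u))`,
the sum over the pieces tends to `F(β) - F(α)` as `J → ∞`. -/
def SpecE2M : Prop := ∀ α β ε : ℝ, 1 / 2 < α → α < β → β < 1 → 0 < ε → ∃ N₀ : ℕ, ∀ N : ℕ, N₀ ≤ N →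
  |model N (EInd N 2 (1 / 10) α β)
      - 1 / 2 * Real.log (β * (2 - α) / (α * (2 - β))) * (N / Real.log N)| ≤ ε * (N / Real.log N)

/-- E2V: for `N` large and `m ∈ [N²/2, 5N²]` the numbers counted by `EInd N 2 (1/10) α β` are the products `pq` of two primes with
`N^α < p ≤ N^β`. If `m = pq` is squarefree then its divisors are `1, p, q, m`; `1 ≤ N^α` and `m > N^β` are excluded. Conversely
`q = m/p ≥ N^(2-β)/2 > N^β ≥ p` (`β < 1`), so `p ≠ q` and both are `≥ N^(1/10)`. -/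
def SpecE2V : Prop := ∀ α β : ℝ, 1 / 2 < α → α < β → β < 1 → ∃ N₀ : ℕ, ∀ N m : ℕ, N₀ ≤ N →
  (N : ℝ) ^ 2 / 2 ≤ m → (m : ℝ) ≤ 5 * (N : ℝ) ^ 2 →
  EInd N 2 (1 / 10) α β m = if ∃ p q : ℕ, p.Prime ∧ q.Prime ∧ m = p * q ∧ (N : ℝ) ^ α < p ∧
    (p : ℝ) ≤ (N : ℝ) ^ β then 1 else 0

/-- EKM (from PNT, MER): lower bound of the model sum. Take `δ = 1/(10k)`, primes `p ∈ PW N α β`, primes
`q_i ∈ (N^(δ(1 + i/k)), N^(δ(1+(i+1)/k))]` for `1 ≤ i ≤ k-2` (disjoint ranges, all `≤ N^(2δ) ≤ N^(1/10)`, so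
`P = p ∏ q_i ≤ N^(β+1/5) ≤ N^(6/5)`), and a prime `r` with `N² < P r ≤ 4N²`, so `r ≥ N^(4/5)`; (if `k = 2` there are no `q_i`). The
tuples with `r = p` are at most `N^(6/5)`; the `m = P r` with `r ≠ p` are counted by `EInd`, and a given `m` comes from at most two of the
tuples (only `p` and `r` may be exchanged). By PNT `∑_r 1 ≥ c N²/(P log N)`, and `∑_P 1/P = ∏ (∑ 1/q) ≥ c` by MER. Divide by
`2√m ≤ 4N`. -/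
def SpecEKM : Prop := ∀ (k : ℕ) (α β : ℝ), 2 ≤ k → 1 / 2 < α → α < β → β < 1 → ∃ δ : ℝ, 0 < δ ∧ δ ≤ 1 / 10 ∧
  ∃ c : ℝ, 0 < c ∧ ∃ N₀ : ℕ, ∀ N : ℕ, N₀ ≤ N → c * (N / Real.log N) ≤ model N (EInd N k δ α β)

/-- QE2 (from FINE with `k = 2`, E2M, E2V): the asymptotic formula for products of two primes. (`val a n ∈ [N²/2, 5N²]` for `N < n ≤ 2N`,
`|a| ≤ A ≤ N`, `N` large.) -/
def SpecQE2 : Prop := ∀ θ α β ε : ℝ, 1 / 2 < θ → 2 / 3 ≤ α → 3 / 2 < θ + α → α < β → β < 1 → 0 < ε →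
  ∃ N₀ : ℕ, ∀ N A : ℕ, N₀ ≤ N → (N : ℝ) ^ θ ≤ A → A ≤ N →
  (((Icc (-(A : ℤ)) A).filter (fun a : ℤ => ¬ ∃ h : ℝ, 0 < h ∧
    Tendsto (fun X : ℕ => ∏ w ∈ (range (X + 1)).filter (fun w => Nat.Prime w ∧ w ≠ 2),
      (1 - (jacobiSym (-a) w : ℝ) / ((w : ℝ) - 1))) atTop (𝓝 h) ∧
    |(((Ioc N (2 * N)).filter (fun n : ℕ => ∃ p q : ℕ, p.Prime ∧ q.Prime ∧
          ((n : ℤ) ^ 2 + a).natAbs = p * q ∧ (N : ℝ) ^ α < p ∧ (p : ℝ) ≤ (N : ℝ) ^ β)).card : ℝ)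
        - 1 / 2 * Real.log (β * (2 - α) / (α * (2 - β))) * (h * (N / Real.log N))|
      ≤ ε * (h * (N / Real.log N)))).card : ℝ) ≤ ε * A

/-- QEK (from FINE, EKM): for every `k ≥ 2` the values with exactly `k` prime factors, in the right order of magnitude. Take
`α = max (2/3) (3/2 - θ) + small < 1` (`θ > 1/2`), any `β ∈ (α, 1)`, FINE with `ε' = min ε (c/2)`. -/
def SpecQEK : Prop := ∀ (k : ℕ) (θ : ℝ), 2 ≤ k → 1 / 2 < θ → ∃ c : ℝ, 0 < c ∧ ∀ ε : ℝ, 0 < ε →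
  ∃ N₀ : ℕ, ∀ N A : ℕ, N₀ ≤ N → (N : ℝ) ^ θ ≤ A → A ≤ N →
  (((Icc (-(A : ℤ)) A).filter (fun a : ℤ => ¬ ∃ h : ℝ, 0 < h ∧
    Tendsto (fun X : ℕ => ∏ w ∈ (range (X + 1)).filter (fun w => Nat.Prime w ∧ w ≠ 2),
      (1 - (jacobiSym (-a) w : ℝ) / ((w : ℝ) - 1))) atTop (𝓝 h) ∧
    c * (h * (N / Real.log N)) ≤ (((Ioc N (2 * N)).filter (fun n : ℕ =>
      Squarefree ((n : ℤ) ^ 2 + a).natAbs ∧
      ((n : ℤ) ^ 2 + a).natAbs.primeFactors.card = k)).card : ℝ))).card : ℝ) ≤ ε * A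

/-! ## Part L: the Liouville function -/

/-- LAMX (from PNTAP): the Liouville function has mean value `0` in every residue class. Write `S_c(x) = ∑_{u≤x, u≡c (q)} λ(u)`.
(a) `gcd(c,q) = 1`. `log u = ∑_{d∣u} Λ(d)` and `λ` is completely multiplicative, so
`∑_{u≤x,u≡c} λ(u) log u = ∑_{m≤x,(m,q)=1} λ(m) ∑_{d≤x/m, d≡c m⁻¹} λ(d) Λ(d)`. As `λ(p) = -1` and the prime powers cost
`O(√y log y)`, PNTAP gives `∑_{d≤y,d≡b} λ(d)Λ(d) = -y/φ(q) + o(y)`. So the sum is `-(x/φ(q)) ∑_{m≤x,(m,q)=1} λ(m)/m + o(x log x)`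
(the `m` with `x/m` bounded cost `O(x)`: `∑_{d≤y}Λ(d) ≤ Cy` by Chebyshev, `∑_{x/B<m≤x} x/m ≤ C x log B`; better: `|error(y)| ≤ εy + C_ε`,
and `∑_{m≤x} (εx/m + C_ε) ≤ εx(1+log x) + C_ε x`). `T(x) = ∑_{m≤x,(m,q)=1} λ(m)/m` is bounded: `∑_{d∣n,(d,q)=1} λ(d)` is `1` if the part of
`n` prime to `q` is a square and `0` otherwise, so it is in `[0,1]`, and `∑_{m≤x,(m,q)=1} λ(m)⌊x/m⌋ ∈ [0,x]`, hence `|T(x)| ≤ 2`. So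
`∑_{u≤x,u≡c}λ(u) log u = o(x log x)`, and `∑_{u≤x,u≡c} λ(u) (log x - log u) = O(x)` (`∑_{u≤x} log(x/u) ≤ x`); hence `S_c(x) = o(x)`.
(b) `g = gcd(c,q)`: `u = g u'`, `u' ≡ c/g (mod q/g)`, `λ(u) = λ(g)λ(u')`. -/
def SpecLAMX : Prop := ∀ (q c : ℕ) (ε : ℝ), 1 ≤ q → 0 < ε → ∃ X₀ : ℕ, ∀ X : ℕ, X₀ ≤ X →
  |∑ u ∈ (Icc 1 X).filter (fun u => u % q = c), lio u| ≤ ε * X

/-- BDHB: the dispersion of a bounded function. `S(x) = ∑_u b_u e(ux)`. `∑_{c mod q} |∑_{u≡c(q)} b_u|² = (1/q) ∑_{h mod q} |S(h/q)|²`; sort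
the `h/q` by the denominator `r ∣ q`: with `q = 4d` the sum over `D₀ < d ≤ 2D₀` is `≤ ∑_{r≤8D₀} (3/r) ∑*_{h mod r} |S(h/r)|²`
(`∑_{q ∈ (4D₀,8D₀], r∣q} 1/q ≤ (4D₀/r + 1)/(4D₀) ≤ 3/r`). `r ≤ R`: `|S(h/r)| ≤ ∑_{c mod r} |∑_{u≡c(r)} b_u| ≤ rκL`, in total `≤ 3R³κ²L²`.
`R < r ≤ 8D₀`: dyadic blocks `(R', 2R']`: the fractions are `1/(4R'²)`-separated, the large sieve
(`Pool.Agent.Lib.MP_cb27ba_nt.H71.large_sieve` in `Lib/MP_cb27ba_nt/H71/LS.lean`) gives `≤ (3/R')(4R'² + 4π·2L)·2L ≤ C(L²/R' + R'L)`; the sum over the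
blocks is `≤ C(L²/R + D₀L) ≤ ϖL²/2` as `D₀ ≤ √L`. -/
def SpecBDHB : Prop := ∀ ϖ : ℝ, 0 < ϖ → ∃ R : ℕ, ∃ κ : ℝ, 0 < κ ∧ ∃ L₀ : ℝ,
  ∀ (L : ℝ) (x y : ℕ) (b : ℕ → ℝ), L₀ ≤ L → (y : ℝ) ≤ 2 * L → (∀ u, |b u| ≤ 1) →
  (∀ r c : ℕ, 1 ≤ r → r ≤ R → |∑ u ∈ (Ioc x y).filter (fun u => u % r = c), b u| ≤ κ * L) →
  ∀ D₀ : ℕ, 1 ≤ D₀ → (D₀ : ℝ) ≤ √L → Vd (Ioc x y) b D₀ ≤ ϖ * L ^ 2

/-- WBL (from WB, BDHB, LAMX). Apply WB with `B = 2` to `b' = b/log N`, `b = cut L ((1+η)L) lodd`, and `s = 1/log N` (constant): the number of the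
`u ≡ c (mod 4d)` in `(x, x+H]` is `≤ H/(4d) + 1 ≤ 2H/d`; `Vd (pc ..) b' D₀ = Vd (pc ..) b D₀/log²N ≤ (ϖ₃/J²) L²/log²N` by BDHB with
`ϖ₃/J²` in place of `ϖ` (`√(L/K) ≤ √L`; on `pc L η J i ⊆ (L,(1+η)L]` the function `b` is `lodd`, and the sums of `lodd` over the classes modulo `r ≤ R` are
differences of two prefix sums, at most two classes modulo `2r` each: LAMX). `Wsum` is a quadratic form: `Two.Wsum_div` in `QPA/Two.lean`. -/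
def SpecWBL : Prop := ∀ ϖ e η : ℝ, 0 < ϖ → 0 < e → 0 < η → η ≤ 1 / 4 → ∃ N₀ : ℕ, ∀ (N : ℕ) (K L : ℝ), N₀ ≤ N →
  1 ≤ K → K ≤ L → (N : ℝ) ≤ L → (N : ℝ) ^ 2 / 2 ≤ K * L → K * L ≤ 5 * (N : ℝ) ^ 2 → (N : ℝ) ^ e ≤ √(L / K) →
  √(L / K) ≤ (N : ℝ) ^ (2 / 5 : ℝ) → |Wsum K L (cut L ((1 + η) * L) lodd)| ≤ ϖ * L

/-- BLKL (from TWOH, WBL): one block. TWOH with `B = 1`, `δ = 1`: `(∑_a |bil|)² ≤ C (A²K/log²N)(|Wsum| + L/log²N) ≤ C(A²K/log²N)·2ϖ'L` for `N`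
large, and `KL ≤ 5N²`; take `10Cϖ' ≤ ϖ²`. The sizes for WBL: `BLK2.geo` in `QPA/BLK2.lean`. -/
def SpecBLKL : Prop := ∀ θ κ e e0 η ϖ : ℝ, 1 / 2 < θ → 2 / 3 ≤ κ → 3 / 2 < θ + κ → 0 < e → 0 < e0 →
  0 < η → η ≤ 1 / 4 → 0 < ϖ → ∃ N₀ : ℕ, ∀ N A : ℕ, N₀ ≤ N → Adm θ N A → ∀ K L : ℝ,
  (N : ℝ) ^ κ ≤ K → K ≤ (N : ℝ) ^ (1 - e) → (N : ℝ) ^ 2 / 2 ≤ K * L → K * L ≤ 5 * (N : ℝ) ^ 2 →
  ∀ g : ℕ → ℝ, (∀ k, |g k| ≤ rInd ((N : ℝ) ^ e0) k) →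
  (∀ k, g k ≠ 0 → K < (k : ℝ) ∧ (k : ℝ) ≤ 5 / 4 * K) →
  ∑ a ∈ IA A, |bil (8 * N) a g (cut L ((1 + η) * L) lodd)| ≤ ϖ * A * N / Real.log N

/-- TOTL (from BLKL): the sum of the Liouville function with the weight `om`. `conv (1_{PW N α β}) lodd m = -λ(m) om(m)` for all `m`
(`m` even: `m/q` is even). Decompose into blocks as in `TII.core` of `QPA/TII.lean` (import it: `TII.conv_sum`, `TII.cut_tele`, `TII.SI`,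
`TII.card_SI`, `TII.bd_of`, `TII.En_of`, `TII.card_En`, `TII.int_cnt`), with `κ = α`, `e = 1-β`, `g = 1_{PW N α β}`, `f = lodd`. Interior blocks: BLKL
with `ϖ = ε/(4 CN)`, `CN log N` of them (`f` is taken as `lodd` restricted to `1 < u ≤ 5N²`; for `val ∈ [N²/2, 5N²]` and
`q ≤ N^β` the cofactor `val/q` is in this range). The other blocks: only `n ∈ En N η` contribute (at most `10ηN` of them), and for every `n` the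
terms of the other blocks add up to at most `∑_{q∣val} 1 ≤ 2` in absolute value: three different primes `> N^(2/3)` cannot divide
`val ≤ 5N²` (`3α > 2`), and every pair `(q, val/q)` lies in exactly one block. Take `η` with `20η·3 ≤ ε/2`. -/
def SpecTOTL : Prop := ∀ θ α β ε : ℝ, 1 / 2 < θ → 2 / 3 < α → 3 / 2 < θ + α → α < β → β < 1 → 0 < ε →
  ∃ N₀ : ℕ, ∀ N A : ℕ, N₀ ≤ N → Adm θ N A →
  ∑ a ∈ IA A, |cnt N a (fun m => lio m * om N α β m)| ≤ ε * A * N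

/-- CSUM (from BKH, RSUM): `∑_{q ∈ PW N α β} (-a|q)/q` is small for almost all `a`. For a small `t > 0` split the primes into
`q ≤ A N^(-t)` or `q ≥ A N^t` (BKH with `e = 1/2`, `g(f) = 1/f`, `D = 1`, for the `J = ⌈4 log N⌉` dyadic blocks, Cauchy-Schwarz and Markov) and
`A N^(-t) < q < A N^t`: `∑ 1/q ≤ C(2t log N + 1)/((1/10) log N)` by RSUM with `z = N^(1/10)`. -/
def SpecCSUM : Prop := ∀ θ α β ε : ℝ, 1 / 2 < θ → 1 / 2 < α → α < β → β < 1 → 0 < ε →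
  ∃ N₀ : ℕ, ∀ N A : ℕ, N₀ ≤ N → Adm θ N A →
  (((IA A).filter (fun a => ε < |∑ q ∈ PW N α β, (jacobiSym (-a) q : ℝ) / q|)).card : ℝ) ≤ ε * A

/-- CNTL (from CSUM, MER, RHOC, RHOM, RHO2, RHOP, RHOS): for almost all `a` the mean of `om`. For an odd prime `q`:
`#{n ∈ (N,2N] : q ∣ val, val odd} = #{q ∣ val} - #{2q ∣ val} = ρ_a(q) N/(2q) + O(2ρ_a(q))` by RHOC, `ρ_a(2q) = ρ_a(q)`; `ρ_a(q) = 1 + (-a|q)`. Sum over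
`q ∈ PW N α β`: `(N/2)(∑ 1/q + ∑ (-a|q)/q) + O(4 N^β)`. -/
def SpecCNTL : Prop := ∀ θ α β ε : ℝ, 1 / 2 < θ → 1 / 2 < α → α < β → β < 1 → 0 < ε →
  ∃ N₀ : ℕ, ∀ N A : ℕ, N₀ ≤ N → Adm θ N A →
  (((IA A).filter (fun a => cnt N a (om N α β) < (1 / 2 * Real.log (β / α) - ε) * N)).card : ℝ)
    ≤ ε * A

/-- FINL (from TOTL, CNTL). For one `N`: `∑_{n: λ(val)=s} om(val) = (1/2)(cnt om + s cnt(λ om)) ≥ (1/4 log(β/α) - ε)N` for all but `εA` of the `a` (Markov for TOTL),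
and `om ≤ 2` (`3α > 2`, `val ≤ 5N²`), so at least `(1/8 log(β/α) - ε)N` of the `n ∈ (N,2N]` have `λ(|n²+a|) = s`. Take
`α = max (2/3) (3/2-θ) + small`, `β = 1 - small`. Then sum over the blocks `(M_i, 2M_i]`, `M_i = ⌊N/2^i⌋`, `1 ≤ i ≤ I`
(`2M_(i+1) ≤ M_i`; `M_i^θ ≤ N^θ ≤ A`, `A ≤ N ≤ M_i log M_i`; compare `FIN.ev_block` in `QPA/FIN.lean`). -/
def SpecFINL : Prop := ∀ θ ε : ℝ, 1 / 2 < θ → 0 < ε → ∃ N₀ : ℕ, ∀ N A : ℕ, N₀ ≤ N → (N : ℝ) ^ θ ≤ A → A ≤ N →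
  (((Icc (-(A : ℤ)) A).filter (fun a : ℤ => ¬ ∀ s : ℤ, (s = 1 ∨ s = -1) →
    (-(1 / 8) * Real.log (max (2 / 3) (3 / 2 - θ)) - ε) * N
      ≤ (((Icc 1 N).filter (fun n : ℕ =>
          ArithmeticFunction.liouville ((n : ℤ) ^ 2 + a).natAbs = s)).card : ℝ))).card : ℝ) ≤ ε * A

end

end Pool.Agent.Lib.MP391708.QPA.H
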