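import Pool.Agent.Lib.MP_391708_nt.QPA.H.SpecH
import Pool.Agent.Lib.MP_391708_nt.QPA.MTBa

/-!
# QPA phase 3, module BKH: one dyadic block
-/

set_option autoImplicit false

namespace Pool.Agent.Lib.MP391708.QPA.H

open Finset Filter Topology
open Pool.Agent.Lib.MP391708.QPA
open scoped Classical

theorem specBKH (hS : SpecSML) (hL : SpecLRG) : SpecBKH := by
  intro e t he ht
  obtain ⟨C₁, hC₁, h1⟩ := hS (t / 4) (by positivity)
  obtain ⟨C₃, hC₃, h3⟩ := hL (t / 4) (by positivity)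
  set σ := min e (min (t / 2) (1 / 4)) with hσ
  have hσ0 : 0 < σ := lt_min he (lt_min (by linarith) (by norm_num))
  refine ⟨3 * (C₁ + C₃), by positivity, σ, hσ0, ?_⟩
  intro N A E g D hN hE hD hA hA2 hg0 hgD hgo hgt
  have hσ1 : σ ≤ e := min_le_left _ _
  have hσ2 : σ ≤ t / 2 := (min_le_right _ _).trans (min_le_left _ _)
  have hσ3 : σ ≤ 1 / 4 := (min_le_right _ _).trans (min_le_right _ _)
  have hN1 : (1 : ℝ) ≤ N := by exact_mod_cast (by omega : 1 ≤ N)
  have hN0 : (0 : ℝ) < N := by linarith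
  have hE0 : (0 : ℝ) < E := by exact_mod_cast hE
  have hA1 : (1 : ℝ) ≤ A := (Real.one_le_rpow hN1 (by norm_num)).trans hA
  have hA1' : 1 ≤ A := by exact_mod_cast hA1
  have hA0 : (0 : ℝ) < A := by linarith
  obtain ⟨hs1, hs2⟩ := MTB.cf_sum g D hD E hE hg0 hgD
  have hNσ : 0 < (N : ℝ) ^ (-σ) := Real.rpow_pos_of_pos hN0 _
  have hR : 0 ≤ D ^ 2 * A * (N : ℝ) ^ (-σ) := by positivity
  by_cases hz : ∀ f ∈ Ioc E (2 * E), g f = 0
  · have : ∑ a ∈ IA A, (∑ f ∈ Ioc E (2 * E), g f * (jacobiSym (-a) f : ℝ)) ^ 2 = 0 := by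
      apply Finset.sum_eq_zero
      intro a _
      rw [Finset.sum_eq_zero (fun f hf => by rw [hz f hf, zero_mul])]
      norm_num
    rw [this]
    have : 0 ≤ 3 * (C₁ + C₃) := by positivity
    nlinarith
  · push Not at hz
    obtain ⟨f, hf, hgf⟩ := hz
    have hf' := Finset.mem_Ioc.mp hf
    obtain ⟨hf1, hf2⟩ := hgt f hgf (by omega)
    have hfE : (f : ℝ) ≤ 2 * E := by exact_mod_cast hf'.2
    have hEf : (E : ℝ) ≤ f := by exact_mod_cast hf'.1.le
    have hAq : (A : ℝ) ^ (t / 4) ≤ (N : ℝ) ^ (t / 2) := by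
      calc (A : ℝ) ^ (t / 4) ≤ ((N : ℝ) ^ 2) ^ (t / 4) :=
            Real.rpow_le_rpow hA0.le hA2 (by positivity)
        _ = (N : ℝ) ^ (t / 2) := by
            rw [← Real.rpow_natCast, ← Real.rpow_mul hN0.le]
            norm_num
            ring_nf
    by_cases hcase : (E : ℝ) ≤ A * (N : ℝ) ^ (-t)
    · have h4 := h1 A E g hA1' hE hgo
      refine h4.trans ?_
      have h5 : (1 : ℝ) / E ≤ 2 * (N : ℝ) ^ (-σ) := by
        have h6 : (N : ℝ) ^ e ≤ 2 * E := hf1.trans hfE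
        have h7 : (N : ℝ) ^ σ ≤ (N : ℝ) ^ e := Real.rpow_le_rpow_of_exponent_le hN1 hσ1
        rw [Real.rpow_neg hN0.le, div_le_iff₀ hE0]
        have h8 : 0 < (N : ℝ) ^ σ := Real.rpow_pos_of_pos hN0 _
        rw [show 2 * ((N : ℝ) ^ σ)⁻¹ * E = (2 * E) / (N : ℝ) ^ σ by ring, le_div_iff₀ h8]
        linarith
      have hEp : (E : ℝ) ^ (1 + t / 4) ≤ A * (N : ℝ) ^ (-σ) := by
        have hEA : (E : ℝ) ≤ A := by
          refine hcase.trans ?_
          have : (N : ℝ) ^ (-t) ≤ 1 := Real.rpow_le_one_of_one_le_of_nonpos hN1 (by linarith)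
          nlinarith
        rw [Real.rpow_add hE0, Real.rpow_one]
        calc (E : ℝ) * (E : ℝ) ^ (t / 4) ≤ (A * (N : ℝ) ^ (-t)) * (N : ℝ) ^ (t / 2) :=
              mul_le_mul hcase ((Real.rpow_le_rpow hE0.le hEA (by positivity)).trans hAq)
                (by positivity) (by positivity)
          _ = A * (N : ℝ) ^ (-(t / 2)) := by
              rw [mul_assoc, ← Real.rpow_add hN0]
              congr 2
              ring
          _ ≤ A * (N : ℝ) ^ (-σ) :=
              mul_le_mul_of_nonneg_left (Real.rpow_le_rpow_of_exponent_le hN1 (by linarith)) hA0.le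
      have h9 : (∑ k ∈ Ioc E (2 * E), |g k|) ^ 2 ≤ D ^ 2 :=
        pow_le_pow_left₀ (Finset.sum_nonneg (fun _ _ => abs_nonneg _)) hs1 2
      have h10 : (A : ℝ) * ∑ k ∈ Ioc E (2 * E), (g k) ^ 2 ≤ 2 * (D ^ 2 * A * (N : ℝ) ^ (-σ)) := by
        calc (A : ℝ) * ∑ k ∈ Ioc E (2 * E), (g k) ^ 2 ≤ A * (D ^ 2 * (1 / E)) := by
              apply mul_le_mul_of_nonneg_left _ hA0.le
              rw [mul_one_div]
              exact hs2
          _ ≤ A * (D ^ 2 * (2 * (N : ℝ) ^ (-σ))) := by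
              apply mul_le_mul_of_nonneg_left _ hA0.le
              exact mul_le_mul_of_nonneg_left h5 (sq_nonneg _)
          _ = 2 * (D ^ 2 * A * (N : ℝ) ^ (-σ)) := by ring
      have h11 : (E : ℝ) ^ (1 + t / 4) * (∑ k ∈ Ioc E (2 * E), |g k|) ^ 2
          ≤ D ^ 2 * A * (N : ℝ) ^ (-σ) := by
        calc (E : ℝ) ^ (1 + t / 4) * (∑ k ∈ Ioc E (2 * E), |g k|) ^ 2
            ≤ (A * (N : ℝ) ^ (-σ)) * D ^ 2 :=
              mul_le_mul hEp h9 (by positivity) (by positivity)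
          _ = _ := by ring
      calc C₁ * (A * (∑ k ∈ Ioc E (2 * E), (g k) ^ 2)
            + (E : ℝ) ^ (1 + t / 4) * (∑ k ∈ Ioc E (2 * E), |g k|) ^ 2)
          ≤ C₁ * (3 * (D ^ 2 * A * (N : ℝ) ^ (-σ))) :=
            mul_le_mul_of_nonneg_left (by linarith) hC₁.le
        _ ≤ 3 * (C₁ + C₃) * D ^ 2 * A * (N : ℝ) ^ (-σ) := by
            have : 0 ≤ C₃ * (D ^ 2 * A * (N : ℝ) ^ (-σ)) := by positivity
            nlinarith
    · have h12 : (A : ℝ) * (N : ℝ) ^ t ≤ 2 * E := by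
        rcases hf2 with h | h
        · exact h.trans hfE
        · exact absurd (hEf.trans h) hcase
      have h4 := h3 A E g hA1' hE (fun k hk => (hgo k hk).1)
      refine h4.trans ?_
      have h5 : √(A : ℝ) ≤ A * (N : ℝ) ^ (-σ) := by
        have h6 : (N : ℝ) ^ σ ≤ √(A : ℝ) := by
          apply Real.le_sqrt_of_sq_le
          refine le_trans ?_ hA
          rw [← Real.rpow_natCast, ← Real.rpow_mul hN0.le]
          apply Real.rpow_le_rpow_of_exponent_le hN1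
          push_cast
          linarith
        rw [Real.rpow_neg hN0.le, ← div_eq_mul_inv, le_div_iff₀ (Real.rpow_pos_of_pos hN0 _)]
        calc √(A : ℝ) * (N : ℝ) ^ σ ≤ √(A : ℝ) * √(A : ℝ) :=
              mul_le_mul_of_nonneg_left h6 (Real.sqrt_nonneg _)
          _ = A := Real.mul_self_sqrt hA0.le
      have h7 : (A : ℝ) ^ (2 + t / 4) / E ≤ 2 * (A * (N : ℝ) ^ (-σ)) := by
        rw [div_le_iff₀ hE0]
        have hAt : (A : ℝ) ^ (2 + t / 4) = A * A * (A : ℝ) ^ (t / 4) := by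
          rw [Real.rpow_add hA0, Real.rpow_two]
          ring
        have hNt : (N : ℝ) ^ (t / 2) = (N : ℝ) ^ t * (N : ℝ) ^ (-(t / 2)) := by
          rw [← Real.rpow_add hN0]
          congr 1
          ring
        have hNs : (N : ℝ) ^ (-(t / 2)) ≤ (N : ℝ) ^ (-σ) :=
          Real.rpow_le_rpow_of_exponent_le hN1 (by linarith)
        calc (A : ℝ) ^ (2 + t / 4) ≤ A * A * (N : ℝ) ^ (t / 2) := by
              rw [hAt]
              exact mul_le_mul_of_nonneg_left hAq (by positivity)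
          _ = (A * (N : ℝ) ^ t) * (A * (N : ℝ) ^ (-(t / 2))) := by rw [hNt]; ring
          _ ≤ (2 * E) * (A * (N : ℝ) ^ (-σ)) :=
              mul_le_mul h12 (mul_le_mul_of_nonneg_left hNs hA0.le) (by positivity) (by positivity)
          _ = 2 * (A * (N : ℝ) ^ (-σ)) * E := by ring
      calc C₃ * (E * √(A : ℝ) + (A : ℝ) ^ (2 + t / 4)) * ∑ k ∈ Ioc E (2 * E), (g k) ^ 2
          ≤ C₃ * (E * √(A : ℝ) + (A : ℝ) ^ (2 + t / 4)) * (D ^ 2 / E) :=
            mul_le_mul_of_nonneg_left hs2 (by positivity)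
        _ = C₃ * D ^ 2 * (√(A : ℝ) + (A : ℝ) ^ (2 + t / 4) / E) := by
            field_simp
        _ ≤ C₃ * D ^ 2 * (3 * (A * (N : ℝ) ^ (-σ))) :=
            mul_le_mul_of_nonneg_left (by linarith) (by positivity)
        _ ≤ 3 * (C₁ + C₃) * D ^ 2 * A * (N : ℝ) ^ (-σ) := by
            have : 0 ≤ C₁ * (D ^ 2 * A * (N : ℝ) ^ (-σ)) := by positivity
            nlinarith

end Pool.Agent.Lib.MP391708.QPA.H
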