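import Pool.Agent.Lib.MP_391708_nt.QPA.H.SpecH
import Pool.Agent.Lib.MP_391708_nt.QPA.BLK2

/-!
# QPA phase 3, module BLK2H: one block for `θ > 1/2`
-/

set_option autoImplicit false

namespace Pool.Agent.Lib.MP391708.QPA.H

open Finset Filter Topology
open Pool.Agent.Lib.MP391708.QPA
open scoped Classical

open BLK2 in
theorem specBLK2H (hTWO : SpecTWOH) (hWB : SpecWB) (hBDHP : SpecBDHP) (hEQ : SpecEQ)
    (hMTA : SpecMTAH) (hMTB : SpecMTBH) (hSHM : SpecSHM) (hBT : SpecBT) (hFFB : SpecFFB)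
    (hGMAX : SpecGMAX) (hGMEAN : SpecGMEAN) : SpecBLK2H := by
  intro θ κ e e0 η ϖ Q c₁ c₂ hθ hκ hθκ he he0 he1 hη hη4 hϖ hQ hc₁ hc₂ hc0
  exact core hκ (by linarith) he he0 he1 hη hη4 hϖ hQ hc₁ hc₂ hc0
    (fun B hB => hTWO θ κ e e0 B hθ hκ hθκ he he0 hB) hWB hBDHP hEQ
    (fun B w J hB hw hJ δ hδ => hMTA θ e e0 B δ η w J hθ he he0 hB hδ hη hη4 hw hJ)
    (fun δ hδ => hMTB θ e e0 δ η Q c₁ hθ he he0 he1 hδ hη hη4 hQ hc₁) hSHM hBT hFFB hGMAX hGMEAN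

end Pool.Agent.Lib.MP391708.QPA.H
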