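import Pool.Agent.Lib.MP_391708_nt.QPA.H.SpecH
import Pool.Agent.Lib.MP_391708_nt.QPA.BLK2

/-!
# QPA/H, module BLKL: one block of the Liouville sums
-/

set_option autoImplicit false

namespace Pool.Agent.Lib.MP391708.QPA.H

open Finset Filter Topology
open Pool.Agent.Lib.MP391708.QPA
open scoped Classical

namespace BLKLM

lemma abs_lio_le (m : ℕ) : |lio m| ≤ 1 := by
  unfold lio
  by_cases hm : m = 0
  · subst hm; simp
  · rw [ArithmeticFunction.liouville_apply hm]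
    push_cast
    rw [abs_pow, abs_neg, abs_one, one_pow]

lemma abs_cut_le (x y : ℝ) (m : ℕ) : |cut x y lodd m| ≤ 1 := by
  unfold cut lodd
  split_ifs
  · exact abs_lio_le m
  · simp
  · simp

end BLKLM

theorem specBLKL (hTWOH : SpecTWOH) (hWBL : SpecWBL) : SpecBLKL := by
  intro θ κ e e0 η ϖ hθ hκ hθκ he he0 hη hη4 hϖ
  obtain ⟨C, hC, hT⟩ := hTWOH θ κ e e0 1 hθ hκ hθκ he he0 one_pos
  have hw : 0 < ϖ ^ 2 / (10 * C) := by positivity
  obtain ⟨N₁, hN₁⟩ := hT _ hw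
  obtain ⟨N₂, hN₂⟩ := hWBL _ (e / 2) η hw (half_pos he) hη hη4
  obtain ⟨N₃, hN₃⟩ := eventually_atTop.1 (BLK2.geo he hκ)
  refine ⟨max (max N₁ N₂) (max N₃ 3), fun N A hN hA K L hK1 hK2 hKL1 hKL2 g hg1 hg2 => ?_⟩
  have hNN₁ : N₁ ≤ N := (le_max_left _ _).trans ((le_max_left _ _).trans hN)
  have hNN₂ : N₂ ≤ N := (le_max_right _ _).trans ((le_max_left _ _).trans hN)
  have hNN₃ : N₃ ≤ N := (le_max_left _ _).trans ((le_max_right _ _).trans hN)
  have hN3 : 3 ≤ N := (le_max_right _ _).trans ((le_max_right _ _).trans hN)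
  obtain ⟨hK, hKL, hLN, -, hg3, hg4, -⟩ := hN₃ N hNN₃ K L hK1 hK2 hKL1 hKL2
  have hN3' : (3 : ℝ) ≤ N := by exact_mod_cast hN3
  have hlog : 1 ≤ Real.log N := by
    rw [← Real.log_exp 1]
    apply Real.log_le_log (Real.exp_pos 1)
    have := Real.exp_one_lt_d9
    linarith
  have hlog0 : 0 < Real.log N := by linarith
  have hL0 : 0 < L := by linarith
  have hK0 : 0 < K := by linarith
  have hW := hN₂ N K L hNN₂ hK hKL hLN hKL1 hKL2 hg3 hg4
  have hM := hN₁ N A hNN₁ hA K L hK1 hK2 hKL1 hKL2 g (cut L ((1 + η) * L) lodd)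
    (fun k => by rw [one_mul]; exact hg1 k) hg2 (fun u => BLKLM.abs_cut_le _ _ u) (by
      intro u hu
      unfold cut at hu
      split_ifs at hu with h
      · refine ⟨?_, h.1, h.2.trans ?_⟩
        · by_contra hodd
          exact hu (by unfold lodd; rw [if_neg hodd])
        · nlinarith
      · exact absurd rfl hu)
  set S := ∑ a ∈ IA A, |bil (8 * N) a g (cut L ((1 + η) * L) lodd)| with hS
  have hS0 : 0 ≤ S := sum_nonneg fun _ _ => abs_nonneg _
  have hR0 : 0 ≤ ϖ * A * N / Real.log N := by positivity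
  rw [← sq_le_sq₀ hS0 hR0]
  refine hM.trans ?_
  have h1 : ϖ ^ 2 / (10 * C) * L / (Real.log N) ^ 2 ≤ ϖ ^ 2 / (10 * C) * L := by
    apply div_le_self (by positivity)
    nlinarith
  have h2 : |Wsum K L (cut L ((1 + η) * L) lodd)| + ϖ ^ 2 / (10 * C) * L / (Real.log N) ^ 2
      ≤ 2 * (ϖ ^ 2 / (10 * C) * L) := by linarith
  calc C * ((A : ℝ) ^ 2 * K / (Real.log N) ^ 2) *
        (|Wsum K L (cut L ((1 + η) * L) lodd)| + ϖ ^ 2 / (10 * C) * L / (Real.log N) ^ 2)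
      ≤ C * ((A : ℝ) ^ 2 * K / (Real.log N) ^ 2) * (2 * (ϖ ^ 2 / (10 * C) * L)) := by gcongr
    _ = ϖ ^ 2 * (A : ℝ) ^ 2 / (Real.log N) ^ 2 * (K * L / 5) := by field_simp; ring
    _ ≤ ϖ ^ 2 * (A : ℝ) ^ 2 / (Real.log N) ^ 2 * ((N : ℝ) ^ 2) := by
        gcongr
        linarith
    _ = (ϖ * A * N / Real.log N) ^ 2 := by field_simp

end Pool.Agent.Lib.MP391708.QPA.H
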