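import Pool.Agent.Lib.MP_391708_nt.QPA.H.SpecH

/-!
# Project QPA, phase 3, module CNTL: the mean of `om` for almost all `a`
-/

set_option autoImplicit false

namespace Pool.Agent.Lib.MP391708.QPA.H

open Finset Filter Topology
open Pool.Agent.Lib.MP391708.QPA
open scoped Classical

noncomputable section

namespace CNTLM

lemma mem_PW {N : ℕ} {α β : ℝ} {q : ℕ} : q ∈ PW N α β ↔ (⌊(N : ℝ) ^ α⌋₊ < q ∧ q ≤ ⌊(N : ℝ) ^ β⌋₊) ∧ q.Prime := by
  unfold PW
  rw [mem_filter, mem_Ioc]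

/-- the sum of `om` as a sum over the primes -/
lemma cnt_om (N : ℕ) (a : ℤ) (α β : ℝ) : cnt N a (om N α β) =
    ∑ q ∈ PW N α β, (((Ioc N (2 * N)).filter (fun n => q ∣ val a n ∧ Odd (val a n))).card : ℝ) := by
  unfold cnt
  have h1 : ∀ n, om N α β (val a n) = ∑ q ∈ PW N α β, (if q ∣ val a n ∧ Odd (val a n) then (1 : ℝ) else 0) := by
    intro n
    unfold om
    split_ifs with h
    · rw [← sum_filter, sum_const, nsmul_eq_mul, mul_one]
      congr 2
      ext q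
      simp [h]
    · symm
      apply sum_eq_zero
      intro q _
      rw [if_neg (fun h' => h h'.2)]
  rw [sum_congr rfl fun n _ => h1 n, sum_comm]
  refine sum_congr rfl fun q _ => ?_
  rw [← sum_filter, sum_const, nsmul_eq_mul, mul_one]

/-- one prime -/
lemma one_prime (hRHOC : SpecRHOC) (hRHOM : SpecRHOM) (hRHO2 : SpecRHO2) (hRHOP : SpecRHOP)
    (N : ℕ) (a : ℤ) (q : ℕ) (hq : q.Prime) (hq2 : q ≠ 2) :
    (N : ℝ) / 2 * (1 / q + (jacobiSym (-a) q : ℝ) / q) - 4 ≤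
      (((Ioc N (2 * N)).filter (fun n => q ∣ val a n ∧ Odd (val a n))).card : ℝ) := by
  have hq0 : (0 : ℝ) < q := by exact_mod_cast hq.pos
  have hcop : Nat.Coprime 2 q := (Nat.coprime_primes Nat.prime_two hq).2 (Ne.symm hq2)
  have h2q : rho a (2 * q) = rho a q := by
    rw [hRHOM a 2 q hcop (by norm_num) hq.one_lt.le, hRHO2, one_mul]
  have h1 := hRHOC a q N N hq.one_lt.le
  have h2 := hRHOC a (2 * q) N N (by have := hq.pos; omega)
  rw [h2q] at h2
  rw [← two_mul] at h1 h2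
  have hρ : (rho a q : ℝ) = 1 + (jacobiSym (-a) q : ℝ) := by exact_mod_cast hRHOP a q hq hq2
  have hρ2 : (rho a q : ℝ) ≤ 2 := by
    rw [hρ]
    rcases jacobiSym.trichotomy (-a) q with h | h | h <;> rw [h] <;> norm_num
  have hsplit : (((Ioc N (2 * N)).filter (fun n => q ∣ val a n)).card : ℝ) =
      (((Ioc N (2 * N)).filter (fun n => q ∣ val a n ∧ Odd (val a n))).card : ℝ) +
      (((Ioc N (2 * N)).filter (fun n => 2 * q ∣ val a n)).card : ℝ) := by
    rw [← Nat.cast_add, ← card_filter_add_card_filter_not (s := (Ioc N (2 * N)).filter (fun n => q ∣ val a n))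
      (fun n => Odd (val a n)), filter_filter, filter_filter]
    congr 3
    ext n
    rw [mem_filter, mem_filter]
    refine and_congr_right fun _ => ?_
    rw [Nat.not_odd_iff_even, even_iff_two_dvd]
    constructor
    · rintro ⟨h3, h4⟩
      exact hcop.mul_dvd_of_dvd_of_dvd h4 h3
    · intro h3
      exact ⟨(Dvd.intro_left 2 rfl).trans h3, (Dvd.intro q rfl).trans h3⟩
  have h3 := (abs_le.1 h1).1
  have h4 := (abs_le.1 h2).2
  push_cast at h4
  have h5 : (rho a q : ℝ) * N / q - (rho a q : ℝ) * N / (2 * q) = (N : ℝ) / 2 * (1 / q + (jacobiSym (-a) q : ℝ) / q) := by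
    rw [hρ]
    field_simp
    ring
  linarith

end CNTLM

open CNTLM in
/-- **CNTL**. -/
theorem specCNTL (hCSUM : SpecCSUM) (hMER : SpecMER) (hRHOC : SpecRHOC) (hRHOM : SpecRHOM)
    (hRHO2 : SpecRHO2) (hRHOP : SpecRHOP) : SpecCNTL := by
  intro θ α β ε hθ hα hαβ hβ hε
  obtain ⟨N₁, hN₁⟩ := hMER α β (ε / 2) (by linarith) hαβ (by positivity)
  obtain ⟨N₂, hN₂⟩ := hCSUM θ α β (ε / 2) hθ hα hαβ hβ (by positivity)
  have ev1 : ∀ᶠ N : ℕ in atTop, 4 * (N : ℝ) ^ β ≤ ε / 2 * N := by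
    have h1 : ∀ᶠ N : ℕ in atTop, 8 / ε ≤ (N : ℝ) ^ (1 - β) :=
      ((tendsto_rpow_atTop (by linarith : (0 : ℝ) < 1 - β)).comp
        tendsto_natCast_atTop_atTop).eventually_ge_atTop _
    filter_upwards [h1, eventually_ge_atTop 1] with N h1 hN
    have hN0 : (0 : ℝ) < N := by exact_mod_cast hN
    have h2 : (N : ℝ) = (N : ℝ) ^ β * (N : ℝ) ^ (1 - β) := by
      rw [← Real.rpow_add hN0]; simp
    rw [div_le_iff₀ hε] at h1
    have h3 : 0 < (N : ℝ) ^ β := Real.rpow_pos_of_pos hN0 _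
    calc 4 * (N : ℝ) ^ β = (N : ℝ) ^ β * 8 / 2 := by ring
      _ ≤ (N : ℝ) ^ β * ((N : ℝ) ^ (1 - β) * ε) / 2 := by gcongr
      _ = ε / 2 * ((N : ℝ) ^ β * (N : ℝ) ^ (1 - β)) := by ring
      _ = ε / 2 * N := by rw [← h2]
  have ev2 : ∀ᶠ N : ℕ in atTop, (2 : ℝ) ≤ (N : ℝ) ^ α :=
    ((tendsto_rpow_atTop (by linarith : (0 : ℝ) < α)).comp
      tendsto_natCast_atTop_atTop).eventually_ge_atTop 2
  obtain ⟨N₀, hN₀⟩ := eventually_atTop.1 ((ev1.and ev2).and
    ((eventually_ge_atTop N₁).and (eventually_ge_atTop N₂)))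
  refine ⟨N₀, fun N A hN hAdm => ?_⟩
  obtain ⟨⟨h1, h2⟩, h3, h4⟩ := hN₀ N hN
  have hm := hN₁ N h3
  have hc := hN₂ N A h4 hAdm
  have hN0 : (0 : ℝ) ≤ N := Nat.cast_nonneg _
  have key : ∀ a : ℤ, |∑ q ∈ PW N α β, (jacobiSym (-a) q : ℝ) / q| ≤ ε / 2 →
      (1 / 2 * Real.log (β / α) - ε) * N ≤ cnt N a (om N α β) := by
    intro a ha
    rw [cnt_om]
    have h5 : ∀ q ∈ PW N α β, (N : ℝ) / 2 * (1 / q + (jacobiSym (-a) q : ℝ) / q) - 4 ≤
      (((Ioc N (2 * N)).filter (fun n => q ∣ val a n ∧ Odd (val a n))).card : ℝ) := by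
      intro q hq
      have hq' := mem_PW.1 hq
      refine one_prime hRHOC hRHOM hRHO2 hRHOP N a q hq'.2 ?_
      rintro rfl
      have h6 : (N : ℝ) ^ α < 2 := by exact_mod_cast Nat.lt_of_floor_lt hq'.1.1
      linarith
    refine le_trans ?_ (sum_le_sum h5)
    rw [sum_sub_distrib, ← mul_sum, sum_add_distrib, sum_const, nsmul_eq_mul]
    have h6 : ((PW N α β).card : ℝ) ≤ (N : ℝ) ^ β := by
      have h7 : (PW N α β).card ≤ ⌊(N : ℝ) ^ β⌋₊ := by
        unfold PW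
        refine (card_filter_le _ _).trans ?_
        rw [Nat.card_Ioc]
        omega
      exact (Nat.le_floor_iff (Real.rpow_nonneg hN0 _)).1 h7
    have h8 := (abs_le.1 hm).1
    have h9 := (abs_le.1 ha).1
    have h10 : (N : ℝ) / 2 * (Real.log (β / α) - ε) ≤
        (N : ℝ) / 2 * (∑ q ∈ PW N α β, 1 / (q : ℝ) + ∑ q ∈ PW N α β, (jacobiSym (-a) q : ℝ) / q) :=
      mul_le_mul_of_nonneg_left (by linarith) (by positivity)
    linarith
  refine le_trans ?_ (hc.trans (by nlinarith [Nat.cast_nonneg (α := ℝ) A]))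
  have hsub : (IA A).filter (fun a => cnt N a (om N α β) < (1 / 2 * Real.log (β / α) - ε) * N) ⊆
      (IA A).filter (fun a => ε / 2 < |∑ q ∈ PW N α β, (jacobiSym (-a) q : ℝ) / q|) := by
    intro a ha
    rw [mem_filter] at ha ⊢
    refine ⟨ha.1, ?_⟩
    by_contra hlt
    exact absurd (key a (not_lt.1 hlt)) (not_le.2 ha.2)
  exact_mod_cast card_le_card hsub

end

end Pool.Agent.Lib.MP391708.QPA.H
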