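import Pool.Agent.Lib.MP_391708_nt.QPA.H.SpecH

/-!
# Project QPA, phase 3, module CSUM: `∑_{q ∈ PW N α β} (-a|q)/q` is small for almost all `a`
-/

set_option autoImplicit false

namespace Pool.Agent.Lib.MP391708.QPA.H

open Finset Filter Topology
open Pool.Agent.Lib.MP391708.QPA
open scoped Classical

noncomputable section

namespace CSUMM

/-- away from `A` -/
def Far (N A : ℕ) (t : ℝ) (f : ℕ) : Prop :=
  (A : ℝ) * (N : ℝ) ^ t ≤ f ∨ (f : ℝ) ≤ A * (N : ℝ) ^ (-t)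

/-- the weight -/
def gg (N A : ℕ) (α β t : ℝ) (f : ℕ) : ℝ :=
  if f ∈ PW N α β ∧ Far N A t f then 1 / (f : ℝ) else 0

lemma dyadic (h : ℕ → ℝ) (J : ℕ) : ∑ f ∈ Ioc 1 (2 ^ J), h f =
    ∑ j ∈ range J, ∑ f ∈ Ioc (2 ^ j) (2 * 2 ^ j), h f := by
  induction J with
  | zero => simp
  | succ J ih =>
    rw [sum_range_succ, ← ih, pow_succ, mul_comm (2 ^ J) 2]
    exact (sum_Ioc_consecutive h Nat.one_le_two_pow (by omega)).symm

lemma mem_PW {N : ℕ} {α β : ℝ} {q : ℕ} : q ∈ PW N α β ↔ (⌊(N : ℝ) ^ α⌋₊ < q ∧ q ≤ ⌊(N : ℝ) ^ β⌋₊) ∧ q.Prime := by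
  unfold PW
  rw [mem_filter, mem_Ioc]

lemma sum_far (N A J : ℕ) (α β t : ℝ) (hβ : β ≤ 1) (hN : 1 ≤ N) (hJ : N ≤ 2 ^ J) (c : ℕ → ℝ) :
    ∑ q ∈ (PW N α β).filter (Far N A t), c q / q =
      ∑ f ∈ Ioc 1 (2 ^ J), gg N A α β t f * c f := by
  have h1 : ∀ f, gg N A α β t f * c f = if f ∈ PW N α β ∧ Far N A t f then c f / f else 0 := by
    intro f
    unfold gg
    split_ifs
    · ring
    · ring
  rw [sum_congr rfl fun f _ => h1 f, ← sum_filter]
  refine sum_congr ?_ fun _ _ => rfl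
  ext f
  rw [mem_filter, mem_filter, mem_Ioc]
  constructor
  · rintro ⟨h2, h3⟩
    refine ⟨⟨(mem_PW.1 h2).2.one_lt, ?_⟩, h2, h3⟩
    have h4 := (mem_PW.1 h2).1.2
    have h5 : (N : ℝ) ^ β ≤ N := by
      have hN' : (1 : ℝ) ≤ N := by exact_mod_cast hN
      calc (N : ℝ) ^ β ≤ (N : ℝ) ^ (1 : ℝ) := Real.rpow_le_rpow_of_exponent_le hN' hβ
        _ = N := Real.rpow_one _
    have h6 : ⌊(N : ℝ) ^ β⌋₊ ≤ N := Nat.floor_le_of_le h5
    omega
  · rintro ⟨-, h⟩
    exact h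

/-- the part near `A` is small -/
lemma near (C : ℝ) (hC : 0 < C) (hR : ∀ (z X₁ X₂ : ℝ), 2 ≤ z → z ≤ X₁ → X₁ ≤ X₂ →
    ∑ k ∈ Icc ⌈X₁⌉₊ ⌊X₂⌋₊, rInd z k / (k : ℝ) ≤ C * (Real.log (X₂ / X₁) + 1) / Real.log z)
    (N A : ℕ) (α β t : ℝ) (hα : 1 / 2 < α) (ht : 0 < t) (ht1 : t ≤ 1 / 10) (hN : 2 ≤ N)
    (hz : (2 : ℝ) ≤ (N : ℝ) ^ (1 / 10 : ℝ)) (hA : (N : ℝ) ^ (1 / 2 : ℝ) ≤ A) (c : ℕ → ℝ)
    (hc : ∀ q, |c q| ≤ 1) :
    |∑ q ∈ (PW N α β).filter (fun q => ¬ Far N A t q), c q / q| ≤ 20 * C * t + 10 * C / Real.log N := by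
  have hN1 : (1 : ℝ) < N := by exact_mod_cast hN
  have hN0 : (0 : ℝ) < N := by linarith
  have hlog : 0 < Real.log N := Real.log_pos hN1
  have hA0 : (0 : ℝ) < A := lt_of_lt_of_le (Real.rpow_pos_of_pos hN0 _) hA
  set z := (N : ℝ) ^ (1 / 10 : ℝ) with hzd
  set X₁ := (A : ℝ) * (N : ℝ) ^ (-t) with hX1
  set X₂ := (A : ℝ) * (N : ℝ) ^ t with hX2
  have hz1 : z ≤ X₁ := by
    calc z ≤ (N : ℝ) ^ (1 / 2 - t) := Real.rpow_le_rpow_of_exponent_le hN1.le (by linarith)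
      _ = (N : ℝ) ^ (1 / 2 : ℝ) * (N : ℝ) ^ (-t) := by
          rw [← Real.rpow_add hN0]; ring_nf
      _ ≤ X₁ := mul_le_mul_of_nonneg_right hA (Real.rpow_nonneg hN0.le _)
  have h12 : X₁ ≤ X₂ := mul_le_mul_of_nonneg_left
    (Real.rpow_le_rpow_of_exponent_le hN1.le (by linarith)) hA0.le
  have h1 := hR z X₁ X₂ hz hz1 h12
  have h2 : Real.log (X₂ / X₁) = 2 * t * Real.log N := by
    have : X₂ / X₁ = (N : ℝ) ^ (2 * t) := by
      rw [hX1, hX2, mul_div_mul_left _ _ hA0.ne', ← Real.rpow_sub hN0]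
      congr 1; ring
    rw [this, Real.log_rpow hN0]
  have h3 : Real.log z = 1 / 10 * Real.log N := by rw [hzd, Real.log_rpow hN0]
  rw [h2, h3] at h1
  have h4 : C * (2 * t * Real.log N + 1) / (1 / 10 * Real.log N) = 20 * C * t + 10 * C / Real.log N := by
    field_simp
    ring
  rw [h4] at h1
  refine le_trans ?_ h1
  calc |∑ q ∈ (PW N α β).filter (fun q => ¬ Far N A t q), c q / q|
      ≤ ∑ q ∈ (PW N α β).filter (fun q => ¬ Far N A t q), |c q / q| := abs_sum_le_sum_abs _ _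
    _ ≤ ∑ q ∈ (PW N α β).filter (fun q => ¬ Far N A t q), rInd z q / q := by
        refine sum_le_sum fun q hq => ?_
        rw [mem_filter] at hq
        have hq1 := mem_PW.1 hq.1
        have hrough : Rough z q := by
          intro p hp hpq
          have hpe : p = q := (Nat.prime_dvd_prime_iff_eq hp hq1.2).1 hpq
          subst hpe
          have h5 : (N : ℝ) ^ α < p := Nat.lt_of_floor_lt hq1.1.1
          have h6 : z ≤ (N : ℝ) ^ α := Real.rpow_le_rpow_of_exponent_le hN1.le (by linarith)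
          linarith
        unfold rInd
        rw [if_pos hrough, abs_div, Nat.abs_cast]
        exact div_le_div_of_nonneg_right (hc q) (Nat.cast_nonneg _)
    _ ≤ ∑ k ∈ Icc ⌈X₁⌉₊ ⌊X₂⌋₊, rInd z k / (k : ℝ) := by
        refine sum_le_sum_of_subset_of_nonneg ?_ fun k _ _ => ?_
        · intro q hq
          rw [mem_filter] at hq
          have h5 := hq.2
          unfold Far at h5
          push Not at h5
          rw [mem_Icc]
          exact ⟨Nat.ceil_le.2 h5.2.le, Nat.le_floor h5.1.le⟩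
        · unfold rInd
          split_ifs
          · positivity
          · simp

end CSUMM

open CSUMM in
/-- **CSUM**. -/
theorem specCSUM (hBKH : SpecBKH) (hRSUM : SpecRSUM) : SpecCSUM := by
  intro θ α β ε hθ hα hαβ hβ hε
  obtain ⟨C, hC, hR⟩ := hRSUM
  obtain ⟨t, ht, ht1, htC⟩ : ∃ t : ℝ, 0 < t ∧ t ≤ 1 / 10 ∧ 20 * C * t ≤ ε / 4 := by
    refine ⟨min (1 / 10) (ε / (80 * C)), by positivity, min_le_left _ _, ?_⟩
    calc 20 * C * min (1 / 10) (ε / (80 * C)) ≤ 20 * C * (ε / (80 * C)) :=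
          mul_le_mul_of_nonneg_left (min_le_right _ _) (by positivity)
      _ = ε / 4 := by field_simp; ring
  obtain ⟨C', hC', σ, hσ, hB⟩ := hBKH (1 / 2) t (by norm_num) ht
  -- eventual conditions
  have ev1 : ∀ᶠ N : ℕ in atTop, (2 : ℝ) ≤ (N : ℝ) ^ (1 / 10 : ℝ) :=
    ((tendsto_rpow_atTop (by norm_num : (0 : ℝ) < 1 / 10)).comp tendsto_natCast_atTop_atTop).eventually_ge_atTop 2
  have ev2 : ∀ᶠ N : ℕ in atTop, 40 * C / ε ≤ Real.log N :=
    (Real.tendsto_log_atTop.comp tendsto_natCast_atTop_atTop).eventually_ge_atTop _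
  have ev3 : ∀ᶠ N : ℕ in atTop, 4 * C' * (2 * Real.log N + 2) ^ 2 * (N : ℝ) ^ (-σ) ≤ ε ^ 3 := by
    have h1 : Tendsto (fun x : ℝ => (Real.log x) ^ 2 / x ^ σ) atTop (𝓝 0) := by
      have := isLittleO_log_rpow_rpow_atTop (s := σ) (2 : ℝ) hσ
      have h2 := this.tendsto_div_nhds_zero
      refine h2.congr fun x => ?_
      rw [Real.rpow_two]
    have h2 : ∀ᶠ N : ℕ in atTop, (Real.log N) ^ 2 / (N : ℝ) ^ σ < ε ^ 3 / (64 * C') :=
      (h1.comp tendsto_natCast_atTop_atTop).eventually_lt_const (by positivity)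
    have h3 : ∀ᶠ N : ℕ in atTop, (1 : ℝ) ≤ Real.log N :=
      (Real.tendsto_log_atTop.comp tendsto_natCast_atTop_atTop).eventually_ge_atTop _
    filter_upwards [h2, h3, eventually_ge_atTop 1] with N h2 h3 hN
    have hN0 : (0 : ℝ) < N := by exact_mod_cast hN
    have hp : 0 < (N : ℝ) ^ σ := Real.rpow_pos_of_pos hN0 _
    rw [div_lt_div_iff₀ hp (by positivity)] at h2
    rw [Real.rpow_neg hN0.le, ← div_eq_mul_inv, div_le_iff₀ hp]
    have h4 : (2 * Real.log N + 2) ^ 2 ≤ 16 * (Real.log N) ^ 2 := by nlinarith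
    nlinarith [mul_le_mul_of_nonneg_left h4 hC'.le]
  obtain ⟨N₀, hN₀⟩ := eventually_atTop.1 ((ev1.and (ev2.and ev3)).and (eventually_ge_atTop 2))
  refine ⟨N₀, fun N A hN hAdm => ?_⟩
  obtain ⟨⟨hz, hl, hs⟩, hN2⟩ := hN₀ N hN
  have hN1 : (1 : ℝ) < N := by exact_mod_cast hN2
  have hN0 : (0 : ℝ) < N := by linarith
  have hlog : 0 < Real.log N := Real.log_pos hN1
  have hA : (N : ℝ) ^ (1 / 2 : ℝ) ≤ A :=
    (Real.rpow_le_rpow_of_exponent_le hN1.le hθ.le).trans hAdm.1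
  have hA0 : (0 : ℝ) < A := lt_of_lt_of_le (Real.rpow_pos_of_pos hN0 _) hA
  have hA2 : (A : ℝ) ≤ (N : ℝ) ^ 2 := by
    refine hAdm.2.trans ?_
    rw [pow_two]
    exact mul_le_mul_of_nonneg_left ((Real.log_le_sub_one_of_pos hN0).trans (by linarith)) hN0.le
  set J := Nat.clog 2 N with hJ
  have hNJ : N ≤ 2 ^ J := Nat.le_pow_clog (by norm_num) N
  have hJl : (J : ℝ) ≤ 2 * Real.log N + 2 := by
    have h1 : 2 ^ (J - 1) ≤ N := by
      have := Nat.pow_pred_clog_lt_self (b := 2) (by norm_num) (x := N) (by omega)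
      exact this.le
    have h2 : ((J - 1 : ℕ) : ℝ) * Real.log 2 ≤ Real.log N := by
      rw [← Real.log_pow]
      apply Real.log_le_log (by positivity)
      exact_mod_cast h1
    have h3 : (1 / 2 : ℝ) ≤ Real.log 2 := by linarith [Real.log_two_gt_d9]
    have h4 : (J : ℝ) ≤ ((J - 1 : ℕ) : ℝ) + 1 := by
      have : J ≤ (J - 1) + 1 := by omega
      exact_mod_cast this
    have h5 : (0 : ℝ) ≤ ((J - 1 : ℕ) : ℝ) := Nat.cast_nonneg _
    nlinarith
  -- the blocks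
  let b : ℤ → ℕ → ℝ := fun a j => ∑ f ∈ Ioc (2 ^ j) (2 * 2 ^ j), gg N A α β t f * (jacobiSym (-a) f : ℝ)
  have hblock : ∀ j, ∑ a ∈ IA A, (b a j) ^ 2 ≤ C' * A * (N : ℝ) ^ (-σ) := by
    intro j
    have h1 := hB N A (2 ^ j) (gg N A α β t) 1 hN2 Nat.one_le_two_pow zero_le_one hA hA2 ?_ ?_ ?_ ?_
    · simpa using h1
    · intro f
      unfold gg
      split_ifs
      · positivity
      · exact le_rfl
    · intro f _
      unfold gg
      split_ifs
      · exact le_rfl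
      · positivity
    · intro f hf
      unfold gg at hf
      split_ifs at hf with h
      · have hp := mem_PW.1 h.1
        refine ⟨?_, hp.2.squarefree⟩
        rcases hp.2.eq_two_or_odd' with h2 | h2
        · exfalso
          have h5 : (N : ℝ) ^ α < f := Nat.lt_of_floor_lt hp.1.1
          have h6 : (N : ℝ) ^ (1 / 10 : ℝ) ≤ (N : ℝ) ^ α :=
            Real.rpow_le_rpow_of_exponent_le hN1.le (by linarith)
          rw [h2] at h5
          push_cast at h5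
          linarith
        · exact h2
      · exact absurd rfl hf
    · intro f hf _
      unfold gg at hf
      split_ifs at hf with h
      · have hp := mem_PW.1 h.1
        have h5 : (N : ℝ) ^ α < f := Nat.lt_of_floor_lt hp.1.1
        have h6 : (N : ℝ) ^ (1 / 2 : ℝ) ≤ (N : ℝ) ^ α :=
          Real.rpow_le_rpow_of_exponent_le hN1.le hα.le
        exact ⟨h6.trans h5.le, h.2⟩
      · exact absurd rfl hf
  have hfar : ∀ a : ℤ, ∑ q ∈ (PW N α β).filter (Far N A t), (jacobiSym (-a) q : ℝ) / q =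
      ∑ j ∈ range J, b a j := by
    intro a
    rw [sum_far N A J α β t hβ.le (by omega) hNJ, dyadic]
  have hsq : ∑ a ∈ IA A, (∑ j ∈ range J, b a j) ^ 2 ≤ (J : ℝ) ^ 2 * (C' * A * (N : ℝ) ^ (-σ)) := by
    calc ∑ a ∈ IA A, (∑ j ∈ range J, b a j) ^ 2
        ≤ ∑ a ∈ IA A, (J : ℝ) * ∑ j ∈ range J, (b a j) ^ 2 := by
          refine sum_le_sum fun a _ => ?_
          have := sq_sum_le_card_mul_sum_sq (s := range J) (f := fun j => b a j)
          rwa [card_range] at this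
      _ = (J : ℝ) * ∑ j ∈ range J, ∑ a ∈ IA A, (b a j) ^ 2 := by rw [← mul_sum, sum_comm]
      _ ≤ (J : ℝ) * ∑ _j ∈ range J, C' * A * (N : ℝ) ^ (-σ) :=
          mul_le_mul_of_nonneg_left (sum_le_sum fun j _ => hblock j) (Nat.cast_nonneg _)
      _ = (J : ℝ) ^ 2 * (C' * A * (N : ℝ) ^ (-σ)) := by
          rw [sum_const, card_range, nsmul_eq_mul]; ring
  -- the near part
  have hnear : ∀ a : ℤ, |∑ q ∈ (PW N α β).filter (fun q => ¬ Far N A t q), (jacobiSym (-a) q : ℝ) / q|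
      ≤ ε / 2 := by
    intro a
    have h1 := near C hC hR N A α β t hα ht ht1 hN2 hz hA (fun q => (jacobiSym (-a) q : ℝ)) (fun q => by
      rcases jacobiSym.trichotomy (-a) q with h | h | h <;> simp [h])
    refine h1.trans ?_
    have h2 : 10 * C / Real.log N ≤ ε / 4 := by
      rw [div_le_iff₀ hlog]
      rw [div_le_iff₀ hε] at hl
      linarith
    linarith
  -- Markov
  have hM : (((IA A).filter (fun a => ε < |∑ q ∈ PW N α β, (jacobiSym (-a) q : ℝ) / q|)).card : ℝ) *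
      (ε / 2) ^ 2 ≤ (J : ℝ) ^ 2 * (C' * A * (N : ℝ) ^ (-σ)) := by
    calc (((IA A).filter (fun a => ε < |∑ q ∈ PW N α β, (jacobiSym (-a) q : ℝ) / q|)).card : ℝ) *
          (ε / 2) ^ 2
        = ∑ a ∈ (IA A).filter (fun a => ε < |∑ q ∈ PW N α β, (jacobiSym (-a) q : ℝ) / q|), (ε / 2) ^ 2 := by
          rw [sum_const, nsmul_eq_mul]
      _ ≤ ∑ a ∈ (IA A).filter (fun a => ε < |∑ q ∈ PW N α β, (jacobiSym (-a) q : ℝ) / q|),
            (∑ j ∈ range J, b a j) ^ 2 := by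
          refine sum_le_sum fun a ha => ?_
          rw [mem_filter] at ha
          have h1 := ha.2
          rw [← sum_filter_add_sum_filter_not (PW N α β) (Far N A t)] at h1
          have h2 := hnear a
          rw [hfar a] at h1
          have h3 : ε / 2 < |∑ j ∈ range J, b a j| := by
            have := abs_add_le (∑ j ∈ range J, b a j)
              (∑ q ∈ (PW N α β).filter (fun q => ¬ Far N A t q), (jacobiSym (-a) q : ℝ) / q)
            linarith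
          rw [← sq_abs (∑ j ∈ range J, b a j)]
          exact pow_le_pow_left₀ (by positivity) h3.le 2
      _ ≤ ∑ a ∈ IA A, (∑ j ∈ range J, b a j) ^ 2 :=
          sum_le_sum_of_subset_of_nonneg (filter_subset _ _) fun _ _ _ => sq_nonneg _
      _ ≤ _ := hsq
  have h5 : (J : ℝ) ^ 2 * (C' * A * (N : ℝ) ^ (-σ)) ≤ (ε / 2) ^ 2 * (ε * A) := by
    have h6 : (J : ℝ) ^ 2 ≤ (2 * Real.log N + 2) ^ 2 := pow_le_pow_left₀ (Nat.cast_nonneg _) hJl 2
    have hp : 0 ≤ (N : ℝ) ^ (-σ) := Real.rpow_nonneg hN0.le _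
    calc (J : ℝ) ^ 2 * (C' * A * (N : ℝ) ^ (-σ))
        ≤ (2 * Real.log N + 2) ^ 2 * (C' * A * (N : ℝ) ^ (-σ)) :=
          mul_le_mul_of_nonneg_right h6 (by positivity)
      _ = (4 * C' * (2 * Real.log N + 2) ^ 2 * (N : ℝ) ^ (-σ)) * (A / 4) := by ring
      _ ≤ ε ^ 3 * (A / 4) := mul_le_mul_of_nonneg_right hs (by positivity)
      _ = (ε / 2) ^ 2 * (ε * A) := by ring
  have h7 := hM.trans h5
  rw [mul_comm] at h7
  exact le_of_mul_le_mul_left h7 (by positivity)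

end

end Pool.Agent.Lib.MP391708.QPA.H
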