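import Pool.Agent.Lib.MP_391708_nt.QPA.H.EMc

/-! # E2M: the model sum for products of two primes -/

set_option autoImplicit false

namespace Pool.Agent.Lib.MP391708.QPA.H.E2MM

open Finset Filter Topology
open Pool.Agent.Lib.MP391708.QPA
open scoped Classical

noncomputable section

theorem mem_PW {N : ℕ} {α β : ℝ} {p : ℕ} :
    p ∈ PW N α β ↔ (N : ℝ) ^ α < p ∧ (p : ℝ) ≤ (N : ℝ) ^ β ∧ p.Prime := by
  unfold PW
  rw [mem_filter, mem_Ioc, Nat.floor_lt (by positivity), Nat.le_floor_iff (by positivity), and_assoc]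

/-- `F' = 1/(u(2-u))` -/
def F (u : ℝ) : ℝ := 1 / 2 * (Real.log u - Real.log (2 - u))

theorem F_step {u v : ℝ} (hu : 0 < u) (huv : u < v) (hv : v < 1) :
    (Real.log v - Real.log u) / (2 - u) ≤ F v - F u ∧ F v - F u ≤ (Real.log v - Real.log u) / (2 - v) := by
  have hv0 : 0 < v := by linarith
  have h2u : 0 < 2 - u := by linarith
  have h2v : 0 < 2 - v := by linarith
  have l1 : Real.log v - Real.log u = Real.log (v / u) := (Real.log_div hv0.ne' hu.ne').symm
  have l2 : Real.log (2 - u) - Real.log (2 - v) = Real.log ((2 - u) / (2 - v)) :=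
    (Real.log_div h2u.ne' h2v.ne').symm
  -- log x ≤ x - 1
  have a1 : Real.log (v / u) ≤ v / u - 1 := Real.log_le_sub_one_of_pos (by positivity)
  have a2 : Real.log (u / v) ≤ u / v - 1 := Real.log_le_sub_one_of_pos (by positivity)
  have a3 : Real.log ((2 - u) / (2 - v)) ≤ (2 - u) / (2 - v) - 1 :=
    Real.log_le_sub_one_of_pos (by positivity)
  have a4 : Real.log ((2 - v) / (2 - u)) ≤ (2 - v) / (2 - u) - 1 :=
    Real.log_le_sub_one_of_pos (by positivity)
  rw [Real.log_div hv0.ne' hu.ne'] at a1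
  rw [Real.log_div hu.ne' hv0.ne'] at a2
  rw [Real.log_div h2u.ne' h2v.ne'] at a3
  rw [Real.log_div h2v.ne' h2u.ne'] at a4
  obtain ⟨X, hX⟩ : ∃ X : ℝ, X = Real.log v - Real.log u := ⟨_, rfl⟩
  obtain ⟨Y, hY⟩ : ∃ Y : ℝ, Y = Real.log (2 - u) - Real.log (2 - v) := ⟨_, rfl⟩
  have hFF : F v - F u = 1 / 2 * (X + Y) := by unfold F; rw [hX, hY]; ring
  rw [hFF, ← hX]
  have b1 : u * X ≤ v - u := by
    have : u * (v / u - 1) = v - u := by field_simp
    nlinarith
  have b2 : v - u ≤ v * X := by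
    have : v * (u / v - 1) = u - v := by field_simp
    nlinarith
  have b3 : (2 - v) * Y ≤ v - u := by
    have : (2 - v) * ((2 - u) / (2 - v) - 1) = v - u := by field_simp; ring
    nlinarith
  have b4 : v - u ≤ (2 - u) * Y := by
    have : (2 - u) * ((2 - v) / (2 - u) - 1) = u - v := by field_simp; ring
    nlinarith
  constructor
  · rw [div_le_iff₀ h2u]; nlinarith
  · rw [le_div_iff₀ h2v]; nlinarith

theorem piece {N : ℕ} (hN : 2 ≤ N) {u v : ℝ} (hu : 0 < u) (huv : u < v) (hv : v < 1) :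
    |∑ p ∈ PW N u v, 1 / (p : ℝ) / (2 - Real.log p / Real.log N) - (F v - F u)| ≤
      (Real.log v - Real.log u) * (v - u) +
      |∑ p ∈ PW N u v, 1 / (p : ℝ) - (Real.log v - Real.log u)| := by
  have hNR : (2 : ℝ) ≤ N := by exact_mod_cast hN
  have hL : 0 < Real.log N := Real.log_pos (by linarith)
  obtain ⟨f1, f2⟩ := F_step hu huv hv
  have hX0 : 0 ≤ Real.log v - Real.log u := sub_nonneg.mpr (Real.log_le_log hu huv.le)
  have key : ∀ p ∈ PW N u v, 1 / (p : ℝ) / (2 - u) ≤ 1 / (p : ℝ) / (2 - Real.log p / Real.log N) ∧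
      1 / (p : ℝ) / (2 - Real.log p / Real.log N) ≤ 1 / (p : ℝ) / (2 - v) := by
    intro p hp
    obtain ⟨h1, h2, h3⟩ := mem_PW.mp hp
    have hp0 : (0 : ℝ) < p := by exact_mod_cast h3.pos
    have k1 : u ≤ Real.log p / Real.log N := by
      rw [le_div_iff₀ hL, ← Real.log_rpow (by linarith)]
      exact Real.log_le_log (by positivity) h1.le
    have k2 : Real.log p / Real.log N ≤ v := by
      rw [div_le_iff₀ hL, ← Real.log_rpow (by linarith)]
      exact Real.log_le_log hp0 h2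
    constructor
    · apply div_le_div_of_nonneg_left (by positivity) (by linarith) (by linarith)
    · apply div_le_div_of_nonneg_left (by positivity) (by linarith) (by linarith)
  have s1 := sum_le_sum fun p hp => (key p hp).1
  have s2 := sum_le_sum fun p hp => (key p hp).2
  rw [← sum_div] at s1 s2
  obtain ⟨M, hM⟩ : ∃ M : ℝ, M = ∑ p ∈ PW N u v, 1 / (p : ℝ) := ⟨_, rfl⟩
  obtain ⟨T, hT⟩ : ∃ T : ℝ, T = ∑ p ∈ PW N u v, 1 / (p : ℝ) / (2 - Real.log p / Real.log N) := ⟨_, rfl⟩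
  obtain ⟨X, hX⟩ : ∃ X : ℝ, X = Real.log v - Real.log u := ⟨_, rfl⟩
  rw [← hM, ← hT] at s1 s2
  rw [← hM, ← hT, ← hX]
  rw [← hX] at hX0 f1 f2
  have hd : 0 ≤ |M - X| := abs_nonneg _
  have hd1 : M ≤ X + |M - X| := by linarith [le_abs_self (M - X)]
  have hd2 : X - |M - X| ≤ M := by linarith [neg_abs_le (M - X)]
  have h2u : 0 < 2 - u := by linarith
  have h2v : 0 < 2 - v := by linarith
  have c1 : X / (2 - v) - X / (2 - u) ≤ X * (v - u) := by
    have : X / (2 - v) - X / (2 - u) = X * (v - u) / ((2 - v) * (2 - u)) := by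
      field_simp
      ring
    rw [this]
    apply div_le_self (mul_nonneg hX0 (by linarith))
    nlinarith
  have c2 : M / (2 - v) ≤ X / (2 - v) + |M - X| := by
    calc M / (2 - v) ≤ (X + |M - X|) / (2 - v) := div_le_div_of_nonneg_right hd1 h2v.le
      _ = X / (2 - v) + |M - X| / (2 - v) := add_div _ _ _
      _ ≤ _ := by
          have := div_le_self hd (by linarith : (1 : ℝ) ≤ 2 - v)
          linarith
  have c3 : X / (2 - u) - |M - X| ≤ M / (2 - u) := by
    calc X / (2 - u) - |M - X| ≤ X / (2 - u) - |M - X| / (2 - u) := by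
          have := div_le_self hd (by linarith : (1 : ℝ) ≤ 2 - u)
          linarith
      _ = (X - |M - X|) / (2 - u) := (sub_div _ _ _).symm
      _ ≤ _ := div_le_div_of_nonneg_right hd2 h2u.le
  rw [abs_le]
  constructor <;> linarith

theorem uniform (hM : SpecMER) (J : ℕ) (x : ℕ → ℝ) (hx0 : ∀ i, 0 < x i) (hx : StrictMono x) {ε : ℝ}
    (hε : 0 < ε) : ∃ N₀ : ℕ, ∀ N : ℕ, N₀ ≤ N → ∀ i ∈ range J,
      |∑ p ∈ PW N (x i) (x (i + 1)), 1 / (p : ℝ) - (Real.log (x (i + 1)) - Real.log (x i))| ≤ ε := by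
  have h : ∀ i : ℕ, ∃ N₀ : ℕ, ∀ N : ℕ, N₀ ≤ N →
      |∑ p ∈ PW N (x i) (x (i + 1)), 1 / (p : ℝ) - (Real.log (x (i + 1)) - Real.log (x i))| ≤ ε := by
    intro i
    obtain ⟨N₀, h⟩ := hM (x i) (x (i + 1)) ε (hx0 i) (hx (Nat.lt_succ_self i)) hε
    refine ⟨N₀, fun N hN => ?_⟩
    rw [← Real.log_div (hx0 _).ne' (hx0 _).ne']
    exact h N hN
  choose n hn using h
  exact ⟨(range J).sup n, fun N hN i hi => hn i N ((le_sup hi).trans hN)⟩

theorem rie (hM : SpecMER) {α β ε : ℝ} (hα : 0 < α) (hαβ : α < β) (hβ : β < 1) (hε : 0 < ε) :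
    ∃ N₀ : ℕ, ∀ N : ℕ, N₀ ≤ N →
      |∑ p ∈ PW N α β, 1 / (p : ℝ) / (2 - Real.log p / Real.log N) - (F β - F α)| ≤ ε := by
  have hl : 0 < Real.log β - Real.log α := sub_pos.mpr (Real.log_lt_log hα hαβ)
  obtain ⟨J, hJ⟩ := exists_nat_ge (2 * ((β - α) * (Real.log β - Real.log α)) / ε + 1)
  have hq : 0 ≤ 2 * ((β - α) * (Real.log β - Real.log α)) / ε := by
    apply div_nonneg _ hε.le
    have := mul_nonneg (by linarith : 0 ≤ β - α) hl.le
    linarith
  have hJ1 : (1 : ℝ) ≤ J := by linarith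
  have hJ0 : (0 : ℝ) < J := by linarith
  have hJε : (β - α) / J * (Real.log β - Real.log α) ≤ ε / 2 := by
    have h1 : 2 * ((β - α) * (Real.log β - Real.log α)) / ε ≤ J := by linarith
    rw [div_le_iff₀ hε] at h1
    rw [div_mul_eq_mul_div, div_le_iff₀ hJ0]
    linarith
  obtain ⟨x, hxd⟩ : ∃ x : ℕ → ℝ, x = fun i : ℕ => α + (β - α) / J * (i : ℝ) := ⟨_, rfl⟩
  have hd0 : 0 < (β - α) / J := div_pos (by linarith) hJ0
  have hx0 : ∀ i, 0 < x i := by
    intro i
    rw [hxd]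
    have : 0 ≤ (β - α) / J * (i : ℝ) := by positivity
    simp only
    linarith
  have hxm : StrictMono x := by
    intro i j hij
    rw [hxd]
    have : (i : ℝ) < j := by exact_mod_cast hij
    simp only
    have := mul_lt_mul_of_pos_left this hd0
    linarith
  have hxa : x 0 = α := by rw [hxd]; simp
  have hxb : x J = β := by rw [hxd]; simp only; field_simp; ring
  have hxs : ∀ i, x (i + 1) - x i = (β - α) / J := by
    intro i; rw [hxd]; simp only; push_cast; ring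
  obtain ⟨N₀, h0⟩ := uniform hM J x hx0 hxm (ε := ε / (2 * J)) (by positivity)
  refine ⟨max N₀ 2, fun N hN => ?_⟩
  have hN0 := h0 N ((le_max_left _ _).trans hN)
  have hN2 : 2 ≤ N := (le_max_right _ _).trans hN
  have hNR : (2 : ℝ) ≤ N := by exact_mod_cast hN2
  have hmono : Monotone (fun i : ℕ => ⌊(N : ℝ) ^ (x i)⌋₊) := by
    intro i j hij
    apply Nat.floor_mono
    exact Real.rpow_le_rpow_of_exponent_le (by linarith) (hxm.monotone hij)
  have hsum : ∑ p ∈ PW N α β, 1 / (p : ℝ) / (2 - Real.log p / Real.log N) =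
      ∑ i ∈ range J, ∑ p ∈ PW N (x i) (x (i + 1)), 1 / (p : ℝ) / (2 - Real.log p / Real.log N) := by
    unfold PW
    simp only [sum_filter]
    have := MODP.sum_parts (fun i : ℕ => ⌊(N : ℝ) ^ (x i)⌋₊) hmono
      (fun p : ℕ => if p.Prime then 1 / (p : ℝ) / (2 - Real.log p / Real.log N) else 0) J
    simp only [hxa, hxb] at this
    rw [this]
  have hF : F β - F α = ∑ i ∈ range J, (F (x (i + 1)) - F (x i)) := by
    rw [sum_range_sub (fun i => F (x i)), hxa, hxb]
  have hlog : Real.log β - Real.log α = ∑ i ∈ range J, (Real.log (x (i + 1)) - Real.log (x i)) := by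
    rw [sum_range_sub (fun i => Real.log (x i)), hxa, hxb]
  rw [hsum, hF, ← sum_sub_distrib]
  calc |∑ i ∈ range J, (∑ p ∈ PW N (x i) (x (i + 1)), 1 / (p : ℝ) / (2 - Real.log p / Real.log N) -
          (F (x (i + 1)) - F (x i)))|
      ≤ ∑ i ∈ range J, |∑ p ∈ PW N (x i) (x (i + 1)), 1 / (p : ℝ) / (2 - Real.log p / Real.log N) -
          (F (x (i + 1)) - F (x i))| := abs_sum_le_sum_abs _ _
    _ ≤ ∑ i ∈ range J, ((Real.log (x (i + 1)) - Real.log (x i)) * ((β - α) / J) + ε / (2 * J)) := by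
        apply sum_le_sum
        intro i hi
        have hv : x (i + 1) ≤ β := by
          rw [← hxb]; exact hxm.monotone (mem_range.mp hi)
        have h1 := piece hN2 (hx0 i) (hxm (Nat.lt_succ_self i)) (by linarith)
        have h2 := hN0 i hi
        rw [hxs i] at h1
        linarith
    _ = (β - α) / J * (Real.log β - Real.log α) + ε / 2 := by
        rw [sum_add_distrib, ← sum_mul, ← hlog, sum_const, card_range, nsmul_eq_mul]
        field_simp
    _ ≤ ε := by linarith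

theorem main (hPNT : SpecPNT) (hM : SpecMER) (hV : SpecE2V) : SpecE2M := by
  intro α β ε hα hαβ hβ hε
  have hF : 1 / 2 * Real.log (β * (2 - α) / (α * (2 - β))) = F β - F α := by
    unfold F
    rw [Real.log_div (by nlinarith) (by nlinarith), Real.log_mul (by linarith) (by linarith),
      Real.log_mul (by linarith) (by linarith)]
    ring
  have hD : 0 ≤ F β - F α := by
    have h1 := (F_step (by linarith) hαβ hβ).1
    refine le_trans (div_nonneg (sub_nonneg.mpr (Real.log_le_log (by linarith) hαβ.le)) (by linarith)) h1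
  obtain ⟨D, hDd⟩ : ∃ D : ℝ, D = F β - F α := ⟨_, rfl⟩
  rw [hF, ← hDd]
  rw [← hDd] at hD
  obtain ⟨N₁, h1⟩ := rie hM (ε := min 1 (ε / 2)) (by linarith) hαβ hβ (lt_min one_pos (by linarith))
  obtain ⟨N₂, h2⟩ := EMc.term hPNT (κ := ε / (2 * (D + 1))) (by positivity)
  obtain ⟨N₃, h3⟩ := EMc.log_large 1
  obtain ⟨N₄, h4⟩ := hV α β hα hαβ hβ
  refine ⟨max (max N₁ N₂) (max (max N₃ N₄) 2), fun N hN => ?_⟩
  have hN1 : N₁ ≤ N := (le_max_left _ _).trans ((le_max_left _ _).trans hN)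
  have hN2 : N₂ ≤ N := (le_max_right _ _).trans ((le_max_left _ _).trans hN)
  have hN3 : N₃ ≤ N := (le_max_left _ _).trans ((le_max_left _ _).trans ((le_max_right _ _).trans hN))
  have hN4 : N₄ ≤ N := (le_max_right _ _).trans ((le_max_left _ _).trans ((le_max_right _ _).trans hN))
  have hN5 : 2 ≤ N := (le_max_right _ _).trans ((le_max_right _ _).trans hN)
  have hNR : (2 : ℝ) ≤ N := by exact_mod_cast hN5
  have hN0 : (0 : ℝ) < N := by linarith
  have hlog := h3 N hN3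
  have hlog0 : 0 < Real.log N := by linarith
  have hPN : ∀ p ∈ PW N α β, 1 ≤ p ∧ p ≤ N := by
    intro p hp
    obtain ⟨p1, p2, p3⟩ := mem_PW.mp hp
    refine ⟨p3.one_le, ?_⟩
    have h5 : (N : ℝ) ^ β ≤ (N : ℝ) ^ (1 : ℝ) :=
      Real.rpow_le_rpow_of_exponent_le (by linarith) hβ.le
    rw [Real.rpow_one] at h5
    exact_mod_cast p2.trans h5
  have hmodel : model N (EInd N 2 (1 / 10) α β) = ∑ m ∈ EMc.IMG N (PW N α β), 1 / (2 * √(m : ℝ)) := by
    unfold model EMc.IMG
    rw [sum_filter]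
    apply sum_congr rfl
    intro m hm
    rw [mem_Ioc] at hm
    have m1 : (N : ℝ) ^ 2 < m := by exact_mod_cast hm.1
    have m2 : (m : ℝ) ≤ 4 * (N : ℝ) ^ 2 := by exact_mod_cast hm.2
    have hsq : 0 < (N : ℝ) ^ 2 := by positivity
    rw [h4 N m hN4 (by linarith) (by linarith)]
    have hiff : (∃ p q : ℕ, p.Prime ∧ q.Prime ∧ m = p * q ∧ (N : ℝ) ^ α < p ∧ (p : ℝ) ≤ (N : ℝ) ^ β) ↔
        (∃ p ∈ PW N α β, ∃ r : ℕ, r.Prime ∧ m = p * r) := by
      constructor
      · rintro ⟨p, q, hp, hq, hm, a1, a2⟩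
        exact ⟨p, mem_PW.mpr ⟨a1, a2, hp⟩, q, hq, hm⟩
      · rintro ⟨p, hp, r, hr, hm⟩
        obtain ⟨a1, a2, a3⟩ := mem_PW.mp hp
        exact ⟨p, r, a3, hr, hm, a1, a2⟩
    by_cases hc : (∃ p ∈ PW N α β, ∃ r : ℕ, r.Prime ∧ m = p * r)
    · rw [if_pos (hiff.mpr hc), if_pos hc]
    · rw [if_neg (fun h => hc (hiff.mp h)), if_neg hc, zero_div]
  rw [hmodel, EMc.dsum N _ hPN]
  obtain ⟨T, hT⟩ : ∃ T : ℝ, T = ∑ p ∈ PW N α β, 1 / (p : ℝ) / (2 - Real.log p / Real.log N) := ⟨_, rfl⟩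
  have hTD := h1 N hN1
  rw [← hT, ← hDd] at hTD
  have hterm : ∀ p ∈ PW N α β, (N : ℝ) / p / Real.log ((N : ℝ) ^ 2 / p) =
      N / Real.log N * (1 / (p : ℝ) / (2 - Real.log p / Real.log N)) := by
    intro p hp
    obtain ⟨p1, p2⟩ := hPN p hp
    have hp0 : (0 : ℝ) < p := by exact_mod_cast p1
    have hpN : (p : ℝ) ≤ N := by exact_mod_cast p2
    have hlp : Real.log p ≤ Real.log N := Real.log_le_log hp0 hpN
    rw [Real.log_div (by positivity) hp0.ne', Real.log_pow]
    have e1 : (2 - Real.log p / Real.log N) = (2 * Real.log N - Real.log p) / Real.log N := by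
      field_simp
    have e2 : 0 < 2 * Real.log N - Real.log p := by linarith
    rw [e1]
    push_cast
    field_simp
  have hsumT : ∑ p ∈ PW N α β, (N : ℝ) / p / Real.log ((N : ℝ) ^ 2 / p) = N / Real.log N * T := by
    rw [hT, mul_sum]
    exact sum_congr rfl hterm
  have hdiff : |∑ p ∈ PW N α β, 1 / √(p : ℝ) * EMc.S ((N : ℝ) ^ 2 / p) - N / Real.log N * T| ≤
      ε / (2 * (D + 1)) * (N / Real.log N * T) := by
    rw [← hsumT, ← sum_sub_distrib, mul_sum]
    refine (abs_sum_le_sum_abs _ _).trans (sum_le_sum fun p hp => ?_)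
    exact h2 N hN2 p (hPN p hp).1 (hPN p hp).2
  have t1 := abs_le.mp (hTD.trans (min_le_left _ _))
  have t2 := hTD.trans (min_le_right _ _)
  have hR : 0 < (N : ℝ) / Real.log N := by positivity
  have hk : ε / (2 * (D + 1)) * (N / Real.log N * T) ≤ ε / 2 * (N / Real.log N) := by
    have h5 : ε / (2 * (D + 1)) * T ≤ ε / 2 := by
      rw [div_mul_eq_mul_div, div_le_iff₀ (by positivity)]
      nlinarith [t1.2]
    calc ε / (2 * (D + 1)) * (N / Real.log N * T) = (ε / (2 * (D + 1)) * T) * (N / Real.log N) := by ring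
      _ ≤ _ := mul_le_mul_of_nonneg_right h5 hR.le
  have hk2 : |N / Real.log N * T - D * (N / Real.log N)| ≤ ε / 2 * (N / Real.log N) := by
    have : N / Real.log N * T - D * (N / Real.log N) = (T - D) * (N / Real.log N) := by ring
    rw [this, abs_mul, abs_of_pos hR]
    exact mul_le_mul_of_nonneg_right t2 hR.le
  calc |∑ p ∈ PW N α β, 1 / √(p : ℝ) * EMc.S ((N : ℝ) ^ 2 / p) - D * (N / Real.log N)|
      ≤ |∑ p ∈ PW N α β, 1 / √(p : ℝ) * EMc.S ((N : ℝ) ^ 2 / p) - N / Real.log N * T| +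
        |N / Real.log N * T - D * (N / Real.log N)| := abs_sub_le _ _ _
    _ ≤ ε / 2 * (N / Real.log N) + ε / 2 * (N / Real.log N) := add_le_add (hdiff.trans hk) hk2
    _ = ε * (N / Real.log N) := by ring

end

end Pool.Agent.Lib.MP391708.QPA.H.E2MM

namespace Pool.Agent.Lib.MP391708.QPA.H

theorem specE2M (hPNT : Pool.Agent.Lib.MP391708.QPA.SpecPNT) (hMER : SpecMER) (hE2V : SpecE2V) :
    SpecE2M := E2MM.main hPNT hMER hE2V

end Pool.Agent.Lib.MP391708.QPA.H
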