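import Pool.Agent.Lib.MP_391708_nt.QPA.H.EMc

/-! # EKM: a lower bound of the model sum for products of `k` primes -/

set_option autoImplicit false

namespace Pool.Agent.Lib.MP391708.QPA.H.EKMM

open Finset Filter Topology
open Pool.Agent.Lib.MP391708.QPA
open scoped Classical

noncomputable section

/-- squarefree numbers with exactly `j` prime factors, all in `(N^a, N^b]` -/
def Good (N j : ℕ) (a b : ℝ) (Q : Finset ℕ) : Prop := ∀ q ∈ Q, Squarefree q ∧ q.primeFactors.card = j ∧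
  (∀ p : ℕ, p.Prime → p ∣ q → (N : ℝ) ^ a < p ∧ (p : ℝ) ≤ (N : ℝ) ^ b) ∧ (q : ℝ) ≤ ((N : ℝ) ^ b) ^ j

/-- the products -/
def mulS (Q I : Finset ℕ) : Finset ℕ := (Q ×ˢ I).image (fun x => x.1 * x.2)

theorem mem_PW {N : ℕ} {α β : ℝ} {p : ℕ} :
    p ∈ PW N α β ↔ (N : ℝ) ^ α < p ∧ (p : ℝ) ≤ (N : ℝ) ^ β ∧ p.Prime := by
  unfold PW
  rw [mem_filter, mem_Ioc, Nat.floor_lt (by positivity), Nat.le_floor_iff (by positivity), and_assoc]

theorem sq_mul {q r : ℕ} (hq : Squarefree q) (hr : r.Prime) (h : ¬ r ∣ q) :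
    Squarefree (q * r) ∧ (q * r).primeFactors.card = q.primeFactors.card + 1 := by
  have hc : Nat.Coprime q r := ((Nat.Prime.coprime_iff_not_dvd hr).mpr h).symm
  refine ⟨(Nat.squarefree_mul hc).mpr ⟨hq, hr.squarefree⟩, ?_⟩
  rw [Nat.Coprime.primeFactors_mul hc, card_union_of_disjoint hc.disjoint_primeFactors,
    hr.primeFactors, card_singleton]

theorem sum_mulS {N j : ℕ} {a b c d : ℝ} {Q : Finset ℕ} (hN : 1 ≤ N) (hbc : b ≤ c)
    (hQ : Good N j a b Q) :
    ∑ P ∈ mulS Q (PW N c d), 1 / (P : ℝ) = (∑ q ∈ Q, 1 / (q : ℝ)) * ∑ p ∈ PW N c d, 1 / (p : ℝ) := by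
  have hNR : (1 : ℝ) ≤ N := by exact_mod_cast hN
  unfold mulS
  rw [sum_image, sum_mul_sum, ← sum_product']
  · apply sum_congr rfl
    intro x _
    push_cast
    rw [div_mul_div_comm, one_mul]
  · rintro ⟨q, p⟩ hx ⟨q', p'⟩ hx' hxx
    rw [mem_coe, mem_product] at hx hx'
    simp only at hx hx' hxx
    obtain ⟨hp1, hp2, hp3⟩ := mem_PW.mp hx.2
    obtain ⟨hp1', hp2', hp3'⟩ := mem_PW.mp hx'.2
    have hpp : p = p' := by
      have h1 : p ∣ q' * p' := by rw [← hxx]; exact Dvd.intro_left q rfl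
      rcases (hp3.dvd_mul).mp h1 with h | h
      · have := ((hQ q' hx'.1).2.2.1 p hp3 h).2
        have h5 : (N : ℝ) ^ b ≤ (N : ℝ) ^ c := Real.rpow_le_rpow_of_exponent_le hNR hbc
        linarith
      · exact (Nat.prime_dvd_prime_iff_eq hp3 hp3').mp h
    subst hpp
    have : q = q' := Nat.eq_of_mul_eq_mul_right hp3.pos hxx
    subst this
    rfl

theorem good_mulS {N j : ℕ} {a b c d : ℝ} {Q : Finset ℕ} (hN : 1 ≤ N) (hab : a ≤ c) (hbc : b ≤ c)
    (hcd : b ≤ d) (hQ : Good N j a b Q) : Good N (j + 1) a d (mulS Q (PW N c d)) := by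
  have hNR : (1 : ℝ) ≤ N := by exact_mod_cast hN
  intro P hP
  unfold mulS at hP
  rw [mem_image] at hP
  obtain ⟨⟨q, p⟩, hx, rfl⟩ := hP
  rw [mem_product] at hx
  obtain ⟨hp1, hp2, hp3⟩ := mem_PW.mp hx.2
  obtain ⟨q1, q2, q3, q4⟩ := hQ q hx.1
  have h5 : (N : ℝ) ^ b ≤ (N : ℝ) ^ c := Real.rpow_le_rpow_of_exponent_le hNR hbc
  have h6 : (N : ℝ) ^ b ≤ (N : ℝ) ^ d := Real.rpow_le_rpow_of_exponent_le hNR hcd
  have h7 : (N : ℝ) ^ a ≤ (N : ℝ) ^ c := Real.rpow_le_rpow_of_exponent_le hNR hab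
  have hnd : ¬ p ∣ q := by
    intro h
    have := (q3 p hp3 h).2
    simp only at hp1 this
    linarith
  obtain ⟨s1, s2⟩ := sq_mul q1 hp3 hnd
  refine ⟨s1, by rw [s2, q2], ?_, ?_⟩
  · intro r hr hrd
    rcases (hr.dvd_mul).mp hrd with h | h
    · exact ⟨(q3 r hr h).1, (q3 r hr h).2.trans h6⟩
    · have : r = p := (Nat.prime_dvd_prime_iff_eq hr hp3).mp h
      subst this
      exact ⟨lt_of_le_of_lt h7 hp1, hp2⟩
  · push_cast
    rw [pow_succ]
    apply mul_le_mul (q4.trans _) hp2 (by positivity) (by positivity)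
    exact pow_le_pow_left₀ (by positivity) h6 j

theorem claim (hM : SpecMER) (j : ℕ) : ∀ a b : ℝ, 0 < a → a < b → ∃ c : ℝ, 0 < c ∧ ∃ N₀ : ℕ,
    ∀ N : ℕ, N₀ ≤ N → ∃ Q : Finset ℕ, Good N j a b Q ∧ c ≤ ∑ q ∈ Q, 1 / (q : ℝ) := by
  induction j with
  | zero =>
    intro a b ha hab
    refine ⟨1, one_pos, 0, fun N _ => ⟨{1}, ?_, by simp⟩⟩
    intro q hq
    rw [mem_singleton] at hq
    subst hq
    refine ⟨squarefree_one, by simp, ?_, by simp⟩
    intro p hp hp1
    exact absurd (Nat.dvd_one.mp hp1) hp.one_lt.ne'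
  | succ j ih =>
    intro a b ha hab
    obtain ⟨m, hm⟩ : ∃ m : ℝ, m = (a + b) / 2 := ⟨_, rfl⟩
    have ham : a < m := by rw [hm]; linarith
    have hmb : m < b := by rw [hm]; linarith
    obtain ⟨c, hc, N₁, h1⟩ := ih a m ha ham
    have hl : 0 < Real.log (b / m) := Real.log_pos (by rw [one_lt_div (by linarith)]; exact hmb)
    obtain ⟨N₂, h2⟩ := hM m b (Real.log (b / m) / 2) (by linarith) hmb (by linarith)
    refine ⟨c * (Real.log (b / m) / 2), by positivity, max (max N₁ N₂) 1, fun N hN => ?_⟩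
    have hN1 : N₁ ≤ N := (le_max_left _ _).trans ((le_max_left _ _).trans hN)
    have hN2 : N₂ ≤ N := (le_max_right _ _).trans ((le_max_left _ _).trans hN)
    have hN3 : 1 ≤ N := (le_max_right _ _).trans hN
    obtain ⟨Q, hQ, hQs⟩ := h1 N hN1
    refine ⟨mulS Q (PW N m b), good_mulS hN3 ham.le le_rfl hmb.le hQ, ?_⟩
    rw [sum_mulS hN3 le_rfl hQ]
    have h3 := (abs_le.mp (h2 N hN2)).1
    exact mul_le_mul hQs (by linarith) (by linarith) (hc.le.trans hQs)

theorem main (hPNT : SpecPNT) (hM : SpecMER) : SpecEKM := by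
  intro k α β hk hα hαβ hβ
  obtain ⟨j, rfl⟩ : ∃ j : ℕ, k = j + 2 := ⟨k - 2, by omega⟩
  obtain ⟨δ, hδ⟩ : ∃ δ : ℝ, δ = (1 - β) / (4 * (j + 2)) := ⟨_, rfl⟩
  have hj0 : (0 : ℝ) ≤ j := Nat.cast_nonneg j
  have hδ0 : 0 < δ := by rw [hδ]; apply div_pos <;> linarith
  have hδ1 : δ ≤ 1 / 16 := by
    rw [hδ, div_le_iff₀ (by linarith)]; linarith
  have hδj : 2 * δ * j + β ≤ 1 := by
    have : 4 * δ * (j + 2) = 1 - β := by rw [hδ]; field_simp
    nlinarith
  obtain ⟨c, hc, N₁, h1⟩ := claim hM j δ (2 * δ) hδ0 (by linarith)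
  have hl : 0 < Real.log (β / α) := Real.log_pos (by rw [one_lt_div (by linarith)]; exact hαβ)
  obtain ⟨N₂, h2⟩ := hM α β (Real.log (β / α) / 2) (by linarith) hαβ (by linarith)
  obtain ⟨N₃, h3⟩ := EMc.term hPNT (κ := 1 / 2) (by norm_num)
  obtain ⟨N₄, h4⟩ := EMc.log_large 1
  refine ⟨δ, hδ0, by linarith, c * (Real.log (β / α) / 2) / 4, by positivity,
    max (max N₁ N₂) (max (max N₃ N₄) 2), fun N hN => ?_⟩
  have hN1 : N₁ ≤ N := (le_max_left _ _).trans ((le_max_left _ _).trans hN)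
  have hN2 : N₂ ≤ N := (le_max_right _ _).trans ((le_max_left _ _).trans hN)
  have hN3 : N₃ ≤ N := (le_max_left _ _).trans ((le_max_left _ _).trans ((le_max_right _ _).trans hN))
  have hN4 : N₄ ≤ N := (le_max_right _ _).trans ((le_max_left _ _).trans ((le_max_right _ _).trans hN))
  have hN5 : 2 ≤ N := (le_max_right _ _).trans ((le_max_right _ _).trans hN)
  have hNR : (2 : ℝ) ≤ N := by exact_mod_cast hN5
  have hN0 : (0 : ℝ) < N := by linarith
  have hlog := h4 N hN4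
  obtain ⟨Q, hQ, hQs⟩ := h1 N hN1
  obtain ⟨P, hPdef⟩ : ∃ P : Finset ℕ, P = mulS Q (PW N α β) := ⟨_, rfl⟩
  have hPg : Good N (j + 1) δ β P := by
    rw [hPdef]
    exact good_mulS (by omega) (by linarith) (by linarith) (by linarith) hQ
  have hPs : c * (Real.log (β / α) / 2) ≤ ∑ p ∈ P, 1 / (p : ℝ) := by
    rw [hPdef, sum_mulS (by omega) (by linarith) hQ]
    have h5 := (abs_le.mp (h2 N hN2)).1
    exact mul_le_mul hQs (by linarith) (by linarith) (hc.le.trans hQs)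
  -- the elements of `P`
  have hPN : ∀ p ∈ P, 1 ≤ p ∧ p ≤ N := by
    intro p hp
    refine ⟨Nat.one_le_iff_ne_zero.mpr (hPg p hp).1.ne_zero, ?_⟩
    rw [hPdef] at hp
    unfold mulS at hp
    rw [mem_image] at hp
    obtain ⟨⟨q, s⟩, hx, rfl⟩ := hp
    rw [mem_product] at hx
    obtain ⟨hs1, hs2, hs3⟩ := mem_PW.mp hx.2
    obtain ⟨q1, q2, q3, q4⟩ := hQ q hx.1
    have : ((q * s : ℕ) : ℝ) ≤ (N : ℝ) := by
      push_cast
      calc (q : ℝ) * s ≤ ((N : ℝ) ^ (2 * δ)) ^ j * (N : ℝ) ^ β :=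
            mul_le_mul q4 hs2 (by positivity) (by positivity)
        _ = (N : ℝ) ^ (2 * δ * j + β) := by
            rw [← Real.rpow_natCast, ← Real.rpow_mul hN0.le, ← Real.rpow_add hN0]
        _ ≤ (N : ℝ) ^ (1 : ℝ) := Real.rpow_le_rpow_of_exponent_le (by linarith) hδj
        _ = N := Real.rpow_one _
    exact_mod_cast this
  have hPd : ∀ p ∈ P, ∃ d : ℕ, d ∣ p ∧ (N : ℝ) ^ α < d ∧ (d : ℝ) ≤ (N : ℝ) ^ β := by
    intro p hp
    rw [hPdef] at hp
    unfold mulS at hp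
    rw [mem_image] at hp
    obtain ⟨⟨q, s⟩, hx, rfl⟩ := hp
    rw [mem_product] at hx
    obtain ⟨hs1, hs2, hs3⟩ := mem_PW.mp hx.2
    exact ⟨s, Dvd.intro_left q rfl, hs1, hs2⟩
  -- EInd on IMG
  have hE : ∀ m ∈ EMc.IMG N P, EInd N (j + 2) δ α β m = 1 := by
    intro m hm
    unfold EMc.IMG at hm
    rw [mem_filter, mem_Ioc] at hm
    obtain ⟨⟨m1, m2⟩, p, hp, r, hr, hmr⟩ := hm
    rw [hmr] at m1 m2
    obtain ⟨g1, g2, g3, g4⟩ := hPg p hp
    have hrN : N < r := EMc.r_large (hPN p hp).2 m1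
    have hrp : ¬ r ∣ p := by
      intro h
      have := Nat.le_of_dvd (hPN p hp).1 h
      have := (hPN p hp).2
      omega
    obtain ⟨s1, s2⟩ := sq_mul g1 hr hrp
    obtain ⟨d, d1, d2, d3⟩ := hPd p hp
    unfold EInd
    rw [if_pos]
    rw [hmr]
    refine ⟨s1, by rw [s2, g2], ?_, d, d1.mul_right r, d2, d3⟩
    intro t ht htd
    rcases (ht.dvd_mul).mp htd with h | h
    · exact (g3 t ht h).1.le
    · have : t = r := (Nat.prime_dvd_prime_iff_eq ht hr).mp h
      subst this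
      have h6 : (N : ℝ) ≤ t := by exact_mod_cast hrN.le
      have h7 : (N : ℝ) ^ δ ≤ (N : ℝ) ^ (1 : ℝ) :=
        Real.rpow_le_rpow_of_exponent_le (by linarith) (by linarith)
      rw [Real.rpow_one] at h7
      linarith
  have hmodel : ∑ m ∈ EMc.IMG N P, 1 / (2 * √(m : ℝ)) ≤ model N (EInd N (j + 2) δ α β) := by
    unfold model
    calc ∑ m ∈ EMc.IMG N P, 1 / (2 * √(m : ℝ))
        = ∑ m ∈ EMc.IMG N P, EInd N (j + 2) δ α β m / (2 * √(m : ℝ)) := by
          apply sum_congr rfl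
          intro m hm
          rw [hE m hm]
      _ ≤ _ := by
          apply sum_le_sum_of_subset_of_nonneg (filter_subset _ _)
          intro m _ _
          apply div_nonneg _ (by positivity)
          unfold EInd
          split_ifs <;> norm_num
  refine le_trans ?_ hmodel
  rw [EMc.dsum N P hPN]
  calc c * (Real.log (β / α) / 2) / 4 * (N / Real.log N)
      = N / (4 * Real.log N) * (c * (Real.log (β / α) / 2)) := by
        have : Real.log (N : ℝ) ≠ 0 := by positivity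
        field_simp
    _ ≤ N / (4 * Real.log N) * ∑ p ∈ P, 1 / (p : ℝ) :=
        mul_le_mul_of_nonneg_left hPs (by positivity)
    _ = ∑ p ∈ P, N / (4 * Real.log N) * (1 / (p : ℝ)) := by rw [mul_sum]
    _ ≤ _ := by
        apply sum_le_sum
        intro p hp
        obtain ⟨p1, p2⟩ := hPN p hp
        have hp0 : (0 : ℝ) < p := by exact_mod_cast p1
        have hpN : (p : ℝ) ≤ N := by exact_mod_cast p2
        have h5 := (abs_le.mp (h3 N hN3 p p1 p2)).1
        have hx : (N : ℝ) ≤ (N : ℝ) ^ 2 / p := by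
          rw [le_div_iff₀ hp0, sq]
          exact mul_le_mul_of_nonneg_left hpN hN0.le
        have hx2 : (N : ℝ) ^ 2 / p ≤ (N : ℝ) ^ 2 := by
          apply div_le_self (by positivity)
          exact_mod_cast p1
        have hL0 : 0 < Real.log ((N : ℝ) ^ 2 / p) := Real.log_pos (by linarith)
        have hL : Real.log ((N : ℝ) ^ 2 / p) ≤ 2 * Real.log N := by
          have := Real.log_le_log (by linarith) hx2
          rw [Real.log_pow] at this
          exact_mod_cast this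
        have h6 : N / (4 * Real.log N) * (1 / (p : ℝ)) ≤
            1 / 2 * (N / p / Real.log ((N : ℝ) ^ 2 / p)) := by
          have : (N : ℝ) / (4 * Real.log N) * (1 / (p : ℝ)) = 1 / 2 * (N / p / (2 * Real.log N)) := by
            have : Real.log (N : ℝ) ≠ 0 := by positivity
            field_simp
            ring
          rw [this]
          gcongr
        linarith

end

end Pool.Agent.Lib.MP391708.QPA.H.EKMM

namespace Pool.Agent.Lib.MP391708.QPA.H

theorem specEKM (hPNT : Pool.Agent.Lib.MP391708.QPA.SpecPNT) (hMER : SpecMER) : SpecEKM :=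
  EKMM.main hPNT hMER

end Pool.Agent.Lib.MP391708.QPA.H
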