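import Pool.Agent.Lib.MP_391708_nt.QPA.H.SpecH
import Pool.Agent.Lib.MP_391708_nt.QPA.FIN
import Pool.Agent.Lib.MP_391708_nt.QPA.NSFM

/-!
# FINE: the asymptotic formula for one block, with the Hardy-Littlewood constant
-/

set_option autoImplicit false

namespace Pool.Agent.Lib.MP391708.QPA.H

open Finset Filter Topology
open Pool.Agent.Lib.MP391708.QPA
open scoped Classical

noncomputable section

namespace FINEM

theorem EInd_nonneg (N k : ℕ) (δ α β : ℝ) (m : ℕ) : 0 ≤ EInd N k δ α β m := by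
  unfold EInd
  split_ifs <;> norm_num

theorem EInd_le (N k : ℕ) (δ α β : ℝ) (m : ℕ) : EInd N k δ α β m ≤ rInd ((N : ℝ) ^ δ) m := by
  unfold EInd rInd
  split_ifs with h1 h2 h2
  · exact le_rfl
  · exact absurd h1.2.2.1 h2
  · norm_num
  · exact le_rfl

/-- the model sum over the rough numbers -/
theorem model_rough (hBT : SpecBT) (δ : ℝ) (hδ : 0 < δ) (hδ1 : δ ≤ 1 / 10) :
    ∃ C : ℝ, 0 < C ∧ ∃ N₀ : ℕ, ∀ N : ℕ, N₀ ≤ N →
      model N (rInd ((N : ℝ) ^ δ)) ≤ C * (N / Real.log N) := by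
  obtain ⟨C, hC, hB⟩ := hBT
  obtain ⟨N₁, hN₁⟩ := NSFM.eventually_rpow 1 1 (by norm_num) (by norm_num)
  have ht : Tendsto (fun N : ℕ => (N : ℝ)) atTop atTop := tendsto_natCast_atTop_atTop
  obtain ⟨N₂, hN₂⟩ := eventually_atTop.1
    (ht.eventually ((tendsto_rpow_atTop (show 0 < δ / 2 by positivity)).eventually_ge_atTop 2))
  refine ⟨C * (6 / δ + 1) / 2, by positivity, max (max N₁ N₂) 3, fun N hN => ?_⟩
  have h1 := hN₁ N (((le_max_left _ _).trans (le_max_left _ _)).trans hN)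
  have h2 := hN₂ N (((le_max_right _ _).trans (le_max_left _ _)).trans hN)
  have h3 : 3 ≤ N := (le_max_right _ _).trans hN
  have hN3 : (3 : ℝ) ≤ N := by exact_mod_cast h3
  have hN0 : (0 : ℝ) < N := by linarith
  have hN1 : (1 : ℝ) < N := by linarith
  have hlog : 0 < Real.log N := Real.log_pos hN1
  rw [Real.rpow_one, one_mul] at h1
  have h4 := hB ((N : ℝ) ^ (δ / 2)) ((N : ℝ) ^ δ) 1 0 (N ^ 2) (3 * N ^ 2) h2
    (Real.rpow_lt_rpow_of_exponent_lt hN1 (by linarith)) le_rfl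
  have h5 : N ^ 2 + 3 * N ^ 2 = 4 * N ^ 2 := by ring
  rw [h5, Real.log_rpow hN0] at h4
  have h6 : ((N : ℝ) ^ (δ / 2)) ^ 2 ≤ (N : ℝ) ^ 2 / Real.log N := by
    rw [le_div_iff₀ hlog, ← Real.rpow_natCast, ← Real.rpow_mul hN0.le]
    calc (N : ℝ) ^ (δ / 2 * ((2 : ℕ) : ℝ)) * Real.log N ≤ (N : ℝ) ^ (1 : ℝ) * N := by
          apply mul_le_mul _ h1 hlog.le (by positivity)
          apply Real.rpow_le_rpow_of_exponent_le hN1.le
          push_cast
          linarith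
      _ = (N : ℝ) ^ 2 := by rw [Real.rpow_one]; ring
  have h7 : model N (rInd ((N : ℝ) ^ δ))
      ≤ ∑ m ∈ Ioc (N ^ 2) (4 * N ^ 2), rInd ((N : ℝ) ^ δ) m / (2 * N) := by
    unfold model
    refine sum_le_sum fun m hm => ?_
    rw [mem_Ioc] at hm
    have h8 : ((N : ℝ)) ^ 2 ≤ m := by exact_mod_cast hm.1.le
    have h9 : (N : ℝ) ≤ √(m : ℝ) := Real.le_sqrt_of_sq_le h8
    have h10 : 0 ≤ rInd ((N : ℝ) ^ δ) m := by
      unfold rInd
      split_ifs <;> norm_num
    apply div_le_div_of_nonneg_left h10 (by positivity)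
    linarith
  have h8 : ∑ m ∈ Ioc (N ^ 2) (4 * N ^ 2), rInd ((N : ℝ) ^ δ) m / (2 * N)
      = (((Ioc (N ^ 2) (4 * N ^ 2)).filter (fun u => u % 1 = 0 ∧ Rough ((N : ℝ) ^ δ) u)).card : ℝ)
        / (2 * N) := by
    rw [← sum_div]
    congr 1
    rw [card_eq_sum_ones, Nat.cast_sum, sum_filter]
    refine sum_congr rfl fun m _ => ?_
    unfold rInd
    simp [Nat.mod_one]
  rw [h8] at h7
  refine h7.trans ?_
  rw [div_le_iff₀ (by positivity)]
  refine h4.trans ?_
  rw [Nat.totient_one]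
  have h9 : C * (((3 * N ^ 2 : ℕ)) : ℝ) / (((1 : ℕ) : ℝ) * (δ / 2 * Real.log N))
      = C * (6 / δ) * ((N : ℝ) ^ 2 / Real.log N) := by
    push_cast
    field_simp
    ring
  rw [h9]
  calc C * (6 / δ) * ((N : ℝ) ^ 2 / Real.log N) + C * ((N : ℝ) ^ (δ / 2)) ^ 2
      ≤ C * (6 / δ) * ((N : ℝ) ^ 2 / Real.log N) + C * ((N : ℝ) ^ 2 / Real.log N) := by gcongr
    _ = C * (6 / δ + 1) / 2 * (N / Real.log N) * (2 * N) := by ring

end FINEM

open FIN FINEM in
theorem specFINE (hBLK : SpecBLKE) (hF6 : SpecF6) (hBT : SpecBT) (hP : SpecRHOP) (h2 : SpecRHO2)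
    (hGmax : SpecGMAX) : SpecFINE := by
  intro k θ δ α β ε hθ hδ hδ1 hα hθα hαβ hβ hε
  obtain ⟨w1', hF1⟩ := hF6 (min (1 / 2) (ε / 4)) (lt_min (by norm_num) (by positivity))
  set w1 : ℕ := max w1' 2 with hw1
  obtain ⟨A1, hF1⟩ := hF1 w1 (le_max_left _ _)
  obtain ⟨c1, hc1, hG1⟩ := hGmax w1 (le_max_right _ _)
  set c : ℝ := 2 / 3 * c1 with hc_def
  have hc : 0 < c := by positivity
  obtain ⟨Cm, hCm, N₁, hN₁⟩ := model_rough hBT δ hδ hδ1
  set ε₁ : ℝ := min (ε / 4) (ε * c / 4) with hε₁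
  have hε₁0 : 0 < ε₁ := lt_min (by positivity) (by positivity)
  set δ' : ℝ := min (ε / 4) (ε / (4 * Cm)) with hδ'
  have hδ'0 : 0 < δ' := lt_min (by positivity) (by positivity)
  obtain ⟨w2', hF2⟩ := hF6 δ' hδ'0
  obtain ⟨wB, hB⟩ := hBLK k θ δ α β ε₁ hθ hδ hδ1 hα hθα hαβ hβ hε₁0
  set w : ℕ := max w2' wB with hw
  obtain ⟨A2, hF2⟩ := hF2 w (le_max_left _ _)
  obtain ⟨NB, hB⟩ := hB w (le_max_right _ _)
  obtain ⟨N₂, hN₂⟩ := eventually_atTop.1 ((ev_large θ (by linarith) A1).and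
    (ev_large θ (by linarith) A2))
  refine ⟨max (max N₁ N₂) (max NB 3), fun N A hN hA1 hA2 => ?_⟩
  have hNN1 : N₁ ≤ N := ((le_max_left _ _).trans (le_max_left _ _)).trans hN
  have hNN2 : N₂ ≤ N := ((le_max_right _ _).trans (le_max_left _ _)).trans hN
  have hNB : NB ≤ N := ((le_max_left _ _).trans (le_max_right _ _)).trans hN
  have hN3 : 3 ≤ N := ((le_max_right _ _).trans (le_max_right _ _)).trans hN
  have hN3' : (3 : ℝ) ≤ N := by exact_mod_cast hN3
  have hN0 : (0 : ℝ) < N := by linarith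
  have hlog1 : 1 ≤ Real.log N := by
    rw [Real.le_log_iff_exp_le hN0]
    have := Real.exp_one_lt_d9
    linarith
  have hlog : 0 < Real.log N := by linarith
  obtain ⟨hlA1, hlA2⟩ := hN₂ N hNN2
  set L : ℝ := (N : ℝ) / Real.log N with hL_def
  have hL : 0 < L := by positivity
  have hApos : (0 : ℝ) < A := (Real.rpow_pos_of_pos hN0 _).trans_le hA1
  have hAdm : Adm θ N A := by
    refine ⟨hA1, ?_⟩
    have : (A : ℝ) ≤ N := by exact_mod_cast hA2
    nlinarith
  have hmod : model N (EInd N k δ α β) ≤ Cm * L :=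
    (BLK.model_mono (EInd_le N k δ α β)).trans (hN₁ N hNN1)
  have hmod0 : 0 ≤ model N (EInd N k δ α β) := BLK.model_nonneg (EInd_nonneg N k δ α β)
  set B1 := (IA A).filter (fun a => ¬ ∃ h : ℝ, 0 < h ∧
    Tendsto (fun v : ℕ => Gw v a) atTop (𝓝 h) ∧ |Gw w1 a - h| ≤ min (1 / 2) (ε / 4) * h) with hB1
  set B2 := (IA A).filter (fun a => ¬ ∃ h : ℝ, 0 < h ∧
    Tendsto (fun v : ℕ => Gw v a) atTop (𝓝 h) ∧ |Gw w a - h| ≤ δ' * h) with hB2
  set B3 := (IA A).filter (fun a => ε₁ * N / Real.log N <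
      |cnt N a (EInd N k δ α β) - Gw w a * model N (EInd N k δ α β)|) with hB3
  have hc1' : (B1.card : ℝ) ≤ ε / 4 * A :=
    (hF1 A (hlA1 A hA1)).trans (mul_le_mul_of_nonneg_right (min_le_right _ _) hApos.le)
  have hc2' : (B2.card : ℝ) ≤ ε / 4 * A :=
    (hF2 A (hlA2 A hA1)).trans (mul_le_mul_of_nonneg_right (min_le_left _ _) hApos.le)
  have hc3' : (B3.card : ℝ) ≤ ε / 4 * A :=
    (hB N A hNB hAdm).trans (mul_le_mul_of_nonneg_right (min_le_left _ _) hApos.le)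
  have hsub : (Icc (-(A : ℤ)) A).filter (fun a : ℤ => ¬ ∃ h : ℝ, 0 < h ∧
      Tendsto (fun X : ℕ => ∏ w ∈ (range (X + 1)).filter (fun w => Nat.Prime w ∧ w ≠ 2),
        (1 - (jacobiSym (-a) w : ℝ) / ((w : ℝ) - 1))) atTop (𝓝 h) ∧
      |cnt N a (EInd N k δ α β) - h * model N (EInd N k δ α β)| ≤ ε * (h * (N / Real.log N)))
      ⊆ B1 ∪ (B2 ∪ B3) := by
    intro a ha
    rw [Finset.mem_filter] at ha
    obtain ⟨haI, hno⟩ := ha
    have haI' : a ∈ IA A := haI
    by_contra hcon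
    rw [Finset.mem_union, Finset.mem_union] at hcon
    push Not at hcon
    obtain ⟨n1, n2, n3⟩ := hcon
    rw [hB1, Finset.mem_filter] at n1
    rw [hB2, Finset.mem_filter] at n2
    rw [hB3, Finset.mem_filter] at n3
    push Not at n1 n2 n3
    obtain ⟨h, hh0, hht, hh1⟩ := n1 haI'
    obtain ⟨h', hh0', hht', hh2⟩ := n2 haI'
    have n3' := n3 haI'
    have heq : h' = h := tendsto_nhds_unique hht' hht
    rw [heq] at hh2
    apply hno
    refine ⟨h, hh0, ?_, ?_⟩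
    · refine hht.congr ?_
      intro X
      exact Gw_eq hP h2 X a
    · have hch : c ≤ h := by
        have h3 : |Gw w1 a - h| ≤ 1 / 2 * h :=
          hh1.trans (mul_le_mul_of_nonneg_right (min_le_left _ _) hh0.le)
        have h4 := (abs_le.1 h3).2
        have h5 := (hG1 a).1
        rw [hc_def]
        linarith
      have e1 : |cnt N a (EInd N k δ α β) - Gw w a * model N (EInd N k δ α β)| ≤ ε / 4 * (h * L) := by
        refine n3'.trans ?_
        calc ε₁ * N / Real.log N = ε₁ * L := by rw [hL_def]; ring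
          _ ≤ (ε * c / 4) * L := mul_le_mul_of_nonneg_right (min_le_right _ _) hL.le
          _ = ε / 4 * (c * L) := by ring
          _ ≤ ε / 4 * (h * L) := by gcongr
      have e2 : |(Gw w a - h) * model N (EInd N k δ α β)| ≤ ε / 4 * (h * L) := by
        rw [abs_mul, abs_of_nonneg hmod0]
        calc |Gw w a - h| * model N (EInd N k δ α β) ≤ (δ' * h) * (Cm * L) := by gcongr
          _ ≤ (ε / (4 * Cm) * h) * (Cm * L) := by
              have := min_le_right (ε / 4) (ε / (4 * Cm))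
              gcongr
          _ = ε / 4 * (h * L) := by field_simp
      have e3 : cnt N a (EInd N k δ α β) - h * model N (EInd N k δ α β)
          = (cnt N a (EInd N k δ α β) - Gw w a * model N (EInd N k δ α β))
            + (Gw w a - h) * model N (EInd N k δ α β) := by ring
      have e4 : 0 < ε * (h * L) := by positivity
      rw [e3]
      refine (abs_add_le _ _).trans ?_
      linarith
  calc (((Icc (-(A : ℤ)) A).filter (fun a : ℤ => ¬ ∃ h : ℝ, 0 < h ∧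
      Tendsto (fun X : ℕ => ∏ w ∈ (range (X + 1)).filter (fun w => Nat.Prime w ∧ w ≠ 2),
        (1 - (jacobiSym (-a) w : ℝ) / ((w : ℝ) - 1))) atTop (𝓝 h) ∧
      |cnt N a (EInd N k δ α β) - h * model N (EInd N k δ α β)|
        ≤ ε * (h * (N / Real.log N)))).card : ℝ)
      ≤ ((B1 ∪ (B2 ∪ B3)).card : ℝ) := by exact_mod_cast Finset.card_le_card hsub
    _ ≤ (B1.card : ℝ) + ((B2.card : ℝ) + (B3.card : ℝ)) := by
        have h3 := Finset.card_union_le B1 (B2 ∪ B3)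
        have h4 := Finset.card_union_le B2 B3
        exact_mod_cast (by omega : (B1 ∪ (B2 ∪ B3)).card ≤ B1.card + (B2.card + B3.card))
    _ ≤ ε / 4 * A + (ε / 4 * A + ε / 4 * A) := by linarith
    _ ≤ ε * A := by nlinarith [mul_pos hε hApos]

end

end Pool.Agent.Lib.MP391708.QPA.H
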