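import Pool.Agent.Lib.MP_391708_nt.QPA.H.SpecH
import Pool.Agent.Lib.MP_391708_nt.QPA.FIN

/-!
# FINL: both signs of the Liouville function at `n² + a`
-/

set_option autoImplicit false

namespace Pool.Agent.Lib.MP391708.QPA.H

open Finset Filter Topology
open Pool.Agent.Lib.MP391708.QPA
open scoped Classical

namespace FINLM

/-! ### the function `om` -/

theorem om_nonneg (N : ℕ) (α β : ℝ) (m : ℕ) : 0 ≤ om N α β m := by
  unfold om
  split_ifs
  · exact Nat.cast_nonneg _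
  · exact le_rfl

theorem om_le_two {N : ℕ} {α β : ℝ} {m : ℕ} (hN : 1 ≤ (N : ℝ) ^ α)
    (h5 : 5 * (N : ℝ) ^ 2 < ((N : ℝ) ^ α) ^ 3) (hm : (m : ℝ) ≤ 5 * (N : ℝ) ^ 2) (hm0 : m ≠ 0) :
    om N α β m ≤ 2 := by
  unfold om
  split_ifs with ho
  · by_contra hcon
    push Not at hcon
    set S := (PW N α β).filter (fun q => q ∣ m) with hS
    have h3 : 3 ≤ S.card := by
      have : (2 : ℝ) < (S.card : ℝ) := hcon
      have h2 : 2 < S.card := by exact_mod_cast this
      omega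
    have hpr : ∀ q ∈ S, Nat.Prime q := by
      intro q hq
      rw [hS, Finset.mem_filter, PW, Finset.mem_filter] at hq
      exact hq.1.2
    have hbig : ∀ q ∈ S, (N : ℝ) ^ α ≤ (q : ℝ) := by
      intro q hq
      rw [hS, Finset.mem_filter, PW, Finset.mem_filter, Finset.mem_Ioc] at hq
      exact ((Nat.floor_lt (by linarith)).1 hq.1.1.1).le
    have hdvd : (∏ q ∈ S, q) ∣ m := by
      apply Finset.prod_primes_dvd m (fun q hq => (hpr q hq).prime)
      intro q hq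
      rw [hS, Finset.mem_filter] at hq
      exact hq.2
    have hle : ∏ q ∈ S, q ≤ m := Nat.le_of_dvd (Nat.pos_of_ne_zero hm0) hdvd
    have hle' : ∏ q ∈ S, (q : ℝ) ≤ m := by
      have : ((∏ q ∈ S, q : ℕ) : ℝ) ≤ (m : ℝ) := by exact_mod_cast hle
      rwa [Nat.cast_prod] at this
    have h6 : ((N : ℝ) ^ α) ^ S.card ≤ ∏ q ∈ S, (q : ℝ) := by
      rw [← Finset.prod_const]
      exact Finset.prod_le_prod (fun _ _ => by linarith) hbig
    have h7 : ((N : ℝ) ^ α) ^ 3 ≤ ((N : ℝ) ^ α) ^ S.card := pow_le_pow_right₀ hN h3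
    linarith
  · norm_num

theorem lio_or {m : ℕ} (hm : m ≠ 0) :
    ArithmeticFunction.liouville m = 1 ∨ ArithmeticFunction.liouville m = -1 := by
  rw [ArithmeticFunction.liouville_apply hm]
  exact neg_one_pow_eq_or ℤ _

/-- the sum of `om` over one sign of the Liouville function -/
theorem sign_sum (N : ℕ) (α β : ℝ) (m : ℕ) (s : ℤ) (hs : s = 1 ∨ s = -1) :
    (if ArithmeticFunction.liouville m = s then om N α β m else 0)
      = 1 / 2 * (om N α β m + s * (lio m * om N α β m)) := by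
  by_cases hm : m = 0
  · subst hm
    have h0 : om N α β 0 = 0 := by
      unfold om
      rw [if_neg (by decide)]
    rw [h0]
    split_ifs <;> simp
  · unfold lio
    rcases lio_or hm with h | h <;> rcases hs with h' | h' <;> rw [h, h'] <;> norm_num <;> ring

/-- the number of `n` with a given sign -/
noncomputable def cs (a : ℤ) (s : ℤ) (x y : ℕ) : ℝ :=
  ∑ n ∈ Ioc x y, if ArithmeticFunction.liouville (val a n) = s then (1 : ℝ) else 0

theorem cs_nonneg (a s : ℤ) (x y : ℕ) : 0 ≤ cs a s x y :=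
  Finset.sum_nonneg (fun _ _ => by split_ifs <;> norm_num)

/-- pointwise consequence -/
theorem one_a {M A : ℕ} {α β δ ell : ℝ} {a : ℤ} (ha : a ∈ IA A)
    (hA : (A : ℝ) ≤ (M : ℝ) ^ 2 / 2) (hM0 : 0 < M) (hN : 1 ≤ (M : ℝ) ^ α)
    (h5 : 5 * (M : ℝ) ^ 2 < ((M : ℝ) ^ α) ^ 3)
    (h1 : |cnt M a (fun m => lio m * om M α β m)| ≤ δ * M)
    (h2 : (1 / 2 * ell - δ) * M ≤ cnt M a (om M α β)) (s : ℤ) (hs : s = 1 ∨ s = -1) :
    (1 / 8 * ell - δ) * M ≤ cs a s M (2 * M) := by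
  have h3 : ∑ n ∈ Ioc M (2 * M),
      (if ArithmeticFunction.liouville (val a n) = s then om M α β (val a n) else 0)
      = 1 / 2 * (cnt M a (om M α β) + s * cnt M a (fun m => lio m * om M α β m)) := by
    unfold cnt
    rw [Finset.mul_sum, ← Finset.sum_add_distrib, Finset.mul_sum]
    exact Finset.sum_congr rfl (fun n _ => sign_sum M α β _ s hs)
  have h4 : ∑ n ∈ Ioc M (2 * M),
      (if ArithmeticFunction.liouville (val a n) = s then om M α β (val a n) else 0)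
      ≤ 2 * cs a s M (2 * M) := by
    unfold cs
    rw [Finset.mul_sum]
    refine Finset.sum_le_sum (fun n hn => ?_)
    obtain ⟨g1, g2⟩ := BLK.val_range ha hA hn
    have hv0 : val a n ≠ 0 := by
      intro h0
      rw [h0] at g1
      have : (0 : ℝ) < M := by exact_mod_cast hM0
      have : (0 : ℝ) < (M : ℝ) ^ 2 / 2 := by positivity
      simp only [Nat.cast_zero] at g1
      linarith
    split_ifs
    · rw [mul_one]
      exact om_le_two hN h5 g2 hv0
    · rw [mul_zero]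
  have h6 : -(δ * M) ≤ s * cnt M a (fun m => lio m * om M α β m) := by
    obtain ⟨g1, g2⟩ := abs_le.1 h1
    rcases hs with h | h <;> rw [h]
    · push_cast
      linarith
    · push_cast
      linarith
  have h7 : 1 / 2 * ((1 / 2 * ell - δ) * M + -(δ * M)) ≤ 2 * cs a s M (2 * M) := by
    calc 1 / 2 * ((1 / 2 * ell - δ) * M + -(δ * M))
        ≤ 1 / 2 * (cnt M a (om M α β) + s * cnt M a (fun m => lio m * om M α β m)) := by
          linarith
      _ = _ := h3.symm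
      _ ≤ _ := h4
  have hM : (0 : ℝ) < M := by exact_mod_cast hM0
  have h8 : 0 ≤ δ * M := (abs_nonneg _).trans h1
  nlinarith

/-- growth facts -/
theorem ev_pow (α : ℝ) (hα : 2 / 3 < α) : ∀ᶠ M : ℕ in atTop,
    1 ≤ (M : ℝ) ^ α ∧ 5 * (M : ℝ) ^ 2 < ((M : ℝ) ^ α) ^ 3 ∧
      (M : ℝ) * Real.log M ≤ (M : ℝ) ^ 2 / 2 := by
  have h1 : Tendsto (fun M : ℕ => (M : ℝ) ^ (3 * α - 2)) atTop atTop :=
    (tendsto_rpow_atTop (by linarith)).comp tendsto_natCast_atTop_atTop
  have h2 : Tendsto (fun x : ℝ => Real.log x / x) atTop (𝓝 0) := by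
    have := Real.isLittleO_log_id_atTop.tendsto_div_nhds_zero
    simpa using this
  have h3 := h2.comp (tendsto_natCast_atTop_atTop (R := ℝ))
  filter_upwards [h1.eventually_gt_atTop 5, h3.eventually_lt_const (show (0 : ℝ) < 1 / 2 by norm_num),
    eventually_ge_atTop 1] with M hM1 hM2 hM3
  have hM : (1 : ℝ) ≤ M := by exact_mod_cast hM3
  have hM0 : (0 : ℝ) < M := by linarith
  refine ⟨Real.one_le_rpow hM (by linarith), ?_, ?_⟩
  · have h4 : ((M : ℝ) ^ α) ^ 3 = (M : ℝ) ^ (3 * α - 2) * (M : ℝ) ^ 2 := by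
      rw [← Real.rpow_natCast ((M : ℝ) ^ α) 3, ← Real.rpow_mul hM0.le, ← Real.rpow_natCast (M : ℝ) 2,
        ← Real.rpow_add hM0]
      congr 1
      push_cast
      ring
    rw [h4]
    exact mul_lt_mul_of_pos_right hM1 (by positivity)
  · simp only [Function.comp] at hM2
    rw [div_lt_iff₀ hM0] at hM2
    nlinarith

/-- one block -/
theorem block (hT : SpecTOTL) (hC : SpecCNTL) (θ α β δ : ℝ) (hθ : 1 / 2 < θ) (hα : 2 / 3 < α)
    (hθα : 3 / 2 < θ + α) (hαβ : α < β) (hβ : β < 1) (hδ : 0 < δ) :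
    ∀ᶠ M : ℕ in atTop, ∀ A : ℕ, Adm θ M A →
      (((IA A).filter (fun a => ¬ ∀ s : ℤ, (s = 1 ∨ s = -1) →
        (1 / 8 * Real.log (β / α) - δ) * M ≤ cs a s M (2 * M))).card : ℝ) ≤ 2 * δ * A := by
  obtain ⟨N1, hN1⟩ := hT θ α β (δ ^ 2) hθ hα hθα hαβ hβ (by positivity)
  obtain ⟨N2, hN2⟩ := hC θ α β δ hθ (by linarith) hαβ hβ hδ
  filter_upwards [ev_pow α hα, eventually_ge_atTop N1, eventually_ge_atTop N2,
    eventually_gt_atTop 0] with M hM h1 h2 hM0 A hA
  obtain ⟨g1, g2, g3⟩ := hM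
  have hMr : (0 : ℝ) < M := by exact_mod_cast hM0
  have hA2 : (A : ℝ) ≤ (M : ℝ) ^ 2 / 2 := hA.2.trans g3
  set B1 := (IA A).filter (fun a => δ * M < |cnt M a (fun m => lio m * om M α β m)|) with hB1
  set B2 := (IA A).filter (fun a => cnt M a (om M α β) < (1 / 2 * Real.log (β / α) - δ) * M)
    with hB2
  have c1 : (B1.card : ℝ) ≤ δ * A := by
    have h3 := BLK.markov (IA A) (fun a => |cnt M a (fun m => lio m * om M α β m)|)
      (fun a _ => abs_nonneg _) (δ * M) (δ ^ 2 * A * M) (by positivity) (hN1 M A h1 hA)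
    have h4 : δ ^ 2 * A * M = (δ * A) * (δ * M) := by ring
    rw [h4] at h3
    exact le_of_mul_le_mul_right h3 (by positivity)
  have c2 : (B2.card : ℝ) ≤ δ * A := hN2 M A h2 hA
  have hsub : (IA A).filter (fun a => ¬ ∀ s : ℤ, (s = 1 ∨ s = -1) →
        (1 / 8 * Real.log (β / α) - δ) * M ≤ cs a s M (2 * M)) ⊆ B1 ∪ B2 := by
    intro a ha
    rw [Finset.mem_filter] at ha
    obtain ⟨haI, hno⟩ := ha
    by_contra hcon
    rw [Finset.mem_union] at hcon
    push Not at hcon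
    obtain ⟨n1, n2⟩ := hcon
    rw [hB1, Finset.mem_filter] at n1
    rw [hB2, Finset.mem_filter] at n2
    push Not at n1 n2
    exact hno (fun s hs => one_a haI hA2 hM0 g1 g2 (n1 haI) (n2 haI) s hs)
  calc (((IA A).filter (fun a => ¬ ∀ s : ℤ, (s = 1 ∨ s = -1) →
        (1 / 8 * Real.log (β / α) - δ) * M ≤ cs a s M (2 * M))).card : ℝ)
      ≤ ((B1 ∪ B2).card : ℝ) := by exact_mod_cast Finset.card_le_card hsub
    _ ≤ (B1.card : ℝ) + (B2.card : ℝ) := by exact_mod_cast Finset.card_union_le B1 B2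
    _ ≤ 2 * δ * A := by linarith

/-! ### sums of blocks -/

theorem blocks (a s : ℤ) (N I : ℕ) :
    cs a s 0 (N / 2 ^ I) + ∑ i ∈ range I, cs a s (N / 2 ^ (i + 1)) (2 * (N / 2 ^ (i + 1)))
      ≤ cs a s 0 N := by
  induction I with
  | zero => simp
  | succ I ih =>
    rw [Finset.sum_range_succ]
    set M := N / 2 ^ I with hMdef
    have hM2 : N / 2 ^ (I + 1) = M / 2 := by
      rw [hMdef, Nat.div_div_eq_div_mul, pow_succ]
    rw [hM2]
    have h1 : cs a s 0 M = cs a s 0 (M / 2) + cs a s (M / 2) (2 * (M / 2))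
        + cs a s (2 * (M / 2)) M := by
      unfold cs
      rw [Finset.sum_Ioc_consecutive _ (Nat.zero_le _) (by omega),
        Finset.sum_Ioc_consecutive _ (Nat.zero_le _) (by omega)]
    have h2 := cs_nonneg a s (2 * (M / 2)) M
    linarith

theorem sum_M (N I : ℕ) :
    (N : ℝ) * (1 - 1 / 2 ^ I) - I ≤ ∑ i ∈ range I, ((N / 2 ^ (i + 1) : ℕ) : ℝ) := by
  induction I with
  | zero => simp
  | succ I ih =>
    rw [Finset.sum_range_succ]
    have h1 : (N : ℝ) / 2 ^ (I + 1) - 1 ≤ ((N / 2 ^ (I + 1) : ℕ) : ℝ) := by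
      have h2 : N < 2 ^ (I + 1) * (N / 2 ^ (I + 1) + 1) := Nat.lt_mul_div_succ N (by positivity)
      have h3 : (N : ℝ) < 2 ^ (I + 1) * (((N / 2 ^ (I + 1) : ℕ) : ℝ) + 1) := by exact_mod_cast h2
      rw [sub_le_iff_le_add, div_le_iff₀ (by positivity)]
      linarith
    have h4 : (N : ℝ) * (1 - 1 / 2 ^ (I + 1))
        = (N : ℝ) * (1 - 1 / 2 ^ I) + (N : ℝ) / 2 ^ (I + 1) := by
      rw [pow_succ]
      field_simp
      ring
    push_cast
    rw [h4]
    linarith

theorem count_eq (a s : ℤ) (N : ℕ) :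
    (((Icc 1 N).filter (fun n : ℕ =>
      ArithmeticFunction.liouville ((n : ℤ) ^ 2 + a).natAbs = s)).card : ℝ) = cs a s 0 N := by
  have h : Icc 1 N = Ioc 0 N := by
    ext n
    simp only [Finset.mem_Icc, Finset.mem_Ioc]
    omega
  rw [h]
  unfold cs val
  rw [← Finset.sum_filter, Finset.sum_const, nsmul_eq_mul, mul_one]

/-- choice of `α`, `β` -/
theorem exists_ab (θ δ : ℝ) (h1 : 1 / 2 < θ) (hδ : 0 < δ) :
    ∃ α β : ℝ, 2 / 3 < α ∧ 3 / 2 < θ + α ∧ α < β ∧ β < 1 ∧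
      -Real.log (max (2 / 3) (3 / 2 - θ)) - δ ≤ Real.log (β / α) := by
  set κ : ℝ := max (2 / 3) (3 / 2 - θ) with hκ
  have hκ1 : κ < 1 := max_lt (by norm_num) (by linarith)
  have hκ2 : 2 / 3 ≤ κ := le_max_left _ _
  have hκ3 : 3 / 2 - θ ≤ κ := le_max_right _ _
  have hκ0 : 0 < κ := by linarith
  have hc : ContinuousAt (fun s : ℝ => Real.log ((1 - s) / (κ + s))) 0 := by
    apply ContinuousAt.log
    · apply ContinuousAt.div
      · fun_prop
      · fun_prop
      · rw [add_zero]; exact hκ0.ne'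
    · rw [add_zero, sub_zero]
      exact (div_pos one_pos hκ0).ne'
  have hval : Real.log ((1 - 0) / (κ + 0)) = -Real.log κ := by
    rw [sub_zero, add_zero, one_div, Real.log_inv]
  obtain ⟨r, hr, hball⟩ := Metric.continuousAt_iff.1 hc δ hδ
  set s : ℝ := min (r / 2) ((1 - κ) / 4) with hs
  have hs0 : 0 < s := lt_min (by positivity) (by linarith)
  have hs1 : s ≤ r / 2 := min_le_left _ _
  have hs2 : s ≤ (1 - κ) / 4 := min_le_right _ _
  refine ⟨κ + s, 1 - s, by linarith, by linarith, by linarith, by linarith, ?_⟩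
  have hd : dist s 0 < r := by
    rw [Real.dist_eq, sub_zero, abs_of_pos hs0]
    linarith
  have h5 := hball hd
  rw [Real.dist_eq, hval] at h5
  have := (abs_lt.1 h5).1
  linarith

end FINLM

open FINLM in
theorem specFINL (hT : SpecTOTL) (hC : SpecCNTL) : SpecFINL := by
  intro θ ε hθ hε
  obtain ⟨α, β, hα, hθα, hαβ, hβ, hlog⟩ := exists_ab θ ε hθ hε
  set κ : ℝ := max (2 / 3) (3 / 2 - θ) with hκ
  set ell : ℝ := Real.log (β / α) with hell
  have hα0 : 0 < α := by linarith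
  have hell0 : 0 < ell := Real.log_pos ((one_lt_div hα0).2 hαβ)
  have hell1 : ell ≤ 1 := by
    have h1 : β / α ≤ 3 / 2 := by
      rw [div_le_iff₀ hα0]
      linarith
    have h2 : ell ≤ β / α - 1 := Real.log_le_sub_one_of_pos (div_pos (by linarith) hα0)
    linarith
  -- the number of blocks
  obtain ⟨I, hI⟩ : ∃ I : ℕ, (1 / 2 : ℝ) ^ I < ε / 4 :=
    exists_pow_lt_of_lt_one (by positivity) (by norm_num)
  have hq1 : (1 : ℝ) / 2 ^ I ≤ ε / 4 := by
    rw [one_div_pow] at hI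
    exact hI.le
  set δ : ℝ := min (ε / 4) (ε / (2 * (I + 1))) with hδ
  have hδ0 : 0 < δ := lt_min (by positivity) (by positivity)
  have hδ1 : δ ≤ ε / 4 := min_le_left _ _
  have hδ2 : (I : ℝ) * (2 * δ) ≤ ε := by
    have h1 : δ ≤ ε / (2 * (I + 1)) := min_le_right _ _
    have h2 : (I : ℝ) * (2 * (ε / (2 * (I + 1)))) ≤ ε := by
      have h3 : (I : ℝ) * (2 * (ε / (2 * (I + 1)))) = ε * (I / (I + 1)) := by
        field_simp
      rw [h3]
      have h4 : (I : ℝ) / (I + 1) ≤ 1 := by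
        rw [div_le_one (by positivity)]
        linarith
      nlinarith
    have h5 : (I : ℝ) * (2 * δ) ≤ (I : ℝ) * (2 * (ε / (2 * (I + 1)))) :=
      mul_le_mul_of_nonneg_left (by linarith) (Nat.cast_nonneg _)
    linarith
  have hblock := block hT hC θ α β δ hθ hα hθα hαβ hβ hδ0
  have hev : ∀ᶠ N : ℕ in atTop, ∀ i ∈ range I, (∀ A : ℕ, Adm θ (N / 2 ^ (i + 1)) A →
      (((IA A).filter (fun a => ¬ ∀ s : ℤ, (s = 1 ∨ s = -1) →
        (1 / 8 * ell - δ) * ((N / 2 ^ (i + 1) : ℕ) : ℝ)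
          ≤ cs a s (N / 2 ^ (i + 1)) (2 * (N / 2 ^ (i + 1))))).card : ℝ) ≤ 2 * δ * A) ∧
      (N : ℝ) ≤ ((N / 2 ^ (i + 1) : ℕ) : ℝ) * Real.log ((N / 2 ^ (i + 1) : ℕ) : ℝ) := by
    rw [Filter.eventually_all_finset]
    intro i _
    exact ((FIN.tendsto_Nk (i + 1)).eventually hblock).and (FIN.ev_block (i + 1))
  have hevI : ∀ᶠ N : ℕ in atTop, (I : ℝ) ≤ ε / 4 * N := by
    have h1 : Tendsto (fun N : ℕ => ε / 4 * (N : ℝ)) atTop atTop :=
      tendsto_natCast_atTop_atTop.const_mul_atTop (by positivity)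
    exact h1.eventually_ge_atTop _
  obtain ⟨N₀, hN₀⟩ := Filter.eventually_atTop.1 (hev.and hevI)
  refine ⟨N₀, fun N A hN hA1 hA2 => ?_⟩
  obtain ⟨hb, hIN⟩ := hN₀ N hN
  have hA0 : (0 : ℝ) ≤ A := Nat.cast_nonneg _
  have hθ0 : 0 < θ := by linarith
  have hAdm : ∀ i ∈ range I, Adm θ (N / 2 ^ (i + 1)) A := by
    intro i hi
    refine ⟨le_trans ?_ hA1, le_trans (by exact_mod_cast hA2) (hb i hi).2⟩
    apply Real.rpow_le_rpow (Nat.cast_nonneg _) _ hθ0.le
    exact_mod_cast Nat.div_le_self N _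
  set B := (range I).biUnion (fun i => (IA A).filter (fun a => ¬ ∀ s : ℤ, (s = 1 ∨ s = -1) →
        (1 / 8 * ell - δ) * ((N / 2 ^ (i + 1) : ℕ) : ℝ)
          ≤ cs a s (N / 2 ^ (i + 1)) (2 * (N / 2 ^ (i + 1))))) with hB
  have hBc : (B.card : ℝ) ≤ ε * A := by
    calc (B.card : ℝ) ≤ ∑ i ∈ range I, (((IA A).filter (fun a => ¬ ∀ s : ℤ, (s = 1 ∨ s = -1) →
        (1 / 8 * ell - δ) * ((N / 2 ^ (i + 1) : ℕ) : ℝ)
          ≤ cs a s (N / 2 ^ (i + 1)) (2 * (N / 2 ^ (i + 1))))).card : ℝ) := by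
          exact_mod_cast Finset.card_biUnion_le
      _ ≤ ∑ i ∈ range I, 2 * δ * A :=
          Finset.sum_le_sum (fun i hi => (hb i hi).1 A (hAdm i hi))
      _ = (I * (2 * δ)) * A := by
          rw [Finset.sum_const, nsmul_eq_mul, Finset.card_range]; ring
      _ ≤ ε * A := mul_le_mul_of_nonneg_right hδ2 hA0
  refine le_trans ?_ hBc
  have hsub : (Icc (-(A : ℤ)) A).filter (fun a : ℤ => ¬ ∀ s : ℤ, (s = 1 ∨ s = -1) →
    (-(1 / 8) * Real.log κ - ε) * N
      ≤ (((Icc 1 N).filter (fun n : ℕ =>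
          ArithmeticFunction.liouville ((n : ℤ) ^ 2 + a).natAbs = s)).card : ℝ)) ⊆ B := by
    intro a ha
    rw [Finset.mem_filter] at ha
    obtain ⟨haI, hno⟩ := ha
    have haI' : a ∈ IA A := haI
    by_contra hcon
    apply hno
    intro s hs
    rw [hB, Finset.mem_biUnion] at hcon
    push Not at hcon
    have hlow : ∀ i ∈ range I, (1 / 8 * ell - δ) * ((N / 2 ^ (i + 1) : ℕ) : ℝ)
          ≤ cs a s (N / 2 ^ (i + 1)) (2 * (N / 2 ^ (i + 1))) := by
      intro i hi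
      have h1 := hcon i hi
      rw [Finset.mem_filter] at h1
      push Not at h1
      exact h1 haI' s hs
    rw [count_eq]
    have hN0 : (0 : ℝ) ≤ N := Nat.cast_nonneg _
    have hcs0 := cs_nonneg a s 0 N
    have h2 := blocks a s N I
    have h3 := cs_nonneg a s 0 (N / 2 ^ I)
    have h4 := Finset.sum_le_sum hlow
    rw [← Finset.mul_sum] at h4
    have h5 := sum_M N I
    have hq0 : (0 : ℝ) ≤ 1 / 2 ^ I := by positivity
    rcases le_or_gt (-(1 / 8) * Real.log κ - ε) 0 with hneg | hpos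
    · have : (-(1 / 8) * Real.log κ - ε) * N ≤ 0 := mul_nonpos_of_nonpos_of_nonneg hneg hN0
      linarith
    · set T : ℝ := -(1 / 8) * Real.log κ - ε with hTdef
      set c₁ : ℝ := 1 / 8 * ell - δ with hc₁
      have hc1 : T + ε / 2 ≤ c₁ := by
        rw [hTdef, hc₁]
        linarith
      have hc0 : 0 ≤ c₁ := by linarith
      have hc2 : c₁ ≤ 1 := by
        rw [hc₁]
        linarith
      have h6 : c₁ * ((N : ℝ) * (1 - 1 / 2 ^ I) - I)
          ≤ c₁ * ∑ i ∈ range I, ((N / 2 ^ (i + 1) : ℕ) : ℝ) :=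
        mul_le_mul_of_nonneg_left h5 hc0
      have h7 : c₁ * I ≤ ε / 4 * N := by
        calc c₁ * I ≤ 1 * I := mul_le_mul_of_nonneg_right hc2 (Nat.cast_nonneg _)
          _ ≤ ε / 4 * N := by linarith
      have h8 : c₁ * (N * (1 / 2 ^ I)) ≤ ε / 4 * N := by
        calc c₁ * (N * (1 / 2 ^ I)) ≤ 1 * (N * (ε / 4)) := by
              apply mul_le_mul hc2 (mul_le_mul_of_nonneg_left hq1 hN0) (by positivity) zero_le_one
          _ = ε / 4 * N := by ring
      have h9 : (T + ε / 2) * N ≤ c₁ * N := mul_le_mul_of_nonneg_right hc1 hN0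
      have h10 : c₁ * ((N : ℝ) * (1 - 1 / 2 ^ I) - I)
          = c₁ * N - c₁ * (N * (1 / 2 ^ I)) - c₁ * I := by ring
      have h11 : (T + ε / 2) * N = T * N + ε / 2 * N := by ring
      linarith
  exact_mod_cast Finset.card_le_card hsub

end Pool.Agent.Lib.MP391708.QPA.H
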