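import Pool.Agent.Lib.MP_391708_nt.QPA.H.SpecH
import Pool.Agent.Lib.MP_391708_nt.QPA.RHOMEAN

/-!
# QPA phase 3, module FIRSTH
-/

set_option autoImplicit false

namespace Pool.Agent.Lib.MP391708.QPA.H

open Finset Filter Topology
open Pool.Agent.Lib.MP391708.QPA
open scoped Classical

/-- **Module FIRSTH.** -/
theorem specFIRSTH (hRAV : SpecRAV) (hBT : SpecBT) : SpecFIRSTH := by
  intro θ e0 hθ he0
  set ee : ℝ := min (θ - 1 / 2) (1 / 4) with hee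
  have hee0 : 0 < ee := lt_min (by linarith) (by norm_num)
  have hee1 : ee ≤ θ - 1 / 2 := min_le_left _ _
  have hee2 : ee ≤ 1 / 4 := min_le_right _ _
  obtain ⟨C₁, hC₁, hR⟩ := hRAV ee hee0
  obtain ⟨C₂, hC₂, hB⟩ := hBT
  set s1 : ℝ := min (e0 / 2) (1 / 10) with hs1
  have hs1pos : 0 < s1 := lt_min (by linarith) (by norm_num)
  have hs1e0 : s1 < e0 := lt_of_le_of_lt (min_le_left _ _) (by linarith)
  have hs1t : s1 ≤ 1 / 10 := min_le_right _ _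
  refine ⟨(3 + 2 * C₁) * (C₂ * (1 / s1 + 1)), by positivity, ?_⟩
  have hev : ∀ᶠ N : ℕ in atTop, 2 ≤ (N : ℝ) ^ s1 ∧ 1 ≤ Real.log N ∧
      1 * (1 + Real.log N) ≤ (N : ℝ) ^ (1 / 4 : ℝ) ∧ 4 ≤ N :=
    (RHOMEAN.ev_rpow s1 hs1pos 2).and ((RHOMEAN.ev_log 1).and
      ((RHOMEAN.ev_log_rpow (1 / 4) (by norm_num) 1 zero_le_one).and (eventually_ge_atTop 4)))
  obtain ⟨N₀, hN₀⟩ := eventually_atTop.mp hev
  refine ⟨N₀, ?_⟩
  intro N A hN hA K hK1 hK2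
  obtain ⟨hy, hlog, hlr, hN1⟩ := hN₀ N hN
  have hNR4 : (4 : ℝ) ≤ N := by exact_mod_cast hN1
  have hNR : (0 : ℝ) < N := by linarith
  have hNR1 : (1 : ℝ) ≤ N := by linarith
  have hA1 : (1 : ℝ) ≤ A := (Real.one_le_rpow hNR1 (by linarith)).trans hA
  have hK2' : (2 : ℝ) ≤ K := by
    refine le_trans ?_ hK1
    have h1 : (2 : ℝ) = (4 : ℝ) ^ (1 / 2 : ℝ) := by
      rw [← Real.sqrt_eq_rpow]
      rw [show (4 : ℝ) = 2 ^ 2 by norm_num]
      exact (Real.sqrt_sq (by norm_num)).symm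
    calc (2 : ℝ) = (4 : ℝ) ^ (1 / 2 : ℝ) := h1
      _ ≤ (N : ℝ) ^ (1 / 2 : ℝ) := Real.rpow_le_rpow (by norm_num) hNR4 (by norm_num)
  have hKpos : 0 < K := by linarith
  set z : ℝ := (N : ℝ) ^ e0 with hzdef
  have hyz : (N : ℝ) ^ s1 < z := by
    rw [hzdef]
    exact Real.rpow_lt_rpow_of_exponent_lt (by linarith) hs1e0
  rw [Finset.sum_comm]
  have h1 : ∀ k ∈ Ioc ⌊K⌋₊ ⌊5 / 4 * K⌋₊, ∑ a ∈ IA A, rInd z k * (rho a k : ℝ)
      ≤ ((3 + 2 * C₁) * A) * (if Rough z k then 1 else 0) := by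
    intro k hk
    rw [← Finset.mul_sum]
    unfold rInd
    split_ifs with hr
    · rw [one_mul, mul_one]
      simp only [Finset.mem_Ioc] at hk
      have hk1 : 1 ≤ k := by omega
      have hkK : (k : ℝ) ≤ 5 / 4 * K := (Nat.le_floor_iff (by positivity)).mp hk.2
      have h2 := hR k A hk1
      have h3 := (abs_le.mp h2).2
      have h4 : (k : ℝ) ^ (1 / 2 + ee) ≤ 2 * (N : ℝ) ^ θ := by
        have e1 : (k : ℝ) ^ (1 / 2 + ee) ≤ (2 * N : ℝ) ^ (1 / 2 + ee) :=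
          Real.rpow_le_rpow (by positivity) (by linarith) (by linarith)
        refine e1.trans ?_
        rw [Real.mul_rpow (by norm_num) hNR.le]
        have e2 : (2 : ℝ) ^ (1 / 2 + ee) ≤ 2 := by
          calc (2 : ℝ) ^ (1 / 2 + ee) ≤ (2 : ℝ) ^ (1 : ℝ) :=
                Real.rpow_le_rpow_of_exponent_le (by norm_num) (by linarith)
            _ = 2 := Real.rpow_one _
        have e3 : (N : ℝ) ^ (1 / 2 + ee) ≤ (N : ℝ) ^ θ :=
          Real.rpow_le_rpow_of_exponent_le hNR1 (by linarith)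
        exact mul_le_mul e2 e3 (by positivity) (by norm_num)
      have h5 : C₁ * (k : ℝ) ^ (1 / 2 + ee) ≤ C₁ * (2 * A) :=
        mul_le_mul_of_nonneg_left (h4.trans (by linarith)) hC₁.le
      nlinarith
    · simp
  refine (Finset.sum_le_sum h1).trans ?_
  rw [← Finset.mul_sum]
  have h2 : ∑ k ∈ Ioc ⌊K⌋₊ ⌊5 / 4 * K⌋₊, (if Rough z k then (1 : ℝ) else 0)
      ≤ C₂ * (1 / s1 + 1) * (K / Real.log N) := by
    set H : ℕ := ⌊5 / 4 * K⌋₊ - ⌊K⌋₊ with hH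
    have hle : ⌊K⌋₊ ≤ ⌊5 / 4 * K⌋₊ := Nat.floor_le_floor (by linarith)
    have h3 : ⌊K⌋₊ + H = ⌊5 / 4 * K⌋₊ := by omega
    have h4 := hB ((N : ℝ) ^ s1) z 1 0 ⌊K⌋₊ H hy hyz le_rfl
    rw [h3] at h4
    have h5 : ∑ k ∈ Ioc ⌊K⌋₊ ⌊5 / 4 * K⌋₊, (if Rough z k then (1 : ℝ) else 0)
        = (((Ioc ⌊K⌋₊ ⌊5 / 4 * K⌋₊).filter (fun u => u % 1 = 0 ∧ Rough z u)).card : ℝ) := by
      rw [← Finset.sum_filter, Finset.card_eq_sum_ones]
      push_cast
      refine Finset.sum_congr ?_ (fun _ _ => rfl)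
      refine Finset.filter_congr (fun k _ => ?_)
      simp [Nat.mod_one]
    rw [h5]
    refine h4.trans ?_
    have h6 : (H : ℝ) ≤ K := by
      have e1 : (⌊5 / 4 * K⌋₊ : ℝ) ≤ 5 / 4 * K := Nat.floor_le (by positivity)
      have e2 : K < (⌊K⌋₊ : ℝ) + 1 := Nat.lt_floor_add_one K
      have e3 : (H : ℝ) = (⌊5 / 4 * K⌋₊ : ℝ) - ⌊K⌋₊ := by
        rw [hH, Nat.cast_sub hle]
      rw [e3]
      linarith
    have h7 : Real.log ((N : ℝ) ^ s1) = s1 * Real.log N := Real.log_rpow hNR s1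
    rw [h7]
    have h8 : ((Nat.totient 1 : ℕ) : ℝ) = 1 := by simp
    rw [h8, one_mul]
    have h9 : C₂ * H / (s1 * Real.log N) ≤ C₂ * (1 / s1) * (K / Real.log N) := by
      have : C₂ * (1 / s1) * (K / Real.log N) = C₂ * K / (s1 * Real.log N) := by
        field_simp
      rw [this]
      refine div_le_div_of_nonneg_right ?_ (by positivity)
      exact mul_le_mul_of_nonneg_left h6 hC₂.le
    have h10 : ((N : ℝ) ^ s1) ^ 2 ≤ K / Real.log N := by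
      rw [le_div_iff₀ (by linarith)]
      have e1 : ((N : ℝ) ^ s1) ^ 2 ≤ (N : ℝ) ^ (1 / 4 : ℝ) := by
        rw [← Real.rpow_natCast, ← Real.rpow_mul hNR.le]
        refine Real.rpow_le_rpow_of_exponent_le hNR1 ?_
        push_cast
        linarith
      have e2 : Real.log N ≤ (N : ℝ) ^ (1 / 4 : ℝ) := by linarith
      calc ((N : ℝ) ^ s1) ^ 2 * Real.log N
          ≤ (N : ℝ) ^ (1 / 4 : ℝ) * (N : ℝ) ^ (1 / 4 : ℝ) :=
            mul_le_mul e1 e2 (by linarith) (by positivity)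
        _ = (N : ℝ) ^ (1 / 2 : ℝ) := by
            rw [← Real.rpow_add hNR]
            norm_num
        _ ≤ K := hK1
    have h11 : C₂ * ((N : ℝ) ^ s1) ^ 2 ≤ C₂ * (K / Real.log N) :=
      mul_le_mul_of_nonneg_left h10 hC₂.le
    calc C₂ * H / (s1 * Real.log N) + C₂ * ((N : ℝ) ^ s1) ^ 2
        ≤ C₂ * (1 / s1) * (K / Real.log N) + C₂ * (K / Real.log N) := add_le_add h9 h11
      _ = C₂ * (1 / s1 + 1) * (K / Real.log N) := by ring
  calc (3 + 2 * C₁) * A * ∑ k ∈ Ioc ⌊K⌋₊ ⌊5 / 4 * K⌋₊, (if Rough z k then (1 : ℝ) else 0)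
      ≤ (3 + 2 * C₁) * A * (C₂ * (1 / s1 + 1) * (K / Real.log N)) :=
        mul_le_mul_of_nonneg_left h2 (by positivity)
    _ = (3 + 2 * C₁) * (C₂ * (1 / s1 + 1)) * A * K / Real.log N := by ring

end Pool.Agent.Lib.MP391708.QPA.H
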