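import Pool.Agent.Lib.MP_391708_nt.QPA.H.SpecH
import Pool.Agent.Lib.PntAP.WI

/-!
# QPA phase 3, module LAMX: the Liouville function has mean value `0` in every residue class

Proof: the Wiener-Ikehara theorem for `1 + λ(n) 1_{n ≡ c (q)}`, `gcd(c,q) = 1`, with
`∑ χ(n) λ(n) n⁻ˢ = L(χ², 2s)/L(χ, s)`.
-/

set_option autoImplicit false

namespace Pool.Agent.Lib.MP391708.QPA.H

open Finset Filter Topology
open Pool.Agent.Lib.MP391708.QPA

namespace LAMXM

noncomputable section

/-- the Liouville function as a complex number -/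
def lam (n : ℕ) : ℂ := ((ArithmeticFunction.liouville n : ℤ) : ℂ)

lemma lam_mul (m n : ℕ) : lam (m * n) = lam m * lam n := by
  unfold lam
  rw [ArithmeticFunction.liouville_apply_mul]
  push_cast
  rfl

lemma lam_one : lam 1 = 1 := by
  unfold lam
  rw [ArithmeticFunction.liouville_apply_one]
  simp

lemma lam_prime {p : ℕ} (hp : p.Prime) : lam p = -1 := by
  unfold lam
  rw [ArithmeticFunction.liouville_apply hp.ne_zero,
    ArithmeticFunction.cardFactors_apply_prime hp]
  simp

lemma norm_lam_le (n : ℕ) : ‖lam n‖ ≤ 1 := by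
  unfold lam
  rcases Nat.eq_zero_or_pos n with rfl | hn
  · simp
  · rw [ArithmeticFunction.liouville_apply hn.ne']
    push_cast
    rw [norm_pow]
    simp

/-- `n ↦ λ(n) χ(n) n⁻ˢ` -/
def lamHom {q : ℕ} (χ : DirichletCharacter ℂ q) {s : ℂ} (hs : s ≠ 0) : ℕ →*₀ ℂ where
  toFun n := lam n * dirichletSummandHom χ hs n
  map_zero' := by simp
  map_one' := by rw [lam_one, map_one, one_mul]
  map_mul' m n := by rw [lam_mul, map_mul]; ring

lemma summable_lamHom {q : ℕ} (χ : DirichletCharacter ℂ q) {s : ℂ} (hs : 1 < s.re) :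
    Summable (fun n => ‖lamHom χ (Complex.ne_zero_of_one_lt_re hs) n‖) := by
  refine (summable_dirichletSummand χ hs).of_nonneg_of_le (fun _ => by positivity) (fun n => ?_)
  show ‖lam n * _‖ ≤ _
  rw [norm_mul]
  exact mul_le_of_le_one_left (norm_nonneg _) (norm_lam_le n)

lemma tsum_lamHom {q : ℕ} (χ : DirichletCharacter ℂ q) {s : ℂ} (hs : 1 < s.re) :
    ∑' n : ℕ, lamHom χ (Complex.ne_zero_of_one_lt_re hs) n =
      LSeries (fun n => lam n * χ (n : ZMod q)) s := by
  unfold LSeries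
  refine tsum_congr fun n => ?_
  show lam n * (χ (n : ZMod q) * (n : ℂ) ^ (-s)) = _
  rw [LSeries.term_of_ne_zero' (Complex.ne_zero_of_one_lt_re hs), Complex.cpow_neg, div_eq_mul_inv,
    mul_assoc]

/-- `L(χλ, s) L(χ, s) = L(χ², 2s)` -/
lemma key {q : ℕ} (χ : DirichletCharacter ℂ q) {s : ℂ} (hs : 1 < s.re) :
    LSeries (fun n => lam n * χ (n : ZMod q)) s * LSeries (fun n => χ (n : ZMod q)) s =
      LSeries (fun n => (χ ^ 2) (n : ZMod q)) (2 * s) := by
  have h1 := EulerProduct.eulerProduct_completely_multiplicative_hasProd (summable_lamHom χ hs)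
  rw [tsum_lamHom χ hs] at h1
  have h2 := DirichletCharacter.LSeries_eulerProduct_hasProd χ hs
  have hs2 : 1 < (2 * s).re := by
    simp only [Complex.mul_re, Complex.re_ofNat, Complex.im_ofNat, zero_mul, sub_zero]
    linarith
  have h3 := DirichletCharacter.LSeries_eulerProduct_hasProd (χ ^ 2) hs2
  refine (h1.mul h2).unique ?_
  convert! h3 using 1
  ext p
  have h4 : lamHom χ (Complex.ne_zero_of_one_lt_re hs) p = - (χ (p : ZMod q) * (p : ℂ) ^ (-s)) := by
    show lam p * (χ (p : ZMod q) * (p : ℂ) ^ (-s)) = _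
    rw [lam_prime p.2]
    ring
  rw [h4, ← mul_inv]
  congr 1
  have h5 : (p : ℂ) ^ (-(2 * s)) = (p : ℂ) ^ (-s) * (p : ℂ) ^ (-s) := by
    have hp0 : (p : ℂ) ≠ 0 := by
      have := p.2.ne_zero
      exact_mod_cast this
    rw [← Complex.cpow_add _ _ hp0]
    congr 1
    ring
  rw [h5, MulChar.pow_apply' χ (by norm_num)]
  ring

/-- `1/L(χ, s)` is continuous for `Re s ≥ 1` -/
lemma exists_inv {q : ℕ} [NeZero q] (χ : DirichletCharacter ℂ q) :
    ∃ G : ℂ → ℂ, ContinuousOn G {s | 1 ≤ s.re} ∧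
      ∀ s : ℂ, 1 < s.re → LSeries (fun n => χ (n : ZMod q)) s * G s = 1 := by
  by_cases hχ : χ = 1
  · subst hχ
    refine ⟨fun s => (s - 1) / DirichletCharacter.LFunctionTrivChar₁ q s, ?_, ?_⟩
    · refine ContinuousOn.div (by fun_prop)
        (DirichletCharacter.differentiable_LFunctionTrivChar₁ q).continuous.continuousOn ?_
      intro s hs
      rcases eq_or_ne s 1 with rfl | h1
      · exact DirichletCharacter.LFunctionTrivChar₁_apply_one_ne_zero q
      · rw [DirichletCharacter.LFunctionTrivChar₁, Function.update_of_ne h1]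
        exact mul_ne_zero (sub_ne_zero_of_ne h1)
          (DirichletCharacter.LFunction_ne_zero_of_one_le_re _ (.inr h1) hs)
    · intro s hs
      have h1 : s ≠ 1 := by
        rintro rfl
        simp at hs
      have h2 : DirichletCharacter.LFunctionTrivChar₁ q s =
          (s - 1) * LSeries (fun n => (1 : DirichletCharacter ℂ q) (n : ZMod q)) s := by
        rw [DirichletCharacter.LFunctionTrivChar₁, Function.update_of_ne h1]
        rw [← DirichletCharacter.LFunction_eq_LSeries _ hs]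
      have h3 : LSeries (fun n => (1 : DirichletCharacter ℂ q) (n : ZMod q)) s ≠ 0 := by
        rw [← DirichletCharacter.LFunction_eq_LSeries _ hs]
        exact DirichletCharacter.LFunction_ne_zero_of_one_le_re _ (.inr h1) hs.le
      show LSeries (fun n => (1 : DirichletCharacter ℂ q) (n : ZMod q)) s *
        ((s - 1) / DirichletCharacter.LFunctionTrivChar₁ q s) = 1
      rw [h2]
      have h4 := sub_ne_zero_of_ne h1
      field_simp
  · refine ⟨fun s => (DirichletCharacter.LFunction χ s)⁻¹, ?_, ?_⟩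
    · refine ContinuousOn.inv₀
        (DirichletCharacter.differentiable_LFunction hχ).continuous.continuousOn ?_
      intro s hs
      exact DirichletCharacter.LFunction_ne_zero_of_one_le_re _ (.inl hχ) hs
    · intro s hs
      show _ * (DirichletCharacter.LFunction χ s)⁻¹ = 1
      rw [← DirichletCharacter.LFunction_eq_LSeries _ hs]
      exact mul_inv_cancel₀ (DirichletCharacter.LFunction_ne_zero_of_one_le_re _ (.inl hχ) hs.le)

/-- `L(χλ, s)` extends continuously to `Re s ≥ 1` -/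
lemma exists_M {q : ℕ} [NeZero q] (χ : DirichletCharacter ℂ q) :
    ∃ G : ℂ → ℂ, ContinuousOn G {s | 1 ≤ s.re} ∧
      ∀ s : ℂ, 1 < s.re → LSeries (fun n => lam n * χ (n : ZMod q)) s = G s := by
  obtain ⟨G, hG, hG1⟩ := exists_inv χ
  refine ⟨fun s => DirichletCharacter.LFunction (χ ^ 2) (2 * s) * G s, ?_, ?_⟩
  · refine ContinuousOn.mul (fun s hs => ?_) hG
    have h1 : (2 * s) ≠ 1 := by
      intro h
      have h2 := congrArg Complex.re h
      simp only [Complex.mul_re, Complex.re_ofNat, Complex.im_ofNat, zero_mul, sub_zero,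
        Complex.one_re] at h2
      have h3 : 1 ≤ s.re := hs
      linarith
    have h2 := (DirichletCharacter.differentiableAt_LFunction (χ ^ 2) (2 * s) (.inl h1)).continuousAt
    exact (h2.comp (f := fun s : ℂ => 2 * s) (by fun_prop)).continuousWithinAt
  · intro s hs
    have hs2 : 1 < (2 * s).re := by
      simp only [Complex.mul_re, Complex.re_ofNat, Complex.im_ofNat, zero_mul, sub_zero]
      linarith
    show _ = DirichletCharacter.LFunction (χ ^ 2) (2 * s) * G s
    rw [DirichletCharacter.LFunction_eq_LSeries _ hs2, ← key χ hs, mul_assoc, hG1 s hs, mul_one]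

/-- `ζ(s) - 1/(s-1)` extends continuously to `Re s ≥ 1` -/
lemma exists_Z : ∃ G : ℂ → ℂ, ContinuousOn G {s | 1 ≤ s.re} ∧
      ∀ s : ℂ, 1 < s.re → LSeries 1 s - 1 / (s - 1) = G s := by
  refine ⟨Function.update (fun s => riemannZeta s - 1 / (s - 1)) 1 Real.eulerMascheroniConstant,
    ?_, ?_⟩
  · intro s hs
    rcases eq_or_ne s 1 with rfl | h1
    · refine ContinuousAt.continuousWithinAt ?_
      rw [continuousAt_update_same]
      exact tendsto_riemannZeta_sub_one_div
    · refine ContinuousAt.continuousWithinAt ?_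
      rw [continuousAt_update_of_ne h1]
      refine (differentiableAt_riemannZeta h1).continuousAt.sub ?_
      exact continuousAt_const.div (by fun_prop) (sub_ne_zero_of_ne h1)
  · intro s hs
    have h1 : s ≠ 1 := by
      rintro rfl
      simp at hs
    rw [Function.update_of_ne h1, LSeries_one_eq_riemannZeta hs]

lemma abs_lio_le (n : ℕ) : |lio n| ≤ 1 := by
  unfold lio
  rcases Nat.eq_zero_or_pos n with rfl | hn
  · simp
  · rw [ArithmeticFunction.liouville_apply hn.ne']
    push_cast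
    rw [abs_pow]
    simp

lemma LSer_f {q : ℕ} [NeZero q] {a : ZMod q} (ha : IsUnit a) {s : ℂ} (hs : 1 < s.re) :
    LSeries (fun n : ℕ => ((1 + (if (n : ZMod q) = a then lio n else 0) : ℝ) : ℂ)) s =
      LSeries 1 s + ∑ χ : DirichletCharacter ℂ q,
        ((q.totient : ℂ)⁻¹ * χ a⁻¹) * LSeries (fun n => lam n * χ (n : ZMod q)) s := by
  have hsum : ∀ χ : DirichletCharacter ℂ q, LSeriesSummable
      (((q.totient : ℂ)⁻¹ * χ a⁻¹) • fun n : ℕ => lam n * χ (n : ZMod q)) s := by
    intro χ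
    refine LSeriesSummable.smul _
      (LSeriesSummable_of_bounded_of_one_lt_re (m := 1) (fun n _ => ?_) hs)
    rw [norm_mul]
    exact mul_le_one₀ (norm_lam_le n) (norm_nonneg _) (χ.norm_le_one _)
  have h1 : (fun n : ℕ => ((1 + (if (n : ZMod q) = a then lio n else 0) : ℝ) : ℂ)) =
      1 + ∑ χ ∈ (Finset.univ : Finset (DirichletCharacter ℂ q)),
        (((q.totient : ℂ)⁻¹ * χ a⁻¹) • fun n : ℕ => lam n * χ (n : ZMod q)) := by
    funext n
    simp only [Pi.add_apply, Pi.one_apply, Finset.sum_apply, Pi.smul_apply, smul_eq_mul]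
    have h2 : ∑ χ : DirichletCharacter ℂ q,
        (q.totient : ℂ)⁻¹ * χ a⁻¹ * (lam n * χ (n : ZMod q)) =
        (q.totient : ℂ)⁻¹ * lam n * ∑ χ : DirichletCharacter ℂ q, χ a⁻¹ * χ (n : ZMod q) := by
      rw [Finset.mul_sum]
      exact sum_congr rfl fun χ _ => by ring
    rw [h2, DirichletCharacter.sum_char_inv_mul_char_eq ℂ ha]
    have h3 : (q.totient : ℂ) ≠ 0 := by
      have := (Nat.totient_pos.2 (NeZero.pos q)).ne'
      exact_mod_cast this
    by_cases h : (n : ZMod q) = a
    · rw [if_pos h, if_pos h.symm]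
      unfold lam lio
      push_cast
      field_simp
    · rw [if_neg h, if_neg (fun h' => h h'.symm)]
      simp
  rw [h1, LSeries_add (LSeriesSummable_one_iff.2 hs) (LSeriesSummable.sum fun χ _ => hsum χ),
    LSeries_sum (fun χ _ => hsum χ)]
  congr 1
  exact sum_congr rfl fun χ _ => LSeries_smul _ _ _

theorem coprime_case (q : ℕ) [NeZero q] (a : ZMod q) (ha : IsUnit a) :
    Tendsto (fun X : ℕ => (∑ n ∈ Icc 1 X, if (n : ZMod q) = a then lio n else 0) / (X : ℝ))
      atTop (𝓝 0) := by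
  choose G hG hG1 using fun χ : DirichletCharacter ℂ q => exists_M χ
  obtain ⟨Z, hZ, hZ1⟩ := exists_Z
  have hb : ∀ n : ℕ, |(if (n : ZMod q) = a then lio n else 0)| ≤ 1 := by
    intro n
    split_ifs
    · exact abs_lio_le n
    · simp
  have h := PntAP.wiener_ikehara
    (fun n : ℕ => 1 + (if (n : ZMod q) = a then lio n else 0))
    (fun n => by have := (abs_le.1 (hb n)).1; linarith) (c := 1) (B := 2) (by norm_num)
    (fun n => by
      calc ∑ k ∈ Icc 1 n, (1 + (if (k : ZMod q) = a then lio k else 0))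
          ≤ ∑ k ∈ Icc 1 n, (2 : ℝ) :=
            sum_le_sum fun k _ => by have := (abs_le.1 (hb k)).2; linarith
        _ = 2 * n := by rw [sum_const, Nat.card_Icc, nsmul_eq_mul, Nat.add_sub_cancel]; ring)
    (fun s => Z s + ∑ χ : DirichletCharacter ℂ q, ((q.totient : ℂ)⁻¹ * χ a⁻¹) * G χ s)
    (hZ.add (continuousOn_finsetSum _ fun χ _ => continuousOn_const.mul (hG χ)))
    (fun s hs => by
      rw [LSer_f ha hs, ← hZ1 s hs]
      have h2 : ∑ χ : DirichletCharacter ℂ q, ((q.totient : ℂ)⁻¹ * χ a⁻¹) * G χ s =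
          ∑ χ : DirichletCharacter ℂ q, ((q.totient : ℂ)⁻¹ * χ a⁻¹) *
            LSeries (fun n => lam n * χ (n : ZMod q)) s :=
        sum_congr rfl fun χ _ => by rw [hG1 χ s hs]
      rw [h2]
      push_cast
      ring)
  have h2 := h.comp tendsto_natCast_atTop_atTop
  have h3 := h2.sub_const 1
  rw [sub_self] at h3
  refine h3.congr' ?_
  filter_upwards [eventually_ge_atTop 1] with X hX
  have hX0 : (X : ℝ) ≠ 0 := by
    have : X ≠ 0 := by omega
    exact_mod_cast this
  simp only [Function.comp_apply, Nat.floor_natCast, sum_add_distrib, sum_const, Nat.card_Icc,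
    nsmul_eq_mul, mul_one, Nat.add_sub_cancel]
  field_simp
  ring

/-- the residue classes prime to the modulus -/
lemma cop (q c : ℕ) (hq : 1 ≤ q) (hcq : c < q) (hc : Nat.Coprime c q) (ε : ℝ) (hε : 0 < ε) :
    ∃ X₀ : ℕ, ∀ X : ℕ, X₀ ≤ X → |∑ u ∈ (Icc 1 X).filter (fun u => u % q = c), lio u| ≤ ε * X := by
  have : NeZero q := ⟨by omega⟩
  have h := coprime_case q (c : ZMod q) ((ZMod.isUnit_iff_coprime c q).2 hc)
  rw [Metric.tendsto_atTop] at h
  obtain ⟨X₀, hX₀⟩ := h ε hε
  refine ⟨X₀ + 1, fun X hX => ?_⟩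
  have h1 := hX₀ X (by omega)
  have hX0 : (0 : ℝ) < X := by
    have : 0 < X := by omega
    exact_mod_cast this
  rw [Real.dist_eq, sub_zero, abs_div, abs_of_pos hX0, div_lt_iff₀ hX0] at h1
  have h2 : ∑ u ∈ (Icc 1 X).filter (fun u => u % q = c), lio u =
      ∑ n ∈ Icc 1 X, if (n : ZMod q) = (c : ZMod q) then lio n else 0 := by
    rw [sum_filter]
    refine sum_congr rfl fun n _ => ?_
    have h3 : ((n : ZMod q) = (c : ZMod q)) ↔ n % q = c := by
      rw [ZMod.natCast_eq_natCast_iff']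
      rw [Nat.mod_eq_of_lt hcq]
    simp only [h3]
  rw [h2]
  exact h1.le

/-- all residue classes -/
theorem main (q c : ℕ) (ε : ℝ) (hq : 1 ≤ q) (hε : 0 < ε) :
    ∃ X₀ : ℕ, ∀ X : ℕ, X₀ ≤ X → |∑ u ∈ (Icc 1 X).filter (fun u => u % q = c), lio u| ≤ ε * X := by
  rcases Nat.lt_or_ge c q with hcq | hcq
  swap
  · refine ⟨0, fun X _ => ?_⟩
    have h1 : (Icc 1 X).filter (fun u => u % q = c) = ∅ := by
      refine filter_eq_empty_iff.2 fun u _ h => ?_
      have := Nat.mod_lt u (by omega : q > 0)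
      omega
    rw [h1, sum_empty, abs_zero]
    positivity
  obtain ⟨g, c', q', hg, hcop, hc', hq'⟩ := Nat.exists_coprime' (m := c) (n := q)
    (Nat.gcd_pos_of_pos_right c (by omega))
  have hq1 : 1 ≤ q' := by
    rcases Nat.eq_zero_or_pos q' with h | h
    · rw [h, zero_mul] at hq'
      omega
    · exact h
  have hcq' : c' < q' := by
    rw [hc', hq'] at hcq
    exact Nat.lt_of_mul_lt_mul_right hcq
  obtain ⟨X₀, hX₀⟩ := cop q' c' hq1 hcq' hcop ε hε
  refine ⟨g * X₀, fun X hX => ?_⟩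
  have h1 : (Icc 1 X).filter (fun u => u % q = c) =
      ((Icc 1 (X / g)).filter (fun u => u % q' = c')).image (fun u => g * u) := by
    ext u
    simp only [mem_filter, mem_Icc, mem_image]
    constructor
    · rintro ⟨⟨hu1, hu2⟩, hu3⟩
      have hgu : g ∣ u := by
        have h2 : g ∣ u % q := ⟨c', by rw [hu3, hc', mul_comm]⟩
        exact (Nat.dvd_mod_iff ⟨q', by rw [hq', mul_comm]⟩).1 h2
      obtain ⟨v, rfl⟩ := hgu
      refine ⟨v, ⟨⟨?_, ?_⟩, ?_⟩, rfl⟩
      · rcases Nat.eq_zero_or_pos v with h | h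
        · rw [h, mul_zero] at hu1
          omega
        · exact h
      · rw [Nat.le_div_iff_mul_le hg, mul_comm]
        exact hu2
      · rw [hq', hc', mul_comm q' g, Nat.mul_mod_mul_left, mul_comm c' g] at hu3
        exact Nat.eq_of_mul_eq_mul_left hg hu3
    · rintro ⟨v, ⟨⟨hv1, hv2⟩, hv3⟩, rfl⟩
      refine ⟨⟨Nat.mul_pos hg hv1, ?_⟩, ?_⟩
      · rw [Nat.le_div_iff_mul_le hg, mul_comm] at hv2
        exact hv2
      · rw [hq', hc', mul_comm q' g, Nat.mul_mod_mul_left, hv3, mul_comm]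
  rw [h1, sum_image (fun a _ b _ h => Nat.eq_of_mul_eq_mul_left hg h)]
  have h2 : ∀ u : ℕ, lio (g * u) = lio g * lio u := by
    intro u
    unfold lio
    rw [ArithmeticFunction.liouville_apply_mul]
    push_cast
    rfl
  simp only [h2]
  rw [← mul_sum, abs_mul]
  have h3 : X₀ ≤ X / g := (Nat.le_div_iff_mul_le hg).2 (by rw [mul_comm]; exact hX)
  have h4 : ((X / g : ℕ) : ℝ) ≤ X := by exact_mod_cast Nat.div_le_self X g
  calc |lio g| * |∑ u ∈ (Icc 1 (X / g)).filter (fun u => u % q' = c'), lio u|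
      ≤ 1 * (ε * ((X / g : ℕ) : ℝ)) :=
        mul_le_mul (abs_lio_le g) (hX₀ _ h3) (abs_nonneg _) zero_le_one
    _ ≤ ε * X := by
        rw [one_mul]
        exact mul_le_mul_of_nonneg_left h4 hε.le

end

end LAMXM

theorem specLAMX : SpecLAMX := LAMXM.main

end Pool.Agent.Lib.MP391708.QPA.H
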