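import Pool.Agent.Lib.MP_391708_nt.QPA.H.SpecH
import Pool.Agent.Lib.MP_391708_nt.QPA.P3M

/-!
# MER: Mertens' theorem for the primes in `(N^α, N^β]`
-/

set_option autoImplicit false

namespace Pool.Agent.Lib.MP391708.QPA.H

open Finset Filter Topology
open Pool.Agent.Lib.MP391708.QPA
open scoped Classical

noncomputable section

namespace MERM

open ArithmeticFunction in
/-- the prime powers cost `O(1)` -/
theorem nonprime_summable : Summable fun n : ℕ =>
    (if n.Prime then (0 : ℝ) else ArithmeticFunction.vonMangoldt n) / n := by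
  have h := ArithmeticFunction.vonMangoldt.summable_residueClass_non_primes_div (q := 1) 0
  refine h.congr fun n => ?_
  congr 1
  split_ifs
  · rfl
  · simp [ArithmeticFunction.vonMangoldt.residueClass, Set.indicator_apply]
    intro hn
    exact absurd (Subsingleton.elim _ _) hn

/-- Mertens' first theorem, lower bound for intervals -/
theorem mert_low : ∃ C : ℝ, 0 ≤ C ∧ ∀ a b : ℝ, 1 ≤ a → a ≤ b → (Real.log b - Real.log a) - C ≤
    ∑ p ∈ (Ioc ⌊a⌋₊ ⌊b⌋₊).filter Nat.Prime, Real.log p / (p : ℝ) := by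
  set S : ℝ := ∑' n : ℕ, (if n.Prime then (0 : ℝ) else ArithmeticFunction.vonMangoldt n) / n with hS
  have hnn : ∀ n : ℕ, 0 ≤ (if n.Prime then (0 : ℝ) else ArithmeticFunction.vonMangoldt n) / n := by
    intro n
    apply div_nonneg _ (Nat.cast_nonneg _)
    split_ifs
    · exact le_rfl
    · exact ArithmeticFunction.vonMangoldt_nonneg
  have hS0 : 0 ≤ S := tsum_nonneg hnn
  have hl4 : 0 ≤ Real.log 4 := Real.log_nonneg (by norm_num)
  have hl2 : 0 ≤ Real.log 2 := Real.log_nonneg (by norm_num)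
  refine ⟨S + 1 + Real.log 2 + (Real.log 4 + 4), by positivity, fun a b ha hab => ?_⟩
  have ha1 : 1 ≤ ⌊a⌋₊ := Nat.le_floor (by simpa using ha)
  have hab' : ⌊a⌋₊ ≤ ⌊b⌋₊ := Nat.floor_mono hab
  have e : P3M.G ⌊b⌋₊ - P3M.G ⌊a⌋₊ = ∑ d ∈ Ioc ⌊a⌋₊ ⌊b⌋₊,
      ArithmeticFunction.vonMangoldt d / (d : ℝ) := by
    unfold P3M.G
    rw [← Finset.sum_Ioc_consecutive _ (Nat.zero_le _) hab']
    ring
  have e2 : ∑ d ∈ Ioc ⌊a⌋₊ ⌊b⌋₊, ArithmeticFunction.vonMangoldt d / (d : ℝ) =
      ∑ p ∈ (Ioc ⌊a⌋₊ ⌊b⌋₊).filter Nat.Prime, Real.log p / (p : ℝ) +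
      ∑ n ∈ Ioc ⌊a⌋₊ ⌊b⌋₊, (if n.Prime then (0 : ℝ) else ArithmeticFunction.vonMangoldt n) / n := by
    rw [Finset.sum_filter, ← Finset.sum_add_distrib]
    refine Finset.sum_congr rfl fun n _ => ?_
    split_ifs with hp
    · rw [ArithmeticFunction.vonMangoldt_apply_prime hp]
      ring
    · ring
  have e3 : ∑ n ∈ Ioc ⌊a⌋₊ ⌊b⌋₊,
      (if n.Prime then (0 : ℝ) else ArithmeticFunction.vonMangoldt n) / n ≤ S :=
    nonprime_summable.sum_le_tsum _ fun n _ => hnn n
  have h2 := P3M.G_le ⌊a⌋₊ ha1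
  have h3 := P3M.le_G ⌊b⌋₊ (ha1.trans hab')
  have h4 : Real.log (⌊a⌋₊ : ℝ) ≤ Real.log a := by
    apply Real.log_le_log
    · exact_mod_cast ha1
    · exact Nat.floor_le (by linarith)
  have hb : 1 ≤ b := ha.trans hab
  have h5 : Real.log b - Real.log 2 ≤ Real.log (⌊b⌋₊ : ℝ) := by
    rw [← Real.log_div (by linarith) (by norm_num)]
    apply Real.log_le_log (by linarith)
    have h6 := Nat.lt_floor_add_one b
    have h7 : (1 : ℝ) ≤ (⌊b⌋₊ : ℝ) := by exact_mod_cast (ha1.trans hab')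
    linarith
  linarith

/-- one piece -/
theorem piece {C : ℝ} (hC8 : 8 ≤ C)
    (hC : ∀ a b : ℝ, 1 ≤ a → a ≤ b → (Real.log b - Real.log a) - C ≤
      ∑ p ∈ (Ioc ⌊a⌋₊ ⌊b⌋₊).filter Nat.Prime, Real.log p / (p : ℝ))
    (N : ℕ) (hN : 2 ≤ N) (u v α : ℝ) (hα : 0 < α) (hu : α ≤ u) (huv : u ≤ v) :
    |∑ p ∈ PW N u v, 1 / (p : ℝ) - Real.log (v / u)| ≤
      (v - u) ^ 2 / α ^ 2 + C / (α * Real.log N) := by
  have hN1 : (1 : ℝ) < N := by exact_mod_cast hN
  have hN0 : (0 : ℝ) < N := by linarith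
  set L := Real.log N with hL
  have hL0 : 0 < L := Real.log_pos hN1
  have hu0 : 0 < u := lt_of_lt_of_le hα hu
  have hv0 : 0 < v := lt_of_lt_of_le hu0 huv
  have ha1 : (1 : ℝ) ≤ (N : ℝ) ^ u := Real.one_le_rpow hN1.le hu0.le
  have hab : (N : ℝ) ^ u ≤ (N : ℝ) ^ v := Real.rpow_le_rpow_of_exponent_le hN1.le huv
  have hup := P3M.mert _ _ ha1 hab
  have hlo := hC _ _ ha1 hab
  rw [Real.log_rpow hN0, Real.log_rpow hN0, ← hL] at hup hlo
  -- the sums
  have hp : ∀ p ∈ PW N u v, 0 < (p : ℝ) ∧ u * L ≤ Real.log p ∧ Real.log p ≤ v * L := by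
    intro p hp
    simp only [PW, mem_filter, mem_Ioc] at hp
    obtain ⟨⟨h1, h2⟩, h3⟩ := hp
    have hp0 : (0 : ℝ) < p := by exact_mod_cast h3.pos
    have h4 : (N : ℝ) ^ u < p := (Nat.floor_lt (by positivity)).1 h1
    have h5 : (p : ℝ) ≤ (N : ℝ) ^ v :=
      le_trans (by exact_mod_cast h2) (Nat.floor_le (by positivity))
    refine ⟨hp0, ?_, ?_⟩
    · rw [hL, ← Real.log_rpow hN0]
      exact Real.log_le_log (by positivity) h4.le
    · rw [hL, ← Real.log_rpow hN0]
      exact Real.log_le_log hp0 h5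
  have hup2 : ∑ p ∈ PW N u v, 1 / (p : ℝ) ≤
      (∑ p ∈ PW N u v, Real.log p / (p : ℝ)) / (u * L) := by
    rw [Finset.sum_div]
    refine Finset.sum_le_sum fun p hpm => ?_
    obtain ⟨h1, h2, h3⟩ := hp p hpm
    rw [div_div, div_le_div_iff₀ h1 (by positivity)]
    nlinarith
  have hlo2 : (∑ p ∈ PW N u v, Real.log p / (p : ℝ)) / (v * L) ≤ ∑ p ∈ PW N u v, 1 / (p : ℝ) := by
    rw [Finset.sum_div]
    refine Finset.sum_le_sum fun p hpm => ?_
    obtain ⟨h1, h2, h3⟩ := hp p hpm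
    rw [div_div, div_le_div_iff₀ (by positivity) h1]
    nlinarith
  have hup3 : ∑ p ∈ PW N u v, 1 / (p : ℝ) ≤ (v - u) / u + C / (α * L) := by
    refine hup2.trans ?_
    have h1 : (∑ p ∈ PW N u v, Real.log p / (p : ℝ)) / (u * L) ≤ ((v * L - u * L) + C) / (u * L) := by
      apply div_le_div_of_nonneg_right _ (by positivity)
      have : ∑ p ∈ PW N u v, Real.log p / (p : ℝ) ≤ (v * L - u * L) + 8 := hup
      linarith
    refine h1.trans ?_
    have h2 : ((v * L - u * L) + C) / (u * L) = (v - u) / u + C / (u * L) := by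
      field_simp
    rw [h2]
    gcongr
  have hlo3 : (v - u) / v - C / (α * L) ≤ ∑ p ∈ PW N u v, 1 / (p : ℝ) := by
    refine le_trans ?_ hlo2
    have h1 : ((v * L - u * L) - C) / (v * L) ≤ (∑ p ∈ PW N u v, Real.log p / (p : ℝ)) / (v * L) :=
      div_le_div_of_nonneg_right hlo (by positivity)
    refine le_trans ?_ h1
    have h2 : ((v * L - u * L) - C) / (v * L) = (v - u) / v - C / (v * L) := by
      field_simp
    rw [h2]
    have h3 : C / (v * L) ≤ C / (α * L) := by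
      apply div_le_div_of_nonneg_left (by linarith) (by positivity)
      gcongr
      linarith
    linarith
  -- the logarithm
  have hlog1 : Real.log (v / u) ≤ (v - u) / u := by
    have := Real.log_le_sub_one_of_pos (div_pos hv0 hu0)
    have h2 : v / u - 1 = (v - u) / u := by field_simp
    linarith
  have hlog2 : (v - u) / v ≤ Real.log (v / u) := by
    have := Real.log_le_sub_one_of_pos (div_pos hu0 hv0)
    have h1 : Real.log (v / u) = -Real.log (u / v) := by
      rw [← Real.log_inv, inv_div]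
    have h2 : u / v - 1 = -((v - u) / v) := by field_simp; ring
    linarith
  have hdiff : (v - u) / u - (v - u) / v ≤ (v - u) ^ 2 / α ^ 2 := by
    have h1 : (v - u) / u - (v - u) / v = (v - u) ^ 2 / (u * v) := by
      field_simp
    rw [h1]
    apply div_le_div_of_nonneg_left (sq_nonneg _) (by positivity)
    nlinarith
  rw [abs_le]
  constructor <;> linarith

/-- telescoping -/
theorem tele (N : ℕ) (hN : 1 ≤ N) (u : ℕ → ℝ) (hu : Monotone u) (f : ℕ → ℝ) (J : ℕ) :
    ∑ p ∈ PW N (u 0) (u J), f p = ∑ i ∈ range J, ∑ p ∈ PW N (u i) (u (i + 1)), f p := by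
  have hN1 : (1 : ℝ) ≤ N := by exact_mod_cast hN
  induction J with
  | zero => simp [PW]
  | succ J ih =>
    rw [Finset.sum_range_succ, ← ih]
    have h1 : ⌊(N : ℝ) ^ u 0⌋₊ ≤ ⌊(N : ℝ) ^ u J⌋₊ :=
      Nat.floor_mono (Real.rpow_le_rpow_of_exponent_le hN1 (hu (Nat.zero_le _)))
    have h2 : ⌊(N : ℝ) ^ u J⌋₊ ≤ ⌊(N : ℝ) ^ u (J + 1)⌋₊ :=
      Nat.floor_mono (Real.rpow_le_rpow_of_exponent_le hN1 (hu (Nat.le_succ _)))
    simp only [PW, Finset.sum_filter]
    exact (Finset.sum_Ioc_consecutive _ h1 h2).symm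

end MERM

open MERM in
theorem specMER : SpecMER := by
  intro α β ε hα hαβ hε
  obtain ⟨C0, hC0, hC⟩ := mert_low
  set C := C0 + 8 with hCdef
  have hC8 : 8 ≤ C := by linarith
  have hC' : ∀ a b : ℝ, 1 ≤ a → a ≤ b → (Real.log b - Real.log a) - C ≤
      ∑ p ∈ (Ioc ⌊a⌋₊ ⌊b⌋₊).filter Nat.Prime, Real.log p / (p : ℝ) := by
    intro a b ha hab
    have := hC a b ha hab
    linarith
  -- the number of pieces
  obtain ⟨J, hJ⟩ := exists_nat_gt (2 * (β - α) ^ 2 / (α ^ 2 * ε))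
  have hJ0 : (0 : ℝ) < J := lt_of_le_of_lt (by positivity) hJ
  have hev : ∀ᶠ N : ℕ in atTop, 2 * J * C / (α * ε) ≤ Real.log N :=
    (Real.tendsto_log_atTop.comp tendsto_natCast_atTop_atTop).eventually_ge_atTop _
  obtain ⟨N₁, hN₁⟩ := Filter.eventually_atTop.1 hev
  refine ⟨max N₁ 2, fun N hN => ?_⟩
  have hN2 : 2 ≤ N := (le_max_right _ _).trans hN
  have hN1 : (1 : ℝ) < N := by exact_mod_cast hN2
  have hlog := hN₁ N ((le_max_left _ _).trans hN)
  set L := Real.log N with hL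
  have hL0 : 0 < L := Real.log_pos hN1
  set u : ℕ → ℝ := fun i => α + i * ((β - α) / J) with hu
  have hd : 0 < (β - α) / J := div_pos (by linarith) hJ0
  have humono : Monotone u := by
    intro i j hij
    simp only [hu]
    gcongr
  have hu0 : u 0 = α := by simp [hu]
  have huJ : u J = β := by
    simp only [hu]
    field_simp
    ring
  have huα : ∀ i, α ≤ u i := fun i => by
    rw [← hu0]
    exact humono (Nat.zero_le _)
  have hlogtel : ∀ n : ℕ, Real.log (u n / u 0) = ∑ i ∈ range n, Real.log (u (i + 1) / u i) := by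
    intro n
    induction n with
    | zero => rw [div_self (by rw [hu0]; exact hα.ne')]; simp
    | succ n ih =>
      have h1 : 0 < u n := lt_of_lt_of_le hα (huα n)
      have h2 : 0 < u (n + 1) := lt_of_lt_of_le hα (huα _)
      have h3 : 0 < u 0 := lt_of_lt_of_le hα (huα _)
      rw [Finset.sum_range_succ, ← ih, Real.log_div h2.ne' h3.ne', Real.log_div h1.ne' h3.ne',
        Real.log_div h2.ne' h1.ne']
      ring
  have key := tele N (by omega) u humono (fun p => 1 / (p : ℝ)) J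
  rw [hu0, huJ] at key
  have hlogJ := hlogtel J
  rw [hu0, huJ] at hlogJ
  rw [key, hlogJ, ← Finset.sum_sub_distrib]
  refine (Finset.abs_sum_le_sum_abs _ _).trans ?_
  have hb : ∀ i ∈ range J, |∑ p ∈ PW N (u i) (u (i + 1)), 1 / (p : ℝ) - Real.log (u (i + 1) / u i)|
      ≤ ((β - α) / J) ^ 2 / α ^ 2 + C / (α * L) := by
    intro i _
    have h1 := piece hC8 hC' N hN2 (u i) (u (i + 1)) α hα (huα i) (humono (Nat.le_succ i))
    have h2 : u (i + 1) - u i = (β - α) / J := by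
      simp only [hu]
      push_cast
      ring
    rw [h2] at h1
    exact h1
  refine (Finset.sum_le_sum hb).trans ?_
  rw [Finset.sum_const, card_range, nsmul_eq_mul, mul_add]
  have h1 : (J : ℝ) * (((β - α) / J) ^ 2 / α ^ 2) ≤ ε / 2 := by
    have h2 : (J : ℝ) * (((β - α) / J) ^ 2 / α ^ 2) = (β - α) ^ 2 / (α ^ 2 * J) := by
      field_simp
    rw [h2, div_le_iff₀ (by positivity)]
    rw [div_lt_iff₀ (by positivity)] at hJ
    nlinarith
  have h3 : (J : ℝ) * (C / (α * L)) ≤ ε / 2 := by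
    rw [← mul_div_assoc, div_le_iff₀ (by positivity)]
    rw [div_le_iff₀ (by positivity)] at hlog
    nlinarith
  linarith

end

end Pool.Agent.Lib.MP391708.QPA.H
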