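import Pool.Agent.Lib.MP_391708_nt.QPA.H.SpecH
import Pool.Agent.Lib.MP_391708_nt.QPA.MTB

/-!
# QPA phase 3, module MTBH
-/

set_option autoImplicit false

namespace Pool.Agent.Lib.MP391708.QPA.H.MTBHM

open Finset Filter Topology
open Pool.Agent.Lib.MP391708.QPA
open Pool.Agent.Lib.MP391708.QPA.MTB
open scoped Classical

/-- the nonsquarefree part -/
theorem nonsqf (hR : SpecRAV) {θ : ℝ} (hθ : 1 / 2 < θ) : ∃ C : ℝ, 0 < C ∧ ∀ (N A : ℕ) (e2 z K η : ℝ) (c : Multiset ℕ),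
    2 ≤ N → (N : ℝ) ^ θ ≤ A → 2 ≤ z → 1 ≤ K → K ≤ N → 0 < η → η ≤ 1 / 4 →
    (∀ k, FF N e2 c k ≠ 0 → Rough z k) →
    ∑ a ∈ IA A, |∑ k ∈ (Ioc ⌊K⌋₊ ⌊(1 + η) * K⌋₊).filter (fun k => ¬ Squarefree k),
        FF N e2 c k * ((rho a k : ℝ) - 1) / √(k : ℝ)|
      ≤ C * ((Multiset.card c).factorial : ℝ) * A * √K / z := by
  set ee : ℝ := min (θ - 1 / 2) (1 / 10) with hee
  have hee0 : 0 < ee := lt_min (by linarith) (by norm_num)
  have hee1 : ee ≤ θ - 1 / 2 := min_le_left _ _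
  have hee2 : ee ≤ 1 / 10 := min_le_right _ _
  obtain ⟨C, hC, h1⟩ := hR ee hee0
  refine ⟨3 * (6 + 2 * C), by positivity, ?_⟩
  intro N A e2 z K η c hN hA hz hK hKN hη hη4 hF
  set B : ℝ := ((Multiset.card c).factorial : ℝ) with hB
  have hB0 : 0 ≤ B := Nat.cast_nonneg _
  have hK0 : 0 < K := by linarith
  have hsK : 0 < √K := Real.sqrt_pos.mpr hK0
  have hz0 : 0 < z := by linarith
  have hN1 : (1 : ℝ) ≤ N := by exact_mod_cast (by omega : 1 ≤ N)
  have hN0 : (0 : ℝ) < N := by linarith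
  have hA1 : (1 : ℝ) ≤ A := (Real.one_le_rpow hN1 (by linarith)).trans hA
  set I := Ioc ⌊K⌋₊ ⌊(1 + η) * K⌋₊ with hI
  set M := ⌊(1 + η) * K⌋₊ with hM
  have hMK : (M : ℝ) ≤ 5 / 4 * K := (Nat.floor_le (by positivity)).trans (by nlinarith)
  set S := I.filter (fun k => ¬ Squarefree k ∧ FF N e2 c k ≠ 0) with hS
  have hSc : (S.card : ℝ) ≤ 2 * M / z := by
    apply nsf_card z hz M S
    intro k hk
    have hk' := Finset.mem_filter.mp hk
    have hk2 := Finset.mem_Ioc.mp hk'.1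
    exact ⟨by omega, hk2.2, hk'.2.1, hF k hk'.2.2⟩
  have h2 : ∀ a : ℤ, |∑ k ∈ I.filter (fun k => ¬ Squarefree k),
        FF N e2 c k * ((rho a k : ℝ) - 1) / √(k : ℝ)|
      ≤ ∑ k ∈ S, B / √K * ((rho a k : ℝ) + 1) := by
    intro a
    refine (Finset.abs_sum_le_sum_abs _ _).trans ?_
    have h3 : ∑ k ∈ I.filter (fun k => ¬ Squarefree k),
        |FF N e2 c k * ((rho a k : ℝ) - 1) / √(k : ℝ)|
        = ∑ k ∈ S, |FF N e2 c k * ((rho a k : ℝ) - 1) / √(k : ℝ)| := by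
      symm
      apply Finset.sum_subset
      · intro k hk
        have hk' := Finset.mem_filter.mp hk
        exact Finset.mem_filter.mpr ⟨hk'.1, hk'.2.1⟩
      · intro k hk hnk
        have hk' := Finset.mem_filter.mp hk
        have h0 : FF N e2 c k = 0 := by
          by_contra hne
          exact hnk (Finset.mem_filter.mpr ⟨hk'.1, hk'.2, hne⟩)
        rw [h0]
        simp
    rw [h3]
    apply Finset.sum_le_sum
    intro k hk
    have hk' := Finset.mem_filter.mp hk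
    have hk2 := Finset.mem_Ioc.mp hk'.1
    have hk3 : K < k := (Nat.floor_lt hK0.le).mp hk2.1
    have h4 : |(rho a k : ℝ) - 1| ≤ (rho a k : ℝ) + 1 := by
      rw [abs_le]
      have : (0 : ℝ) ≤ (rho a k : ℝ) := Nat.cast_nonneg _
      constructor <;> linarith
    rw [abs_div, abs_mul, abs_of_nonneg (FFB.FF_nonneg N e2 c k), abs_of_nonneg (Real.sqrt_nonneg _)]
    calc FF N e2 c k * |(rho a k : ℝ) - 1| / √(k : ℝ)
        ≤ (B * ((rho a k : ℝ) + 1)) / √K := by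
          apply div_le_div₀ (by positivity) _ hsK (Real.sqrt_le_sqrt hk3.le)
          exact mul_le_mul (FFB.FF_le N e2 hN c k) h4 (abs_nonneg _) hB0
      _ = B / √K * ((rho a k : ℝ) + 1) := by ring
  have h5 : ∀ k ∈ S, ∑ a ∈ IA A, ((rho a k : ℝ) + 1) ≤ (6 + 2 * C) * A := by
    intro k hk
    have hk' := Finset.mem_filter.mp hk
    have hk2 := Finset.mem_Ioc.mp hk'.1
    have hk1 : 1 ≤ k := by omega
    have h6 := h1 k A hk1
    have h7 := (abs_le.mp h6).2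
    have hcard : ((IA A).card : ℝ) = 2 * A + 1 := by
      rw [IA, Int.card_Icc]
      have : ((A : ℤ) + 1 - -(A : ℤ)).toNat = 2 * A + 1 := by omega
      rw [this]
      push_cast
      ring
    rw [Finset.sum_add_distrib, Finset.sum_const, nsmul_eq_mul, hcard]
    have hkN : (k : ℝ) ≤ 2 * N := by
      have : (k : ℝ) ≤ M := by exact_mod_cast hk2.2
      linarith
    have h8 : (k : ℝ) ^ (1 / 2 + ee) ≤ 2 * A := by
      have hk0 : (0 : ℝ) ≤ k := Nat.cast_nonneg _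
      calc (k : ℝ) ^ (1 / 2 + ee) ≤ (2 * N : ℝ) ^ (1 / 2 + ee) :=
            Real.rpow_le_rpow hk0 hkN (by linarith)
        _ = 2 ^ (1 / 2 + ee) * (N : ℝ) ^ (1 / 2 + ee) :=
            Real.mul_rpow (by norm_num) hN0.le
        _ ≤ 2 * A := by
            apply mul_le_mul _ _ (by positivity) (by norm_num)
            · calc (2 : ℝ) ^ (1 / 2 + ee) ≤ 2 ^ (1 : ℝ) :=
                    Real.rpow_le_rpow_of_exponent_le (by norm_num) (by linarith)
                _ = 2 := Real.rpow_one 2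
            · exact (Real.rpow_le_rpow_of_exponent_le hN1 (by linarith)).trans hA
    have h9 : C * (k : ℝ) ^ (1 / 2 + ee) ≤ C * (2 * A) := mul_le_mul_of_nonneg_left h8 hC.le
    linarith
  calc ∑ a ∈ IA A, |∑ k ∈ I.filter (fun k => ¬ Squarefree k),
        FF N e2 c k * ((rho a k : ℝ) - 1) / √(k : ℝ)|
      ≤ ∑ a ∈ IA A, ∑ k ∈ S, B / √K * ((rho a k : ℝ) + 1) := Finset.sum_le_sum (fun a _ => h2 a)
    _ = ∑ k ∈ S, B / √K * ∑ a ∈ IA A, ((rho a k : ℝ) + 1) := by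
        rw [Finset.sum_comm]
        exact Finset.sum_congr rfl (fun k _ => (Finset.mul_sum _ _ _).symm)
    _ ≤ ∑ k ∈ S, B / √K * ((6 + 2 * C) * A) :=
        Finset.sum_le_sum (fun k hk => mul_le_mul_of_nonneg_left (h5 k hk) (by positivity))
    _ = S.card * (B / √K * ((6 + 2 * C) * A)) := by rw [Finset.sum_const, nsmul_eq_mul]
    _ ≤ (2 * (5 / 4 * K) / z) * (B / √K * ((6 + 2 * C) * A)) := by
        apply mul_le_mul_of_nonneg_right _ (by positivity)
        refine hSc.trans ?_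
        apply div_le_div_of_nonneg_right _ hz0.le
        linarith
    _ = 5 / 2 * (6 + 2 * C) * B * A * (K / √K) / z := by ring
    _ ≤ 3 * (6 + 2 * C) * B * A * √K / z := by
        rw [Real.div_sqrt]
        apply div_le_div_of_nonneg_right _ hz0.le
        have : 0 ≤ (6 + 2 * C) * B * A * √K := by positivity
        nlinarith

end Pool.Agent.Lib.MP391708.QPA.H.MTBHM

namespace Pool.Agent.Lib.MP391708.QPA.H

open Finset Filter Topology
open Pool.Agent.Lib.MP391708.QPA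
open Pool.Agent.Lib.MP391708.QPA.MTB
open scoped Classical

theorem specMTBH (hB : SpecBKH) (hR : SpecRAV) (hD : SpecRHOD) : SpecMTBH := by
  intro θ t e0 κ η Q c hθ ht he0 _ hκ hη hη4 hQ hc
  obtain ⟨C₁, hC₁, σ, hσ0, h1⟩ := hB e0 t he0 ht
  obtain ⟨C₂, hC₂, h2⟩ := MTBHM.nonsqf hR hθ
  set B : ℝ := ((Multiset.card c).factorial : ℝ) with hBdef
  have hB0 : 0 ≤ B := Nat.cast_nonneg _
  obtain ⟨N₁, hN₁⟩ := small (15 / 2 * B * √(3 * C₁)) (σ / 2) (κ / 2) 3 (by positivity) (by positivity)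
  obtain ⟨N₂, hN₂⟩ := small (C₂ * B) e0 (κ / 2) 2 he0 (by positivity)
  obtain ⟨N₃, hN₃⟩ := small 3 e0 1 0 he0 one_pos
  refine ⟨max 2 (max N₁ (max N₂ N₃)), ?_⟩
  intro N A hN hAdm hnear K hK1 hK2
  have hN2 : 2 ≤ N := le_trans (le_max_left _ _) hN
  have g1 := hN₁ N (le_trans ((le_max_left _ _).trans (le_max_right _ _)) hN)
  have g2 := hN₂ N (le_trans ((le_max_left _ _).trans ((le_max_right _ _).trans
    (le_max_right _ _))) hN)
  have g3 := hN₃ N (le_trans ((le_max_right _ _).trans ((le_max_right _ _).trans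
    (le_max_right _ _))) hN)
  have hN2' : (2 : ℝ) ≤ N := by exact_mod_cast hN2
  have hN1 : (1 : ℝ) ≤ N := by linarith
  have hN0 : (0 : ℝ) < N := by linarith
  have hlog : 0 < Real.log N := Real.log_pos (by linarith)
  have hz : 3 ≤ (N : ℝ) ^ e0 := by
    rw [pow_zero, mul_one, Real.rpow_neg hN0.le, ← div_eq_mul_inv,
      div_le_one (Real.rpow_pos_of_pos hN0 _)] at g3
    exact g3
  have hA1 : (N : ℝ) ^ (1 / 2 : ℝ) ≤ A :=
    (Real.rpow_le_rpow_of_exponent_le hN1 hθ.le).trans hAdm.1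
  have hA2 : (A : ℝ) ≤ (N : ℝ) ^ 2 := by
    refine hAdm.2.trans ?_
    have : Real.log N ≤ N := (Real.log_le_sub_one_of_pos hN0).trans (by linarith)
    nlinarith
  have hA3 : (1 : ℝ) ≤ A := (Real.one_le_rpow hN1 (by norm_num)).trans hA1
  have hA0 : (0 : ℝ) < A := by linarith
  have hAn : 0 < A := by exact_mod_cast hA0
  have hKK : 1 ≤ K := (Real.one_le_rpow hN1 (by norm_num)).trans hK1
  have hKN : K ≤ N := by
    refine hK2.trans ?_
    calc (N : ℝ) ^ (1 - t) ≤ (N : ℝ) ^ (1 : ℝ) :=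
          Real.rpow_le_rpow_of_exponent_le hN1 (by linarith)
      _ = N := Real.rpow_one _
  have hK0 : 0 < K := by linarith
  have hsK : 0 < √K := Real.sqrt_pos.mpr hK0
  set e2 : ℝ := e0 / Q with he2
  have hQ0 : (0 : ℝ) < Q := by exact_mod_cast hQ
  have he2p : 0 < e2 := by positivity
  have he2Q : e2 * Q = e0 := by rw [he2]; field_simp
  have hrough : ∀ k, FF N e2 c k ≠ 0 → Rough ((N : ℝ) ^ e0) k := by
    intro k hk
    have := (FFB.FF_support N e2 hN2 c k hk).2.2.2.2 he2p Q hc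
    rwa [he2Q] at this
  set I := Ioc ⌊K⌋₊ ⌊(1 + η) * K⌋₊ with hI
  set J := ⌈4 * Real.log N⌉₊ with hJ
  have hIJ : ∀ k ∈ I, k ≤ 2 ^ J := by
    intro k hk
    have hk2 := Finset.mem_Ioc.mp hk
    have h3 : (k : ℝ) ≤ 2 * N := by
      have h4 : (k : ℝ) ≤ (⌊(1 + η) * K⌋₊ : ℝ) := by exact_mod_cast hk2.2
      have h5 : (⌊(1 + η) * K⌋₊ : ℝ) ≤ (1 + η) * K := Nat.floor_le (by positivity)
      nlinarith
    have h6 : k ≤ 2 * N := by exact_mod_cast h3
    exact h6.trans (pow_large N hN2)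
  have hodd : ∀ k ∈ I, FF N e2 c k ≠ 0 → Odd k := by
    intro k _ hk
    by_contra hno
    have h3 : 2 ∣ k := even_iff_two_dvd.mp (Nat.not_odd_iff_even.mp hno)
    have h4 := hrough k hk 2 Nat.prime_two h3
    push_cast at h4
    linarith
  have hexp := expand hD N e2 c I J hIJ hodd
  -- the block estimate
  have hblk : ∀ j ∈ range J, ∑ a ∈ IA A, |∑ f ∈ Ioc (2 ^ j) (2 * 2 ^ j),
      cf N e2 c I f * (jacobiSym (-a) f : ℝ)| ≤ 5 / 4 * B * √(3 * C₁) * A * √K
        * (N : ℝ) ^ (-(σ / 2)) := by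
    intro j _
    have hcard : ((IA A).card : ℝ) ≤ 3 * A := by
      rw [IA, Int.card_Icc]
      have : ((A : ℤ) + 1 - -(A : ℤ)).toNat = 2 * A + 1 := by omega
      rw [this]
      push_cast
      linarith
    have h3 := h1 N A (2 ^ j) (cf N e2 c I) (5 / 4 * B * √K) hN2 Nat.one_le_two_pow
      (by positivity) hA1 hA2 (cf_nonneg N e2 c I)
      (fun f hf => cf_le N hN2 e2 c K η hKK hη4 hη f hf)
      (fun f hf => by
        obtain ⟨k, hkI, hks, hfk, hk⟩ := cf_ne N e2 c I f hf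
        exact ⟨Odd.of_dvd_nat (hodd k hkI hk) hfk, hks.squarefree_of_dvd hfk⟩)
      (fun f hf hf1 => by
        obtain ⟨k, hkI, hks, hfk, hk⟩ := cf_ne N e2 c I f hf
        exact divisor_size N A hN2 hAn e0 e2 t Q he2p he2Q c hc hnear f k hf1 hk hfk)
    refine (cs (IA A) _ _ _ hcard h3).trans (le_of_eq ?_)
    have h4 : 3 * (A : ℝ) * (C₁ * (5 / 4 * B * √K) ^ 2 * A * (N : ℝ) ^ (-σ))
        = (5 / 4 * B * √K * A * (N : ℝ) ^ (-(σ / 2))) ^ 2 * (3 * C₁) := by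
      have h5 : (N : ℝ) ^ (-σ) = ((N : ℝ) ^ (-(σ / 2))) ^ 2 := by
        rw [← Real.rpow_natCast, ← Real.rpow_mul hN0.le]
        congr 1
        push_cast
        ring
      rw [h5]
      ring
    rw [h4, Real.sqrt_mul (sq_nonneg _), Real.sqrt_sq (by positivity)]
    ring
  have hJ6 : (J : ℝ) ≤ 6 * Real.log N := by
    have h3 : (J : ℝ) < 4 * Real.log N + 1 := Nat.ceil_lt_add_one (by positivity)
    have h4 : Real.log 2 ≤ Real.log N := Real.log_le_log (by norm_num) hN2'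
    have h5 := Real.log_two_gt_d9
    linarith
  have hpart1 : ∑ a ∈ IA A, |∑ k ∈ I.filter Squarefree,
      FF N e2 c k * ((rho a k : ℝ) - 1) / √(k : ℝ)|
      ≤ 15 / 2 * B * √(3 * C₁) * Real.log N * A * √K * (N : ℝ) ^ (-(σ / 2)) := by
    calc ∑ a ∈ IA A, |∑ k ∈ I.filter Squarefree, FF N e2 c k * ((rho a k : ℝ) - 1) / √(k : ℝ)|
        ≤ ∑ a ∈ IA A, ∑ j ∈ range J, |∑ f ∈ Ioc (2 ^ j) (2 * 2 ^ j),
            cf N e2 c I f * (jacobiSym (-a) f : ℝ)| := by
          apply Finset.sum_le_sum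
          intro a _
          rw [hexp a]
          exact Finset.abs_sum_le_sum_abs _ _
      _ = ∑ j ∈ range J, ∑ a ∈ IA A, |∑ f ∈ Ioc (2 ^ j) (2 * 2 ^ j),
            cf N e2 c I f * (jacobiSym (-a) f : ℝ)| := Finset.sum_comm
      _ ≤ ∑ j ∈ range J, 5 / 4 * B * √(3 * C₁) * A * √K * (N : ℝ) ^ (-(σ / 2)) :=
          Finset.sum_le_sum hblk
      _ = J * (5 / 4 * B * √(3 * C₁) * A * √K * (N : ℝ) ^ (-(σ / 2))) := by
          rw [Finset.sum_const, nsmul_eq_mul, Finset.card_range]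
      _ ≤ (6 * Real.log N) * (5 / 4 * B * √(3 * C₁) * A * √K * (N : ℝ) ^ (-(σ / 2))) :=
          mul_le_mul_of_nonneg_right hJ6 (by positivity)
      _ = _ := by ring
  have hpart2 := h2 N A e2 ((N : ℝ) ^ e0) K η c hN2 hAdm.1 (by linarith) hKK hKN hη hη4 hrough
  have hsplit : ∀ a : ℤ, |∑ k ∈ I, FF N e2 c k * ((rho a k : ℝ) - 1) / √(k : ℝ)|
      ≤ |∑ k ∈ I.filter Squarefree, FF N e2 c k * ((rho a k : ℝ) - 1) / √(k : ℝ)|
        + |∑ k ∈ I.filter (fun k => ¬ Squarefree k),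
            FF N e2 c k * ((rho a k : ℝ) - 1) / √(k : ℝ)| := by
    intro a
    rw [← Finset.sum_filter_add_sum_filter_not I Squarefree]
    exact abs_add_le _ _
  have hL2 : 0 < (Real.log N) ^ 2 := by positivity
  calc ∑ a ∈ IA A, |∑ k ∈ I, FF N e2 c k * ((rho a k : ℝ) - 1) / √(k : ℝ)|
      ≤ 15 / 2 * B * √(3 * C₁) * Real.log N * A * √K * (N : ℝ) ^ (-(σ / 2))
        + C₂ * B * A * √K / (N : ℝ) ^ e0 := by
        refine (Finset.sum_le_sum (fun a _ => hsplit a)).trans ?_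
        rw [Finset.sum_add_distrib]
        exact add_le_add hpart1 hpart2
    _ = (15 / 2 * B * √(3 * C₁) * (Real.log N) ^ 3 * (N : ℝ) ^ (-(σ / 2))
        + C₂ * B * (Real.log N) ^ 2 * (N : ℝ) ^ (-e0)) * (A * √K) / (Real.log N) ^ 2 := by
        rw [Real.rpow_neg hN0.le e0]
        field_simp
    _ ≤ (κ / 2 + κ / 2) * (A * √K) / (Real.log N) ^ 2 := by
        apply div_le_div_of_nonneg_right _ hL2.le
        exact mul_le_mul_of_nonneg_right (add_le_add g1 g2) (by positivity)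
    _ = κ * A * √K / (Real.log N) ^ 2 := by ring

end Pool.Agent.Lib.MP391708.QPA.H
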