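import Pool.Agent.Lib.MP_391708_nt.QPA.H.SpecH

/-!
# QE2: the asymptotic formula for products of two primes (MP_391708_nt, QPA phase 3)
-/

set_option autoImplicit false

namespace Pool.Agent.Lib.MP391708.QPA.H.QE2M

open Finset Filter Topology
open Pool.Agent.Lib.MP391708.QPA
open scoped Classical

/-- the size of the values -/
theorem val_bounds {N A n : ℕ} {a : ℤ} (hN : 2 ≤ N) (hA : A ≤ N) (ha : a ∈ Icc (-(A : ℤ)) A)
    (hn : n ∈ Ioc N (2 * N)) :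
    (N : ℝ) ^ 2 / 2 ≤ val a n ∧ (val a n : ℝ) ≤ 5 * (N : ℝ) ^ 2 := by
  rw [mem_Icc] at ha
  rw [mem_Ioc] at hn
  have hAN : (A : ℤ) ≤ N := by exact_mod_cast hA
  have h1 : (N : ℤ) + 1 ≤ n := by exact_mod_cast hn.1
  have h2 : (n : ℤ) ≤ 2 * N := by exact_mod_cast hn.2
  have hN' : (2 : ℤ) ≤ N := by exact_mod_cast hN
  have h3 : (N : ℤ) ^ 2 ≤ (n : ℤ) ^ 2 + a := by nlinarith
  have h4 : (n : ℤ) ^ 2 + a ≤ 5 * (N : ℤ) ^ 2 := by nlinarith
  have h0 : 0 ≤ (n : ℤ) ^ 2 + a := le_trans (by positivity) h3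
  have h5 : ((val a n : ℕ) : ℤ) = (n : ℤ) ^ 2 + a := by
    unfold val
    exact Int.natAbs_of_nonneg h0
  have h6 : (N : ℤ) ^ 2 ≤ (val a n : ℤ) := by rw [h5]; exact h3
  have h7 : (val a n : ℤ) ≤ 5 * (N : ℤ) ^ 2 := by rw [h5]; exact h4
  have h8 : (N : ℝ) ^ 2 ≤ (val a n : ℝ) := by exact_mod_cast h6
  have h9 : (val a n : ℝ) ≤ 5 * (N : ℝ) ^ 2 := by exact_mod_cast h7
  exact ⟨by nlinarith [sq_nonneg (N : ℝ)], h9⟩

end Pool.Agent.Lib.MP391708.QPA.H.QE2M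

namespace Pool.Agent.Lib.MP391708.QPA.H

open Finset Filter Topology
open Pool.Agent.Lib.MP391708.QPA
open scoped Classical

theorem specQE2 (hFINE : SpecFINE) (hE2M : SpecE2M) (hE2V : SpecE2V) : SpecQE2 := by
  intro θ α β ε hθ hα hθα hαβ hβ hε
  have hα' : 1 / 2 < α := by linarith
  obtain ⟨N₁, h1⟩ := hFINE 2 θ (1 / 10) α β (ε / 2) hθ (by norm_num) le_rfl hα hθα hαβ hβ.le
    (by positivity)
  obtain ⟨N₂, h2⟩ := hE2M α β (ε / 2) hα' hαβ hβ (by positivity)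
  obtain ⟨N₃, h3⟩ := hE2V α β hα' hαβ hβ
  refine ⟨max (max N₁ N₂) (max N₃ 2), fun N A hN hNA hAN => ?_⟩
  have hN1 : N₁ ≤ N := le_trans (le_trans (le_max_left _ _) (le_max_left _ _)) hN
  have hN2 : N₂ ≤ N := le_trans (le_trans (le_max_right _ _) (le_max_left _ _)) hN
  have hN3 : N₃ ≤ N := le_trans (le_trans (le_max_left _ _) (le_max_right _ _)) hN
  have hN4 : 2 ≤ N := le_trans (le_trans (le_max_right _ _) (le_max_right _ _)) hN
  have hcard := h1 N A hN1 hNA hAN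
  have hA0 : (0 : ℝ) ≤ A := Nat.cast_nonneg A
  refine le_trans ?_ (le_trans hcard (by nlinarith))
  refine Nat.cast_le.2 (card_le_card fun a ha => ?_)
  rw [mem_filter] at ha ⊢
  refine ⟨ha.1, fun hex => ha.2 ?_⟩
  obtain ⟨h, hh0, hlim, hcnt⟩ := hex
  refine ⟨h, hh0, hlim, ?_⟩
  have e1 : cnt N a (EInd N 2 (1 / 10) α β)
      = (((Ioc N (2 * N)).filter (fun n : ℕ => ∃ p q : ℕ, p.Prime ∧ q.Prime ∧
          ((n : ℤ) ^ 2 + a).natAbs = p * q ∧ (N : ℝ) ^ α < p ∧ (p : ℝ) ≤ (N : ℝ) ^ β)).card : ℝ) := by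
    rw [card_filter]
    push_cast
    unfold cnt
    refine sum_congr rfl fun n hn => ?_
    obtain ⟨b1, b2⟩ := QE2M.val_bounds hN4 hAN ha.1 hn
    rw [h3 N (val a n) hN3 b1 b2]
    rfl
  rw [← e1]
  have hm := h2 N hN2
  set m := model N (EInd N 2 (1 / 10) α β)
  set c := 1 / 2 * Real.log (β * (2 - α) / (α * (2 - β)))
  set x := (N : ℝ) / Real.log N
  have e2 : cnt N a (EInd N 2 (1 / 10) α β) - c * (h * x)
      = (cnt N a (EInd N 2 (1 / 10) α β) - h * m) + h * (m - c * x) := by ring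
  rw [e2]
  refine (abs_add_le _ _).trans ?_
  rw [abs_mul, abs_of_pos hh0]
  have h5 : h * |m - c * x| ≤ h * (ε / 2 * x) := mul_le_mul_of_nonneg_left hm hh0.le
  nlinarith

end Pool.Agent.Lib.MP391708.QPA.H
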