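import Pool.Agent.Lib.MP_391708_nt.QPA.H.SpecH

/-!
# QEK: values with exactly `k` prime factors (MP_391708_nt, QPA phase 3)
-/

set_option autoImplicit false

namespace Pool.Agent.Lib.MP391708.QPA.H

open Finset Filter Topology
open Pool.Agent.Lib.MP391708.QPA
open scoped Classical

theorem specQEK (hFINE : SpecFINE) (hEKM : SpecEKM) : SpecQEK := by
  intro k θ hk hθ
  obtain ⟨α, hα1, hα2, hα3⟩ : ∃ α : ℝ, 2 / 3 ≤ α ∧ 3 / 2 < θ + α ∧ α < 1 := by
    refine ⟨(max (2 / 3) (3 / 2 - θ) + 1) / 2, ?_, ?_, ?_⟩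
    · have := le_max_left (2 / 3 : ℝ) (3 / 2 - θ)
      linarith
    · have := le_max_right (2 / 3 : ℝ) (3 / 2 - θ)
      linarith
    · have : max (2 / 3 : ℝ) (3 / 2 - θ) < 1 := max_lt (by norm_num) (by linarith)
      linarith
  obtain ⟨β, hβ1, hβ2⟩ : ∃ β : ℝ, α < β ∧ β < 1 := exists_between hα3
  obtain ⟨δ, hδ0, hδ1, c, hc, N₂, h2⟩ := hEKM k α β hk (by linarith) hβ1 hβ2
  refine ⟨c / 2, by positivity, fun ε hε => ?_⟩
  have hε' : 0 < min ε (c / 2) := lt_min hε (by positivity)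
  obtain ⟨N₁, h1⟩ := hFINE k θ δ α β (min ε (c / 2)) hθ hδ0 hδ1 hα1 hα2 hβ1 hβ2.le hε'
  refine ⟨max (max N₁ N₂) 2, fun N A hN hNA hAN => ?_⟩
  have hN1 : N₁ ≤ N := le_trans (le_trans (le_max_left _ _) (le_max_left _ _)) hN
  have hN2 : N₂ ≤ N := le_trans (le_trans (le_max_right _ _) (le_max_left _ _)) hN
  have hN4 : 2 ≤ N := le_trans (le_max_right _ _) hN
  have hcard := h1 N A hN1 hNA hAN
  have hA0 : (0 : ℝ) ≤ A := Nat.cast_nonneg A
  refine le_trans ?_ (le_trans hcard (mul_le_mul_of_nonneg_right (min_le_left _ _) hA0))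
  refine Nat.cast_le.2 (card_le_card fun a ha => ?_)
  rw [mem_filter] at ha ⊢
  refine ⟨ha.1, fun hex => ha.2 ?_⟩
  obtain ⟨h, hh0, hlim, hcnt⟩ := hex
  refine ⟨h, hh0, hlim, ?_⟩
  have hx : 0 ≤ (N : ℝ) / Real.log N :=
    div_nonneg (Nat.cast_nonneg N) (Real.log_nonneg (by exact_mod_cast (by omega : 1 ≤ N)))
  have e1 : cnt N a (EInd N k δ α β) ≤ (((Ioc N (2 * N)).filter (fun n : ℕ =>
      Squarefree ((n : ℤ) ^ 2 + a).natAbs ∧
      ((n : ℤ) ^ 2 + a).natAbs.primeFactors.card = k)).card : ℝ) := by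
    rw [card_filter]
    push_cast
    unfold cnt
    refine sum_le_sum fun n hn => ?_
    unfold EInd val
    split_ifs with g1 g2 g2
    · exact le_rfl
    · exact absurd ⟨g1.1, g1.2.1⟩ g2
    · norm_num
    · exact le_rfl
  refine le_trans ?_ e1
  have hm := h2 N hN2
  set m := model N (EInd N k δ α β)
  set x := (N : ℝ) / Real.log N
  have h5 : h * (c * x) ≤ h * m := mul_le_mul_of_nonneg_left hm hh0.le
  have h6 := (abs_le.1 hcnt).1
  have h7 : min ε (c / 2) * (h * x) ≤ c / 2 * (h * x) :=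
    mul_le_mul_of_nonneg_right (min_le_right _ _) (mul_nonneg hh0.le hx)
  nlinarith

end Pool.Agent.Lib.MP391708.QPA.H
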