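import Pool.Agent.Lib.MP_391708_nt.QPA.H.SpecH
import Pool.Agent.Lib.MP_391708_nt.QPA.TII

/-!
# QPA phase 3, module TIIH: Type II sums for `θ > 1/2`
-/

set_option autoImplicit false

namespace Pool.Agent.Lib.MP391708.QPA.H

open Finset Filter Topology
open Pool.Agent.Lib.MP391708.QPA
open scoped Classical

namespace TIIHM

open BasM SHM BLK2 TII

theorem core {θ κ e e0 ϖ : ℝ} {Q : ℕ} {c₁ c₂ : Multiset ℕ} (hκ : 2 / 3 ≤ κ) (hθ : 1 / 2 < θ)
    (he : 0 < e) (he0 : 0 < e0) (he1 : e0 ≤ 1 / 10) (hϖ : 0 < ϖ)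
    (hQ : 1 ≤ Q) (hc₁ : ∀ i ∈ c₁, Q ≤ i) (hc₂ : ∀ i ∈ c₂, Q ≤ i) (hc0 : c₂ ≠ 0)
    (hmid : MidK κ (e0 / Q) e c₁)
    (hB : ∀ η : ℝ, 0 < η → η ≤ 1 / 4 → BlkH θ κ e e0 η Q c₁ c₂) (hEDGE : SpecEDGE) (hBT : SpecBT)
    (hFFB : SpecFFB) (hGMAX : SpecGMAX) (hGMEAN : SpecGMEAN) :
    ∃ w₀ : ℕ, ∀ w : ℕ, w₀ ≤ w → ∃ N₀ : ℕ, ∀ N A : ℕ, N₀ ≤ N → Adm θ N A → NearA N A (e0 / Q) e c₁ →
    ∑ a ∈ IA A, |cnt N a (fun m => FF N (e0 / Q) (c₁ + c₂) m)
        - Gw w a * model N (fun m => FF N (e0 / Q) (c₁ + c₂) m)| ≤ ϖ * A * N / Real.log N := by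
  have hQ0 : (0 : ℝ) < Q := by exact_mod_cast hQ
  set F : ℝ := ((Multiset.card (c₁ + c₂)).factorial : ℝ) with hF
  have hF0 : 0 < F := by positivity
  obtain ⟨CE, hCE, hE⟩ := hEDGE
  obtain ⟨CS, hCS, hCS'⟩ := rough_sum hBT he0 he1
  set η : ℝ := min (1 / 4) (min (ϖ * e0 / (40 * F * CE)) (ϖ / (96 * F * CS))) with hηd
  have hη : 0 < η := by
    rw [hηd]
    exact lt_min (by norm_num) (lt_min (by positivity) (by positivity))
  have hη4 : η ≤ 1 / 4 := min_le_left _ _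
  have hη1 : η * (40 * F * CE) ≤ ϖ * e0 := by
    rw [← le_div_iff₀ (by positivity)]
    exact (min_le_right _ _).trans (min_le_left _ _)
  have hη2 : η * (96 * F * CS) ≤ ϖ := by
    rw [← le_div_iff₀ (by positivity)]
    exact (min_le_right _ _).trans (min_le_right _ _)
  have hq : 1 < 1 + η := by linarith
  have hq0 : 0 < 1 + η := by linarith
  have hlq : 0 < Real.log (1 + η) := Real.log_pos hq
  obtain ⟨D, hD⟩ := pow_unbounded_of_one_lt (4 : ℝ) hq
  set CN : ℝ := ((D : ℝ) + 1) * (1 / Real.log (1 + η) + 1) with hCN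
  have hCN0 : 0 < CN := by positivity
  obtain ⟨w₀, hw₀⟩ := hB η hη hη4 (ϖ / (4 * CN)) (by positivity)
  refine ⟨max w₀ 2, fun w hw => ?_⟩
  have hwa : w₀ ≤ w := (le_max_left _ _).trans hw
  have hwb : 2 ≤ w := (le_max_right _ _).trans hw
  obtain ⟨N₁, hN₁⟩ := hw₀ w hwa
  obtain ⟨cG, hcG, hG⟩ := hGMAX w hwb
  obtain ⟨A₀, hA₀⟩ := hGMEAN w
  have hG0 : ∀ a, 0 ≤ Gw w a := fun a => hcG.le.trans (hG a).1
  have hev : ∀ᶠ N : ℕ in atTop, ∀ A : ℕ, Adm θ N A → NearA N A (e0 / Q) e c₁ →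
      ∑ a ∈ IA A, |cnt N a (fun m => FF N (e0 / Q) (c₁ + c₂) m)
        - Gw w a * model N (fun m => FF N (e0 / Q) (c₁ + c₂) m)| ≤ ϖ * A * N / Real.log N := by
    filter_upwards [eventually_ge_atTop 3, eventually_ge_atTop N₁, hCS', ev_log 1,
      ev_const (show (0 : ℝ) < θ by linarith) A₀, ev_const he0 2,
      ev_logpow (show (0 : ℝ) < 1 by norm_num) (8 / η),
      ev_const (show (0 : ℝ) < 1 by norm_num) (2 / η)] with N hN3 hNN₁ hcs hl1 hNA hz2 hlp hNη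
      A hA hnear
    have hN1 : (1 : ℝ) < N := by exact_mod_cast (by omega : 1 < N)
    have hN0 : (0 : ℝ) < N := by linarith
    have hlog : 0 < Real.log N := by linarith
    rw [Real.rpow_one] at hlp hNη
    have hηN : 2 ≤ η * N := by
      rw [div_le_iff₀ hη] at hNη
      linarith
    have hA0 : (0 : ℝ) ≤ A := Nat.cast_nonneg A
    have h8A : 8 * (A : ℝ) ≤ η * (N : ℝ) ^ 2 := by
      have h1 : 8 / η * Real.log N = (8 * Real.log N) / η := by ring
      rw [h1, div_le_iff₀ hη] at hlp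
      nlinarith [hA.2]
    have hAA : A₀ ≤ A := by
      have := hNA.trans hA.1
      exact_mod_cast this
    have hGm := hA₀ A hAA
    -- the functions
    set g : ℕ → ℝ := fun m => FF N (e0 / Q) c₁ m with hg
    set f : ℕ → ℝ := fun m => FF N (e0 / Q) c₂ m with hf
    set h : ℕ → ℝ := fun m => FF N (e0 / Q) (c₁ + c₂) m with hh
    have hhc : ∀ m, h m = conv g f m := fun m => FF_conv N (e0 / Q) c₁ c₂ m
    have hFg := fun m => hFFB N (e0 / Q) c₁ m (by omega) (by positivity)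
    have hFf := fun m => hFFB N (e0 / Q) c₂ m (by omega) (by positivity)
    have hg0 : ∀ m, 0 ≤ g m := fun m => (hFg m).1
    have hf0 : ∀ m, 0 ≤ f m := fun m => (hFf m).1
    have hh0 : ∀ m, 0 ≤ h m := fun m => by
      rw [hhc]; exact conv_nonneg hg0 hf0 m
    have hhr : ∀ m, h m ≤ F * rInd ((N : ℝ) ^ e0) m := fun m => by
      refine (FF_facts hFFB he0 hQ (c := c₁ + c₂) ?_ (by omega : 2 ≤ N) m).2
      intro i hi
      rcases Multiset.mem_add.1 hi with h1 | h1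
      · exact hc₁ i h1
      · exact hc₂ i h1
    have hgs : ∀ k, g k ≠ 0 → (N : ℝ) ^ κ < k ∧ (k : ℝ) ≤ (N : ℝ) ^ (1 - e) := by
      intro k hk
      obtain ⟨_, h1, h2, _⟩ := (hFg k).2.2 hk
      constructor
      · refine lt_of_lt_of_le (Real.rpow_lt_rpow_of_exponent_lt hN1 (by linarith : κ < κ + e)) ?_
        exact (Real.rpow_le_rpow_of_exponent_le hN1.le hmid.1).trans h1
      · exact h2.trans (Real.rpow_le_rpow_of_exponent_le hN1.le hmid.2)
    have hfs : ∀ k, f k ≠ 0 → (1 : ℝ) < k ∧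
        (k : ℝ) ≤ (N : ℝ) ^ (e0 / Q * ((c₂.sum : ℝ) + (Multiset.card c₂ : ℝ))) := by
      intro k hk
      obtain ⟨_, h1, h2, _⟩ := (hFf k).2.2 hk
      refine ⟨lt_of_lt_of_le ?_ h1, h2⟩
      apply Real.one_lt_rpow hN1
      have h3 : 0 < c₂.sum := by
        obtain ⟨i, hi⟩ := Multiset.exists_mem_of_ne_zero hc0
        have h4 := Multiset.single_le_sum (fun x _ => Nat.zero_le x) i hi
        have := hc₂ i hi
        omega
      have : (0 : ℝ) < c₂.sum := by exact_mod_cast h3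
      positivity
    obtain ⟨T, hT⟩ := pow_unbounded_of_one_lt
      (max (N : ℝ) ((N : ℝ) ^ (e0 / Q * ((c₂.sum : ℝ) + (Multiset.card c₂ : ℝ))))) hq
    have hT1 : (N : ℝ) ≤ (1 + η) ^ T := (le_max_left _ _).trans hT.le
    have hT2 : (N : ℝ) ^ (e0 / Q * ((c₂.sum : ℝ) + (Multiset.card c₂ : ℝ))) ≤ (1 + η) ^ T :=
      (le_max_right _ _).trans hT.le
    have hκ1 : 1 ≤ (N : ℝ) ^ κ := Real.one_le_rpow hN1.le (by linarith)
    have hκ0 : 0 < (N : ℝ) ^ κ := by linarith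
    have hgd : ∀ k, g k = ∑ i ∈ range T, cut ((N : ℝ) ^ κ * (1 + η) ^ i)
        ((1 + η) * ((N : ℝ) ^ κ * (1 + η) ^ i)) g k := fun k => by
      refine cut_tele hκ0 hq T g k fun hk => ?_
      obtain ⟨h1, h2⟩ := hgs k hk
      refine ⟨h1, h2.trans ?_⟩
      calc (N : ℝ) ^ (1 - e) ≤ (N : ℝ) ^ (1 : ℝ) := Real.rpow_le_rpow_of_exponent_le hN1.le (by linarith)
        _ = 1 * N := by rw [Real.rpow_one, one_mul]
        _ ≤ (N : ℝ) ^ κ * (1 + η) ^ T := mul_le_mul hκ1 hT1 hN0.le hκ0.le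
    have hfd : ∀ k, f k = ∑ i ∈ range T, cut (1 * (1 + η) ^ i) ((1 + η) * (1 * (1 + η) ^ i)) f k :=
      fun k => by
      refine cut_tele one_pos hq T f k fun hk => ?_
      obtain ⟨h1, h2⟩ := hfs k hk
      exact ⟨h1, by rw [one_mul]; exact h2.trans hT2⟩
    -- abbreviations
    set G : ℕ → ℕ → ℝ := fun i => cut ((N : ℝ) ^ κ * (1 + η) ^ i)
        ((1 + η) * ((N : ℝ) ^ κ * (1 + η) ^ i)) g with hGd
    set H : ℕ → ℕ → ℝ := fun i => cut (1 * (1 + η) ^ i) ((1 + η) * (1 * (1 + η) ^ i)) f with hHd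
    set S := SI N A T κ e (1 + η) with hS
    have hSsub : S ⊆ range T ×ˢ range T := filter_subset _ _
    have hcn : ∀ (x : ℕ × ℕ) m, 0 ≤ conv (G x.1) (H x.2) m := fun x m =>
      conv_nonneg (fun k => cut_nonneg hg0 k) (fun k => cut_nonneg hf0 k) m
    have hext := ext_le (A := A) (T := T) (κ := κ) (e := e) hN3 hη hg0 hf0 (fun k hk => (hgs k hk).2) hgd hfd
    -- decomposition of the two sums
    have hcnt : ∀ a, cnt N a h = ∑ x ∈ S, ∑ n ∈ Ioc N (2 * N), conv (G x.1) (H x.2) (val a n)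
        + ∑ n ∈ Ioc N (2 * N), ∑ x ∈ (range T ×ˢ range T) \ S, conv (G x.1) (H x.2) (val a n) := by
      intro a
      rw [sum_comm (s := S), ← sum_add_distrib]
      unfold cnt
      refine sum_congr rfl fun n _ => ?_
      rw [hhc, conv_sum T hgd hfd, ← sum_sdiff hSsub, add_comm]
    have hmod : model N h = ∑ x ∈ S, ∑ m ∈ Ioc (N ^ 2) (4 * N ^ 2),
          conv (G x.1) (H x.2) m * (1 / (2 * √(m : ℝ)))
        + ∑ m ∈ Ioc (N ^ 2) (4 * N ^ 2), (∑ x ∈ (range T ×ˢ range T) \ S, conv (G x.1) (H x.2) m)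
          * (1 / (2 * √(m : ℝ))) := by
      rw [sum_comm (s := S), ← sum_add_distrib]
      unfold model
      refine sum_congr rfl fun m _ => ?_
      rw [hhc, conv_sum T hgd hfd, ← sum_sdiff hSsub, ← sum_mul, ← add_mul, add_comm, mul_one_div]
    -- bounds for the exterior parts
    set EC : ℤ → ℝ := fun a => ∑ n ∈ Ioc N (2 * N), ∑ x ∈ (range T ×ˢ range T) \ S,
      conv (G x.1) (H x.2) (val a n) with hEC
    set EM : ℝ := ∑ m ∈ Ioc (N ^ 2) (4 * N ^ 2), (∑ x ∈ (range T ×ˢ range T) \ S,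
      conv (G x.1) (H x.2) m) * (1 / (2 * √(m : ℝ))) with hEM
    have hEC0 : ∀ a, 0 ≤ EC a := fun a => sum_nonneg fun n _ => (hext (val a n)).1
    have hEM0 : 0 ≤ EM := sum_nonneg fun m _ => mul_nonneg (hext m).1 (by positivity)
    have hECs : ∑ a ∈ IA A, EC a ≤ ϖ / 4 * A * N / Real.log N := by
      have h1 : ∀ a ∈ IA A, EC a ≤ ∑ n ∈ En N η, F * rInd ((N : ℝ) ^ e0) (val a n) := by
        intro a ha
        have h2 : ∀ n ∈ Ioc N (2 * N), ∑ x ∈ (range T ×ˢ range T) \ S, conv (G x.1) (H x.2) (val a n)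
            ≤ if n ∈ En N η then F * rInd ((N : ℝ) ^ e0) (val a n) else 0 := by
          intro n hn
          refine (hext (val a n)).2.trans ?_
          by_cases hb : Bd N A (1 + η) (val a n)
          · rw [if_pos hb, if_pos (En_of hη hη4 h8A ha hn hb), ← hhc]
            exact hhr _
          · rw [if_neg hb]
            split_ifs
            · exact mul_nonneg hF0.le (rInd_nonneg _ _)
            · exact le_rfl
        refine (sum_le_sum h2).trans (le_of_eq ?_)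
        rw [← sum_filter]
        congr 1
        ext n
        rw [mem_filter]
        exact ⟨fun h => h.2, fun h => ⟨(mem_filter.1 h).1, h⟩⟩
      refine (sum_le_sum h1).trans ?_
      rw [sum_comm]
      have hz4 : ((N : ℝ) ^ e0) ^ 4 ≤ A := by
        calc ((N : ℝ) ^ e0) ^ 4 = (N : ℝ) ^ (e0 * 4) := by
              rw [← Real.rpow_natCast, ← Real.rpow_mul hN0.le]; norm_num
          _ ≤ (N : ℝ) ^ θ := Real.rpow_le_rpow_of_exponent_le hN1.le (by linarith)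
          _ ≤ A := hA.1
      have h3 : ∀ n ∈ En N η, ∑ a ∈ IA A, F * rInd ((N : ℝ) ^ e0) (val a n)
          ≤ F * (CE * A / (e0 * Real.log N)) := by
        intro n _
        rw [← mul_sum]
        refine mul_le_mul_of_nonneg_left ?_ hF0.le
        have := hE ((N : ℝ) ^ e0) A n hz2 hz4
        rwa [Real.log_rpow hN0] at this
      refine (sum_le_sum h3).trans ?_
      rw [sum_const, nsmul_eq_mul]
      have h4 := card_En hη hη4 (by linarith : 1 ≤ η * N)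
      calc ((En N η).card : ℝ) * (F * (CE * A / (e0 * Real.log N)))
          ≤ (10 * η * N) * (F * (CE * A / (e0 * Real.log N))) := by gcongr
        _ = (η * (40 * F * CE)) * (A * N / (4 * e0 * Real.log N)) := by field_simp; ring
        _ ≤ (ϖ * e0) * (A * N / (4 * e0 * Real.log N)) := by gcongr
        _ = ϖ / 4 * A * N / Real.log N := by field_simp
    have hEMs : EM ≤ ϖ / 12 * N / Real.log N := by
      have h1 : EM ≤ ∑ m ∈ Ioc ⌊(N : ℝ) ^ 2⌋₊ ⌊(1 + 3 * η) * (N : ℝ) ^ 2⌋₊ ∪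
          Ioc ⌊(1 - 3 * η) * (4 * (N : ℝ) ^ 2)⌋₊ ⌊4 * (N : ℝ) ^ 2⌋₊,
          F * rInd ((N : ℝ) ^ e0) m * (1 / (2 * N)) := by
        have h2 : ∀ m ∈ Ioc (N ^ 2) (4 * N ^ 2), (∑ x ∈ (range T ×ˢ range T) \ S,
            conv (G x.1) (H x.2) m) * (1 / (2 * √(m : ℝ)))
            ≤ if m ∈ Ioc ⌊(N : ℝ) ^ 2⌋₊ ⌊(1 + 3 * η) * (N : ℝ) ^ 2⌋₊ ∪
              Ioc ⌊(1 - 3 * η) * (4 * (N : ℝ) ^ 2)⌋₊ ⌊4 * (N : ℝ) ^ 2⌋₊ then
              F * rInd ((N : ℝ) ^ e0) m * (1 / (2 * N)) else 0 := by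
          intro m hm
          have hmN : (N : ℝ) ≤ √(m : ℝ) := by
            rw [Real.le_sqrt hN0.le (Nat.cast_nonneg m)]
            have := (mem_Ioc.1 hm).1
            exact_mod_cast this.le
          have h3 : 1 / (2 * √(m : ℝ)) ≤ 1 / (2 * (N : ℝ)) := by gcongr
          by_cases hb : Bd N A (1 + η) m
          · rw [if_pos (Em_of hη hη4 h8A hm hb)]
            have h4 := (hext m).2
            rw [if_pos hb, ← hhc] at h4
            exact mul_le_mul (h4.trans (hhr m)) h3 (by positivity)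
              (mul_nonneg hF0.le (rInd_nonneg _ _))
          · have h4 := (hext m).2
            rw [if_neg hb] at h4
            have h5 := le_antisymm h4 (hext m).1
            rw [h5, zero_mul]
            split_ifs
            · exact mul_nonneg (mul_nonneg hF0.le (rInd_nonneg _ _)) (by positivity)
            · exact le_rfl
        refine (sum_le_sum h2).trans ?_
        rw [← sum_filter]
        refine sum_le_sum_of_subset_of_nonneg ?_ ?_
        · intro m hm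
          exact (mem_filter.1 hm).2
        · intro m _ _
          exact mul_nonneg (mul_nonneg hF0.le (rInd_nonneg _ _)) (by positivity)
      have hN15 : (N : ℝ) ^ (1 / 5 : ℝ) ≤ N := by
        calc (N : ℝ) ^ (1 / 5 : ℝ) ≤ (N : ℝ) ^ (1 : ℝ) :=
              Real.rpow_le_rpow_of_exponent_le hN1.le (by norm_num)
          _ = N := Real.rpow_one _
      have hη2N : 2 * (N : ℝ) ≤ η * (N : ℝ) ^ 2 := by nlinarith
      have h5 := hcs ((N : ℝ) ^ 2) ((1 + 3 * η) * (N : ℝ) ^ 2) (by positivity) (by nlinarith)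
      have h6 := hcs ((1 - 3 * η) * (4 * (N : ℝ) ^ 2)) (4 * (N : ℝ) ^ 2)
        (mul_nonneg (by linarith) (by positivity)) (by nlinarith)
      refine h1.trans ?_
      rw [← sum_mul, ← mul_sum]
      have h7 : ∑ m ∈ Ioc ⌊(N : ℝ) ^ 2⌋₊ ⌊(1 + 3 * η) * (N : ℝ) ^ 2⌋₊ ∪
          Ioc ⌊(1 - 3 * η) * (4 * (N : ℝ) ^ 2)⌋₊ ⌊4 * (N : ℝ) ^ 2⌋₊, rInd ((N : ℝ) ^ e0) m
          ≤ CS * ((1 + 3 * η) * (N : ℝ) ^ 2 - (N : ℝ) ^ 2) / Real.log N
            + CS * (4 * (N : ℝ) ^ 2 - (1 - 3 * η) * (4 * (N : ℝ) ^ 2)) / Real.log N := by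
        refine le_trans ?_ (add_le_add h5 h6)
        rw [← sum_union_inter]
        exact le_add_of_nonneg_right (sum_nonneg fun m _ => rInd_nonneg _ _)
      calc F * (∑ m ∈ Ioc ⌊(N : ℝ) ^ 2⌋₊ ⌊(1 + 3 * η) * (N : ℝ) ^ 2⌋₊ ∪
          Ioc ⌊(1 - 3 * η) * (4 * (N : ℝ) ^ 2)⌋₊ ⌊4 * (N : ℝ) ^ 2⌋₊, rInd ((N : ℝ) ^ e0) m) * (1 / (2 * N))
          ≤ F * (CS * ((1 + 3 * η) * (N : ℝ) ^ 2 - (N : ℝ) ^ 2) / Real.log N
            + CS * (4 * (N : ℝ) ^ 2 - (1 - 3 * η) * (4 * (N : ℝ) ^ 2)) / Real.log N) * (1 / (2 * N)) := by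
            gcongr
        _ = (η * (96 * F * CS)) * (15 / 192 * N / Real.log N) := by field_simp; ring
        _ ≤ ϖ * (15 / 192 * N / Real.log N) := by gcongr
        _ ≤ ϖ / 12 * N / Real.log N := by
            have : 0 ≤ ϖ * (N / Real.log N) := by positivity
            have e1 : ϖ * (15 / 192 * N / Real.log N) = 15 / 192 * (ϖ * (N / Real.log N)) := by ring
            have e2 : ϖ / 12 * N / Real.log N = 1 / 12 * (ϖ * (N / Real.log N)) := by ring
            rw [e1, e2]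
            nlinarith
    -- the interior blocks
    have hint : ∀ x ∈ S, ∑ a ∈ IA A, |∑ n ∈ Ioc N (2 * N), conv (G x.1) (H x.2) (val a n)
        - Gw w a * ∑ m ∈ Ioc (N ^ 2) (4 * N ^ 2), conv (G x.1) (H x.2) m * (1 / (2 * √(m : ℝ)))|
        ≤ ϖ / (4 * CN) * A * N / (Real.log N) ^ 2 := by
      intro x hx
      obtain ⟨_, h3, h4, h5⟩ := mem_filter.1 hx
      have hqq : 1 ≤ (1 + η) ^ x.1 := one_le_pow₀ hq.le
      have hKL0 : 0 ≤ (N : ℝ) ^ κ * (1 + η) ^ x.1 * (1 * (1 + η) ^ x.2) := by positivity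
      have hq2 : 1 ≤ (1 + η) ^ 2 := one_le_pow₀ hq.le
      have h6 := hN₁ N A hNN₁ hA hnear ((N : ℝ) ^ κ * (1 + η) ^ x.1) (1 * (1 + η) ^ x.2)
        (le_mul_of_one_le_right hκ0.le hqq) h5 (by nlinarith) (by nlinarith)
      refine le_trans (le_of_eq ?_) h6
      refine sum_congr rfl fun a ha => ?_
      rw [int_cnt hN3 hη hx ha, int_model hN3 hη hx rfl rfl]
    have hcard := card_SI (T := T) (A := A) (e := e) hN3 (by linarith : 0 ≤ κ) he hq hD.le hl1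
    rw [← hS, ← hCN] at hcard
    have hsum1 : ∑ a ∈ IA A, ∑ x ∈ S, |∑ n ∈ Ioc N (2 * N), conv (G x.1) (H x.2) (val a n)
        - Gw w a * ∑ m ∈ Ioc (N ^ 2) (4 * N ^ 2), conv (G x.1) (H x.2) m * (1 / (2 * √(m : ℝ)))|
        ≤ ϖ / 4 * A * N / Real.log N := by
      rw [sum_comm]
      refine (sum_le_sum hint).trans ?_
      rw [sum_const, nsmul_eq_mul]
      calc (S.card : ℝ) * (ϖ / (4 * CN) * A * N / (Real.log N) ^ 2)
          ≤ (CN * Real.log N) * (ϖ / (4 * CN) * A * N / (Real.log N) ^ 2) := by gcongr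
        _ = _ := by field_simp
    -- assembly
    have hfin : ∀ a ∈ IA A, |cnt N a h - Gw w a * model N h|
        ≤ ∑ x ∈ S, |∑ n ∈ Ioc N (2 * N), conv (G x.1) (H x.2) (val a n)
        - Gw w a * ∑ m ∈ Ioc (N ^ 2) (4 * N ^ 2), conv (G x.1) (H x.2) m * (1 / (2 * √(m : ℝ)))|
        + EC a + EM * Gw w a := by
      intro a _
      rw [hcnt, hmod]
      have e1 : (∑ x ∈ S, ∑ n ∈ Ioc N (2 * N), conv (G x.1) (H x.2) (val a n) + EC a)
          - Gw w a * (∑ x ∈ S, ∑ m ∈ Ioc (N ^ 2) (4 * N ^ 2),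
            conv (G x.1) (H x.2) m * (1 / (2 * √(m : ℝ))) + EM)
          = ∑ x ∈ S, (∑ n ∈ Ioc N (2 * N), conv (G x.1) (H x.2) (val a n)
            - Gw w a * ∑ m ∈ Ioc (N ^ 2) (4 * N ^ 2), conv (G x.1) (H x.2) m * (1 / (2 * √(m : ℝ))))
            + EC a - EM * Gw w a := by
        rw [sum_sub_distrib, ← mul_sum]
        ring
      rw [e1]
      refine (abs_sub _ _).trans (add_le_add ((abs_add_le _ _).trans (add_le_add
        (abs_sum_le_sum_abs _ _) (abs_of_nonneg (hEC0 a)).le))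
        (abs_of_nonneg (mul_nonneg hEM0 (hG0 a))).le)
    refine (sum_le_sum hfin).trans ?_
    rw [sum_add_distrib, sum_add_distrib, ← mul_sum]
    have hlast : EM * ∑ a ∈ IA A, Gw w a ≤ ϖ / 4 * A * N / Real.log N := by
      calc EM * ∑ a ∈ IA A, Gw w a ≤ (ϖ / 12 * N / Real.log N) * (3 * A) := by
            apply mul_le_mul hEMs hGm (sum_nonneg fun a _ => hG0 a) (by positivity)
        _ = _ := by ring
    calc _ ≤ ϖ / 4 * A * N / Real.log N + ϖ / 4 * A * N / Real.log N + ϖ / 4 * A * N / Real.log N :=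
          add_le_add (add_le_add hsum1 hECs) hlast
      _ ≤ ϖ * A * N / Real.log N := by
          have : 0 ≤ ϖ * A * N / Real.log N := by positivity
          have e1 : ϖ / 4 * A * N / Real.log N = 1 / 4 * (ϖ * A * N / Real.log N) := by ring
          rw [e1]
          linarith
  obtain ⟨N₀, hN₀⟩ := eventually_atTop.1 hev
  exact ⟨N₀, fun N A hN hA hnear => hN₀ N hN A hA hnear⟩

end TIIHM

open TIIHM in
theorem specTIIH (hB : SpecBLK2H) (hEDGE : SpecEDGE) (hBT : SpecBT) (hFFB : SpecFFB)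
    (hGMAX : SpecGMAX) (hGMEAN : SpecGMEAN) : SpecTIIH := by
  intro θ κ e e0 ϖ Q c₁ c₂ hθ hκ hθκ he he0 he1 hϖ hQ hc₁ hc₂ hmid
  by_cases hc0 : c₂ = 0
  · subst hc0
    exact TII.core0 (κ := κ) he he0 hϖ hQ hmid hFFB
  · exact TIIHM.core (κ := κ) hκ hθ he he0 he1 hϖ hQ hc₁ hc₂ hc0 hmid
      (fun η hη hη4 ϖ' hϖ' =>
        hB θ κ e e0 η ϖ' Q c₁ c₂ hθ hκ hθκ he he0 he1 hη hη4 hϖ' hQ hc₁ hc₂ hc0)
      hEDGE hBT hFFB hGMAX hGMEAN

end Pool.Agent.Lib.MP391708.QPA.H
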