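import Pool.Agent.Lib.MP_391708_nt.QPA.H.SpecH
import Pool.Agent.Lib.MP_391708_nt.QPA.TII

/-!
# QPA, module TOTL: the sum of the Liouville function with the weight `om`
-/

set_option autoImplicit false

namespace Pool.Agent.Lib.MP391708.QPA.H

open Finset Filter Topology
open Pool.Agent.Lib.MP391708.QPA
open scoped Classical

namespace TOTLM

open BasM SHM BLK2 TII

/-- the indicator of the primes of the window -/
noncomputable def gP (N : ℕ) (α β : ℝ) (k : ℕ) : ℝ := if k ∈ PW N α β then 1 else 0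

/-- the Liouville function on the odd numbers in `(1, 5N²]` -/
noncomputable def fL (N : ℕ) (u : ℕ) : ℝ := if 1 < u ∧ (u : ℝ) ≤ 5 * (N : ℝ) ^ 2 then lodd u else 0

lemma mem_PW {N : ℕ} {α β : ℝ} {k : ℕ} :
    k ∈ PW N α β ↔ k.Prime ∧ (N : ℝ) ^ α < k ∧ (k : ℝ) ≤ (N : ℝ) ^ β := by
  unfold PW
  rw [mem_filter, mem_Ioc, Nat.floor_lt (by positivity), Nat.le_floor_iff (by positivity)]
  tauto

lemma abs_lio_le (m : ℕ) : |lio m| ≤ 1 := by
  unfold lio
  by_cases h : m = 0
  · subst h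
    simp
  · rw [ArithmeticFunction.liouville_apply h]
    push_cast
    rw [abs_pow, abs_neg, abs_one, one_pow]

lemma abs_lodd_le (m : ℕ) : |lodd m| ≤ 1 := by
  unfold lodd
  split_ifs
  · exact abs_lio_le m
  · simp

lemma abs_fL_le (N m : ℕ) : |fL N m| ≤ 1 := by
  unfold fL
  split_ifs
  · exact abs_lodd_le m
  · simp

lemma lio_prime_mul {q m : ℕ} (hq : q.Prime) : lio (q * m) = - lio m := by
  unfold lio
  rw [ArithmeticFunction.liouville_apply_mul, ArithmeticFunction.liouville_apply hq.ne_zero,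
    ArithmeticFunction.cardFactors_apply_prime hq]
  push_cast
  ring

lemma conv_gP {N : ℕ} {α β : ℝ} (f : ℕ → ℝ) {m : ℕ} (hm : m ≠ 0) :
    conv (gP N α β) f m = ∑ q ∈ (PW N α β).filter (fun q => q ∣ m), f (m / q) := by
  unfold conv gP
  have h1 : ∀ k ∈ m.divisors, (if k ∈ PW N α β then (1 : ℝ) else 0) * f (m / k) =
      if k ∈ PW N α β then f (m / k) else 0 := by
    intro k _
    split_ifs
    · rw [one_mul]
    · rw [zero_mul]
  rw [sum_congr rfl h1, ← sum_filter]
  congr 1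
  ext k
  rw [mem_filter, mem_filter, Nat.mem_divisors]
  tauto

lemma conv_eq {N : ℕ} {α β : ℝ} (hN : 3 ≤ N) (hα : (2 : ℝ) ≤ (N : ℝ) ^ α) (hβ : β < 1) {m : ℕ}
    (h1 : (N : ℝ) ^ 2 / 2 ≤ m) (h2 : (m : ℝ) ≤ 5 * (N : ℝ) ^ 2) :
    conv (gP N α β) (fL N) m = - (lio m * om N α β m) := by
  have hN3 : (3 : ℝ) ≤ N := by exact_mod_cast hN
  have hm0 : m ≠ 0 := by
    rintro rfl
    have : (0 : ℝ) < (N : ℝ) ^ 2 / 2 := by positivity
    simp only [Nat.cast_zero] at h1
    linarith
  rw [conv_gP _ hm0]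
  have key : ∀ q ∈ (PW N α β).filter (fun q => q ∣ m), q.Prime ∧ Odd q ∧ q * (m / q) = m ∧
      1 < m / q ∧ ((m / q : ℕ) : ℝ) ≤ 5 * (N : ℝ) ^ 2 := by
    intro q hq
    rw [mem_filter, mem_PW] at hq
    obtain ⟨⟨hp, a1, a2⟩, hd⟩ := hq
    have e1 : q * (m / q) = m := Nat.mul_div_cancel' hd
    refine ⟨hp, ?_, e1, ?_, ?_⟩
    · apply hp.odd_of_ne_two
      rintro rfl
      push_cast at a1
      linarith
    · by_contra hc
      push Not at hc
      have h3 : m ≤ q := by
        calc m = q * (m / q) := e1.symm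
          _ ≤ q * 1 := Nat.mul_le_mul_left _ hc
          _ = q := mul_one _
      have h4 : (m : ℝ) ≤ q := by exact_mod_cast h3
      have h5 : (q : ℝ) ≤ N := by
        refine a2.trans ?_
        calc (N : ℝ) ^ β ≤ (N : ℝ) ^ (1 : ℝ) := Real.rpow_le_rpow_of_exponent_le (by linarith) hβ.le
          _ = N := Real.rpow_one _
      nlinarith
    · refine le_trans ?_ h2
      exact_mod_cast Nat.div_le_self m q
  by_cases ho : Odd m
  · have h3 : ∀ q ∈ (PW N α β).filter (fun q => q ∣ m), fL N (m / q) = - lio m := by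
      intro q hq
      obtain ⟨hp, hqo, e1, b1, b2⟩ := key q hq
      unfold fL
      rw [if_pos ⟨b1, b2⟩]
      unfold lodd
      have ho2 : Odd (m / q) := by
        rw [← e1] at ho
        exact (Nat.odd_mul.1 ho).2
      rw [if_pos ho2]
      have h4 := lio_prime_mul (m := m / q) hp
      rw [e1] at h4
      linarith
    rw [sum_congr rfl h3, sum_const, nsmul_eq_mul]
    unfold om
    rw [if_pos ho]
    ring
  · have h3 : ∀ q ∈ (PW N α β).filter (fun q => q ∣ m), fL N (m / q) = 0 := by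
      intro q hq
      obtain ⟨hp, hqo, e1, b1, b2⟩ := key q hq
      unfold fL lodd
      rw [if_pos ⟨b1, b2⟩, if_neg]
      intro ho2
      apply ho
      rw [← e1]
      exact hqo.mul ho2
    rw [sum_congr rfl h3, sum_const_zero]
    unfold om
    rw [if_neg ho, mul_zero, neg_zero]

lemma card_two {N : ℕ} {α β : ℝ} (h : 5 * (N : ℝ) ^ 2 < (N : ℝ) ^ (3 * α)) {m : ℕ} (hm : m ≠ 0)
    (h2 : (m : ℝ) ≤ 5 * (N : ℝ) ^ 2) : ((PW N α β).filter (fun q => q ∣ m)).card ≤ 2 := by
  by_contra hc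
  push Not at hc
  obtain ⟨a, ha, b, hb, c, hc', hab, hac, hbc⟩ := Finset.two_lt_card.1 hc
  rw [mem_filter, mem_PW] at ha hb hc'
  obtain ⟨⟨pa, a1, -⟩, da⟩ := ha
  obtain ⟨⟨pb, b1, -⟩, db⟩ := hb
  obtain ⟨⟨pc, c1, -⟩, dc⟩ := hc'
  have h3 : a * b ∣ m := ((Nat.coprime_primes pa pb).2 hab).mul_dvd_of_dvd_of_dvd da db
  have h4 : Nat.Coprime (a * b) c :=
    Nat.Coprime.mul_left ((Nat.coprime_primes pa pc).2 hac) ((Nat.coprime_primes pb pc).2 hbc)
  have h5 : a * b * c ∣ m := h4.mul_dvd_of_dvd_of_dvd h3 dc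
  have h6 : a * b * c ≤ m := Nat.le_of_dvd (Nat.pos_of_ne_zero hm) h5
  have h7 : (a : ℝ) * b * c ≤ m := by exact_mod_cast h6
  have h8 : (N : ℝ) ^ (3 * α) = (N : ℝ) ^ α * (N : ℝ) ^ α * (N : ℝ) ^ α := by
    rw [show (3 : ℝ) * α = α * (3 : ℕ) by push_cast; ring, Real.rpow_mul_natCast (Nat.cast_nonneg N)]
    ring
  have h9 : 0 ≤ (N : ℝ) ^ α := by positivity
  have h10 : (N : ℝ) ^ α * (N : ℝ) ^ α * (N : ℝ) ^ α < (a : ℝ) * b * c := by
    apply mul_lt_mul'' _ c1 (by positivity) h9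
    exact mul_lt_mul'' a1 b1 h9 h9
  linarith

lemma conv_abs_le {N : ℕ} {α β : ℝ} (h : 5 * (N : ℝ) ^ 2 < (N : ℝ) ^ (3 * α)) {m : ℕ}
    (h2 : (m : ℝ) ≤ 5 * (N : ℝ) ^ 2) : conv (gP N α β) (fun u => |fL N u|) m ≤ 2 := by
  by_cases hm : m = 0
  · subst hm
    unfold conv
    simp
  · rw [conv_gP _ hm]
    refine (sum_le_sum (g := fun _ => (1 : ℝ)) fun q _ => abs_fL_le N _).trans ?_
    rw [sum_const, nsmul_eq_mul, mul_one]
    exact_mod_cast card_two h hm h2

lemma abs_cut (x y : ℝ) (f : ℕ → ℝ) (m : ℕ) : |cut x y f m| = cut x y (fun u => |f u|) m := by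
  unfold cut
  split_ifs
  · rfl
  · exact abs_zero

lemma abs_conv_le {g f : ℕ → ℝ} (hg : ∀ k, 0 ≤ g k) (x y : ℝ) (m : ℕ) :
    |conv g (cut x y f) m| ≤ conv g (cut x y (fun u => |f u|)) m := by
  unfold conv
  refine (abs_sum_le_sum_abs _ _).trans (le_of_eq ?_)
  refine sum_congr rfl fun k _ => ?_
  rw [abs_mul, abs_of_nonneg (hg k), abs_cut]

end TOTLM

open TOTLM BasM SHM BLK2 TII in
theorem specTOTL (hBLKL : SpecBLKL) : SpecTOTL := by
  intro θ α β ε hθ hα hθα hαβ hβ hε
  set η : ℝ := min (1 / 4) (ε / 120) with hηd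
  have hη : 0 < η := lt_min (by norm_num) (by positivity)
  have hη4 : η ≤ 1 / 4 := min_le_left _ _
  have hη1 : η ≤ ε / 120 := min_le_right _ _
  have hq : 1 < 1 + η := by linarith
  have hlq : 0 < Real.log (1 + η) := Real.log_pos hq
  obtain ⟨D, hD⟩ := pow_unbounded_of_one_lt (4 : ℝ) hq
  set CN : ℝ := ((D : ℝ) + 1) * (1 / Real.log (1 + η) + 1) with hCN
  have hCN0 : 0 < CN := by positivity
  obtain ⟨N₁, hN₁⟩ := hBLKL θ α (1 - β) (1 / 10) η (ε / (4 * CN)) hθ hα.le hθα (by linarith)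
    (by norm_num) hη hη4 (by positivity)
  have hev : ∀ᶠ N : ℕ in atTop, ∀ A : ℕ, Adm θ N A →
      ∑ a ∈ IA A, |cnt N a (fun m => lio m * om N α β m)| ≤ ε * A * N := by
    filter_upwards [eventually_ge_atTop 3, eventually_ge_atTop N₁, ev_log 1,
      ev_const (show (0 : ℝ) < θ by linarith) 1, ev_const (show (0 : ℝ) < α by linarith) 2,
      ev_pow (show (2 : ℝ) < 3 * α by linarith) 6,
      ev_logpow (show (0 : ℝ) < 1 by norm_num) (8 / η),
      ev_const (show (0 : ℝ) < 1 by norm_num) (2 / η)] with N hN3 hNN₁ hl1 hNA hz2 h3α hlp hNη A hA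
    have hN1 : (1 : ℝ) < N := by exact_mod_cast (by omega : 1 < N)
    have hN0 : (0 : ℝ) < N := by linarith
    have hlog : 0 < Real.log N := by linarith
    rw [Real.rpow_one] at hlp hNη
    have hηN : 2 ≤ η * N := by
      rw [div_le_iff₀ hη] at hNη
      linarith
    have hA0 : (0 : ℝ) ≤ A := Nat.cast_nonneg A
    have hA1 : (1 : ℝ) ≤ A := hNA.trans hA.1
    have h8A : 8 * (A : ℝ) ≤ η * (N : ℝ) ^ 2 := by
      have h1 : 8 / η * Real.log N = (8 * Real.log N) / η := by ring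
      rw [h1, div_le_iff₀ hη] at hlp
      nlinarith [hA.2]
    have h5N : 5 * (N : ℝ) ^ 2 < (N : ℝ) ^ (3 * α) := by
      have h1 : (N : ℝ) ^ (2 : ℝ) = (N : ℝ) ^ 2 := by norm_cast
      rw [h1] at h3α
      have : 0 < (N : ℝ) ^ 2 := by positivity
      linarith
    set g : ℕ → ℝ := gP N α β with hg
    set f : ℕ → ℝ := fL N with hf
    have hg0 : ∀ k, 0 ≤ g k := by
      intro k
      rw [hg]
      unfold gP
      split_ifs
      · exact zero_le_one
      · exact le_rfl
    have hgs : ∀ k, g k ≠ 0 → k.Prime ∧ (N : ℝ) ^ α < k ∧ (k : ℝ) ≤ (N : ℝ) ^ β := by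
      intro k hk
      rw [← mem_PW]
      by_contra hc
      apply hk
      rw [hg]
      unfold gP
      rw [if_neg hc]
    have hfs : ∀ k, f k ≠ 0 → (1 : ℝ) < k ∧ (k : ℝ) ≤ 5 * (N : ℝ) ^ 2 := by
      intro k hk
      by_contra hc
      apply hk
      rw [hf]
      unfold fL
      rw [if_neg]
      rintro ⟨c1, c2⟩
      exact hc ⟨by exact_mod_cast c1, c2⟩
    obtain ⟨T, hT⟩ := pow_unbounded_of_one_lt (max (N : ℝ) (5 * (N : ℝ) ^ 2)) hq
    have hT1 : (N : ℝ) ≤ (1 + η) ^ T := (le_max_left _ _).trans hT.le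
    have hT2 : 5 * (N : ℝ) ^ 2 ≤ (1 + η) ^ T := (le_max_right _ _).trans hT.le
    have hκ1 : 1 ≤ (N : ℝ) ^ α := Real.one_le_rpow hN1.le (by linarith)
    have hκ0 : 0 < (N : ℝ) ^ α := by linarith
    have hβN : (N : ℝ) ^ β ≤ N := by
      calc (N : ℝ) ^ β ≤ (N : ℝ) ^ (1 : ℝ) := Real.rpow_le_rpow_of_exponent_le hN1.le hβ.le
        _ = N := Real.rpow_one _
    have hgd : ∀ k, g k = ∑ i ∈ range T, cut ((N : ℝ) ^ α * (1 + η) ^ i)
        ((1 + η) * ((N : ℝ) ^ α * (1 + η) ^ i)) g k := fun k => by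
      refine cut_tele hκ0 hq T g k fun hk => ?_
      obtain ⟨-, h1, h2⟩ := hgs k hk
      refine ⟨h1, h2.trans (hβN.trans ?_)⟩
      calc (N : ℝ) = 1 * N := (one_mul _).symm
        _ ≤ (N : ℝ) ^ α * (1 + η) ^ T := mul_le_mul hκ1 hT1 hN0.le hκ0.le
    have hfd : ∀ k, f k = ∑ i ∈ range T, cut (1 * (1 + η) ^ i) ((1 + η) * (1 * (1 + η) ^ i)) f k :=
      fun k => by
      refine cut_tele one_pos hq T f k fun hk => ?_
      obtain ⟨h1, h2⟩ := hfs k hk
      exact ⟨h1, by rw [one_mul]; exact h2.trans hT2⟩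
    have hfd' : ∀ k, (fun u => |f u|) k = ∑ i ∈ range T, cut (1 * (1 + η) ^ i)
        ((1 + η) * (1 * (1 + η) ^ i)) (fun u => |f u|) k := fun k => by
      refine cut_tele one_pos hq T (fun u => |f u|) k fun hk => ?_
      obtain ⟨h1, h2⟩ := hfs k (by
        intro h0
        apply hk
        simp only [h0, abs_zero])
      exact ⟨h1, by rw [one_mul]; exact h2.trans hT2⟩
    set G : ℕ → ℕ → ℝ := fun i => cut ((N : ℝ) ^ α * (1 + η) ^ i)
        ((1 + η) * ((N : ℝ) ^ α * (1 + η) ^ i)) g with hGd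
    set H : ℕ → ℕ → ℝ := fun i => cut (1 * (1 + η) ^ i) ((1 + η) * (1 * (1 + η) ^ i)) f with hHd
    set H' : ℕ → ℕ → ℝ := fun i => cut (1 * (1 + η) ^ i) ((1 + η) * (1 * (1 + η) ^ i))
      (fun u => |f u|) with hHd'
    set S := SI N A T α (1 - β) (1 + η) with hS
    have hSsub : S ⊆ range T ×ˢ range T := filter_subset _ _
    have hG0 : ∀ i k, 0 ≤ G i k := fun i k => cut_nonneg hg0 k
    have hH0 : ∀ i k, 0 ≤ H' i k := fun i k => cut_nonneg (fun u => abs_nonneg _) k
    have hcle : ∀ (x : ℕ × ℕ) m, |conv (G x.1) (H x.2) m| ≤ conv (G x.1) (H' x.2) m := fun x m =>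
      abs_conv_le (fun k => hG0 x.1 k) _ _ m
    have hval : ∀ a ∈ IA A, ∀ n ∈ Ioc N (2 * N), (N : ℝ) ^ 2 / 2 ≤ val a n ∧
        ((val a n : ℕ) : ℝ) ≤ 5 * (N : ℝ) ^ 2 := by
      intro a ha n hn
      obtain ⟨v1, v2⟩ := val_bounds ha n
      rw [mem_Ioc] at hn
      have hn1 : (N : ℝ) ≤ n := by exact_mod_cast hn.1.le
      have hn2 : (n : ℝ) ≤ 2 * N := by exact_mod_cast hn.2
      have h1 : (N : ℝ) ^ 2 ≤ (n : ℝ) ^ 2 := by gcongr
      have h2 : (n : ℝ) ^ 2 ≤ (2 * (N : ℝ)) ^ 2 := by gcongr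
      have h3 : 8 * (A : ℝ) ≤ 1 / 4 * (N : ℝ) ^ 2 := h8A.trans (by gcongr)
      constructor <;> nlinarith
    -- decomposition
    have hcnt : ∀ a ∈ IA A, |cnt N a (fun m => lio m * om N α β m)| ≤
        ∑ x ∈ S, |bil (8 * N) a (G x.1) (H x.2)| + 2 * ((En N η).card : ℝ) := by
      intro a ha
      have h1 : cnt N a (fun m => lio m * om N α β m) =
          -(∑ x ∈ S, ∑ n ∈ Ioc N (2 * N), conv (G x.1) (H x.2) (val a n)
            + ∑ n ∈ Ioc N (2 * N), ∑ x ∈ (range T ×ˢ range T) \ S,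
              conv (G x.1) (H x.2) (val a n)) := by
        rw [sum_comm (s := S), ← sum_add_distrib, ← sum_neg_distrib]
        unfold cnt
        refine sum_congr rfl fun n hn => ?_
        obtain ⟨v1, v2⟩ := hval a ha n hn
        have h2 := conv_eq hN3 hz2 hβ (α := α) v1 v2
        rw [← hg, ← hf, conv_sum T hgd hfd, ← sum_sdiff hSsub] at h2
        linarith
      rw [h1, abs_neg]
      refine (abs_add_le _ _).trans (add_le_add ?_ ?_)
      · refine (abs_sum_le_sum_abs _ _).trans (le_of_eq ?_)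
        refine sum_congr rfl fun x hx => ?_
        rw [int_cnt hN3 hη hx ha]
      · refine (abs_sum_le_sum_abs _ _).trans ?_
        have h2 : ∀ n ∈ Ioc N (2 * N), |∑ x ∈ (range T ×ˢ range T) \ S,
            conv (G x.1) (H x.2) (val a n)| ≤ if n ∈ En N η then 2 else 0 := by
          intro n hn
          by_cases hb : Bd N A (1 + η) (val a n)
          · rw [if_pos (En_of hη hη4 h8A ha hn hb)]
            refine (abs_sum_le_sum_abs _ _).trans ?_
            refine (sum_le_sum fun x _ => hcle x _).trans ?_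
            refine (sum_le_sum_of_subset_of_nonneg (sdiff_subset (t := S)) fun x _ _ =>
              conv_nonneg (fun k => hG0 x.1 k) (fun k => hH0 x.2 k) _).trans ?_
            rw [← conv_sum T hgd hfd']
            exact conv_abs_le h5N (hval a ha n hn).2
          · have h3 : ∑ x ∈ (range T ×ˢ range T) \ S, conv (G x.1) (H x.2) (val a n) = 0 := by
              refine sum_eq_zero fun x hx => ?_
              have hx1 := Finset.mem_sdiff.1 hx
              by_contra hne
              refine hb (bd_of (κ := α) (e := 1 - β) hN3 hq ?_ hx1.1 hx1.2 hne)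
              intro k hk
              rw [sub_sub_cancel]
              exact (hgs k hk).2.2
            rw [h3, abs_zero]
            split_ifs
            · norm_num
            · exact le_rfl
        refine (sum_le_sum h2).trans ?_
        rw [← sum_filter, sum_const, nsmul_eq_mul, mul_comm]
        have h4 : (Ioc N (2 * N)).filter (fun n => n ∈ En N η) ⊆ En N η := by
          intro n hn
          exact (mem_filter.1 hn).2
        have h5 : ((((Ioc N (2 * N)).filter (fun n => n ∈ En N η)).card : ℕ) : ℝ) ≤ (En N η).card := by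
          exact_mod_cast card_le_card h4
        linarith
    refine (sum_le_sum hcnt).trans ?_
    rw [sum_add_distrib, sum_const, nsmul_eq_mul, sum_comm]
    have hint : ∀ x ∈ S, ∑ a ∈ IA A, |bil (8 * N) a (G x.1) (H x.2)| ≤
        ε / (4 * CN) * A * N / Real.log N := by
      intro x hx
      obtain ⟨hx1, hx2, hx3, hx4⟩ := mem_filter.1 hx
      set K : ℝ := (N : ℝ) ^ α * (1 + η) ^ x.1 with hK
      set L : ℝ := 1 * (1 + η) ^ x.2 with hL
      have hp1 : 1 ≤ (1 + η) ^ x.1 := one_le_pow₀ hq.le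
      have hp2 : 1 ≤ (1 + η) ^ x.2 := one_le_pow₀ hq.le
      have hK1 : (N : ℝ) ^ α ≤ K := le_mul_of_one_le_right hκ0.le hp1
      have hL1 : 1 ≤ L := by rw [hL, one_mul]; exact hp2
      have hKL0 : 0 ≤ K * L := by positivity
      have hq2 : 1 ≤ (1 + η) ^ 2 := one_le_pow₀ hq.le
      have hKL2 : K * L ≤ 5 * (N : ℝ) ^ 2 := by nlinarith
      have hKL1 : (N : ℝ) ^ 2 / 2 ≤ K * L := by nlinarith
      have hLc : (1 + η) * L ≤ 5 * (N : ℝ) ^ 2 := by
        have h1 : (1 + η) * L ≤ (1 + η) ^ 2 * (K * L) := by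
          have h2 : 1 ≤ (1 + η) * K := by nlinarith [hκ1]
          calc (1 + η) * L = ((1 + η) * L) * 1 := (mul_one _).symm
            _ ≤ ((1 + η) * L) * ((1 + η) * K) := mul_le_mul_of_nonneg_left h2 (by positivity)
            _ = _ := by ring
        nlinarith
      have hHe : H x.2 = cut L ((1 + η) * L) lodd := by
        funext u
        show cut L ((1 + η) * L) f u = cut L ((1 + η) * L) lodd u
        unfold cut
        split_ifs with hu
        · rw [hf]
          unfold fL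
          rw [if_pos]
          refine ⟨?_, hu.2.trans hLc⟩
          have : (1 : ℝ) < u := lt_of_le_of_lt hL1 hu.1
          exact_mod_cast this
        · rfl
      rw [hHe]
      refine hN₁ N A hNN₁ hA K L hK1 (by
        rw [hK]
        exact hx4) hKL1 hKL2 (G x.1) ?_ ?_
      · intro k
        rw [abs_of_nonneg (hG0 x.1 k)]
        by_cases hk : G x.1 k = 0
        · rw [hk]; exact rInd_nonneg _ _
        · obtain ⟨c1, c2⟩ := cut_ne hk
          have hk2 : G x.1 k = g k := cut_of c1 c2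
          have hgk : g k ≠ 0 := by rw [← hk2]; exact hk
          obtain ⟨hp, d1, d2⟩ := hgs k hgk
          rw [rInd_of]
          · rw [hk2, hg]
            unfold gP
            split_ifs
            · exact le_rfl
            · exact zero_le_one
          · intro p hpp hpk
            have h1 : p = k := (Nat.prime_dvd_prime_iff_eq hpp hp).1 hpk
            rw [h1]
            refine le_trans ?_ d1.le
            exact Real.rpow_le_rpow_of_exponent_le hN1.le (by linarith)
      · intro k hk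
        obtain ⟨c1, c2⟩ := cut_ne hk
        refine ⟨c1, c2.trans ?_⟩
        have : 0 ≤ K := by positivity
        nlinarith
    have hcS := card_SI (A := A) (T := T) (κ := α) (e := 1 - β) (q := 1 + η) hN3 (by linarith)
      (by linarith) hq hD.le hl1
    rw [← hS, ← hCN] at hcS
    have hcE := card_En hη hη4 (by linarith : 1 ≤ η * N)
    have hcA : ((IA A).card : ℝ) ≤ 3 * A := by
      unfold IA
      rw [Int.card_Icc]
      have h1 : ((A : ℤ) + 1 - -(A : ℤ)).toNat = 2 * A + 1 := by omega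
      rw [h1]
      push_cast
      linarith
    have h6 : ∑ x ∈ S, ∑ a ∈ IA A, |bil (8 * N) a (G x.1) (H x.2)| ≤ ε / 4 * A * N := by
      refine (sum_le_sum hint).trans ?_
      rw [sum_const, nsmul_eq_mul]
      calc (S.card : ℝ) * (ε / (4 * CN) * A * N / Real.log N)
          ≤ (CN * Real.log N) * (ε / (4 * CN) * A * N / Real.log N) := by gcongr
        _ = ε / 4 * A * N := by field_simp
    have h7 : ((IA A).card : ℝ) * (2 * ((En N η).card : ℝ)) ≤ ε / 2 * A * N := by
      have b1 : 2 * ((En N η).card : ℝ) ≤ 2 * (10 * η * N) :=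
        mul_le_mul_of_nonneg_left hcE (by norm_num)
      have b2 : 2 * (10 * η * N) ≤ ε / 6 * N := by
        have := mul_le_mul_of_nonneg_right hη1 hN0.le
        linarith
      have b3 : ((IA A).card : ℝ) * (2 * ((En N η).card : ℝ)) ≤ (3 * A) * (ε / 6 * N) :=
        mul_le_mul hcA (b1.trans b2) (mul_nonneg two_pos.le (Nat.cast_nonneg _))
          (mul_nonneg (by norm_num) hA0)
      refine b3.trans (le_of_eq ?_)
      ring
    have h8 : 0 ≤ ε * A * N := by positivity
    linarith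
  obtain ⟨N₀, hN₀⟩ := eventually_atTop.1 hev
  exact ⟨N₀, fun N A hN hA => hN₀ N hN A hA⟩

end Pool.Agent.Lib.MP391708.QPA.H
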