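import Pool.Agent.Lib.MP_391708_nt.QPA.H.SpecH
import Pool.Agent.Lib.MP_391708_nt.QPA.WIN

/-!
# WINH: the values `n² + a` with a divisor in a window, `θ > 1/2`
-/

set_option autoImplicit false

namespace Pool.Agent.Lib.MP391708.QPA.H

open Finset Filter Topology
open Pool.Agent.Lib.MP391708.QPA
open scoped Classical

noncomputable section

namespace WINHM

/-- WIN for all `θ > 1/2` -/
theorem main (hS : SpecSELB) (hQ : SpecQG) (hR : SpecRSUM) :
    ∀ θ : ℝ, 1 / 2 < θ → ∃ C : ℝ, 0 < C ∧ ∀ e0 e : ℝ, 0 < e0 → e0 ≤ 1 / 10 →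
  0 < e → e ≤ 1 / 10 → ∃ N₀ : ℕ, ∀ N A : ℕ, N₀ ≤ N → Adm θ N A → ∀ x : ℝ, 1 / 2 ≤ x → x ≤ 3 / 2 →
    ∑ a ∈ IA A, cnt N a (fun m => if Rough ((N : ℝ) ^ e0) m ∧ Win N x e m then 1 else 0)
      ≤ C * (e / e0 ^ 2) * A * N / Real.log N := by
  intro θ hθ
  set τ : ℝ := min (θ - 1 / 2) (1 / 10) with hτdef
  have hτ : 0 < τ := lt_min (by linarith) (by norm_num)
  have hτ1 : τ ≤ 1 / 10 := min_le_right _ _
  have hτ2 : τ ≤ θ - 1 / 2 := min_le_left _ _
  obtain ⟨CS, hCS, hSel⟩ := hS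
  obtain ⟨CW, hCW, hW⟩ := WINM.wsum hR
  obtain ⟨CQ, hCQ, hQG⟩ := hQ (τ / 10) (by positivity)
  refine ⟨6 / τ * CS * CW + 1, by positivity, ?_⟩
  intro e0 e he0 he0' he he'
  obtain ⟨N₁, hN₁⟩ := hW e0 e he0 he0' he he'
  obtain ⟨N₂, hN₂⟩ := NSFM.eventually_rpow (τ / 2) (e / e0 ^ 2 / (15 * CQ)) (by positivity)
    (by positivity)
  obtain ⟨N₄, hN₄⟩ := NSFM.eventually_rpow 1 (1 / 2) (by norm_num) (by norm_num)
  have ht : Tendsto (fun N : ℕ => (N : ℝ)) atTop atTop := tendsto_natCast_atTop_atTop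
  have hev : ∀ᶠ N : ℕ in atTop, 2 ≤ (N : ℝ) ^ (e0 * τ / 2) ∧ 3 ≤ (N : ℝ) ^ (9 / 10 : ℝ) :=
    (ht.eventually ((tendsto_rpow_atTop (by positivity)).eventually_ge_atTop _)).and
      (ht.eventually ((tendsto_rpow_atTop (by norm_num)).eventually_ge_atTop _))
  obtain ⟨N₃, hN₃⟩ := eventually_atTop.1 hev
  refine ⟨max (max N₁ N₂) (max N₃ (max N₄ 3)), fun N A hN hAdm x hx1 hx2 => ?_⟩
  have hNN1 : N₁ ≤ N := ((le_max_left _ _).trans (le_max_left _ _)).trans hN
  have hNN2 : N₂ ≤ N := ((le_max_right _ _).trans (le_max_left _ _)).trans hN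
  have hNN3 : N₃ ≤ N := ((le_max_left _ _).trans (le_max_right _ _)).trans hN
  have hNN4 : N₄ ≤ N :=
    ((le_max_left _ _).trans ((le_max_right _ _).trans (le_max_right _ _))).trans hN
  have hN3 : 3 ≤ N :=
    ((le_max_right _ _).trans ((le_max_right _ _).trans (le_max_right _ _))).trans hN
  have hws := hN₁ N hNN1 x hx1 hx2
  have hlogN := hN₂ N hNN2
  obtain ⟨hy2, h39⟩ := hN₃ N hNN3
  have hlogN2 := hN₄ N hNN4
  rw [Real.rpow_one] at hlogN2
  have hN3' : (3 : ℝ) ≤ N := by exact_mod_cast hN3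
  have hNp : (0 : ℝ) < N := by linarith
  have hN1 : (1 : ℝ) < N := by linarith
  have hlogp : 0 < Real.log N := Real.log_pos hN1
  obtain ⟨hA1, hA2⟩ := hAdm
  have hAp : (0 : ℝ) < A := lt_of_lt_of_le (Real.rpow_pos_of_pos hNp _) hA1
  have hAone : (1 : ℝ) ≤ A := by
    have : 0 < A := by exact_mod_cast hAp
    exact_mod_cast this
  have hA3 : (A : ℝ) ≤ (N : ℝ) ^ 2 / 2 := by
    calc (A : ℝ) ≤ N * Real.log N := hA2
      _ ≤ N * (1 / 2 * N) := by gcongr
      _ = _ := by ring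
  set z : ℝ := (N : ℝ) ^ e0 with hz
  set y : ℝ := (N : ℝ) ^ (e0 * τ / 2) with hy
  have hyz : y < z := Real.rpow_lt_rpow_of_exponent_lt hN1 (by nlinarith)
  have hlogy : Real.log y = e0 * τ / 2 * Real.log N := Real.log_rpow hNp _
  have hy1 : 1 ≤ y := by linarith
  obtain ⟨lam, hlam1, hlam, -, hQF0, hQF⟩ := hSel y 1 hy2 le_rfl
  rw [hlogy, Nat.totient_one] at hQF
  set S := (Icc 1 (3 * N)).filter (fun j => Rough z j ∧ WINM.InW N x e j) with hSdef
  set P := (Ioc N (N + N)) ×ˢ (IA A) with hP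
  set E : ℕ → ℝ := fun j => CQ * (N : ℝ) ^ (τ / 5) *
    (N * (1 / √(j : ℝ)) + 2 * (N : ℝ) ^ (1 / 2 + τ / 20)) with hEdef
  have hy200 : y ≤ (N : ℝ) ^ (τ / 20) :=
    Real.rpow_le_rpow_of_exponent_le hN1.le (by
      have := mul_le_mul_of_nonneg_right he0' hτ.le
      linarith)
  have hy100 : y ^ 2 ≤ (N : ℝ) ^ (τ / 10) := by
    calc y ^ 2 ≤ ((N : ℝ) ^ (τ / 20)) ^ 2 := by gcongr
      _ = (N : ℝ) ^ (τ / 10) := by
          rw [← Real.rpow_natCast, ← Real.rpow_mul hNp.le]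
          congr 1
          push_cast
          ring
  -- for one `j`
  have hone : ∀ j ∈ S,
      ∑ t ∈ P.filter (fun t => j ∣ val t.2 t.1), (WIN.ssum y lam (val t.2 t.1 / j)) ^ 2
        ≤ 6 / τ * CS * A * N / (e0 * Real.log N) * (1 / j) + (N : ℝ) ^ (τ / 10) * E j := by
    intro j hj
    rw [hSdef, mem_filter, mem_Icc] at hj
    obtain ⟨⟨hj1, hj2⟩, _, hjw⟩ := hj
    have hjp : (0 : ℝ) < j := by exact_mod_cast hj1
    have hj3 : (j : ℝ) ≤ 3 * N := by exact_mod_cast hj2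
    have hc := WIN.core N A j y (E j) lam hj1 hy1 hlam (by positivity) (by
      intro q hq1 hq2
      have hq1' : 1 ≤ q := hj1.trans hq1
      have hqp : (0 : ℝ) < q := by exact_mod_cast hq1'
      have hjq : (j : ℝ) ≤ q := by exact_mod_cast hq1
      refine (hQG q N N A hq1').trans ?_
      have hqN : (q : ℝ) ≤ 3 * N * (N : ℝ) ^ (τ / 10) := by
        refine hq2.trans ?_
        gcongr
      have h1 : (q : ℝ) ≤ (N : ℝ) ^ 2 := by
        refine hqN.trans ?_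
        have h3 : 3 * (N : ℝ) ^ (τ / 10) ≤ N := by
          calc 3 * (N : ℝ) ^ (τ / 10) ≤ (N : ℝ) ^ (9 / 10 : ℝ) * (N : ℝ) ^ (1 / 10 : ℝ) := by
                have : (N : ℝ) ^ (τ / 10) ≤ (N : ℝ) ^ (1 / 10 : ℝ) :=
                  Real.rpow_le_rpow_of_exponent_le hN1.le (by linarith)
                gcongr
            _ = N := by rw [← Real.rpow_add hNp]; norm_num
        calc 3 * N * (N : ℝ) ^ (τ / 10) = N * (3 * (N : ℝ) ^ (τ / 10)) := by ring
          _ ≤ N * N := by gcongr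
          _ = _ := by ring
      have h2 : (q : ℝ) ^ (τ / 10) ≤ (N : ℝ) ^ (τ / 5) := by
        calc (q : ℝ) ^ (τ / 10) ≤ ((N : ℝ) ^ 2) ^ (τ / 10) := by gcongr
          _ = (N : ℝ) ^ (τ / 5) := by
              rw [← Real.rpow_natCast, ← Real.rpow_mul hNp.le]
              congr 1
              push_cast
              ring
      have h3 : N / √(q : ℝ) ≤ N * (1 / √(j : ℝ)) := by
        rw [mul_one_div]
        have h4 : √(j : ℝ) ≤ √(q : ℝ) := Real.sqrt_le_sqrt hjq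
        have h5 : 0 < √(j : ℝ) := Real.sqrt_pos.2 hjp
        gcongr
      have h4 : √(q : ℝ) ≤ 2 * (N : ℝ) ^ (1 / 2 + τ / 20) := by
        rw [Real.sqrt_le_left (by positivity)]
        have h6 : (0 : ℝ) < N * (N : ℝ) ^ (τ / 10) := by positivity
        calc (q : ℝ) ≤ 3 * N * (N : ℝ) ^ (τ / 10) := hqN
          _ ≤ 4 * (N * (N : ℝ) ^ (τ / 10)) := by nlinarith
          _ = (2 * (N : ℝ) ^ (1 / 2 + τ / 20)) ^ 2 := by
              have h5 : ((N : ℝ) ^ (1 / 2 + τ / 20)) ^ 2 = N * (N : ℝ) ^ (τ / 10) := by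
                rw [← Real.rpow_natCast, ← Real.rpow_mul hNp.le]
                nth_rw 2 [← Real.rpow_one (N : ℝ)]
                rw [← Real.rpow_add hNp]
                congr 1
                push_cast
                ring
              rw [mul_pow, h5]
              ring
      calc CQ * (q : ℝ) ^ (τ / 10) * (N / √(q : ℝ) + √(q : ℝ))
          ≤ CQ * (N : ℝ) ^ (τ / 5) *
            (N * (1 / √(j : ℝ)) + 2 * (N : ℝ) ^ (1 / 2 + τ / 20)) := by
            gcongr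
        _ = E j := rfl)
    refine hc.trans (add_le_add ?_ ?_)
    · have h1 : (2 * (A : ℝ) + 1) ≤ 3 * A := by linarith
      calc (2 * (A : ℝ) + 1) * N / j * QF y lam
          ≤ 3 * A * N / j * (CS * (((1 : ℕ) : ℝ) / ((1 : ℕ) : ℝ)) / (e0 * τ / 2 * Real.log N)) := by
            gcongr
        _ = 6 / τ * CS * A * N / (e0 * Real.log N) * (1 / j) := by
            push_cast
            field_simp
            ring
    · have hE0 : 0 ≤ E j := by positivity
      gcongr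
  -- reduction to the sums for one `j`
  have hred : ∑ a ∈ IA A, cnt N a (fun m => if Rough z m ∧ Win N x e m then 1 else 0)
      ≤ ∑ j ∈ S, ∑ t ∈ P.filter (fun t => j ∣ val t.2 t.1),
        (WIN.ssum y lam (val t.2 t.1 / j)) ^ 2 := by
    have h1 : ∑ a ∈ IA A, cnt N a (fun m => if Rough z m ∧ Win N x e m then 1 else 0)
        = ∑ t ∈ P, (if Rough z (val t.2 t.1) ∧ Win N x e (val t.2 t.1) then (1 : ℝ) else 0) := by
      rw [hP, sum_product_right]
      unfold cnt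
      rw [two_mul]
    rw [h1]
    simp_rw [sum_filter]
    rw [sum_comm]
    refine sum_le_sum fun t htP => ?_
    rw [hP, mem_product] at htP
    have hnn : ∀ j ∈ S, 0 ≤ (if j ∣ val t.2 t.1 then (WIN.ssum y lam (val t.2 t.1 / j)) ^ 2 else 0) := by
      intro j _
      split_ifs <;> positivity
    split_ifs with hc
    · obtain ⟨hv1, hv2⟩ := WIN.val_bounds N A t.1 t.2 htP.1 htP.2 hA3
      obtain ⟨j, hj1, hj2, hj3, hj4, hj5⟩ := WINM.split N (by omega) z x e (val t.2 t.1) hv1 hv2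
        hc.1 hc.2
      have hjS : j ∈ S := by
        rw [hSdef, mem_filter]; exact ⟨hj1, hj3, hj5⟩
      have h2 := single_le_sum hnn hjS
      refine le_trans ?_ h2
      rw [if_pos hj2, WIN.ssum_rough y z lam hy1 hyz hlam1 _ hj4]
      norm_num
    · exact sum_nonneg hnn
  have hcardS : (S.card : ℝ) ≤ 3 * N := by
    have : S.card ≤ 3 * N := by
      refine (card_filter_le _ _).trans ?_
      simp
    exact_mod_cast this
  have hsq : ∑ j ∈ S, 1 / √(j : ℝ) ≤ 4 * (N : ℝ) ^ (1 / 2 : ℝ) := by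
    calc ∑ j ∈ S, 1 / √(j : ℝ) ≤ ∑ j ∈ Icc 1 (3 * N), 1 / √(j : ℝ) :=
          sum_le_sum_of_subset_of_nonneg (filter_subset _ _) fun _ _ _ => by positivity
      _ ≤ 2 * √((3 * N : ℕ) : ℝ) := WIN.sum_inv_sqrt _
      _ ≤ 2 * (2 * √(N : ℝ)) := by
          have h1 : √((3 * N : ℕ) : ℝ) ≤ 2 * √(N : ℝ) := by
            rw [Real.sqrt_le_left (by positivity), mul_pow, Real.sq_sqrt hNp.le]
            push_cast
            linarith
          gcongr
      _ = 4 * (N : ℝ) ^ (1 / 2 : ℝ) := by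
          rw [Real.sqrt_eq_rpow]; ring
  have hsumE : ∑ j ∈ S, (N : ℝ) ^ (τ / 10) * E j
      ≤ 10 * CQ * (N : ℝ) ^ (3 / 2 + 7 * τ / 20) := by
    have h1 : ∑ j ∈ S, (N : ℝ) ^ (τ / 10) * E j
        = (N : ℝ) ^ (τ / 10) * (CQ * (N : ℝ) ^ (τ / 5)) *
          (N * ∑ j ∈ S, 1 / √(j : ℝ) + S.card * (2 * (N : ℝ) ^ (1 / 2 + τ / 20))) := by
      rw [← mul_sum, hEdef, ← mul_sum, sum_add_distrib, ← mul_sum, sum_const, nsmul_eq_mul]
      ring
    have h2 : (N : ℝ) * (N : ℝ) ^ (1 / 2 : ℝ) ≤ N * (N : ℝ) ^ (1 / 2 + τ / 20) := by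
      have : (N : ℝ) ^ (1 / 2 : ℝ) ≤ (N : ℝ) ^ (1 / 2 + τ / 20) :=
        Real.rpow_le_rpow_of_exponent_le hN1.le (by linarith)
      gcongr
    have h3 : N * ∑ j ∈ S, 1 / √(j : ℝ) + S.card * (2 * (N : ℝ) ^ (1 / 2 + τ / 20))
        ≤ 10 * (N * (N : ℝ) ^ (1 / 2 + τ / 20)) := by
      calc N * ∑ j ∈ S, 1 / √(j : ℝ) + S.card * (2 * (N : ℝ) ^ (1 / 2 + τ / 20))
          ≤ N * (4 * (N : ℝ) ^ (1 / 2 : ℝ)) + 3 * N * (2 * (N : ℝ) ^ (1 / 2 + τ / 20)) := by
            gcongr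
        _ = 4 * (N * (N : ℝ) ^ (1 / 2 : ℝ)) + 6 * (N * (N : ℝ) ^ (1 / 2 + τ / 20)) := by ring
        _ ≤ 10 * (N * (N : ℝ) ^ (1 / 2 + τ / 20)) := by linarith
    rw [h1]
    calc (N : ℝ) ^ (τ / 10) * (CQ * (N : ℝ) ^ (τ / 5)) *
          (N * ∑ j ∈ S, 1 / √(j : ℝ) + S.card * (2 * (N : ℝ) ^ (1 / 2 + τ / 20)))
        ≤ (N : ℝ) ^ (τ / 10) * (CQ * (N : ℝ) ^ (τ / 5)) *
          (10 * (N * (N : ℝ) ^ (1 / 2 + τ / 20))) := by gcongr
      _ = 10 * CQ * ((N : ℝ) ^ (τ / 10) * (N : ℝ) ^ (τ / 5) * (N : ℝ) ^ (1 : ℝ)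
            * (N : ℝ) ^ (1 / 2 + τ / 20)) := by
          rw [Real.rpow_one]; ring
      _ = 10 * CQ * (N : ℝ) ^ (3 / 2 + 7 * τ / 20) := by
          rw [← Real.rpow_add hNp, ← Real.rpow_add hNp, ← Real.rpow_add hNp]
          congr 2
          ring
  calc ∑ a ∈ IA A, cnt N a (fun m => if Rough z m ∧ Win N x e m then 1 else 0)
      ≤ ∑ j ∈ S, (6 / τ * CS * A * N / (e0 * Real.log N) * (1 / (j : ℝ))
          + (N : ℝ) ^ (τ / 10) * E j) := hred.trans (sum_le_sum hone)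
    _ = 6 / τ * CS * A * N / (e0 * Real.log N) * ∑ j ∈ S, 1 / (j : ℝ)
          + ∑ j ∈ S, (N : ℝ) ^ (τ / 10) * E j := by
        rw [sum_add_distrib, ← mul_sum]
    _ ≤ 6 / τ * CS * A * N / (e0 * Real.log N) * (CW * (e / e0))
          + 10 * CQ * (N : ℝ) ^ (3 / 2 + 7 * τ / 20) := by gcongr
    _ ≤ 6 / τ * CS * CW * (e / e0 ^ 2) * A * N / Real.log N
          + e / e0 ^ 2 * A * N / Real.log N := by
        refine add_le_add (le_of_eq ?_) ?_
        · field_simp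
        · rw [le_div_iff₀ hlogp]
          calc 10 * CQ * (N : ℝ) ^ (3 / 2 + 7 * τ / 20) * Real.log N
              ≤ 10 * CQ * (N : ℝ) ^ (3 / 2 + 7 * τ / 20)
                * (e / e0 ^ 2 / (15 * CQ) * (N : ℝ) ^ (τ / 2)) := by gcongr
            _ = 10 / 15 * (e / e0 ^ 2 * ((N : ℝ) ^ (3 / 2 + 7 * τ / 20) * (N : ℝ) ^ (τ / 2))) := by
                field_simp
            _ = 10 / 15 * (e / e0 ^ 2 * (N : ℝ) ^ (3 / 2 + 17 * τ / 20)) := by
                rw [← Real.rpow_add hNp]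
                congr 3
                ring
            _ ≤ 1 * (e / e0 ^ 2 * (A * N)) := by
                have h2 : (N : ℝ) ^ (3 / 2 + 17 * τ / 20) ≤ A * N := by
                  calc (N : ℝ) ^ (3 / 2 + 17 * τ / 20) ≤ (N : ℝ) ^ (θ + 1) :=
                        Real.rpow_le_rpow_of_exponent_le hN1.le (by linarith)
                    _ = (N : ℝ) ^ θ * N := by
                        rw [Real.rpow_add hNp, Real.rpow_one]
                    _ ≤ A * N := by gcongr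
                have h3 : 0 < e / e0 ^ 2 := by positivity
                have h4 : (0 : ℝ) < (N : ℝ) ^ (3 / 2 + 17 * τ / 20) := by positivity
                have h5 : e / e0 ^ 2 * (N : ℝ) ^ (3 / 2 + 17 * τ / 20) ≤ e / e0 ^ 2 * (A * N) := by
                  gcongr
                have h6 : 0 < e / e0 ^ 2 * (N : ℝ) ^ (3 / 2 + 17 * τ / 20) := by positivity
                linarith
            _ = e / e0 ^ 2 * A * N := by ring
    _ = (6 / τ * CS * CW + 1) * (e / e0 ^ 2) * A * N / Real.log N := by ring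

end WINHM

theorem specWINH (hS : SpecSELB) (hQ : SpecQG) (hR : SpecRSUM) : SpecWINH :=
  WINHM.main hS hQ hR

end

end Pool.Agent.Lib.MP391708.QPA.H
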