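import Pool.Agent.Lib.MP_391708_nt.QPA.All
import Pool.Agent.Lib.MP_391708_nt.QPA.H.SpecH
import Pool.Agent.Lib.MP_391708_nt.QPA.H.FIRSTH
import Pool.Agent.Lib.MP_391708_nt.QPA.H.TWOH
import Pool.Agent.Lib.MP_391708_nt.QPA.H.MTAH
import Pool.Agent.Lib.MP_391708_nt.QPA.H.BKH
import Pool.Agent.Lib.MP_391708_nt.QPA.H.MTBH
import Pool.Agent.Lib.MP_391708_nt.QPA.H.BLK2H
import Pool.Agent.Lib.MP_391708_nt.QPA.H.TIIH
import Pool.Agent.Lib.MP_391708_nt.QPA.H.WINH
import Pool.Agent.Lib.MP_391708_nt.QPA.H.NSFH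
import Pool.Agent.Lib.MP_391708_nt.QPA.H.MER
import Pool.Agent.Lib.MP_391708_nt.QPA.H.T2E
import Pool.Agent.Lib.MP_391708_nt.QPA.H.BLKE
import Pool.Agent.Lib.MP_391708_nt.QPA.H.FINE
import Pool.Agent.Lib.MP_391708_nt.QPA.H.E2V
import Pool.Agent.Lib.MP_391708_nt.QPA.H.E2M
import Pool.Agent.Lib.MP_391708_nt.QPA.H.EKM
import Pool.Agent.Lib.MP_391708_nt.QPA.H.QE2
import Pool.Agent.Lib.MP_391708_nt.QPA.H.QEK
import Pool.Agent.Lib.MP_391708_nt.QPA.H.LAMX
import Pool.Agent.Lib.MP_391708_nt.QPA.H.BDHB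
import Pool.Agent.Lib.MP_391708_nt.QPA.H.WBL
import Pool.Agent.Lib.MP_391708_nt.QPA.H.BLKL
import Pool.Agent.Lib.MP_391708_nt.QPA.H.TOTL
import Pool.Agent.Lib.MP_391708_nt.QPA.H.CSUM
import Pool.Agent.Lib.MP_391708_nt.QPA.H.CNTL
import Pool.Agent.Lib.MP_391708_nt.QPA.H.FINL

/-!
# QPA phase 3: assembly
-/

set_option autoImplicit false

namespace Pool.Agent.Lib.MP391708.QPA.H

theorem allH : SpecQE2 ∧ SpecQEK ∧ SpecFINL := by
  have hSELB := specSELB
  have hBT := specBT hSELB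
  have hRSUM := specRSUM hBT
  have hQG := specQG
  have hRAV := specRAV hQG
  have hSML := specSML specPVA
  have hLRG := specLRG specPVE
  have hGMAX := specGMAX specRHO2 specRHOP
  have hGMEAN := specGMEAN specRHO2 specRHOP
  have hEDGE := specEDGE hBT
  have hCOUNT := specCOUNT
  have hSEC := specSEC (specKER (specBIL specDLS) specPOI hCOUNT) hCOUNT
  have hBDH := specBDH specLS (specLR hSELB) hBT hRSUM
  have hBDHP : SpecBDHP := specBDHP hBDH hBT
  have hEQ := specEQ (specCHI specPNTAP) hRSUM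
  have hEUL := specEUL
  have hF6 := specF6 hEUL (specCONV hEUL specRHOP specRHO2) specPVA specPVE specRHOP specRHO2
  have hPNT := specPNT specPNTAP
  have hWINM := specWINM hBT hRSUM
  -- Type II sums for `θ > 1/2`
  have hTWOH := specTWOH hSEC (specFIRSTH hRAV hBT) hSELB
  have hBKH := specBKH hSML hLRG
  have hBLK2H := specBLK2H hTWOH specWB hBDHP hEQ (specMTAH specRHOC specRHOM hRAV)
    (specMTBH hBKH hRAV specRHOD) specSHM hBT specFFB hGMAX hGMEAN
  have hTIIH := specTIIH hBLK2H hEDGE hBT specFFB hGMAX hGMEAN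
  -- products of primes
  have hBLKE := specBLKE specT2E hTIIH (specWINH hSELB hQG hRSUM) hWINM (specNSFH hQG) specNSFM
    hGMEAN hGMAX
  have hFINE := specFINE hBLKE hF6 hBT specRHOP specRHO2 hGMAX
  have hE2V := specE2V
  have hQE2 := specQE2 hFINE (specE2M hPNT specMER hE2V) hE2V
  have hQEK := specQEK hFINE (specEKM hPNT specMER)
  -- the Liouville function
  have hBLKL := specBLKL hTWOH (specWBL specWB specBDHB specLAMX)
  have hCNTL := specCNTL (specCSUM hBKH hRSUM) specMER specRHOC specRHOM specRHO2 specRHOP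
  exact ⟨hQE2, hQEK, specFINL (specTOTL hBLKL) hCNTL⟩

end Pool.Agent.Lib.MP391708.QPA.H
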