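import Pool.Agent.Lib.MP_391708_nt.QPA.H.SpecH
import Pool.Agent.Lib.MP_cb27ba_nt.H71.LSChar

/-!
# QPA phase 3, module BDHB: the dispersion of a bounded function in residue classes
-/

set_option autoImplicit false

namespace Pool.Agent.Lib.MP391708.QPA.H

open Finset Filter Topology
open Pool.Agent.Lib.MP391708.QPA

namespace BDHBM

open Pool.Agent.Lib.MP_cb27ba_nt.H71 (F F_eq_stdAddChar large_sieve)
open ZMod

noncomputable section

/-- the coefficients -/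
def cc (b : ℕ → ℝ) (n : ℤ) : ℂ := (b n.toNat : ℂ)

/-- the support -/
def SS (S : Finset ℕ) : Finset ℤ := S.image (fun n : ℕ => (n : ℤ))

/-- the sum of the squares over the residue classes modulo `q` -/
def V (S : Finset ℕ) (b : ℕ → ℝ) (q : ℕ) : ℝ :=
  ∑ c ∈ range q, (∑ u ∈ S.filter (fun u => u % q = c), b u) ^ 2

lemma V_eq (S : Finset ℕ) (b : ℕ → ℝ) {q : ℕ} (hq : 1 ≤ q) :
    V S b q = ∑ x ∈ S ×ˢ S, if x.1 % q = x.2 % q then b x.1 * b x.2 else 0 := by
  unfold V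
  have h1 : ∀ c ∈ range q, (∑ u ∈ S.filter (fun u => u % q = c), b u) ^ 2 =
      ∑ x ∈ S ×ˢ S, if x.1 % q = c ∧ x.2 % q = c then b x.1 * b x.2 else 0 := by
    intro c _
    rw [sq, sum_filter, sum_mul_sum, sum_product]
    refine sum_congr rfl fun u _ => sum_congr rfl fun v _ => ?_
    by_cases h1 : u % q = c <;> by_cases h2 : v % q = c <;> simp [h1, h2]
  rw [sum_congr rfl h1, sum_comm]
  refine sum_congr rfl fun x _ => ?_
  by_cases h : x.1 % q = x.2 % q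
  · rw [if_pos h]
    have h2 : ∀ c ∈ range q, (if x.1 % q = c ∧ x.2 % q = c then b x.1 * b x.2 else 0) =
        if c = x.1 % q then b x.1 * b x.2 else 0 := by
      intro c _
      refine if_congr ?_ rfl rfl
      constructor
      · exact fun h => h.1.symm
      · intro h'
        exact ⟨h'.symm, by rw [← h, h']⟩
    rw [sum_congr rfl h2, sum_ite_eq', if_pos (mem_range.2 (Nat.mod_lt _ (by omega)))]
  · rw [if_neg h]
    refine sum_eq_zero fun c _ => if_neg ?_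
    rintro ⟨h1, h2⟩
    exact h (h1.trans h2.symm)

lemma F_eq (S : Finset ℕ) (b : ℕ → ℝ) {q : ℕ} [NeZero q] (a : ℕ) :
    F (cc b) (SS S) ((a : ℝ) / q) = ∑ n ∈ S, (b n : ℂ) * stdAddChar ((a : ZMod q) * (n : ZMod q)) := by
  rw [F_eq_stdAddChar, SS, sum_image (fun a _ b _ h => by exact_mod_cast h)]
  refine sum_congr rfl fun n _ => ?_
  rw [cc, Int.toNat_natCast, Int.cast_natCast]

lemma parseval (S : Finset ℕ) (b : ℕ → ℝ) (q : ℕ) [NeZero q] :
    ∑ h ∈ range q, ‖F (cc b) (SS S) ((h : ℝ) / q)‖ ^ 2 = q * V S b q := by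
  have h0 : ∑ h ∈ range q, ‖F (cc b) (SS S) ((h : ℝ) / q)‖ ^ 2 =
      ∑ a : ZMod q, ‖∑ n ∈ S, (b n : ℂ) * stdAddChar (a * (n : ZMod q))‖ ^ 2 := by
    refine sum_nbij' (fun a : ℕ => (a : ZMod q)) (fun k => k.val) ?_ ?_ ?_ ?_ ?_
    · intro a _
      exact mem_univ _
    · intro k _
      exact mem_range.2 (ZMod.val_lt _)
    · intro a ha
      exact ZMod.val_cast_of_lt (mem_range.1 ha)
    · intro k _
      rw [ZMod.natCast_val, ZMod.cast_id', id]
    · intro a _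
      rw [F_eq]
  rw [h0, V_eq S b (NeZero.pos q)]
  have key : ((∑ a : ZMod q, ‖∑ n ∈ S, (b n : ℂ) * stdAddChar (a * (n : ZMod q))‖ ^ 2 : ℝ) : ℂ)
      = ((q * ∑ x ∈ S ×ˢ S, if x.1 % q = x.2 % q then b x.1 * b x.2 else 0 : ℝ) : ℂ) := by
    push_cast
    have h1 : ∀ a : ZMod q, ((‖∑ n ∈ S, (b n : ℂ) * stdAddChar (a * (n : ZMod q))‖ : ℂ)) ^ 2
        = ∑ x ∈ S ×ˢ S, ((b x.1 : ℂ) * (b x.2 : ℂ)) *
            (stdAddChar (a * ((x.1 : ZMod q) - (x.2 : ZMod q))) : ℂ) := by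
      intro a
      rw [← Complex.mul_conj', map_sum, Finset.sum_mul_sum, Finset.sum_product]
      refine Finset.sum_congr rfl fun n _ => Finset.sum_congr rfl fun n' _ => ?_
      rw [mul_sub, sub_eq_add_neg, AddChar.map_add_eq_mul, map_mul (starRingEnd ℂ),
        Complex.conj_ofReal, ← AddChar.map_neg_eq_conj]
      ring
    rw [Finset.sum_congr rfl fun a _ => h1 a, Finset.sum_comm, mul_sum]
    refine sum_congr rfl fun x _ => ?_
    rw [← mul_sum]
    have h3 := AddChar.sum_mulShift ((x.1 : ZMod q) - (x.2 : ZMod q)) (isPrimitive_stdAddChar q)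
    rw [h3, ZMod.card]
    have h4 : ((x.1 : ZMod q) - (x.2 : ZMod q)) = 0 ↔ x.1 % q = x.2 % q := by
      rw [sub_eq_zero, ZMod.natCast_eq_natCast_iff']
    by_cases h : x.1 % q = x.2 % q
    · rw [if_pos (h4.2 h), if_pos h]
      push_cast
      ring
    · rw [if_neg (fun h' => h (h4.1 h')), if_neg h]
      simp
  exact_mod_cast key

/-- the reduced fractions with denominator `r` -/
def red (r : ℕ) : Finset ℕ := (range r).filter (fun a => Nat.Coprime a r)

lemma sum_le_divisors (f : ℝ → ℝ) (hf : ∀ x, 0 ≤ f x) {q : ℕ} (hq : 1 ≤ q) :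
    ∑ h ∈ range q, f ((h : ℝ) / q) ≤ ∑ r ∈ q.divisors, ∑ a ∈ red r, f ((a : ℝ) / r) := by
  rw [sum_sigma']
  have hg : ∀ h : ℕ, 0 < Nat.gcd h q := fun h => Nat.gcd_pos_of_pos_right h (by omega)
  have hq' : ∀ h : ℕ, q / Nat.gcd h q * Nat.gcd h q = q :=
    fun h => Nat.div_mul_cancel (Nat.gcd_dvd_right h q)
  have hh' : ∀ h : ℕ, h / Nat.gcd h q * Nat.gcd h q = h :=
    fun h => Nat.div_mul_cancel (Nat.gcd_dvd_left h q)
  have hval : ∀ h : ℕ, f ((h : ℝ) / q) =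
      f (((h / Nat.gcd h q : ℕ) : ℝ) / ((q / Nat.gcd h q : ℕ) : ℝ)) := by
    intro h
    congr 1
    have h1 : (h : ℝ) = ((h / Nat.gcd h q : ℕ) : ℝ) * (Nat.gcd h q : ℕ) := by
      exact_mod_cast (hh' h).symm
    have h2 : (q : ℝ) = ((q / Nat.gcd h q : ℕ) : ℝ) * (Nat.gcd h q : ℕ) := by
      exact_mod_cast (hq' h).symm
    have h3 : ((Nat.gcd h q : ℕ) : ℝ) ≠ 0 := by
      have := (hg h).ne'
      exact_mod_cast this
    conv_lhs => rw [h1, h2]
    rw [mul_div_mul_right _ _ h3]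
  have hinj : Set.InjOn (fun h : ℕ => (⟨q / Nat.gcd h q, h / Nat.gcd h q⟩ : Σ _ : ℕ, ℕ))
      (range q : Set ℕ) := by
    intro a _ b _ hab
    simp only [Sigma.mk.injEq, heq_eq_eq] at hab
    obtain ⟨h1, h2⟩ := hab
    have h3 : Nat.gcd a q = Nat.gcd b q := by
      have h4 := hq' a
      have h5 := hq' b
      rw [← h1] at h5
      have h6 : 0 < q / Nat.gcd a q := by
        rcases Nat.eq_zero_or_pos (q / Nat.gcd a q) with h | h
        · rw [h, zero_mul] at h4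
          omega
        · exact h
      exact Nat.eq_of_mul_eq_mul_left h6 (h4.trans h5.symm)
    have h4 := hh' a
    have h5 := hh' b
    rw [← h2, ← h3] at h5
    exact h4.symm.trans h5
  calc ∑ h ∈ range q, f ((h : ℝ) / q)
      = ∑ h ∈ range q, f (((h / Nat.gcd h q : ℕ) : ℝ) / ((q / Nat.gcd h q : ℕ) : ℝ)) :=
        sum_congr rfl fun h _ => hval h
    _ = ∑ x ∈ (range q).image (fun h : ℕ => (⟨q / Nat.gcd h q, h / Nat.gcd h q⟩ : Σ _ : ℕ, ℕ)),
          f ((x.2 : ℝ) / x.1) :=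
        (sum_image (f := fun x : Σ _ : ℕ, ℕ => f ((x.2 : ℝ) / x.1)) hinj).symm
    _ ≤ ∑ x ∈ q.divisors.sigma fun r => red r, f ((x.2 : ℝ) / x.1) := by
        refine sum_le_sum_of_subset_of_nonneg ?_ fun x _ _ => hf _
        intro x hx
        obtain ⟨h, hh, rfl⟩ := mem_image.1 hx
        rw [mem_range] at hh
        simp only [mem_sigma, Nat.mem_divisors, red, mem_filter, mem_range]
        refine ⟨⟨Nat.div_dvd_of_dvd (Nat.gcd_dvd_right h q), by omega⟩, ?_, ?_⟩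
        · exact Nat.div_lt_div_of_lt_of_dvd (Nat.gcd_dvd_right h q) hh
        · exact Nat.coprime_div_gcd_div_gcd (hg h)

/-- the sum over the reduced fractions with denominator `r` -/
def T (S : Finset ℕ) (b : ℕ → ℝ) (r : ℕ) : ℝ :=
  ∑ a ∈ red r, ‖F (cc b) (SS S) ((a : ℝ) / r)‖ ^ 2

lemma T_nonneg (S : Finset ℕ) (b : ℕ → ℝ) (r : ℕ) : 0 ≤ T S b r :=
  sum_nonneg fun _ _ => by positivity

lemma T_le (S : Finset ℕ) (b : ℕ → ℝ) {r : ℕ} (hr : 1 ≤ r) : T S b r ≤ r * V S b r := by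
  have : NeZero r := ⟨by omega⟩
  rw [← parseval S b r]
  exact sum_le_sum_of_subset_of_nonneg (filter_subset _ _) fun _ _ _ => by positivity

lemma V_le (S : Finset ℕ) (b : ℕ → ℝ) {q : ℕ} (hq : 1 ≤ q) :
    V S b q ≤ 1 / q * ∑ r ∈ q.divisors, T S b r := by
  have : NeZero q := ⟨by omega⟩
  have h1 := sum_le_divisors (fun x => ‖F (cc b) (SS S) x‖ ^ 2) (fun x => by positivity) hq
  rw [parseval S b q] at h1
  have hq0 : (0 : ℝ) < q := by exact_mod_cast hq
  calc V S b q = 1 / q * (q * V S b q) := by field_simp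
    _ ≤ _ := mul_le_mul_of_nonneg_left h1 (by positivity)

lemma card_div (D₀ r : ℕ) (hr : 1 ≤ r) :
    (((Ioc D₀ (2 * D₀)).filter (fun d => r ∣ 4 * d)).card : ℝ) ≤ 8 * D₀ / r := by
  have h1 : ((Ioc D₀ (2 * D₀)).filter (fun d => r ∣ 4 * d)).card ≤
      ((Ioc 0 (8 * D₀)).filter (fun x => r ∣ x)).card := by
    refine card_le_card_of_injOn (fun d => 4 * d) ?_ ?_
    · intro d hd
      rw [mem_coe, mem_filter, mem_Ioc] at hd
      rw [mem_coe, mem_filter, mem_Ioc]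
      show (0 < 4 * d ∧ 4 * d ≤ 8 * D₀) ∧ r ∣ 4 * d
      exact ⟨⟨by omega, by omega⟩, hd.2⟩
    · intro a _ b _ h
      simpa using h
  rw [Nat.Ioc_filter_dvd_card_eq_div] at h1
  calc (((Ioc D₀ (2 * D₀)).filter (fun d => r ∣ 4 * d)).card : ℝ) ≤ ((8 * D₀ / r : ℕ) : ℝ) := by
        exact_mod_cast h1
    _ ≤ ((8 * D₀ : ℕ) : ℝ) / r := Nat.cast_div_le
    _ = 8 * D₀ / r := by push_cast; ring

lemma Vd_le (S : Finset ℕ) (b : ℕ → ℝ) {D₀ : ℕ} (hD : 1 ≤ D₀) :
    Vd S b D₀ ≤ ∑ r ∈ Icc 1 (8 * D₀), 2 / r * T S b r := by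
  have hD0 : (0 : ℝ) < D₀ := by exact_mod_cast hD
  have h1 : Vd S b D₀ ≤ ∑ d ∈ Ioc D₀ (2 * D₀), ∑ r ∈ Icc 1 (8 * D₀),
      if r ∣ 4 * d then 1 / (4 * D₀) * T S b r else 0 := by
    unfold Vd
    refine sum_le_sum fun d hd => ?_
    rw [mem_Ioc] at hd
    have hd0 : (D₀ : ℝ) ≤ d := by exact_mod_cast hd.1.le
    refine (V_le S b (q := 4 * d) (by omega)).trans ?_
    rw [← sum_filter, ← mul_sum]
    have h2 : (4 * d).divisors = (Icc 1 (8 * D₀)).filter (fun r => r ∣ 4 * d) := by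
      ext r
      rw [Nat.mem_divisors, mem_filter, mem_Icc]
      constructor
      · rintro ⟨h, h'⟩
        have h3 := Nat.le_of_dvd (by omega) h
        have h4 := Nat.pos_of_dvd_of_pos h (by omega)
        exact ⟨⟨h4, by omega⟩, h⟩
      · rintro ⟨_, h⟩
        exact ⟨h, by omega⟩
    rw [h2]
    refine mul_le_mul_of_nonneg_right ?_ (sum_nonneg fun r _ => T_nonneg S b r)
    push_cast
    exact one_div_le_one_div_of_le (by positivity) (by linarith)
  refine h1.trans ?_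
  rw [sum_comm]
  refine sum_le_sum fun r hr => ?_
  rw [mem_Icc] at hr
  have hr0 : (0 : ℝ) < r := by exact_mod_cast hr.1
  rw [← sum_filter, sum_const, nsmul_eq_mul, ← mul_assoc]
  refine mul_le_mul_of_nonneg_right ?_ (T_nonneg S b r)
  calc (((Ioc D₀ (2 * D₀)).filter (fun d => r ∣ 4 * d)).card : ℝ) * (1 / (4 * D₀))
      ≤ (8 * D₀ / r) * (1 / (4 * D₀)) :=
        mul_le_mul_of_nonneg_right (card_div D₀ r hr.1) (by positivity)
    _ = 2 / r := by field_simp; norm_num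

/-- partial summation -/
lemma abel (T : ℕ → ℝ) (R : ℕ) (hR : 1 ≤ R) (A B : ℝ) (hA : 0 ≤ A)
    (hG : ∀ m : ℕ, R ≤ m → ∑ r ∈ Ioc R m, T r ≤ A * m ^ 2 + B) (Q : ℕ) (hQ : R ≤ Q) :
    ∑ r ∈ Ioc R Q, 1 / (r : ℝ) * T r ≤ 2 * A * Q + B / R := by
  have hR0 : (0 : ℝ) < R := by exact_mod_cast hR
  have key : ∑ r ∈ Ioc R Q, 1 / (r : ℝ) * T r ≤
      (∑ r ∈ Ioc R Q, T r) / Q + A * (Q - R) + B * (1 / R - 1 / Q) := by
    induction Q, hQ using Nat.le_induction with
    | base => simp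
    | succ m hm ih =>
      have hm0 : (0 : ℝ) < m := by
        have : 0 < m := by omega
        exact_mod_cast this
      rw [sum_Ioc_succ_top (by omega), sum_Ioc_succ_top (by omega)]
      have h1 := hG m hm
      have h2 : (∑ r ∈ Ioc R m, T r) * (1 / m - 1 / (m + 1)) ≤
          (A * m ^ 2 + B) * (1 / m - 1 / (m + 1)) := by
        refine mul_le_mul_of_nonneg_right h1 ?_
        rw [sub_nonneg]
        exact one_div_le_one_div_of_le hm0 (by linarith)
      have h3 : A * (m : ℝ) ^ 2 * (1 / m - 1 / (m + 1)) ≤ A := by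
        have h4 : (m : ℝ) ^ 2 * (1 / m - 1 / (m + 1)) ≤ 1 := by
          have h5 : (m : ℝ) ^ 2 * (1 / m - 1 / (m + 1)) = m / (m + 1) := by
            field_simp
            ring
          rw [h5, div_le_one (by positivity)]
          linarith
        calc A * (m : ℝ) ^ 2 * (1 / m - 1 / (m + 1)) = A * ((m : ℝ) ^ 2 * (1 / m - 1 / (m + 1))) := by
              ring
          _ ≤ A * 1 := mul_le_mul_of_nonneg_left h4 hA
          _ = A := mul_one A
      push_cast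
      have h6 : (∑ r ∈ Ioc R m, T r) / (m : ℝ) = (∑ r ∈ Ioc R m, T r) / (m + 1) +
          (∑ r ∈ Ioc R m, T r) * (1 / m - 1 / (m + 1)) := by
        ring
      rw [h6] at ih
      rw [add_div]
      have h7 : 1 / ((m : ℝ) + 1) * T (m + 1) = T (m + 1) / ((m : ℝ) + 1) := by ring
      rw [h7]
      nlinarith [ih, h2, h3]
  have hQ0 : (0 : ℝ) < Q := by
    have : 0 < Q := by omega
    exact_mod_cast this
  have h1 := hG Q hQ
  have h2 : (∑ r ∈ Ioc R Q, T r) / Q ≤ A * Q + B / Q := by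
    rw [div_le_iff₀ hQ0]
    refine h1.trans (le_of_eq ?_)
    field_simp
  have h3 : B * (1 / R - 1 / Q) = B / R - B / Q := by ring
  have h4 : A * ((Q : ℝ) - R) ≤ A * Q := by
    have := mul_nonneg hA hR0.le
    nlinarith
  rw [h3] at key
  linarith

/-- the large sieve for the fractions with denominators in `(R, m]` -/
lemma G_le (S : Finset ℕ) (b : ℕ → ℝ) {L : ℝ} (hL : 0 < L) (hS : ∀ n ∈ S, (n : ℝ) ≤ 2 * L)
    (hb : ∀ u, |b u| ≤ 1) (hcard : (S.card : ℝ) ≤ 2 * L) (R : ℕ) (hR : 1 ≤ R) (m : ℕ) (hm : R ≤ m) :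
    ∑ r ∈ Ioc R m, T S b r ≤ 2 * L * m ^ 2 + 16 * Real.pi * L ^ 2 := by
  have hm0 : (0 : ℝ) < m := by
    have : 0 < m := by omega
    exact_mod_cast this
  have hm1 : (1 : ℝ) ≤ m := by
    have : 1 ≤ m := by omega
    exact_mod_cast this
  unfold T
  rw [sum_sigma']
  have h1 := large_sieve (cc b) (SS S) (N := 2 * L) (by positivity) (by
      intro n hn
      obtain ⟨k, hk, rfl⟩ := mem_image.1 hn
      rw [Int.cast_natCast, Nat.abs_cast]
      exact hS k hk) ((Ioc R m).sigma fun r => red r) (fun x => (x.2 : ℝ) / x.1)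
      (δ := 1 / (m : ℝ) ^ 2) (by positivity) ?_ ?_
  · refine h1.trans ?_
    have h2 : ∑ n ∈ SS S, ‖cc b n‖ ^ 2 ≤ 2 * L := by
      rw [SS, sum_image (fun a _ b _ h => by exact_mod_cast h)]
      calc ∑ n ∈ S, ‖cc b (n : ℤ)‖ ^ 2 ≤ ∑ n ∈ S, (1 : ℝ) := by
            refine sum_le_sum fun n _ => ?_
            rw [cc, Int.toNat_natCast, Complex.norm_real, Real.norm_eq_abs]
            exact pow_le_one₀ (abs_nonneg _) (hb n)
        _ = S.card := by simp
        _ ≤ 2 * L := hcard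
    calc (1 / (1 / (m : ℝ) ^ 2) + 4 * Real.pi * (2 * L)) * ∑ n ∈ SS S, ‖cc b n‖ ^ 2
        ≤ (1 / (1 / (m : ℝ) ^ 2) + 4 * Real.pi * (2 * L)) * (2 * L) :=
          mul_le_mul_of_nonneg_left h2 (by positivity)
      _ = 2 * L * m ^ 2 + 16 * Real.pi * L ^ 2 := by
          rw [one_div_one_div]
          ring
  · rintro ⟨r, a⟩ hx ⟨r', a'⟩ hx' hne
    simp only [mem_sigma, mem_Ioc, red, mem_filter, mem_range] at hx hx'
    obtain ⟨⟨hr1, hr2⟩, ha1, ha2⟩ := hx
    obtain ⟨⟨hr1', hr2'⟩, ha1', ha2'⟩ := hx'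
    show 1 / (m : ℝ) ^ 2 ≤ |(a : ℝ) / r - (a' : ℝ) / r'|
    have hr0 : (0 : ℝ) < r := by
      have : 0 < r := by omega
      exact_mod_cast this
    have hr0' : (0 : ℝ) < r' := by
      have : 0 < r' := by omega
      exact_mod_cast this
    have h2 : (a : ℤ) * r' - a' * r ≠ 0 := by
      intro h
      have h3 : a * r' = a' * r := by
        have : (a : ℤ) * r' = a' * r := by linarith
        exact_mod_cast this
      have h4 : r ∣ r' := by
        have : r ∣ a * r' := ⟨a', by rw [h3, mul_comm]⟩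
        exact (Nat.Coprime.dvd_of_dvd_mul_left ha2.symm this)
      have h5 : r' ∣ r := by
        have : r' ∣ a' * r := ⟨a, by rw [← h3, mul_comm]⟩
        exact (Nat.Coprime.dvd_of_dvd_mul_left ha2'.symm this)
      have h6 : r = r' := Nat.dvd_antisymm h4 h5
      subst h6
      have h7 : a = a' := Nat.eq_of_mul_eq_mul_right (by omega) h3
      subst h7
      exact hne rfl
    have h3 : (1 : ℝ) ≤ |(a : ℝ) * r' - a' * r| := by
      have := Int.one_le_abs h2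
      exact_mod_cast this
    have h4 : (a : ℝ) / r - (a' : ℝ) / r' = ((a : ℝ) * r' - a' * r) / (r * r') := by
      field_simp
    rw [h4, abs_div, abs_of_pos (show (0 : ℝ) < r * r' by positivity)]
    refine div_le_div₀ (abs_nonneg _) h3 (by positivity) ?_
    have h5 : (r : ℝ) ≤ m := by exact_mod_cast hr2
    have h6 : (r' : ℝ) ≤ m := by exact_mod_cast hr2'
    rw [sq]
    exact mul_le_mul h5 h6 hr0'.le hm0.le
  · rintro ⟨r, a⟩ hx
    simp only [mem_sigma, mem_Ioc, red, mem_filter, mem_range] at hx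
    obtain ⟨⟨hr1, hr2⟩, ha1, ha2⟩ := hx
    have hr0 : (0 : ℝ) < r := by
      have : 0 < r := by omega
      exact_mod_cast this
    have ha0 : 1 ≤ a := by
      rcases Nat.eq_zero_or_pos a with h | h
      · rw [h, Nat.coprime_zero_left] at ha2
        omega
      · exact h
    have h5 : (r : ℝ) ≤ m := by exact_mod_cast hr2
    have h1 : 1 / (m : ℝ) ≤ a / r := by
      have h2 : (1 : ℝ) ≤ a := by exact_mod_cast ha0
      exact div_le_div₀ (by positivity) h2 hr0 h5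
    have h2 : (a : ℝ) / r ≤ 1 - 1 / m := by
      have h3 : (a : ℝ) + 1 ≤ r := by exact_mod_cast ha1
      have h4 : (a : ℝ) / r ≤ 1 - 1 / r := by
        rw [div_le_iff₀ hr0]
        have : (1 - 1 / (r : ℝ)) * r = r - 1 := by field_simp
        linarith
      have h6 : 1 / (m : ℝ) ≤ 1 / r := one_div_le_one_div_of_le hr0 h5
      linarith
    have h3 : 1 / (m : ℝ) ^ 2 / 2 ≤ 1 / m := by
      rw [div_div, one_div_le_one_div (by positivity) hm0]
      nlinarith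
    constructor
    · show 1 / (m : ℝ) ^ 2 / 2 ≤ (a : ℝ) / r
      linarith
    · show (a : ℝ) / r + 1 / (m : ℝ) ^ 2 / 2 ≤ 1
      linarith

/-- the module -/
theorem main (ϖ : ℝ) (hϖ : 0 < ϖ) : ∃ R : ℕ, ∃ κ : ℝ, 0 < κ ∧ ∃ L₀ : ℝ,
    ∀ (L : ℝ) (x y : ℕ) (b : ℕ → ℝ), L₀ ≤ L → (y : ℝ) ≤ 2 * L → (∀ u, |b u| ≤ 1) →
    (∀ r c : ℕ, 1 ≤ r → r ≤ R → |∑ u ∈ (Ioc x y).filter (fun u => u % r = c), b u| ≤ κ * L) →
    ∀ D₀ : ℕ, 1 ≤ D₀ → (D₀ : ℝ) ≤ √L → Vd (Ioc x y) b D₀ ≤ ϖ * L ^ 2 := by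
  obtain ⟨R, hR⟩ := exists_nat_gt (max 1 (330 / ϖ))
  have hR1 : (1 : ℝ) < R := (le_max_left _ _).trans_lt hR
  have hR2 : 330 / ϖ < R := (le_max_right _ _).trans_lt hR
  have hR0 : (0 : ℝ) < R := by linarith
  have hRn : 1 ≤ R := by
    have : (1 : ℝ) ≤ R := hR1.le
    exact_mod_cast this
  refine ⟨R, √(ϖ / 6) / R, by positivity, max 1 ((200 / ϖ) ^ 2), ?_⟩
  intro L x y b hL hy hb hsmall D₀ hD hDL
  have hL1 : 1 ≤ L := (le_max_left _ _).trans hL
  have hL2 : (200 / ϖ) ^ 2 ≤ L := (le_max_right _ _).trans hL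
  have hL0 : 0 < L := by linarith
  set S := Ioc x y with hS
  have hSn : ∀ n ∈ S, (n : ℝ) ≤ 2 * L := by
    intro n hn
    rw [hS, mem_Ioc] at hn
    have : (n : ℝ) ≤ y := by exact_mod_cast hn.2
    linarith
  have hcard : (S.card : ℝ) ≤ 2 * L := by
    rw [hS, Nat.card_Ioc]
    have : ((y - x : ℕ) : ℝ) ≤ y := by exact_mod_cast Nat.sub_le y x
    linarith
  have hκ : (√(ϖ / 6) / R) ^ 2 * (2 * R ^ 2) = ϖ / 3 := by
    rw [div_pow, Real.sq_sqrt (by positivity)]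
    field_simp
    norm_num
  -- the small denominators
  have hsm : ∑ r ∈ Icc 1 R, 2 / (r : ℝ) * T S b r ≤ ϖ / 3 * L ^ 2 := by
    have h1 : ∀ r ∈ Icc 1 R, 2 / (r : ℝ) * T S b r ≤ 2 * R * (√(ϖ / 6) / R * L) ^ 2 := by
      intro r hr
      rw [mem_Icc] at hr
      have hr0 : (0 : ℝ) < r := by exact_mod_cast hr.1
      have h2 : V S b r ≤ r * (√(ϖ / 6) / R * L) ^ 2 := by
        unfold V
        calc ∑ c ∈ range r, (∑ u ∈ S.filter (fun u => u % r = c), b u) ^ 2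
            ≤ ∑ c ∈ range r, (√(ϖ / 6) / R * L) ^ 2 := by
              refine sum_le_sum fun c _ => ?_
              rw [← sq_abs]
              exact pow_le_pow_left₀ (abs_nonneg _) (hsmall r c hr.1 hr.2) 2
          _ = r * (√(ϖ / 6) / R * L) ^ 2 := by rw [sum_const, card_range, nsmul_eq_mul]
      calc 2 / (r : ℝ) * T S b r ≤ 2 / (r : ℝ) * (r * V S b r) :=
            mul_le_mul_of_nonneg_left (T_le S b hr.1) (by positivity)
        _ = 2 * V S b r := by field_simp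
        _ ≤ 2 * (r * (√(ϖ / 6) / R * L) ^ 2) := by linarith
        _ ≤ 2 * R * (√(ϖ / 6) / R * L) ^ 2 := by
            have h3 : (r : ℝ) ≤ R := by exact_mod_cast hr.2
            have h4 : 0 ≤ (√(ϖ / 6) / R * L) ^ 2 := by positivity
            nlinarith
    calc ∑ r ∈ Icc 1 R, 2 / (r : ℝ) * T S b r
        ≤ ∑ r ∈ Icc 1 R, 2 * R * (√(ϖ / 6) / R * L) ^ 2 := sum_le_sum h1
      _ = R * (2 * R * (√(ϖ / 6) / R * L) ^ 2) := by
          rw [sum_const, Nat.card_Icc, nsmul_eq_mul, Nat.add_sub_cancel]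
      _ = (√(ϖ / 6) / R) ^ 2 * (2 * R ^ 2) * L ^ 2 := by ring
      _ = ϖ / 3 * L ^ 2 := by rw [hκ]
  refine (Vd_le S b hD).trans ?_
  rcases Nat.le_total (8 * D₀) R with hc | hc
  · calc ∑ r ∈ Icc 1 (8 * D₀), 2 / (r : ℝ) * T S b r ≤ ∑ r ∈ Icc 1 R, 2 / (r : ℝ) * T S b r :=
          sum_le_sum_of_subset_of_nonneg (Icc_subset_Icc_right hc)
            fun r _ _ => mul_nonneg (by positivity) (T_nonneg S b r)
      _ ≤ ϖ / 3 * L ^ 2 := hsm
      _ ≤ ϖ * L ^ 2 := by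
          have : 0 ≤ L ^ 2 := by positivity
          nlinarith
  · have hsplit : ∑ r ∈ Icc 1 (8 * D₀), 2 / (r : ℝ) * T S b r =
        ∑ r ∈ Icc 1 R, 2 / (r : ℝ) * T S b r + ∑ r ∈ Ioc R (8 * D₀), 2 / (r : ℝ) * T S b r := by
      rw [← sum_union]
      · congr 1
        ext r
        simp only [mem_union, mem_Icc, mem_Ioc]
        omega
      · rw [disjoint_left]
        intro r h1 h2
        rw [mem_Icc] at h1
        rw [mem_Ioc] at h2
        omega
    have hlarge := abel (T S b) R hRn (2 * L) (16 * Real.pi * L ^ 2) (by positivity)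
      (fun m hm => G_le S b hL0 hSn hb hcard R hRn m hm) (8 * D₀) hc
    have h2 : ∑ r ∈ Ioc R (8 * D₀), 2 / (r : ℝ) * T S b r =
        2 * ∑ r ∈ Ioc R (8 * D₀), 1 / (r : ℝ) * T S b r := by
      rw [mul_sum]
      exact sum_congr rfl fun r _ => by ring
    rw [hsplit, h2]
    have h3 : 2 * (2 * (2 * L) * ((8 * D₀ : ℕ) : ℝ)) ≤ ϖ / 3 * L ^ 2 := by
      push_cast
      have h4 : 200 / ϖ ≤ √L := Real.le_sqrt_of_sq_le hL2
      have h5 : √L * √L = L := Real.mul_self_sqrt hL0.le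
      have h6 : 200 ≤ ϖ * √L := by
        rw [div_le_iff₀ hϖ] at h4
        linarith
      have h7 : 2 * (2 * (2 * L) * (8 * (D₀ : ℝ))) ≤ 64 * L * √L := by nlinarith
      have h8 : 64 * √L ≤ ϖ / 3 * L := by
        have : 64 * √L * 3 ≤ ϖ * (√L * √L) := by
          have := mul_le_mul_of_nonneg_right h6 (Real.sqrt_nonneg L)
          nlinarith [Real.sqrt_nonneg L]
        rw [h5] at this
        linarith
      calc 2 * (2 * (2 * L) * (8 * (D₀ : ℝ))) ≤ 64 * L * √L := h7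
        _ = (64 * √L) * L := by ring
        _ ≤ (ϖ / 3 * L) * L := mul_le_mul_of_nonneg_right h8 hL0.le
        _ = ϖ / 3 * L ^ 2 := by ring
    have h4 : 2 * (16 * Real.pi * L ^ 2 / R) ≤ ϖ / 3 * L ^ 2 := by
      have h5 : 32 * Real.pi / R ≤ ϖ / 3 := by
        rw [div_le_iff₀ hR0]
        have h6 : 330 ≤ ϖ * R := by
          rw [div_lt_iff₀ hϖ] at hR2
          linarith
        have h7 := Real.pi_lt_d2
        nlinarith
      calc 2 * (16 * Real.pi * L ^ 2 / R) = 32 * Real.pi / R * L ^ 2 := by ring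
        _ ≤ ϖ / 3 * L ^ 2 := mul_le_mul_of_nonneg_right h5 (by positivity)
    linarith

end

end BDHBM

theorem specBDHB : SpecBDHB := BDHBM.main

end Pool.Agent.Lib.MP391708.QPA.H
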