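import Pool.Agent.Lib.MP_391708_nt.QPA.H.SpecH
import Pool.Agent.Lib.MP_391708_nt.QPA.MODP

/-! # Common lemmas for E2M and EKM: sums over the products `P r`, `r` prime, in `(N², 4N²]` -/

set_option autoImplicit false

namespace Pool.Agent.Lib.MP391708.QPA.H.EMc

open Finset Filter Topology
open Pool.Agent.Lib.MP391708.QPA
open scoped Classical

noncomputable section

/-- the sum over the primes in `(x, 4x]` -/
def S (x : ℝ) : ℝ := ∑ m ∈ Ioc ⌊x⌋₊ ⌊4 * x⌋₊, primeInd m / (2 * √(m : ℝ))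

theorem pI0 (m : ℕ) : 0 ≤ primeInd m := by
  unfold primeInd; split_ifs <;> norm_num

theorem pI1 (m : ℕ) : primeInd m ≤ 1 := by
  unfold primeInd; split_ifs <;> norm_num

/-- a short sum is small -/
theorem short {a b : ℕ} {s C : ℝ} (hs : 0 < s) (ha : s ^ 2 ≤ a) (hC : ((b : ℝ) - a) ≤ C) (hC0 : 0 ≤ C) :
    0 ≤ ∑ m ∈ Ioc a b, primeInd m / (2 * √(m : ℝ)) ∧
    ∑ m ∈ Ioc a b, primeInd m / (2 * √(m : ℝ)) ≤ C / (2 * s) := by
  constructor
  · exact sum_nonneg fun m _ => div_nonneg (pI0 m) (by positivity)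
  · calc ∑ m ∈ Ioc a b, primeInd m / (2 * √(m : ℝ)) ≤ ∑ m ∈ Ioc a b, 1 / (2 * s) := by
          apply sum_le_sum
          intro m hm
          have h1 : (a : ℝ) < m := by exact_mod_cast (mem_Ioc.mp hm).1
          have h2 : s ≤ √(m : ℝ) := Real.le_sqrt_of_sq_le (by linarith)
          exact div_le_div₀ zero_le_one (pI1 m) (by positivity) (by linarith)
      _ = (Ioc a b).card * (1 / (2 * s)) := by rw [sum_const, nsmul_eq_mul]
      _ ≤ C * (1 / (2 * s)) := by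
          apply mul_le_mul_of_nonneg_right _ (by positivity)
          rw [Nat.card_Ioc]
          rcases le_total a b with h | h
          · rw [Nat.cast_sub h]; exact hC
          · rw [Nat.sub_eq_zero_of_le h]; simpa using hC0
      _ = C / (2 * s) := by ring

theorem psum (h : SpecPNT) {κ : ℝ} (hκ : 0 < κ) : ∃ X₀ : ℝ, ∀ x : ℝ, X₀ ≤ x →
    |S x - √x / Real.log x| ≤ κ * (√x / Real.log x) := by
  obtain ⟨N₀, hN₀⟩ := MODP.main h (κ := κ / 4) (by positivity)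
  have e1 : ∀ᶠ x : ℝ in atTop, max N₀ 3 ≤ ⌊√x⌋₊ :=
    (tendsto_nat_floor_atTop.comp Real.tendsto_sqrt_atTop).eventually_ge_atTop _
  have e2 : ∀ᶠ x : ℝ in atTop, ‖Real.log x‖ ≤ κ / 12 * ‖x ^ (1 / 2 : ℝ)‖ :=
    (isLittleO_log_rpow_atTop (by norm_num)).bound (by positivity)
  obtain ⟨X₀, hX₀⟩ := eventually_atTop.mp (e1.and (e2.and (eventually_ge_atTop 9)))
  refine ⟨X₀, fun x hx => ?_⟩
  obtain ⟨h1, h2, h3⟩ := hX₀ x hx
  have hx0 : 0 < x := by linarith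
  obtain ⟨N, hNdef⟩ : ∃ N : ℕ, N = ⌊√x⌋₊ := ⟨_, rfl⟩
  rw [← hNdef] at h1
  have hN3 : 3 ≤ N := (le_max_right _ _).trans h1
  have hN := hN₀ N ((le_max_left _ _).trans h1)
  have hNR : (3 : ℝ) ≤ N := by exact_mod_cast hN3
  have hs0 : 0 < √x := Real.sqrt_pos.mpr hx0
  have hNs : (N : ℝ) ≤ √x := by rw [hNdef]; exact Nat.floor_le hs0.le
  have hsN : √x < N + 1 := by rw [hNdef]; exact Nat.lt_floor_add_one _
  have hsq : √x ^ 2 = x := Real.sq_sqrt hx0.le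
  have hNx : (N : ℝ) ^ 2 ≤ x := by nlinarith
  have hxN : x ≤ ((N : ℝ) + 1) ^ 2 := by nlinarith
  -- logs
  have hlog2 : Real.log (√x) = Real.log x / 2 := Real.log_sqrt hx0.le
  have hexp : Real.exp 1 ≤ N := by
    have := Real.exp_one_lt_d9; linarith
  have hlN1 : 1 ≤ Real.log N := by
    rw [Real.le_log_iff_exp_le (by linarith)]; exact hexp
  have hlN0 : 0 < Real.log N := by linarith
  have hlx : Real.log N ≤ Real.log x / 2 := by
    rw [← hlog2]; exact Real.log_le_log (by linarith) hNs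
  have hlx0 : 0 < Real.log x := by linarith
  have hanti := Real.log_div_self_antitoneOn (a := (N : ℝ)) (b := √x) hexp (hexp.trans hNs) hNs
  simp only at hanti
  rw [hlog2] at hanti
  have hq1 : (N : ℝ) / (2 * Real.log N) ≤ √x / Real.log x := by
    rw [div_le_div_iff₀ (by positivity) hlx0]
    rw [div_le_div_iff₀ hs0 (by linarith)] at hanti
    linarith
  have hq2 : √x / Real.log x ≤ (N : ℝ) / (2 * Real.log N) + 1 := by
    calc √x / Real.log x ≤ (N + 1) / (2 * Real.log N) := by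
          apply div_le_div₀ (by linarith) hsN.le (by positivity) (by linarith)
      _ = (N : ℝ) / (2 * Real.log N) + 1 / (2 * Real.log N) := by ring
      _ ≤ _ := by
          gcongr
          rw [div_le_one (by positivity)]; linarith
  -- the sums
  have f1 : N ^ 2 ≤ ⌊x⌋₊ := by apply Nat.le_floor; push_cast; exact hNx
  have f2 : ⌊x⌋₊ ≤ ⌊4 * x⌋₊ := Nat.floor_mono (by linarith)
  have f3 : N ^ 2 ≤ 4 * N ^ 2 := by omega
  have f4 : 4 * N ^ 2 ≤ ⌊4 * x⌋₊ := by apply Nat.le_floor; push_cast; linarith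
  have g1 : (⌊x⌋₊ : ℝ) ≤ x := Nat.floor_le hx0.le
  have g2 : (⌊4 * x⌋₊ : ℝ) ≤ 4 * x := Nat.floor_le (by linarith)
  have s1 := sum_Ioc_consecutive (fun m : ℕ => primeInd m / (2 * √(m : ℝ))) f1 f2
  have s2 := sum_Ioc_consecutive (fun m : ℕ => primeInd m / (2 * √(m : ℝ))) f3 f4
  have t1 := short (a := N ^ 2) (b := ⌊x⌋₊) (s := N) (C := 2 * N + 1) (by linarith) (by push_cast; exact le_rfl)
    (by push_cast; nlinarith) (by linarith)
  have t2 := short (a := 4 * N ^ 2) (b := ⌊4 * x⌋₊) (s := 2 * N) (C := 8 * N + 4) (by linarith)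
    (by push_cast; nlinarith) (by push_cast; nlinarith) (by linarith)
  have t1' : (2 * (N : ℝ) + 1) / (2 * N) ≤ 3 := by
    rw [div_le_iff₀ (by linarith)]; linarith
  have t2' : (8 * (N : ℝ) + 4) / (2 * (2 * N)) ≤ 3 := by
    rw [div_le_iff₀ (by linarith)]; linarith
  have hdiff : |S x - model N primeInd| ≤ 3 := by
    unfold S model
    rw [abs_le]
    constructor <;> linarith [t1.1, t1.2, t2.1, t2.2]
  have hbig : 6 ≤ κ / 2 * (√x / Real.log x) := by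
    rw [Real.norm_eq_abs, abs_of_pos hlx0, Real.norm_eq_abs, ← Real.sqrt_eq_rpow, abs_of_pos hs0] at h2
    have h4 : 1 ≤ κ / 12 * (√x / Real.log x) := by
      rw [← mul_div_assoc, le_div_iff₀ hlx0]; linarith
    linarith
  have e5 : κ / 4 * (N : ℝ) / Real.log N = κ / 2 * ((N : ℝ) / (2 * Real.log N)) := by ring
  rw [e5] at hN
  have e6 : κ / 2 * ((N : ℝ) / (2 * Real.log N)) ≤ κ / 2 * (√x / Real.log x) :=
    mul_le_mul_of_nonneg_left hq1 (by positivity)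
  have k1 := abs_le.mp hN
  have k2 := abs_le.mp hdiff
  rw [abs_le]
  constructor <;> linarith [k1.1, k1.2, k2.1, k2.2]

/-- the integers `P r`, `P ∈ 𝒫`, `r` prime, in `(N², 4N²]` -/
def IMG (N : ℕ) (P : Finset ℕ) : Finset ℕ :=
  (Ioc (N ^ 2) (4 * N ^ 2)).filter (fun m => ∃ p ∈ P, ∃ r : ℕ, r.Prime ∧ m = p * r)

theorem mem_R {N p r : ℕ} (hp : 1 ≤ p) :
    r ∈ Ioc ⌊(N : ℝ) ^ 2 / p⌋₊ ⌊4 * ((N : ℝ) ^ 2 / p)⌋₊ ↔ N ^ 2 < p * r ∧ p * r ≤ 4 * N ^ 2 := by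
  have hp0 : (0 : ℝ) < p := by exact_mod_cast hp
  rw [mem_Ioc, Nat.floor_lt (by positivity), Nat.le_floor_iff (by positivity)]
  constructor
  · rintro ⟨h1, h2⟩
    rw [div_lt_iff₀ hp0] at h1
    rw [← mul_div_assoc, le_div_iff₀ hp0] at h2
    constructor
    · have : ((N ^ 2 : ℕ) : ℝ) < ((p * r : ℕ) : ℝ) := by push_cast; linarith
      exact_mod_cast this
    · have : ((p * r : ℕ) : ℝ) ≤ ((4 * N ^ 2 : ℕ) : ℝ) := by push_cast; linarith
      exact_mod_cast this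
  · rintro ⟨h1, h2⟩
    have h1' : ((N ^ 2 : ℕ) : ℝ) < ((p * r : ℕ) : ℝ) := by exact_mod_cast h1
    have h2' : ((p * r : ℕ) : ℝ) ≤ ((4 * N ^ 2 : ℕ) : ℝ) := by exact_mod_cast h2
    push_cast at h1' h2'
    constructor
    · rw [div_lt_iff₀ hp0]; linarith
    · rw [← mul_div_assoc, le_div_iff₀ hp0]; linarith

/-- the cofactor prime is large -/
theorem r_large {N p r : ℕ} (hp : p ≤ N) (h : N ^ 2 < p * r) : N < r := by
  by_contra hc
  push Not at hc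
  have : p * r ≤ N * N := Nat.mul_le_mul hp hc
  nlinarith

theorem dsum (N : ℕ) (P : Finset ℕ) (hP : ∀ p ∈ P, 1 ≤ p ∧ p ≤ N) :
    ∑ m ∈ IMG N P, 1 / (2 * √(m : ℝ)) = ∑ p ∈ P, 1 / √(p : ℝ) * S ((N : ℝ) ^ 2 / p) := by
  have e1 : ∀ p ∈ P, 1 / √(p : ℝ) * S ((N : ℝ) ^ 2 / p) =
      ∑ r ∈ (Ioc ⌊(N : ℝ) ^ 2 / p⌋₊ ⌊4 * ((N : ℝ) ^ 2 / p)⌋₊).filter Nat.Prime,
        1 / (2 * √((p * r : ℕ) : ℝ)) := by
    intro p hp
    unfold S
    rw [sum_filter, mul_sum]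
    apply sum_congr rfl
    intro r hr
    unfold primeInd
    push_cast
    rw [Real.sqrt_mul (by positivity)]
    split_ifs
    · ring
    · ring
  rw [sum_congr rfl e1, sum_sigma']
  symm
  apply sum_nbij (fun x : (_ : ℕ) × ℕ => x.1 * x.2)
  · rintro ⟨p, r⟩ hx
    have hP1 := (hP _ (mem_sigma.mp hx).1).1
    rw [mem_sigma, mem_filter, mem_R hP1] at hx
    unfold IMG
    rw [mem_filter, mem_Ioc]
    exact ⟨hx.2.1, p, hx.1, r, hx.2.2, rfl⟩
  · rintro ⟨p, r⟩ hx ⟨p', r'⟩ hx' hxx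
    rw [mem_coe] at hx hx'
    have hP1 := (hP _ (mem_sigma.mp hx).1).1
    have hP2 := (hP _ (mem_sigma.mp hx').1).1
    rw [mem_sigma, mem_filter, mem_R hP1] at hx
    rw [mem_sigma, mem_filter, mem_R hP2] at hx'
    simp only at hxx hx hx'
    have hp := hP p hx.1
    have hp' := hP p' hx'.1
    have hr : N < r := r_large hp.2 hx.2.1.1
    have hrr : r = r' := by
      have h1 : r ∣ p' * r' := by rw [← hxx]; exact Dvd.intro_left p rfl
      rcases (hx.2.2.dvd_mul).mp h1 with h | h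
      · exact absurd (Nat.le_of_dvd (by omega) h) (by omega)
      · exact (Nat.prime_dvd_prime_iff_eq hx.2.2 hx'.2.2).mp h
    subst hrr
    have : p = p' := Nat.eq_of_mul_eq_mul_right hx.2.2.pos hxx
    subst this
    rfl
  · intro m hm
    unfold IMG at hm
    rw [coe_filter] at hm
    obtain ⟨hm1, p, hp, r, hr, hmr⟩ := hm
    rw [mem_Ioc, hmr] at hm1
    refine ⟨⟨p, r⟩, ?_, hmr.symm⟩
    rw [mem_coe, mem_sigma, mem_filter, mem_R (hP _ hp).1]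
    exact ⟨hp, hm1, hr⟩
  · rintro ⟨p, r⟩ hx
    rfl

theorem log_large (c : ℝ) : ∃ N₀ : ℕ, ∀ N : ℕ, N₀ ≤ N → c ≤ Real.log N := MODP.log_large c

/-- `1/√p * S(N²/p)` -/
theorem term (h : SpecPNT) {κ : ℝ} (hκ : 0 < κ) : ∃ N₀ : ℕ, ∀ N : ℕ, N₀ ≤ N → ∀ p : ℕ, 1 ≤ p → p ≤ N →
    |1 / √(p : ℝ) * S ((N : ℝ) ^ 2 / p) - N / p / Real.log ((N : ℝ) ^ 2 / p)|
      ≤ κ * (N / p / Real.log ((N : ℝ) ^ 2 / p)) := by
  obtain ⟨X₀, hX⟩ := psum h hκ
  refine ⟨⌈X₀⌉₊ + 2, fun N hN p hp1 hpN => ?_⟩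
  have hp0 : (0 : ℝ) < p := by exact_mod_cast hp1
  have hpN' : (p : ℝ) ≤ N := by exact_mod_cast hpN
  have hN0 : (0 : ℝ) < N := by linarith
  have hx : (N : ℝ) ≤ (N : ℝ) ^ 2 / p := by
    rw [le_div_iff₀ hp0, sq]
    exact mul_le_mul_of_nonneg_left hpN' hN0.le
  have hXN : X₀ ≤ N := (Nat.le_ceil X₀).trans (by exact_mod_cast (by omega : ⌈X₀⌉₊ ≤ N))
  have h1 := hX ((N : ℝ) ^ 2 / p) (hXN.trans hx)
  have hsq : √((N : ℝ) ^ 2 / p) = N / √(p : ℝ) := by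
    rw [Real.sqrt_div (by positivity), Real.sqrt_sq hN0.le]
  have hs0 : 0 < √(p : ℝ) := Real.sqrt_pos.mpr hp0
  have hss : √(p : ℝ) * √(p : ℝ) = p := Real.mul_self_sqrt hp0.le
  rw [hsq] at h1
  have e0 : (N : ℝ) / p = 1 / √(p : ℝ) * (N / √(p : ℝ)) := by
    rw [div_mul_div_comm, hss, one_mul]
  have e1 : (N : ℝ) / p / Real.log ((N : ℝ) ^ 2 / p) =
      1 / √(p : ℝ) * (N / √(p : ℝ) / Real.log ((N : ℝ) ^ 2 / p)) := by
    rw [e0, mul_div_assoc]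
  rw [e1, ← mul_sub, abs_mul, abs_of_pos (by positivity : (0 : ℝ) < 1 / √(p : ℝ))]
  calc 1 / √(p : ℝ) * |S ((N : ℝ) ^ 2 / p) - N / √(p : ℝ) / Real.log ((N : ℝ) ^ 2 / p)|
      ≤ 1 / √(p : ℝ) * (κ * (N / √(p : ℝ) / Real.log ((N : ℝ) ^ 2 / p))) :=
        mul_le_mul_of_nonneg_left h1 (by positivity)
    _ = _ := by ring

end

end Pool.Agent.Lib.MP391708.QPA.H.EMc
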