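import Mathlib
import Pool.Agent.Lib.MP_391708_nt.QPA.H.SpecH
import Pool.Agent.Lib.MP_391708_nt.QPA.NSF

/-!
# Module NSFH of the project QPA, phase 3
-/

set_option autoImplicit false

namespace Pool.Agent.Lib.MP391708.QPA.H

open Finset Filter Topology
open Pool.Agent.Lib.MP391708.QPA
open scoped Classical

/-- **Module NSFH.** -/
theorem specNSFH (hQG : SpecQG) : SpecNSFH := by
  intro θ e0 κ hθ he0 hκ
  set τ : ℝ := min (θ - 1 / 2) (1 / 2) with hτdef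
  have hτ0 : 0 < τ := lt_min (by linarith) (by norm_num)
  have hτ1 : τ ≤ θ - 1 / 2 := min_le_left _ _
  have hτ2 : τ ≤ 1 / 2 := min_le_right _ _
  have hτ20 : 0 < τ / 20 := by positivity
  obtain ⟨C, hC, hQ⟩ := hQG (τ / 20) hτ20
  have hev : ∀ᶠ N : ℕ in atTop, (4 / κ) * (1 + Real.log N) ≤ (N : ℝ) ^ (1 / 2 : ℝ) ∧
      (24 / κ) * (1 + Real.log N) ≤ (N : ℝ) ^ e0 ∧
      (8 * C / κ) * (1 + Real.log N) ≤ (N : ℝ) ^ (2 * τ / 5) ∧
      1 * (1 + Real.log N) ≤ (N : ℝ) ^ (1 / 2 + τ / 2) ∧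
      (420 / κ) * (1 + Real.log N) ≤ (N : ℝ) ^ τ ∧ 1 ≤ Real.log N ∧ 1 ≤ N ∧
      1 ≤ (N : ℝ) ^ e0 :=
    (RHOMEAN.ev_log_rpow _ (by norm_num) _ (by positivity)).and
      ((RHOMEAN.ev_log_rpow _ he0 _ (by positivity)).and
      ((RHOMEAN.ev_log_rpow _ (by positivity) _ (by positivity)).and
      ((RHOMEAN.ev_log_rpow _ (by positivity) _ (by positivity)).and
      ((RHOMEAN.ev_log_rpow _ hτ0 _ (by positivity)).and
      ((RHOMEAN.ev_log 1).and ((eventually_ge_atTop 1).and (RHOMEAN.ev_rpow e0 he0 1)))))))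
  obtain ⟨N₀, hN₀⟩ := eventually_atTop.mp hev
  refine ⟨N₀, ?_⟩
  intro N A hN hAdm
  obtain ⟨ha, hb, hc, hd, hf, hL, hN1, hz1⟩ := hN₀ N hN
  obtain ⟨hA1, hA2⟩ := hAdm
  have hNR : (1 : ℝ) ≤ N := by exact_mod_cast hN1
  have hNpos : (0 : ℝ) < N := by linarith
  set L : ℝ := Real.log N with hLdef
  set z : ℝ := (N : ℝ) ^ e0 with hzdef
  set B : ℝ := (N : ℝ) ^ (3 / 4 + τ / 4) with hBdef
  have hLpos : 0 < L := by linarith
  have hzpos : 0 < z := by linarith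
  have hBpos : 0 < B := by rw [hBdef]; positivity
  have hA56 : (N : ℝ) ^ (1 / 2 + τ) ≤ A :=
    (Real.rpow_le_rpow_of_exponent_le hNR (by linarith)).trans hA1
  have hA12 : (N : ℝ) ^ (1 / 2 : ℝ) ≤ A :=
    (Real.rpow_le_rpow_of_exponent_le hNR (by linarith)).trans hA1
  have hA0 : (1 : ℝ) ≤ A := (Real.one_le_rpow hNR (by norm_num)).trans hA12
  have hB2 : B ^ 2 = (N : ℝ) ^ (3 / 2 + τ / 2) := by
    rw [hBdef, ← Real.rpow_natCast, ← Real.rpow_mul hNpos.le]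
    congr 1
    push_cast
    ring
  have hpw : ∀ r s : ℝ, (N : ℝ) ^ r * (N : ℝ) ^ s = (N : ℝ) ^ (r + s) := fun r s =>
    (Real.rpow_add hNpos r s).symm
  have hN1' : (N : ℝ) ^ (1 : ℝ) = N := Real.rpow_one _
  have hN2' : (N : ℝ) ^ (2 : ℝ) = (N : ℝ) ^ 2 := by
    rw [← Real.rpow_natCast]
    norm_num
  have hLN : L < (N : ℝ) ^ (1 / 2 + τ / 2) := by linarith
  have hAB : (A : ℝ) < B ^ 2 := by
    rw [hB2]
    calc (A : ℝ) ≤ N * L := hA2
      _ < N * (N : ℝ) ^ (1 / 2 + τ / 2) := mul_lt_mul_of_pos_left hLN hNpos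
      _ = (N : ℝ) ^ (3 / 2 + τ / 2) := by
        nth_rewrite 1 [← hN1']
        rw [hpw]
        congr 1
        ring
  have hAN : (A : ℝ) ≤ (N : ℝ) ^ 2 := by
    refine hAB.le.trans ?_
    rw [hB2, ← hN2']
    exact Real.rpow_le_rpow_of_exponent_le hNR (by linarith)
  rw [NSF.sum_eq_card]
  refine (NSF.cover N A z B).trans ?_
  have hBN : B ≤ N := by
    calc B ≤ (N : ℝ) ^ (1 : ℝ) := Real.rpow_le_rpow_of_exponent_le hNR (by linarith)
      _ = N := hN1'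
  have hPN : ⌊B⌋₊ ≤ N := Nat.floor_le_of_le hBN
  have hs := NSF.sum_small (A := A) hC hτ20 hQ hN1 hz1 hPN
  have hl := NSF.card_large hN1 hAN hAB hBpos
  have hT : κ * A * N / L = 4 * (κ / 4 * A * N / L) := by ring
  have h1 : (N : ℝ) ≤ κ / 4 * A * N / L := by
    rw [le_div_iff₀ hLpos]
    have e1 : L ≤ κ / 4 * A := by
      have e2 : 4 / κ * L ≤ A := by
        have e3 : 4 / κ * L ≤ 4 / κ * (1 + L) := mul_le_mul_of_nonneg_left (by linarith) (by positivity)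
        linarith
      rw [div_mul_eq_mul_div, div_le_iff₀ hκ] at e2
      linarith
    calc (N : ℝ) * L ≤ N * (κ / 4 * A) := mul_le_mul_of_nonneg_left e1 hNpos.le
      _ = κ / 4 * A * N := by ring
  have h2 : 2 * (2 * (A : ℝ) + 1) * N / z ≤ κ / 4 * A * N / L := by
    rw [div_le_div_iff₀ hzpos hLpos]
    have e1 : 6 * L ≤ κ / 4 * z := by
      have e2 : 24 / κ * L ≤ z := by
        have e3 : 24 / κ * L ≤ 24 / κ * (1 + L) := mul_le_mul_of_nonneg_left (by linarith) (by positivity)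
        linarith
      rw [div_mul_eq_mul_div, div_le_iff₀ hκ] at e2
      linarith
    have e2 : 2 * (2 * (A : ℝ) + 1) ≤ 6 * A := by linarith
    calc 2 * (2 * (A : ℝ) + 1) * N * L ≤ 6 * A * N * L := by
          refine mul_le_mul_of_nonneg_right ?_ hLpos.le
          exact mul_le_mul_of_nonneg_right e2 hNpos.le
      _ = (A * N) * (6 * L) := by ring
      _ ≤ (A * N) * (κ / 4 * z) := mul_le_mul_of_nonneg_left e1 (by positivity)
      _ = κ / 4 * A * N * z := by ring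
  have h3 : C * (N : ℝ) ^ (2 * (τ / 20)) * (N * (1 + L) + (⌊B⌋₊ : ℝ) ^ 2)
      ≤ κ / 4 * A * N / L := by
    rw [le_div_iff₀ hLpos]
    have e1 : (N : ℝ) * (1 + L) ≤ (N : ℝ) ^ (3 / 2 + τ / 2) := by
      calc (N : ℝ) * (1 + L) ≤ N * (N : ℝ) ^ (1 / 2 + τ / 2) :=
            mul_le_mul_of_nonneg_left (by linarith) hNpos.le
        _ = (N : ℝ) ^ (3 / 2 + τ / 2) := by
            nth_rewrite 1 [← hN1']
            rw [hpw]
            congr 1
            ring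
    have e2 : (⌊B⌋₊ : ℝ) ^ 2 ≤ (N : ℝ) ^ (3 / 2 + τ / 2) := by
      rw [← hB2]
      exact pow_le_pow_left₀ (by positivity) (Nat.floor_le hBpos.le) 2
    have e3 : 2 * C * L ≤ κ / 4 * (N : ℝ) ^ (2 * τ / 5) := by
      have e4 : 8 * C / κ * L ≤ (N : ℝ) ^ (2 * τ / 5) := by
        have e3 : 8 * C / κ * L ≤ 8 * C / κ * (1 + L) :=
          mul_le_mul_of_nonneg_left (by linarith) (by positivity)
        linarith
      rw [div_mul_eq_mul_div, div_le_iff₀ hκ] at e4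
      linarith
    have e5 : (N : ℝ) ^ (3 / 2 + τ) ≤ A * N := by
      calc (N : ℝ) ^ (3 / 2 + τ) = (N : ℝ) ^ (1 / 2 + τ) * (N : ℝ) ^ (1 : ℝ) := by
            rw [hpw]
            congr 1
            ring
        _ ≤ A * N := by
            rw [hN1']
            exact mul_le_mul_of_nonneg_right hA56 hNpos.le
    calc C * (N : ℝ) ^ (2 * (τ / 20)) * (N * (1 + L) + (⌊B⌋₊ : ℝ) ^ 2) * L
        ≤ C * (N : ℝ) ^ (2 * (τ / 20)) *
            ((N : ℝ) ^ (3 / 2 + τ / 2) + (N : ℝ) ^ (3 / 2 + τ / 2)) * L := by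
          refine mul_le_mul_of_nonneg_right ?_ hLpos.le
          exact mul_le_mul_of_nonneg_left (add_le_add e1 e2) (by positivity)
      _ = ((N : ℝ) ^ (2 * (τ / 20)) * (N : ℝ) ^ (3 / 2 + τ / 2)) * (2 * C * L) := by ring
      _ ≤ ((N : ℝ) ^ (2 * (τ / 20)) * (N : ℝ) ^ (3 / 2 + τ / 2)) *
            (κ / 4 * (N : ℝ) ^ (2 * τ / 5)) := mul_le_mul_of_nonneg_left e3 (by positivity)
      _ = κ / 4 * (((N : ℝ) ^ (2 * (τ / 20)) * (N : ℝ) ^ (3 / 2 + τ / 2)) *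
            (N : ℝ) ^ (2 * τ / 5)) := by ring
      _ = κ / 4 * (N : ℝ) ^ (3 / 2 + τ) := by
          rw [hpw, hpw]
          congr 2
          ring
      _ ≤ κ / 4 * (A * N) := mul_le_mul_of_nonneg_left e5 (by positivity)
      _ = κ / 4 * A * N := by ring
  have h4 : ((((Ioc N (2 * N)) ×ˢ (IA A)).filter (fun t => NSF.LC B t)).card : ℝ)
      ≤ κ / 4 * A * N / L := by
    have e0' : 5 * (N : ℝ) ^ 2 / B ^ 2 = 5 * (N : ℝ) ^ (1 / 2 - τ / 2) := by
      rw [hB2, ← hN2', div_eq_iff (by positivity), mul_assoc, hpw]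
      congr 2
      ring
    have e1 : 9 * (N : ℝ) ^ 2 * (A / B ^ 2) = 9 * A * (N : ℝ) ^ (1 / 2 - τ / 2) := by
      have : 9 * (N : ℝ) ^ 2 * (A / B ^ 2) = 9 / 5 * A * (5 * (N : ℝ) ^ 2 / B ^ 2) := by ring
      rw [this, e0']
      ring
    set x : ℝ := (N : ℝ) ^ (1 / 2 - τ / 2) with hx
    have hx1 : 1 ≤ x := Real.one_le_rpow hNR (by linarith)
    rw [e0', e1] at hl
    have e2 : ((((Ioc N (2 * N)) ×ˢ (IA A)).filter (fun t => NSF.LC B t)).card : ℝ)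
        ≤ (⌊5 * x⌋₊ : ℝ) * (2 * ((⌊9 * A * x⌋₊ : ℝ) + 1) + 1) := by exact_mod_cast hl
    have e3 : (⌊5 * x⌋₊ : ℝ) ≤ 5 * x := Nat.floor_le (by positivity)
    have e4 : (⌊9 * (A : ℝ) * x⌋₊ : ℝ) ≤ 9 * A * x := Nat.floor_le (by positivity)
    have hAx : 1 ≤ (A : ℝ) * x := by nlinarith
    have e5 : (⌊5 * x⌋₊ : ℝ) * (2 * ((⌊9 * A * x⌋₊ : ℝ) + 1) + 1) ≤ (5 * x) * (21 * (A * x)) :=
      mul_le_mul e3 (by nlinarith) (by positivity) (by positivity)
    rw [le_div_iff₀ hLpos]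
    have e6 : 105 * L ≤ κ / 4 * (N : ℝ) ^ τ := by
      have e4 : 420 / κ * L ≤ (N : ℝ) ^ τ := by
        have e3 : 420 / κ * L ≤ 420 / κ * (1 + L) :=
          mul_le_mul_of_nonneg_left (by linarith) (by positivity)
        linarith
      rw [div_mul_eq_mul_div, div_le_iff₀ hκ] at e4
      linarith
    have e7 : x * x * (N : ℝ) ^ τ = N := by
      rw [hx, hpw, hpw]
      nth_rewrite 2 [← hN1']
      congr 1
      ring
    calc ((((Ioc N (2 * N)) ×ˢ (IA A)).filter (fun t => NSF.LC B t)).card : ℝ) * L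
        ≤ ((5 * x) * (21 * (A * x))) * L := mul_le_mul_of_nonneg_right (e2.trans e5) hLpos.le
      _ = (A * (x * x)) * (105 * L) := by ring
      _ ≤ (A * (x * x)) * (κ / 4 * (N : ℝ) ^ τ) :=
          mul_le_mul_of_nonneg_left e6 (by positivity)
      _ = κ / 4 * A * (x * x * (N : ℝ) ^ τ) := by ring
      _ = κ / 4 * A * N := by rw [e7]
  rw [hT]
  linarith

end Pool.Agent.Lib.MP391708.QPA.H
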